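import Pool.Agent.Lib.MP_ddd95a_nt.Mord.Defs
import Pool.Agent.Lib.MP_ddd95a_nt.Mord.Var

section

/-!
# Integrals over boxes
-/

open Matrix MeasureTheory Filter Set
open scoped ENNReal Topology

noncomputable section

namespace Pool.Agent.Lib.MP_ddd95a_nt.Mord

variable {n : ℕ}

namespace BoxIAux

theorem lintegral_prod_pi : ∀ {n : ℕ} (μ : Fin n → Measure ℝ) [∀ i, SigmaFinite (μ i)]
    (f : Fin n → ℝ → ℝ≥0∞), (∀ i, Measurable (f i)) →
    ∫⁻ x, ∏ i, f i (x i) ∂(Measure.pi μ) = ∏ i, ∫⁻ x, f i x ∂(μ i) := by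
  intro n
  induction n with
  | zero =>
    intro μ _ f hf
    simp
  | succ n ih =>
    intro μ _ f hf
    have e1 : ∫⁻ x, ∏ i, f i (x i) ∂(Measure.pi μ) =
        ∫⁻ x : ℝ × (Fin n → ℝ), f 0 x.1 * ∏ i : Fin n, f (Fin.succ i) (x.2 i)
          ∂((μ 0).prod (Measure.pi (fun i => μ i.succ))) := by
      have h := (measurePreserving_piFinSuccAbove μ 0).symm
      rw [← h.lintegral_comp_emb (MeasurableEquiv.measurableEmbedding _)]
      simp only [MeasurableEquiv.piFinSuccAbove_symm_apply, Fin.insertNthEquiv,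
            Fin.prod_univ_succ, Fin.insertNth_zero, Equiv.coe_fn_mk, Fin.cons_succ,
            Fin.zero_succAbove, cast_eq, Fin.cons_zero]
    have hg : Measurable fun y : Fin n → ℝ => ∏ i : Fin n, f (Fin.succ i) (y i) :=
      Finset.measurable_prod _ fun i _ => (hf _).comp (measurable_pi_apply i)
    have e2 := lintegral_prod_mul (μ := μ 0) (ν := Measure.pi (fun i => μ i.succ))
      (hf 0).aemeasurable hg.aemeasurable
    rw [e1, e2, ih (fun i => μ i.succ) (fun i => f i.succ)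
      (fun i => hf _), Fin.prod_univ_succ]

theorem one_tail {t : ℝ} (ht : 0 < t) {b : ℝ} (hb : 0 ≤ b) :
    ∫⁻ x in Ici b, ENNReal.ofReal (t ^ 2 * x * Real.exp (-(t ^ 2 * x ^ 2) / 2)) =
      ENNReal.ofReal (Real.exp (-(t ^ 2 * b ^ 2) / 2)) := by
  have hd : ∀ x ∈ Ici b, HasDerivAt (fun x : ℝ => -Real.exp (-(t ^ 2 * x ^ 2) / 2))
      (t ^ 2 * x * Real.exp (-(t ^ 2 * x ^ 2) / 2)) x := by
    intro x _
    have h1 : HasDerivAt (fun x : ℝ => -(t ^ 2 * x ^ 2) / 2) (-(t ^ 2 * x)) x := by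
      have := (((hasDerivAt_pow 2 x).const_mul (t ^ 2)).neg).div_const 2
      refine this.congr_deriv ?_
      push_cast
      ring
    have h2 := h1.exp.neg
    refine h2.congr_deriv ?_
    ring
  have hp : ∀ x ∈ Ioi b, 0 ≤ t ^ 2 * x * Real.exp (-(t ^ 2 * x ^ 2) / 2) := by
    intro x hx
    have : 0 ≤ x := hb.trans (le_of_lt hx)
    positivity
  have hl : Tendsto (fun x : ℝ => -Real.exp (-(t ^ 2 * x ^ 2) / 2)) atTop (𝓝 0) := by
    have h0 : Tendsto (fun x : ℝ => t ^ 2 * x ^ 2 / 2) atTop atTop := by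
      refine Tendsto.atTop_div_const (by norm_num) ?_
      exact Tendsto.const_mul_atTop (by positivity) (tendsto_pow_atTop (by norm_num))
    have h1 := (Real.tendsto_exp_neg_atTop_nhds_zero.comp h0).neg
    simp only [neg_zero] at h1
    refine h1.congr fun x => ?_
    simp only [Function.comp]
    congr 2
    ring
  have hI := integral_Ioi_of_hasDerivAt_of_nonneg' hd hp hl
  have hint := integrableOn_Ioi_deriv_of_nonneg' hd hp hl
  rw [restrict_Ioi_eq_restrict_Ici.symm]
  rw [← ofReal_integral_eq_lintegral_ofReal hint, hI]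
  · simp
  · refine (ae_restrict_iff' measurableSet_Ioi).mpr (Eventually.of_forall fun x hx => hp x hx)

theorem one_inv {t : ℝ} (ht : 0 < t) :
    ∫⁻ x in Ioi (0 : ℝ), ENNReal.ofReal (t ^ 2 * Real.exp (-(t ^ 2 * x ^ 2) / 2)) =
      ENNReal.ofReal (t * Real.sqrt (Real.pi / 2)) := by
  have hint : IntegrableOn (fun x : ℝ => t ^ 2 * Real.exp (-(t ^ 2 / 2) * x ^ 2)) (Ioi 0) :=
    ((integrable_exp_neg_mul_sq (by positivity)).const_mul _).integrableOn
  have e : ∀ x : ℝ, t ^ 2 * Real.exp (-(t ^ 2 * x ^ 2) / 2) =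
      t ^ 2 * Real.exp (-(t ^ 2 / 2) * x ^ 2) := by
    intro x
    congr 2
    ring
  simp only [e]
  rw [← ofReal_integral_eq_lintegral_ofReal hint (Eventually.of_forall fun x => by positivity)]
  congr 1
  rw [integral_const_mul, integral_gaussian_Ioi]
  have h1 : Real.pi / (t ^ 2 / 2) = (2 / t) ^ 2 * (Real.pi / 2) := by
    field_simp
  rw [h1, Real.sqrt_mul (by positivity), Real.sqrt_sq (by positivity)]
  field_simp

end BoxIAux

/-- The density of the side lengths of the random box. -/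
def dens (t : ℝ) (τ : Fin n → ℝ) : ℝ≥0∞ :=
  ∏ i, ENNReal.ofReal (t ^ 2 * τ i * Real.exp (-(t ^ 2 * τ i ^ 2) / 2))

theorem dens_measurable (t : ℝ) : Measurable (dens (n := n) t) := by
  unfold dens
  refine Finset.measurable_prod _ fun i _ => ?_
  refine ENNReal.measurable_ofReal.comp ?_
  have : Measurable fun τ : Fin n → ℝ => τ i := measurable_pi_apply i
  fun_prop

/-- A product of one dimensional integrals
`∫_(τ ≥ b) t² τ exp (- t² τ² / 2) dτ = exp (- t² b² / 2)`, `b = |y i| ≥ 0`. -/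
theorem dens_tail {t : ℝ} (ht : 0 < t) (y : Fin n → ℝ) :
    ∫⁻ τ in {τ : Fin n → ℝ | ∀ i, |y i| ≤ τ i}, dens t τ =
      ENNReal.ofReal (Real.exp (-(t ^ 2 * ∑ i, y i ^ 2) / 2)) := by
  have hs : {τ : Fin n → ℝ | ∀ i, |y i| ≤ τ i} = Set.univ.pi fun i => Ici |y i| := by
    ext τ
    simp only [mem_ofPred_eq, mem_univ_pi, mem_Ici]
  rw [hs, volume_pi, Measure.restrict_pi_pi]
  unfold dens
  rw [BoxIAux.lintegral_prod_pi (fun i => volume.restrict (Ici |y i|))
    (fun _ x => ENNReal.ofReal (t ^ 2 * x * Real.exp (-(t ^ 2 * x ^ 2) / 2)))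
    (fun i => by fun_prop)]
  simp only [BoxIAux.one_tail ht (abs_nonneg _), sq_abs]
  rw [← ENNReal.ofReal_prod_of_nonneg fun i _ => (Real.exp_pos _).le, ← Real.exp_sum]
  congr 2
  rw [Finset.mul_sum, ← Finset.sum_neg_distrib, Finset.sum_div]

/-- A product of one dimensional integrals
`∫_(τ > 0) t² exp (- t² τ² / 2) dτ = t √(π / 2)`. -/
theorem dens_inv {t : ℝ} (ht : 0 < t) :
    ∫⁻ τ in {τ : Fin n → ℝ | ∀ i, 0 < τ i}, ENNReal.ofReal (∏ i, (τ i)⁻¹) * dens t τ =
      ENNReal.ofReal ((t * Real.sqrt (Real.pi / 2)) ^ n) := by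
  have hs : {τ : Fin n → ℝ | ∀ i, 0 < τ i} = Set.univ.pi fun _ => Ioi (0 : ℝ) := by
    ext τ
    simp
  have hm : MeasurableSet {τ : Fin n → ℝ | ∀ i, 0 < τ i} := by
    rw [hs]
    exact MeasurableSet.univ_pi fun _ => measurableSet_Ioi
  have h1 : ∫⁻ τ in {τ : Fin n → ℝ | ∀ i, 0 < τ i}, ENNReal.ofReal (∏ i, (τ i)⁻¹) * dens t τ =
      ∫⁻ τ in {τ : Fin n → ℝ | ∀ i, 0 < τ i},
        ∏ i, ENNReal.ofReal (t ^ 2 * Real.exp (-(t ^ 2 * τ i ^ 2) / 2)) := by
    refine setLIntegral_congr_fun hm fun τ hτ => ?_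
    have hτ' : ∀ i, 0 < τ i := hτ
    change ENNReal.ofReal (∏ i, (τ i)⁻¹) * dens t τ = _
    unfold dens
    rw [ENNReal.ofReal_prod_of_nonneg fun i _ => (inv_pos.mpr (hτ' i)).le,
      ← Finset.prod_mul_distrib]
    refine Finset.prod_congr rfl fun i _ => ?_
    rw [← ENNReal.ofReal_mul (inv_pos.mpr (hτ' i)).le]
    congr 1
    have := (hτ' i).ne'
    field_simp
  rw [h1, hs, volume_pi, Measure.restrict_pi_pi]
  rw [BoxIAux.lintegral_prod_pi (fun _ => volume.restrict (Ioi (0 : ℝ)))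
    (fun _ x => ENNReal.ofReal (t ^ 2 * Real.exp (-(t ^ 2 * x ^ 2) / 2)))
    (fun i => by fun_prop)]
  rw [BoxIAux.one_inv ht]
  simp only [Finset.prod_const, Finset.card_univ, Fintype.card_fin]
  rw [ENNReal.ofReal_pow (by positivity)]

end Pool.Agent.Lib.MP_ddd95a_nt.Mord
end
end

section

/-!
# Gram determinants: basic rules
-/

open Matrix MeasureTheory Filter Set
open scoped ENNReal Topology

noncomputable section

set_option linter.unusedSectionVars false

namespace Pool.Agent.Lib.MP_ddd95a_nt.Mord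

variable {ι κ μ : Type*} [Fintype ι] [DecidableEq ι] [Fintype κ] [DecidableEq κ] [Fintype μ]
  [DecidableEq μ]

theorem rm_mul (v : Matrix ι κ ℤ) (u : Matrix κ μ ℤ) : rm (v * u) = rm v * rm u := by
  ext i j
  simp [rm, Matrix.mul_apply]

theorem det_rm (u : Matrix κ κ ℤ) : (rm u).det = (u.det : ℝ) :=
  ((Int.castRingHom ℝ).map_det u).symm

theorem rm_mulVec (v : Matrix ι κ ℤ) (x : κ → ℤ) : rm v *ᵥ zc x = zc (v *ᵥ x) := by
  ext i
  simp [rm, zc, Matrix.mulVec, dotProduct]

theorem qf_mul (g : Matrix ι κ ℝ) (h : Matrix κ μ ℝ) (x : μ → ℝ) :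
    qf (g * h) x = qf g (h *ᵥ x) := by
  unfold qf
  rw [mulVec_mulVec]

theorem qf_eq (g : Matrix ι κ ℝ) (x : κ → ℝ) : qf g x = x ⬝ᵥ ((gᵀ * g) *ᵥ x) := by
  rw [← mulVec_mulVec, dotProduct_mulVec, vecMul_transpose]
  unfold qf dotProduct
  exact Finset.sum_congr rfl fun i _ => sq _

theorem gr_nonneg (V : Matrix ι κ ℝ) : 0 ≤ gr V := by
  have h := (posSemidef_conjTranspose_mul_self V).det_nonneg
  rwa [conjTranspose_eq_transpose_of_trivial] at h

/-- The kernel of `V` is trivial iff the Gram determinant is positive. -/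
theorem gr_pos_iff (V : Matrix ι κ ℝ) : 0 < gr V ↔ ∀ x, V *ᵥ x = 0 → x = 0 := by
  constructor
  · intro h x hx
    refine eq_zero_of_mulVec_eq_zero (M := Vᵀ * V) h.ne' ?_
    rw [← mulVec_mulVec, hx, mulVec_zero]
  · intro h
    have h1 : Function.Injective V.mulVec := by
      intro x y hxy
      have h2 : V *ᵥ (x - y) = 0 := by
        rw [mulVec_sub]
        exact sub_eq_zero.2 hxy
      exact sub_eq_zero.1 (h _ h2)
    have h3 := (PosDef.conjTranspose_mul_self V h1).det_pos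
    rwa [conjTranspose_eq_transpose_of_trivial] at h3

theorem gr_square (g : Matrix κ κ ℝ) : gr g = g.det ^ 2 := by
  unfold gr
  rw [det_mul, det_transpose, sq]

theorem gr_mul_sq (V : Matrix ι κ ℝ) (C : Matrix κ κ ℝ) : gr (V * C) = C.det ^ 2 * gr V := by
  unfold gr
  have h : (V * C)ᵀ * (V * C) = Cᵀ * (Vᵀ * V) * C := by
    rw [transpose_mul]
    simp only [Matrix.mul_assoc]
  rw [h, det_mul, det_mul, det_transpose]
  ring

/-- Reindexing the columns. -/
theorem gr_submatrix (V : Matrix ι κ ℝ) (e : μ ≃ κ) : gr (V.submatrix id e) = gr V := by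
  unfold gr
  rw [transpose_submatrix]
  have h : Vᵀ.submatrix e id * V.submatrix id e = (Vᵀ * V).submatrix e e := by
    ext i j
    simp [Matrix.mul_apply]
  rw [h, det_submatrix_equiv_self]

theorem gr_unimod (V : Matrix ι κ ℝ) {u : Matrix κ κ ℤ} (hu : |u.det| = 1) :
    gr (V * rm u) = gr V := by
  rw [gr_mul_sq, det_rm]
  have h : (u.det : ℝ) ^ 2 = 1 := by
    rw [← sq_abs, ← Int.cast_abs, hu]
    norm_num
  rw [h, one_mul]

theorem gr_empty (V : Matrix ι (Fin 0) ℝ) : gr V = 1 := by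
  unfold gr
  exact det_isEmpty

theorem gr_one (V : Matrix ι (Fin 1) ℝ) : gr V = ∑ i, V i 0 ^ 2 := by
  unfold gr
  rw [det_fin_one, Matrix.mul_apply]
  exact Finset.sum_congr rfl fun i _ => (sq _).symm

end Pool.Agent.Lib.MP_ddd95a_nt.Mord
end
end

section

/-!
# Gram determinants: monotonicity
-/

open Matrix MeasureTheory Filter Set
open scoped ENNReal Topology

noncomputable section

namespace Pool.Agent.Lib.MP_ddd95a_nt.Mord

variable {ι κ : Type*} [Fintype ι] [DecidableEq ι] [Fintype κ] [DecidableEq κ]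

namespace GrMAux

theorem one_le_det {M : Matrix κ κ ℝ} (h : (M - 1).PosSemidef) : 1 ≤ M.det := by
  have h1 : M.IsHermitian := by
    have h2 : M = (M - 1) + 1 := by abel
    rw [h2]
    exact h.isHermitian.add isHermitian_one
  have h3 : ∀ i, 1 ≤ h1.eigenvalues i := by
    intro i
    have h4 := h1.eigenvalues_eq i
    have h5 := h.re_dotProduct_nonneg (WithLp.ofLp (h1.eigenvectorBasis i))
    rw [sub_mulVec, one_mulVec, dotProduct_sub, map_sub, ← h4] at h5
    have h6 : RCLike.re (star (WithLp.ofLp (h1.eigenvectorBasis i)) ⬝ᵥ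
        WithLp.ofLp (h1.eigenvectorBasis i)) = (1 : ℝ) := by
      have h7 := h1.eigenvectorBasis.orthonormal.1 i
      have h8 : ‖h1.eigenvectorBasis i‖ ^ 2 = 1 := by rw [h7]; norm_num
      rw [EuclideanSpace.norm_sq_eq] at h8
      simp only [dotProduct, Pi.star_apply, star_trivial, RCLike.re_to_real]
      rw [← h8]
      refine Finset.sum_congr rfl fun j _ => ?_
      rw [Real.norm_eq_abs, sq_abs, sq]
    rw [h6] at h5
    linarith
  rw [h1.det_eq_prod_eigenvalues]
  calc (1 : ℝ) = ∏ i : κ, (1 : ℝ) := by simp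
    _ ≤ ∏ i, (h1.eigenvalues i : ℝ) := Finset.prod_le_prod (fun i _ => zero_le_one) fun i _ => h3 i

open scoped MatrixOrder in
/-- the determinant is monotone -/
theorem det_mono {A B : Matrix κ κ ℝ} (hA : A.PosSemidef) (h : (B - A).PosSemidef) :
    A.det ≤ B.det := by
  have hB : B.PosSemidef := by
    have h2 : B = (B - A) + A := by abel
    rw [h2]
    exact h.add hA
  by_cases h0 : A.det = 0
  · rw [h0]
    exact hB.det_nonneg
  · obtain ⟨S, hS⟩ : ∃ S : Matrix κ κ ℝ, A = Sᵀ * S := by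
      obtain ⟨S, hS⟩ := (CStarAlgebra.nonneg_iff_eq_star_mul_self (a := A)).1
        (nonneg_iff_posSemidef.2 hA)
      exact ⟨S, by rw [hS, star_eq_conjTranspose, conjTranspose_eq_transpose_of_trivial]⟩
    have hSd : S.det ≠ 0 := by
      intro h1
      apply h0
      rw [hS, det_mul, h1, mul_zero]
    have hSu : IsUnit S.det := isUnit_iff_ne_zero.2 hSd
    have h2 : ((S⁻¹)ᵀ * (B - A) * S⁻¹).PosSemidef := by
      have h3 := h.conjTranspose_mul_mul_same S⁻¹
      rwa [conjTranspose_eq_transpose_of_trivial] at h3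
    have h4 : (S⁻¹)ᵀ * (B - A) * S⁻¹ = (S⁻¹)ᵀ * B * S⁻¹ - 1 := by
      rw [Matrix.mul_sub, Matrix.sub_mul]
      congr 1
      rw [hS, ← Matrix.mul_assoc, Matrix.mul_assoc, Matrix.mul_nonsing_inv S hSu, Matrix.mul_one,
        ← transpose_mul, Matrix.mul_nonsing_inv S hSu, transpose_one]
    rw [h4] at h2
    have h5 := one_le_det h2
    rw [det_mul, det_mul, det_transpose, det_nonsing_inv, Ring.inverse_eq_inv'] at h5
    rw [hS, det_mul, det_transpose]
    have h6 : 0 < S.det ^ 2 := by positivity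
    have h7 : (S.det)⁻¹ * B.det * (S.det)⁻¹ = B.det / S.det ^ 2 := by
      field_simp
    rw [h7, le_div_iff₀ h6, one_mul] at h5
    rw [← sq]
    exact h5

end GrMAux

/-- Monotonicity of Gram determinants: if `c |x|² ≤ |g x|²` for all `x`, then
`c^k gr W ≤ gr (g W)` (the determinant is monotone on positive semidefinite matrices:
`(g W)ᵀ (g W) - c Wᵀ W` is positive semidefinite). -/
theorem gr_mono {g : Matrix ι ι ℝ} {c : ℝ} (hc : 0 ≤ c) (h : ∀ x, c * ∑ i, x i ^ 2 ≤ qf g x)
    (W : Matrix ι κ ℝ) : c ^ Fintype.card κ * gr W ≤ gr (g * W) := by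
  have h1 : (Wᵀ * W).PosSemidef := by
    have h2 := posSemidef_conjTranspose_mul_self W
    rwa [conjTranspose_eq_transpose_of_trivial] at h2
  have h2 : (c • (Wᵀ * W)).PosSemidef := h1.smul hc
  have h3 : (((g * W)ᵀ * (g * W)) - c • (Wᵀ * W)).PosSemidef := by
    refine PosSemidef.of_dotProduct_mulVec_nonneg ?_ fun x => ?_
    · refine IsHermitian.sub ?_ h2.isHermitian
      have h4 := isHermitian_conjTranspose_mul_self (g * W)
      rwa [conjTranspose_eq_transpose_of_trivial] at h4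
    · rw [sub_mulVec, dotProduct_sub, smul_mulVec, dotProduct_smul, star_trivial, ← qf_eq,
        ← qf_eq, qf_mul, smul_eq_mul]
      have h4 := h (W *ᵥ x)
      unfold qf at h4 ⊢
      linarith
  have h5 := GrMAux.det_mono h2 h3
  rw [det_smul] at h5
  exact h5

/-- An invertible matrix is bounded below. -/
theorem exists_lower {g : Matrix ι ι ℝ} (hg : g.det ≠ 0) :
    ∃ c : ℝ, 0 < c ∧ ∀ x, c * ∑ i, x i ^ 2 ≤ qf g x := by
  have hK : 0 ≤ ∑ i, ∑ j, (g⁻¹ i j) ^ 2 :=
    Finset.sum_nonneg fun i _ => Finset.sum_nonneg fun j _ => sq_nonneg _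
  refine ⟨(1 + ∑ i, ∑ j, (g⁻¹ i j) ^ 2)⁻¹, by positivity, fun x => ?_⟩
  have hq : 0 ≤ qf g x := Finset.sum_nonneg fun i _ => sq_nonneg _
  have h1 : ∑ i, x i ^ 2 ≤ (∑ i, ∑ j, (g⁻¹ i j) ^ 2) * qf g x := by
    rw [Finset.sum_mul]
    refine Finset.sum_le_sum fun i _ => ?_
    have h2 : x i = ∑ j, g⁻¹ i j * (g *ᵥ x) j := by
      have h3 : g⁻¹ *ᵥ (g *ᵥ x) = x := by
        rw [mulVec_mulVec, nonsing_inv_mul g (isUnit_iff_ne_zero.2 hg), one_mulVec]
      conv_lhs => rw [← h3]
      rfl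
    rw [h2]
    exact Finset.sum_mul_sq_le_sq_mul_sq _ _ _
  rw [inv_mul_le_iff₀ (by positivity)]
  nlinarith

end Pool.Agent.Lib.MP_ddd95a_nt.Mord
end
end

section

/-!
# The Voronoi cell: first properties
-/

open Matrix MeasureTheory Filter Set
open scoped ENNReal Topology

noncomputable section

namespace Pool.Agent.Lib.MP_ddd95a_nt.Mord

variable {ι : Type*} [Fintype ι] [DecidableEq ι]

theorem qf_continuous (g : Matrix ι ι ℝ) : Continuous (qf g) := by
  unfold qf
  refine continuous_finsetSum _ fun i _ => Continuous.pow ?_ 2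
  simp only [Matrix.mulVec, dotProduct]
  fun_prop

/-- Joint continuity in the matrix and the vector. -/
theorem qf_continuous₂ : Continuous fun z : Matrix ι ι ℝ × (ι → ℝ) => qf z.1 z.2 := by
  unfold qf
  refine continuous_finsetSum _ fun i _ => Continuous.pow ?_ 2
  simp only [Matrix.mulVec, dotProduct]
  refine continuous_finsetSum _ fun j _ => ?_
  exact ((continuous_fst.matrix_elem i j)).mul ((continuous_apply j).comp continuous_snd)

theorem qf_nonneg (g : Matrix ι ι ℝ) (x : ι → ℝ) : 0 ≤ qf g x :=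
  Finset.sum_nonneg fun _ _ => sq_nonneg _

theorem qf_neg (g : Matrix ι ι ℝ) (x : ι → ℝ) : qf g (-x) = qf g x := by
  simp [qf, Matrix.mulVec_neg]

theorem qf_sub (g : Matrix ι ι ℝ) (x y : ι → ℝ) :
    qf g (x - y) = qf g x - 2 * ((g *ᵥ x) ⬝ᵥ (g *ᵥ y)) + qf g y := by
  simp only [qf, Matrix.mulVec_sub, Pi.sub_apply, dotProduct, Finset.mul_sum]
  rw [← Finset.sum_sub_distrib, ← Finset.sum_add_distrib]
  exact Finset.sum_congr rfl fun i _ => by ring

theorem qf_smul (t : ℝ) (g : Matrix ι ι ℝ) (x : ι → ℝ) : qf (t • g) x = t ^ 2 * qf g x := by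
  simp only [qf, Matrix.smul_mulVec, Pi.smul_apply, smul_eq_mul, Finset.mul_sum]
  exact Finset.sum_congr rfl fun i _ => by ring

theorem qf_congr {g g' : Matrix ι ι ℝ} (h : gᵀ * g = g'ᵀ * g') (x : ι → ℝ) :
    qf g x = qf g' x := by
  rw [qf_eq, qf_eq, h]

theorem vor_isClosed (g : Matrix ι ι ℝ) : IsClosed (vor g) := by
  have : vor g = ⋂ m : ι → ℤ, {x | qf g x ≤ qf g (x - zc m)} := by
    ext x; simp [vor]
  rw [this]
  refine isClosed_iInter fun m => isClosed_le (qf_continuous g) ?_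
  exact (qf_continuous g).comp (continuous_id.sub continuous_const)

/-- Bounded: every `x` is `y + zc m` with `y` in the unit cube, so `x ∈ vor g` has
`qf g x ≤ qf g y ≤ C`; `exists_lower`. -/
theorem vor_isCompact {g : Matrix ι ι ℝ} (hg : g.det ≠ 0) : IsCompact (vor g) := by
  obtain ⟨c, hc, hlow⟩ := exists_lower hg
  obtain ⟨C, hC⟩ : ∃ C : ℝ, ∀ y ∈ Set.Icc (0 : ι → ℝ) 1, qf g y ≤ C := by
    have hK : IsCompact (Set.Icc (0 : ι → ℝ) 1) := isCompact_Icc
    obtain ⟨C, hC⟩ := (hK.image (qf_continuous g)).bddAbove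
    exact ⟨C, fun y hy => hC ⟨y, hy, rfl⟩⟩
  have hbd : ∀ x ∈ vor g, ∑ i, x i ^ 2 ≤ C / c := by
    intro x hx
    have h1 := hx (fun i => ⌊x i⌋)
    have h2 : (x - zc fun i => ⌊x i⌋) ∈ Set.Icc (0 : ι → ℝ) 1 := by
      refine ⟨fun i => ?_, fun i => ?_⟩
      · simp only [Pi.zero_apply, Pi.sub_apply, zc]
        linarith [Int.floor_le (x i)]
      · simp only [Pi.one_apply, Pi.sub_apply, zc]
        linarith [Int.lt_floor_add_one (x i)]
    have h3 := hC _ h2
    have h4 := hlow x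
    rw [le_div_iff₀ hc]
    linarith
  refine Metric.isCompact_of_isClosed_isBounded (vor_isClosed g) ?_
  refine Metric.isBounded_iff_subset_closedBall 0 |>.2 ⟨Real.sqrt (C / c), fun x hx => ?_⟩
  rw [mem_closedBall_zero_iff, pi_norm_le_iff_of_nonneg (Real.sqrt_nonneg _)]
  intro i
  rw [Real.norm_eq_abs]
  apply Real.abs_le_sqrt
  refine le_trans ?_ (hbd x hx)
  exact Finset.single_le_sum (f := fun i => x i ^ 2) (fun i _ => sq_nonneg _) (Finset.mem_univ i)

/-- An intersection of half spaces: `qf g x ≤ qf g (x - m)` iff `2 ⟨g x, g m⟩ ≤ qf g m` (`qf_sub`). -/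
theorem vor_convex (g : Matrix ι ι ℝ) : Convex ℝ (vor g) := by
  intro x hx y hy a b ha hb hab m
  have h1 := hx m
  have h2 := hy m
  rw [qf_sub] at h1 h2 ⊢
  have h3 : (g *ᵥ (a • x + b • y)) ⬝ᵥ (g *ᵥ zc m)
      = a * ((g *ᵥ x) ⬝ᵥ (g *ᵥ zc m)) + b * ((g *ᵥ y) ⬝ᵥ (g *ᵥ zc m)) := by
    simp [Matrix.mulVec_add, Matrix.mulVec_smul, add_dotProduct, smul_dotProduct]
  rw [h3]
  have h4 : a * (2 * ((g *ᵥ x) ⬝ᵥ (g *ᵥ zc m))) ≤ a * qf g (zc m) :=
    mul_le_mul_of_nonneg_left (by linarith) ha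
  have h5 : b * (2 * ((g *ᵥ y) ⬝ᵥ (g *ᵥ zc m))) ≤ b * qf g (zc m) :=
    mul_le_mul_of_nonneg_left (by linarith) hb
  have h6 : a * qf g (zc m) + b * qf g (zc m) = qf g (zc m) := by rw [← add_mul, hab, one_mul]
  linarith

theorem vor_neg {g : Matrix ι ι ℝ} {x : ι → ℝ} (hx : x ∈ vor g) : -x ∈ vor g := by
  intro m
  have h := hx (-m)
  rw [qf_neg]
  have h2 : -x - zc m = -(x - zc (-m)) := by
    ext i; simp [zc]; ring
  rw [h2, qf_neg]
  exact h

theorem vor_smul {t : ℝ} (ht : t ≠ 0) (g : Matrix ι ι ℝ) : vor (t • g) = vor g := by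
  ext x
  simp only [vor, Set.mem_ofPred_eq, qf_smul]
  exact forall_congr' fun m => mul_le_mul_iff_right₀ (by positivity)

theorem vor_congr {g g' : Matrix ι ι ℝ} (h : gᵀ * g = g'ᵀ * g') : vor g = vor g' := by
  ext x
  simp only [vor, Set.mem_ofPred_eq, qf_congr h]

theorem vor_unimod (g : Matrix ι ι ℝ) {u : Matrix ι ι ℤ} (hu : |u.det| = 1) :
    vor (g * rm u) = {x | rm u *ᵥ x ∈ vor g} := by
  have hunit : IsUnit u.det := Int.isUnit_iff_abs_eq.2 hu
  ext x
  simp only [vor, Set.mem_ofPred_eq, qf_mul, Matrix.mulVec_sub, rm_mulVec]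
  constructor
  · intro h m
    have := h (u⁻¹ *ᵥ m)
    rwa [Matrix.mulVec_mulVec, Matrix.mul_nonsing_inv _ hunit, Matrix.one_mulVec] at this
  · intro h m
    exact h _

end Pool.Agent.Lib.MP_ddd95a_nt.Mord
end
end

section

/-!
# Gaussian measures of linear images
-/

open Matrix MeasureTheory Filter Set
open scoped ENNReal Topology

noncomputable section

namespace Pool.Agent.Lib.MP_ddd95a_nt.Mord

variable {ι : Type*} [Fintype ι] [DecidableEq ι]

namespace JBasAux

theorem det_rm (u : Matrix ι ι ℤ) : (rm u).det = (u.det : ℝ) :=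
  ((Int.castRingHom ℝ).map_det u).symm

theorem gram_smul {g g' : Matrix ι ι ℝ} (h : gᵀ * g = g'ᵀ * g') (t : ℝ) :
    (t • g)ᵀ * (t • g) = (t • g')ᵀ * (t • g') := by
  rw [Matrix.transpose_smul, Matrix.transpose_smul, Matrix.smul_mul, Matrix.smul_mul,
    Matrix.mul_smul, Matrix.mul_smul, h]

theorem qf_mul (g T : Matrix ι ι ℝ) (x : ι → ℝ) : qf (g * T) x = qf g (T *ᵥ x) := by
  unfold qf
  rw [Matrix.mulVec_mulVec]

theorem gw_mul (g T : Matrix ι ι ℝ) (x : ι → ℝ) : gw (g * T) x = gw g (T *ᵥ x) := by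
  unfold gw
  rw [qf_mul]

theorem qf_reindex {κ : Type*} [Fintype κ] [DecidableEq κ] (e : ι ≃ κ) (g : Matrix ι ι ℝ)
    (x : ι → ℝ) : qf (Matrix.reindex e e g) (x ∘ e.symm) = qf g x := by
  unfold qf
  rw [Matrix.reindex_apply, Matrix.submatrix_mulVec_equiv]
  have h1 : (x ∘ e.symm) ∘ e.symm.symm = x := by
    funext i
    simp
  rw [h1]
  exact Equiv.sum_comp e.symm fun i => (g *ᵥ x) i ^ 2

end JBasAux

open JBasAux

theorem gw_measurable (g : Matrix ι ι ℝ) : Measurable (gw g) :=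
  (((qf_continuous g).neg.div_const 2).rexp).measurable.ennreal_ofReal

theorem J_mono (g : Matrix ι ι ℝ) {S T : Set (ι → ℝ)} (h : S ⊆ T) : J g S ≤ J g T :=
  mul_le_mul_right (lintegral_mono_set h) _

/-- `|det g|` and `qf g` depend only on `gᵀ g`. -/
theorem J_congr {g g' : Matrix ι ι ℝ} (h : gᵀ * g = g'ᵀ * g') (S : Set (ι → ℝ)) :
    J g S = J g' S := by
  have h1 : |g.det| = |g'.det| := by
    have h2 := congrArg Matrix.det h
    rw [Matrix.det_mul, Matrix.det_mul, Matrix.det_transpose, Matrix.det_transpose] at h2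
    rw [← sq_eq_sq_iff_abs_eq_abs]
    linarith
  have h2 : gw g = gw g' := by
    funext x
    unfold gw
    rw [qf_congr h]
  unfold J
  rw [h1, h2]

/-- Linear change of variables (`MeasureTheory.lintegral_image_eq_lintegral_abs_det_fderiv_mul`, or
`MeasureTheory.Measure.map_linearMap_addHaar_eq_smul_addHaar`, `Real.map_matrix_volume_pi_eq_smul_volume_pi`). -/
theorem J_map (g T : Matrix ι ι ℝ) (hT : T.det ≠ 0) {S : Set (ι → ℝ)} (hS : MeasurableSet S) :
    J (g * T) S = J g ((fun x => T *ᵥ x) '' S) := by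
  let L : (ι → ℝ) →L[ℝ] (ι → ℝ) := LinearMap.toContinuousLinearMap (Matrix.toLin' T)
  have hL : ∀ x, L x = T *ᵥ x := fun x => rfl
  have hdet : L.det = T.det := LinearMap.det_toLin' T
  have hinj : Function.Injective fun x : ι → ℝ => T *ᵥ x :=
    Matrix.mulVec_injective_of_isUnit ((Matrix.isUnit_iff_isUnit_det _).2 hT.isUnit)
  have h1 : ∫⁻ x in (fun x => T *ᵥ x) '' S, gw g x =
      ∫⁻ x in S, ENNReal.ofReal |L.det| * gw g (T *ᵥ x) :=
    lintegral_image_eq_lintegral_abs_det_fderiv_mul volume hS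
      (fun x _ => L.hasFDerivWithinAt) hinj.injOn (gw g)
  have h2 : ∫⁻ x in S, ENNReal.ofReal |L.det| * gw g (T *ᵥ x) =
      ENNReal.ofReal |T.det| * ∫⁻ x in S, gw (g * T) x := by
    rw [← lintegral_const_mul _ (gw_measurable (g * T)), hdet]
    simp only [gw_mul]
  unfold J
  rw [h1, h2, ← mul_assoc, ← ENNReal.ofReal_mul (by positivity), Matrix.det_mul, abs_mul]
  congr 2
  ring

theorem F_congr {g g' : Matrix ι ι ℝ} (h : gᵀ * g = g'ᵀ * g') (t : ℝ) :
    F (t • g) = F (t • g') := by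
  unfold F
  rw [vor_congr (gram_smul h t), J_congr (gram_smul h t)]

theorem F_unimod (g : Matrix ι ι ℝ) {u : Matrix ι ι ℤ} (hu : |u.det| = 1) (t : ℝ) :
    F (t • (g * rm u)) = F (t • g) := by
  have hdet : (rm u).det ≠ 0 := by
    rw [det_rm]
    have h1 : u.det ≠ 0 := by
      intro h0
      rw [h0] at hu
      simp at hu
    exact_mod_cast h1
  unfold F
  rw [← Matrix.smul_mul, J_map _ _ hdet (vor_isClosed _).measurableSet, vor_unimod _ hu]
  congr 1
  have hsurj : Function.Surjective fun x : ι → ℝ => rm u *ᵥ x := by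
    intro y
    refine ⟨(rm u)⁻¹ *ᵥ y, ?_⟩
    change rm u *ᵥ ((rm u)⁻¹ *ᵥ y) = y
    rw [Matrix.mulVec_mulVec, Matrix.mul_nonsing_inv _ hdet.isUnit, Matrix.one_mulVec]
  exact Set.image_preimage_eq _ hsurj

/-- Reindexing. -/
theorem F_reindex {κ : Type*} [Fintype κ] [DecidableEq κ] (e : ι ≃ κ) (g : Matrix ι ι ℝ) :
    F (Matrix.reindex e e g) = F g := by
  have hp := volume_measurePreserving_piCongrLeft (fun _ : κ => ℝ) e
  have hφ : ∀ x : ι → ℝ, MeasurableEquiv.piCongrLeft (fun _ : κ => ℝ) e x = x ∘ e.symm := by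
    intro x
    funext k
    have h1 := Equiv.piCongrLeft_apply_apply (fun _ : κ => ℝ) e x (e.symm k)
    rw [e.apply_symm_apply] at h1
    exact h1
  have hvor : MeasurableEquiv.piCongrLeft (fun _ : κ => ℝ) e ⁻¹' vor (Matrix.reindex e e g) =
      vor g := by
    ext x
    rw [Set.mem_preimage, hφ]
    unfold vor
    simp only [Set.mem_setOf_eq]
    have h2 : ∀ m : κ → ℤ, (x ∘ e.symm) - zc m = (x - zc (m ∘ e)) ∘ e.symm := by
      intro m
      funext k
      simp [zc]
    constructor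
    · intro h m
      have h3 := h (m ∘ e.symm)
      rw [h2, qf_reindex, qf_reindex] at h3
      have h4 : (m ∘ e.symm) ∘ e = m := by
        funext i
        simp
      rw [h4] at h3
      exact h3
    · intro h m
      rw [h2, qf_reindex, qf_reindex]
      exact h _
  unfold F J
  rw [Matrix.det_reindex_self, Fintype.card_congr e]
  congr 1
  rw [← hp.setLIntegral_comp_preimage (vor_isClosed _).measurableSet (gw_measurable _), hvor]
  refine lintegral_congr fun x => ?_
  rw [hφ]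
  unfold gw
  rw [qf_reindex]

end Pool.Agent.Lib.MP_ddd95a_nt.Mord
end
end

section

/-!
# Functions on the cube of signs
-/

open Matrix MeasureTheory Filter Set
open scoped ENNReal Topology

noncomputable section

namespace Pool.Agent.Lib.MP_ddd95a_nt.Mord

variable {n : ℕ}

/-- The Walsh functions. -/
def wal (S : Finset (Fin n)) (e : Fin n → Bool) : ℝ := ∏ i ∈ S, sg e i

/-- The Walsh coefficients. -/
def fc (f : (Fin n → Bool) → Fin n → ℝ) (S : Finset (Fin n)) : Fin n → ℝ :=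
  fun a => avg (fun e => f e a * wal S e)

/-- The noise operator. -/
def nz (ρ : ℝ) (f : (Fin n → Bool) → Fin n → ℝ) (e : Fin n → Bool) : Fin n → ℝ :=
  fun a => avg (fun e' => (∏ i, (1 + ρ * sg e i * sg e' i)) * f e' a)

theorem avg_const (c : ℝ) : avg (fun _ : Fin n → Bool => c) = c := by
  unfold avg
  rw [Finset.sum_const, Finset.card_univ, Fintype.card_fun, Fintype.card_bool, Fintype.card_fin,
    nsmul_eq_mul]
  push_cast
  field_simp

theorem avg_mono {φ ψ : (Fin n → Bool) → ℝ} (h : ∀ e, φ e ≤ ψ e) : avg φ ≤ avg ψ :=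
  div_le_div_of_nonneg_right (Finset.sum_le_sum fun e _ => h e) (by positivity)

theorem avg_prod (φ : Fin n → ℝ → ℝ) :
    avg (fun e : Fin n → Bool => ∏ i, φ i (sg e i)) = ∏ i, (φ i 1 + φ i (-1)) / 2 := by
  have h1 : ∑ e : Fin n → Bool, ∏ i, φ i (sg e i) =
      ∏ i, ∑ b : Bool, φ i (if b then 1 else -1) := by
    rw [Finset.prod_univ_sum, Fintype.piFinset_univ]
    rfl
  unfold avg
  rw [h1, Finset.prod_div_distrib, Finset.prod_const, Finset.card_univ, Fintype.card_fin]
  congr 1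
  refine Finset.prod_congr rfl fun i _ => ?_
  rw [Fintype.sum_bool]
  simp

/-- Orthonormality of the Walsh functions. -/
theorem wal_orth (S T : Finset (Fin n)) :
    avg (fun e => wal S e * wal T e) = if S = T then 1 else 0 := by
  have h1 : (fun e : Fin n → Bool => wal S e * wal T e) = fun e =>
      ∏ i, (fun (i : Fin n) (s : ℝ) => (if i ∈ S then s else 1) * (if i ∈ T then s else 1)) i
        (sg e i) := by
    funext e
    simp only [wal]
    rw [Finset.prod_mul_distrib, Finset.prod_ite_mem, Finset.prod_ite_mem, Finset.univ_inter,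
      Finset.univ_inter]
  rw [h1]
  refine (avg_prod fun (i : Fin n) (s : ℝ) =>
    (if i ∈ S then s else 1) * (if i ∈ T then s else 1)).trans ?_
  by_cases hST : S = T
  · rw [if_pos hST, hST]
    refine Finset.prod_eq_one fun i _ => ?_
    by_cases hi : i ∈ T
    · simp only [if_pos hi]
      norm_num
    · simp only [if_neg hi]
      norm_num
  · rw [if_neg hST]
    have h2 : ∃ i, ¬ (i ∈ S ↔ i ∈ T) := by
      by_contra h
      push Not at h
      exact hST (Finset.ext h)
    obtain ⟨i, hi⟩ := h2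
    refine Finset.prod_eq_zero (Finset.mem_univ i) ?_
    by_cases h3 : i ∈ S
    · have h4 : i ∉ T := fun h => hi ⟨fun _ => h, fun _ => h3⟩
      simp only [if_pos h3, if_neg h4]
      norm_num
    · have h4 : i ∈ T := by
        by_contra h
        exact hi ⟨fun h5 => absurd h5 h3, fun h5 => absurd h5 h⟩
      simp only [if_neg h3, if_pos h4]
      norm_num

end Pool.Agent.Lib.MP_ddd95a_nt.Mord
end
end

section

/-!
# The contraction principle
-/

open Matrix MeasureTheory Filter Set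
open scoped ENNReal Topology

noncomputable section

namespace Pool.Agent.Lib.MP_ddd95a_nt.Mord

variable {n : ℕ}

namespace GauCAux

/-- flip the coordinate `i` -/
def flip (i : Fin n) : (Fin n → Bool) ≃ (Fin n → Bool) where
  toFun e := Function.update e i (!(e i))
  invFun e := Function.update e i (!(e i))
  left_inv e := by
    funext j
    by_cases h : j = i
    · subst h; simp
    · simp [h]
  right_inv e := by
    funext j
    by_cases h : j = i
    · subst h; simp
    · simp [h]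

lemma sg_flip (i : Fin n) (e : Fin n → Bool) (j : Fin n) :
    sg (flip i e) j = if j = i then - sg e j else sg e j := by
  by_cases h : j = i
  · subst h
    simp only [flip, sg, Equiv.coe_fn_mk, Function.update_self, if_true]
    cases e j <;> simp
  · simp [flip, sg, h]

lemma avg_flip (i : Fin n) (φ : (Fin n → Bool) → ℝ) :
    avg (fun e => φ (flip i e)) = avg φ := by
  unfold avg
  rw [Equiv.sum_comp (flip i) φ]

lemma even (p : Seminorm ℝ (Fin n → ℝ)) (T : Matrix (Fin n) (Fin n) ℝ) (r : Fin n → ℝ)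
    (i : Fin n) (x : ℝ) :
    avg (fun e => p (T *ᵥ fun j => Function.update r i (-x) j * sg e j)) =
      avg (fun e => p (T *ᵥ fun j => Function.update r i x j * sg e j)) := by
  rw [← avg_flip i (fun e => p (T *ᵥ fun j => Function.update r i x j * sg e j))]
  congr 1
  funext e
  congr 2
  funext j
  rw [sg_flip]
  by_cases h : j = i
  · subst h; simp
  · simp [h]

lemma step (p : Seminorm ℝ (Fin n → ℝ)) (T : Matrix (Fin n) (Fin n) ℝ) {m : ℝ}
    (r : Fin n → ℝ) (i : Fin n) (hr : |r i| ≤ m) :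
    avg (fun e => p (T *ᵥ fun j => r j * sg e j)) ≤
      avg (fun e => p (T *ᵥ fun j => Function.update r i m j * sg e j)) := by
  have hm : 0 ≤ m := le_trans (abs_nonneg _) hr
  obtain ⟨h1, h2⟩ := abs_le.mp hr
  rcases eq_or_lt_of_le hm with h0 | h0
  · have h3 : r i = m := by linarith
    rw [← h3, Function.update_eq_self]
  · set l := (r i + m) / (2 * m) with hl
    have hl0 : 0 ≤ l := div_nonneg (by linarith) (by linarith)
    have hl1 : 0 ≤ 1 - l := by
      rw [hl, sub_nonneg, div_le_one (by linarith)]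
      linarith
    have hlr : l * m + (1 - l) * (-m) = r i := by
      rw [hl]
      field_simp
      ring
    have key : ∀ e : Fin n → Bool, p (T *ᵥ fun j => r j * sg e j) ≤
        l * p (T *ᵥ fun j => Function.update r i m j * sg e j) +
          (1 - l) * p (T *ᵥ fun j => Function.update r i (-m) j * sg e j) := by
      intro e
      have hv : (T *ᵥ fun j => r j * sg e j) =
          l • (T *ᵥ fun j => Function.update r i m j * sg e j) +
            (1 - l) • (T *ᵥ fun j => Function.update r i (-m) j * sg e j) := by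
        rw [← Matrix.mulVec_smul, ← Matrix.mulVec_smul, ← Matrix.mulVec_add]
        congr 1
        funext j
        simp only [Pi.add_apply, Pi.smul_apply, smul_eq_mul]
        by_cases h : j = i
        · subst h
          simp only [Function.update_self]
          rw [← hlr]
          ring
        · simp only [Function.update_of_ne h]
          ring
      rw [hv]
      refine le_trans (map_add_le_add p _ _) ?_
      rw [map_smul_eq_mul, map_smul_eq_mul, Real.norm_of_nonneg hl0, Real.norm_of_nonneg hl1]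
    refine le_trans (avg_mono key) ?_
    have hsum : avg (fun e => l * p (T *ᵥ fun j => Function.update r i m j * sg e j) +
          (1 - l) * p (T *ᵥ fun j => Function.update r i (-m) j * sg e j)) =
        l * avg (fun e => p (T *ᵥ fun j => Function.update r i m j * sg e j)) +
          (1 - l) * avg (fun e => p (T *ᵥ fun j => Function.update r i (-m) j * sg e j)) := by
      unfold avg
      rw [Finset.sum_add_distrib, ← Finset.mul_sum, ← Finset.mul_sum]
      ring
    rw [hsum, even]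
    apply le_of_eq
    ring

lemma steps (p : Seminorm ℝ (Fin n → ℝ)) (T : Matrix (Fin n) (Fin n) ℝ) {m : ℝ}
    (r : Fin n → ℝ) (hr : ∀ i, |r i| ≤ m) (s : Finset (Fin n)) :
    avg (fun e => p (T *ᵥ fun j => r j * sg e j)) ≤
      avg (fun e => p (T *ᵥ fun j => (if j ∈ s then m else r j) * sg e j)) := by
  classical
  induction s using Finset.induction_on with
  | empty => simp
  | insert i s hi ih =>
    refine le_trans ih ?_
    refine le_trans (step p T (fun j => if j ∈ s then m else r j) i (m := m) ?_) ?_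
    · simp only [if_neg hi]
      exact hr i
    · apply le_of_eq
      congr 1
      funext e
      congr 2
      funext j
      by_cases h : j = i
      · subst h; simp
      · simp [h]

end GauCAux

/-- The contraction principle: for `0 ≤ r i ≤ m`,
`avg (p (T (r · sg e))) ≤ m avg (p (T sg e))` (convexity in each `r i`, and the average for
`r i ∈ {0, m}` is monotone in `r i`; or: `r = ` an average of vectors with coordinates `± m`). -/
theorem contraction (p : Seminorm ℝ (Fin n → ℝ)) (T : Matrix (Fin n) (Fin n) ℝ) {m : ℝ}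
    {r : Fin n → ℝ} (hr : ∀ i, |r i| ≤ m) :
    avg (fun e => p (T *ᵥ fun i => r i * sg e i)) ≤ m * avg (fun e => p (T *ᵥ sg e)) := by
  rcases Nat.eq_zero_or_pos n with hn | hn
  · subst hn
    have h1 : ∀ v : Fin 0 → ℝ, p v = 0 := by
      intro v
      have : v = 0 := Subsingleton.elim _ _
      rw [this, map_zero]
    simp only [h1]
    rw [avg_const]
    simp
  · have hm : 0 ≤ m := le_trans (abs_nonneg _) (hr ⟨0, hn⟩)
    refine le_trans (GauCAux.steps p T r hr Finset.univ) ?_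
    apply le_of_eq
    unfold avg
    rw [← mul_div_assoc, Finset.mul_sum]
    congr 1
    apply Finset.sum_congr rfl
    intro e _
    have : (fun j => (if j ∈ (Finset.univ : Finset (Fin n)) then m else r j) * sg e j) =
        m • sg e := by
      funext j
      simp
    beta_reduce
    rw [this, Matrix.mulVec_smul, map_smul_eq_mul, Real.norm_of_nonneg hm]

end Pool.Agent.Lib.MP_ddd95a_nt.Mord
end
end

section

/-!
# Derivatives along the diagonal group
-/

open Matrix MeasureTheory Filter Set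
open scoped ENNReal Topology

noncomputable section

namespace Pool.Agent.Lib.MP_ddd95a_nt.Mord

variable {n : ℕ}

/-- The weight at the parameter `s`. -/
def wt (θ : Fin n → ℝ) (G : Matrix (Fin n) (Fin n) ℝ) (s : ℝ) (x : Fin n → ℝ) : ℝ :=
  Real.exp (-(qf (tilt (s • θ) G) x) / 2)

namespace DerAAux

/-- Differentiation under the integral sign over a compact set. -/
lemma hasDerivAt_setIntegral {K : Set (Fin n → ℝ)} (hK : IsCompact K)
    {F F' : ℝ → (Fin n → ℝ) → ℝ} (hF : ∀ x s, HasDerivAt (fun s => F s x) (F' s x) s)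
    (hFc : Continuous fun z : ℝ × (Fin n → ℝ) => F z.1 z.2)
    (hFc' : Continuous fun z : ℝ × (Fin n → ℝ) => F' z.1 z.2) (s : ℝ) :
    HasDerivAt (fun s => ∫ x in K, F s x) (∫ x in K, F' s x) s := by
  have hcs : ∀ s, Continuous (F s) := fun s =>
    hFc.comp (continuous_const.prodMk continuous_id)
  have hcs' : ∀ s, Continuous (F' s) := fun s =>
    hFc'.comp (continuous_const.prodMk continuous_id)
  obtain ⟨C, hC⟩ := ((isCompact_Icc (a := s - 1) (b := s + 1)).prod hK).exists_bound_of_continuousOn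
    hFc'.continuousOn
  refine (hasDerivAt_integral_of_dominated_loc_of_deriv_le (μ := volume.restrict K)
    (F := F) (F' := F') (s := Icc (s - 1) (s + 1)) (bound := fun _ => C)
    (Icc_mem_nhds (by linarith) (by linarith))
    (Eventually.of_forall fun t => (hcs t).aestronglyMeasurable)
    ((hcs s).continuousOn.integrableOn_compact hK) (hcs' s).aestronglyMeasurable ?_ ?_ ?_).2
  · rw [ae_restrict_iff' hK.measurableSet]
    exact Eventually.of_forall fun x hx t ht => hC (t, x) ⟨ht, hx⟩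
  · exact integrableOn_const hK.measure_ne_top
  · exact Eventually.of_forall fun x t _ => hF x t

lemma tilt_mulVec (θ : Fin n → ℝ) (G : Matrix (Fin n) (Fin n) ℝ) (s : ℝ) (x : Fin n → ℝ)
    (i : Fin n) : (tilt (s • θ) G *ᵥ x) i = Real.exp (s * θ i) * (G *ᵥ x) i := by
  unfold tilt
  rw [← mulVec_mulVec, mulVec_diagonal]
  simp

lemma tilt_mulVec_continuous (θ : Fin n → ℝ) (G : Matrix (Fin n) (Fin n) ℝ) (i : Fin n) :
    Continuous fun z : ℝ × (Fin n → ℝ) => (tilt (z.1 • θ) G *ᵥ z.2) i := by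
  have h : Continuous fun z : ℝ × (Fin n → ℝ) => Real.exp (z.1 * θ i) * (G *ᵥ z.2) i := by
    have h1 : Continuous fun z : ℝ × (Fin n → ℝ) => (G *ᵥ z.2) i := by
      simp only [mulVec, dotProduct]
      fun_prop
    exact (by fun_prop : Continuous fun z : ℝ × (Fin n → ℝ) => Real.exp (z.1 * θ i)).mul h1
  have h2 : (fun z : ℝ × (Fin n → ℝ) => (tilt (z.1 • θ) G *ᵥ z.2) i) =
      fun z : ℝ × (Fin n → ℝ) => Real.exp (z.1 * θ i) * (G *ᵥ z.2) i := by
    funext z
    exact tilt_mulVec θ G z.1 z.2 i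
  rw [h2]
  exact h

lemma hasDerivAt_sq (θ : Fin n → ℝ) (G : Matrix (Fin n) (Fin n) ℝ) (x : Fin n → ℝ) (i : Fin n)
    (s : ℝ) : HasDerivAt (fun s : ℝ => (tilt (s • θ) G *ᵥ x) i ^ 2)
      (2 * θ i * (tilt (s • θ) G *ᵥ x) i ^ 2) s := by
  have h2 : (fun s : ℝ => (tilt (s • θ) G *ᵥ x) i ^ 2) =
      fun s : ℝ => (Real.exp (s * θ i) * (G *ᵥ x) i) ^ 2 := by
    funext t
    rw [tilt_mulVec]
  rw [h2, tilt_mulVec]
  have h3 : HasDerivAt (fun s : ℝ => s * θ i) (θ i) s := by
    simpa using (hasDerivAt_id s).mul_const (θ i)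
  have h4 := ((h3.exp).mul_const ((G *ᵥ x) i)).pow 2
  refine h4.congr_deriv ?_
  push_cast
  ring

/-- The sum with weights `c`. -/
lemma hasDerivAt_sum (c θ : Fin n → ℝ) (G : Matrix (Fin n) (Fin n) ℝ) (x : Fin n → ℝ) (s : ℝ) :
    HasDerivAt (fun s : ℝ => ∑ i, c i * (tilt (s • θ) G *ᵥ x) i ^ 2)
      (2 * ∑ i, c i * θ i * (tilt (s • θ) G *ᵥ x) i ^ 2) s := by
  have h := HasDerivAt.fun_sum (u := Finset.univ) (A := fun i (s : ℝ) =>
    c i * (tilt (s • θ) G *ᵥ x) i ^ 2)
    (A' := fun i => c i * (2 * θ i * (tilt (s • θ) G *ᵥ x) i ^ 2)) (x := s)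
    (fun i _ => (hasDerivAt_sq θ G x i s).const_mul (c i))
  refine h.congr_deriv ?_
  rw [Finset.mul_sum]
  apply Finset.sum_congr rfl
  intro i _
  ring

lemma sum_continuous (c θ : Fin n → ℝ) (G : Matrix (Fin n) (Fin n) ℝ) :
    Continuous fun z : ℝ × (Fin n → ℝ) => ∑ i, c i * (tilt (z.1 • θ) G *ᵥ z.2) i ^ 2 := by
  apply continuous_finsetSum
  intro i _
  exact continuous_const.mul ((tilt_mulVec_continuous θ G i).pow 2)

lemma wt_eq (θ : Fin n → ℝ) (G : Matrix (Fin n) (Fin n) ℝ) (s : ℝ) (x : Fin n → ℝ) :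
    wt θ G s x = Real.exp (-(∑ i, (1 : ℝ) * (tilt (s • θ) G *ᵥ x) i ^ 2) / 2) := by
  unfold wt qf
  simp only [one_mul]

lemma hasDerivAt_wt (θ : Fin n → ℝ) (G : Matrix (Fin n) (Fin n) ℝ) (x : Fin n → ℝ) (s : ℝ) :
    HasDerivAt (fun s => wt θ G s x)
      (-((∑ i, θ i * (tilt (s • θ) G *ᵥ x) i ^ 2) * wt θ G s x)) s := by
  have h := (((hasDerivAt_sum (fun _ => 1) θ G x s).fun_neg).div_const 2).exp
  have h2 : (fun s => wt θ G s x) = fun s =>
      Real.exp (-(∑ i, (1 : ℝ) * (tilt (s • θ) G *ᵥ x) i ^ 2) / 2) := by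
    funext t
    exact wt_eq θ G t x
  rw [h2]
  refine h.congr_deriv ?_
  rw [wt_eq]
  simp only [one_mul]
  ring

lemma wt_continuous (θ : Fin n → ℝ) (G : Matrix (Fin n) (Fin n) ℝ) :
    Continuous fun z : ℝ × (Fin n → ℝ) => wt θ G z.1 z.2 := by
  have h2 : (fun z : ℝ × (Fin n → ℝ) => wt θ G z.1 z.2) = fun z =>
      Real.exp (-(∑ i, (1 : ℝ) * (tilt (z.1 • θ) G *ᵥ z.2) i ^ 2) / 2) := by
    funext z
    exact wt_eq θ G z.1 z.2
  rw [h2]
  exact ((sum_continuous (fun _ => 1) θ G).neg.div_const 2).rexp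

end DerAAux

/-- First derivative under the integral sign (`hasDerivAt_integral_of_dominated_loc_of_deriv_le`; `K` is
bounded, so all the functions are bounded on `K` locally uniformly in `s`).
`qf (tilt (s • θ) G) x = ∑ exp (2 s θ_i) (G x)_i²`. -/
theorem hasDerivAt_wt {K : Set (Fin n → ℝ)} (hK : IsCompact K) (θ : Fin n → ℝ)
    (G : Matrix (Fin n) (Fin n) ℝ) (s : ℝ) :
    HasDerivAt (fun s => ∫ x in K, wt θ G s x)
      (-∫ x in K, (∑ i, θ i * (tilt (s • θ) G *ᵥ x) i ^ 2) * wt θ G s x) s := by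
  rw [← integral_neg]
  exact DerAAux.hasDerivAt_setIntegral hK
    (F := fun s x => wt θ G s x)
    (F' := fun s x => -((∑ i, θ i * (tilt (s • θ) G *ᵥ x) i ^ 2) * wt θ G s x))
    (fun x s => DerAAux.hasDerivAt_wt θ G x s) (DerAAux.wt_continuous θ G)
    ((DerAAux.sum_continuous θ θ G).mul (DerAAux.wt_continuous θ G)).neg s

/-- Second derivative. -/
theorem hasDerivAt_wt' {K : Set (Fin n → ℝ)} (hK : IsCompact K) (θ : Fin n → ℝ)
    (G : Matrix (Fin n) (Fin n) ℝ) (s : ℝ) :
    HasDerivAt (fun s => -∫ x in K, (∑ i, θ i * (tilt (s • θ) G *ᵥ x) i ^ 2) * wt θ G s x)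
      (∫ x in K, ((∑ i, θ i * (tilt (s • θ) G *ᵥ x) i ^ 2) ^ 2 -
        2 * ∑ i, θ i ^ 2 * (tilt (s • θ) G *ᵥ x) i ^ 2) * wt θ G s x) s := by
  simp only [← integral_neg]
  refine DerAAux.hasDerivAt_setIntegral hK
    (F := fun s x => -((∑ i, θ i * (tilt (s • θ) G *ᵥ x) i ^ 2) * wt θ G s x))
    (F' := fun s x => ((∑ i, θ i * (tilt (s • θ) G *ᵥ x) i ^ 2) ^ 2 -
        2 * ∑ i, θ i ^ 2 * (tilt (s • θ) G *ᵥ x) i ^ 2) * wt θ G s x)
    (fun x s => ?_)
    ((DerAAux.sum_continuous θ θ G).mul (DerAAux.wt_continuous θ G)).neg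
    ((((DerAAux.sum_continuous θ θ G).pow 2).sub
      (continuous_const.mul (DerAAux.sum_continuous (fun i => θ i ^ 2) θ G))).mul
      (DerAAux.wt_continuous θ G)) s
  have h := ((DerAAux.hasDerivAt_sum θ θ G x s).fun_mul (DerAAux.hasDerivAt_wt θ G x s)).fun_neg
  refine h.congr_deriv ?_
  have e : (∑ i, θ i * θ i * (tilt (s • θ) G *ᵥ x) i ^ 2) =
      ∑ i, θ i ^ 2 * (tilt (s • θ) G *ᵥ x) i ^ 2 := by
    apply Finset.sum_congr rfl
    intro i _
    ring
  rw [e]
  ring

end Pool.Agent.Lib.MP_ddd95a_nt.Mord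
end
end

section

/-!
# The variance inequality for linear images
-/

open Matrix MeasureTheory Filter Set
open scoped ENNReal Topology

noncomputable section

namespace Pool.Agent.Lib.MP_ddd95a_nt.Mord

variable {n : ℕ}

namespace VarGAux

theorem inj {G : Matrix (Fin n) (Fin n) ℝ} (hG : G.det ≠ 0) :
    Function.Injective (fun x : Fin n → ℝ => G *ᵥ x) := by
  intro x y h
  have hu : IsUnit G.det := isUnit_iff_ne_zero.mpr hG
  have h1 : G⁻¹ *ᵥ (G *ᵥ x) = G⁻¹ *ᵥ (G *ᵥ y) := congrArg (fun z => G⁻¹ *ᵥ z) h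
  rwa [Matrix.mulVec_mulVec, Matrix.mulVec_mulVec, Matrix.nonsing_inv_mul G hu, Matrix.one_mulVec,
    Matrix.one_mulVec] at h1

theorem image_eq {G : Matrix (Fin n) (Fin n) ℝ} (hG : G.det ≠ 0) (K : Set (Fin n → ℝ)) :
    (fun x : Fin n → ℝ => G *ᵥ x) '' K = (fun x : Fin n → ℝ => G⁻¹ *ᵥ x) ⁻¹' K := by
  have hu : IsUnit G.det := isUnit_iff_ne_zero.mpr hG
  ext z
  constructor
  · rintro ⟨x, hx, rfl⟩
    change G⁻¹ *ᵥ (G *ᵥ x) ∈ K
    rwa [Matrix.mulVec_mulVec, Matrix.nonsing_inv_mul G hu, Matrix.one_mulVec]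
  · intro hz
    refine ⟨G⁻¹ *ᵥ z, hz, ?_⟩
    change G *ᵥ (G⁻¹ *ᵥ z) = z
    rw [Matrix.mulVec_mulVec, Matrix.mul_nonsing_inv G hu, Matrix.one_mulVec]

theorem change {K : Set (Fin n → ℝ)} (hm : MeasurableSet K) {G : Matrix (Fin n) (Fin n) ℝ}
    (hG : G.det ≠ 0) (f : (Fin n → ℝ) → ℝ) :
    ∫ x in (fun x : Fin n → ℝ => G *ᵥ x) '' K, f x = |G.det| * ∫ x in K, f (G *ᵥ x) := by
  have h1 : ∀ x ∈ K, HasFDerivWithinAt (fun x : Fin n → ℝ => G *ᵥ x)
      (LinearMap.toContinuousLinearMap (Matrix.toLin' G)) K x := fun x _ =>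
    (LinearMap.toContinuousLinearMap (Matrix.toLin' G)).hasFDerivAt.hasFDerivWithinAt
  rw [integral_image_eq_integral_abs_det_fderiv_smul volume hm h1 (inj hG).injOn,
    ← integral_const_mul]
  refine integral_congr_ae (Filter.Eventually.of_forall fun x => ?_)
  change |(LinearMap.toContinuousLinearMap (Matrix.toLin' G)).det| • f (G *ᵥ x)
    = |G.det| * f (G *ᵥ x)
  rw [smul_eq_mul]
  congr 2
  exact LinearMap.det_toLin' G

end VarGAux

/-- `var_ineq` for `C = G K`, by the linear change of variables `x = G y`. -/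
theorem var_ineq_lin {K : Set (Fin n → ℝ)} (hm : MeasurableSet K) (hc : Convex ℝ K)
    (hs : ∀ x ∈ K, -x ∈ K) (θ : Fin n → ℝ) {G : Matrix (Fin n) (Fin n) ℝ} (hG : G.det ≠ 0) :
    (∫ x in K, Real.exp (-(qf G x) / 2)) *
        (∫ x in K, (∑ i, θ i * (G *ᵥ x) i ^ 2) ^ 2 * Real.exp (-(qf G x) / 2)) -
      (∫ x in K, (∑ i, θ i * (G *ᵥ x) i ^ 2) * Real.exp (-(qf G x) / 2)) ^ 2 ≤
    2 * (∫ x in K, Real.exp (-(qf G x) / 2)) *
      ∫ x in K, (∑ i, θ i ^ 2 * (G *ᵥ x) i ^ 2) * Real.exp (-(qf G x) / 2) := by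
  have hq : ∀ x, (G *ᵥ x) ⬝ᵥ (G *ᵥ x) = qf G x := by
    intro x
    unfold qf dotProduct
    exact Finset.sum_congr rfl fun i _ => (pow_two _).symm
  have hm' : MeasurableSet ((fun x : Fin n → ℝ => G *ᵥ x) '' K) := by
    rw [VarGAux.image_eq hG]
    refine measurableSet_preimage ?_ hm
    exact (Continuous.matrix_mulVec continuous_const continuous_id).measurable
  have hc' : Convex ℝ ((fun x : Fin n → ℝ => G *ᵥ x) '' K) := hc.linear_image (Matrix.toLin' G)
  have hs' : ∀ x ∈ (fun x : Fin n → ℝ => G *ᵥ x) '' K,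
      -x ∈ (fun x : Fin n → ℝ => G *ᵥ x) '' K := by
    rintro _ ⟨x, hx, rfl⟩
    exact ⟨-x, hs x hx, Matrix.mulVec_neg x G⟩
  have h := var_ineq hm' hc' hs' θ
  rw [VarGAux.change hm hG, VarGAux.change hm hG, VarGAux.change hm hG, VarGAux.change hm hG] at h
  simp only [hq] at h
  have hd : 0 < |G.det| ^ 2 := by positivity
  refine le_of_mul_le_mul_left ?_ hd
  calc _ = _ := ?_
    _ ≤ _ := h
    _ = _ := ?_
  · ring
  · ring

end Pool.Agent.Lib.MP_ddd95a_nt.Mord
end
end

section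

/-!
# Nondegenerate integer matrices
-/

open Matrix MeasureTheory Filter Set
open scoped ENNReal Topology

noncomputable section

set_option linter.unusedSectionVars false

namespace Pool.Agent.Lib.MP_ddd95a_nt.Mord

variable {ι κ μ : Type*} [Fintype ι] [DecidableEq ι] [Fintype κ] [DecidableEq κ] [Fintype μ]
  [DecidableEq μ]

namespace GrAux

theorem gr_rm (v : Matrix ι κ ℤ) : gr (rm v) = ((vᵀ * v).det : ℝ) := by
  rw [← det_rm, rm_mul]
  rfl

end GrAux

theorem nd_iff (v : Matrix ι κ ℤ) : Nd v ↔ 0 < gr (rm v) := by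
  have h1 := gr_nonneg (rm v)
  rw [GrAux.gr_rm] at h1 ⊢
  unfold Nd
  constructor
  · intro h
    exact lt_of_le_of_ne h1 (Ne.symm (by exact_mod_cast h))
  · intro h
    exact_mod_cast h.ne'

/-- The Gram determinant of an integer matrix is an integer. -/
theorem nd_one_le {v : Matrix ι κ ℤ} (hv : Nd v) : 1 ≤ gr (rm v) := by
  have h1 := (nd_iff v).1 hv
  rw [GrAux.gr_rm] at h1 ⊢
  have h2 : 0 < (vᵀ * v).det := by exact_mod_cast h1
  exact_mod_cast h2

theorem nd_inj (v : Matrix ι κ ℤ) : Nd v ↔ ∀ x : κ → ℤ, v *ᵥ x = 0 → x = 0 := by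
  constructor
  · intro h x hx
    refine eq_zero_of_mulVec_eq_zero (M := vᵀ * v) h ?_
    rw [← mulVec_mulVec, hx, mulVec_zero]
  · intro h h0
    obtain ⟨x, hx, hx0⟩ := exists_mulVec_eq_zero_iff.2 h0
    apply hx
    apply h
    have h1 : x ⬝ᵥ ((vᵀ * v) *ᵥ x) = 0 := by rw [hx0, dotProduct_zero]
    rw [← mulVec_mulVec, dotProduct_mulVec, vecMul_transpose] at h1
    exact dotProduct_self_eq_zero.1 h1

theorem nd_mul_sq (v : Matrix ι κ ℤ) (C : Matrix κ κ ℤ) : Nd (v * C) ↔ Nd v ∧ C.det ≠ 0 := by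
  unfold Nd
  have h : (v * C)ᵀ * (v * C) = Cᵀ * (vᵀ * v) * C := by
    rw [transpose_mul]
    simp only [Matrix.mul_assoc]
  rw [h, det_mul, det_mul, det_transpose]
  constructor
  · intro h1
    exact ⟨fun h2 => h1 (by rw [h2, mul_zero, zero_mul]), fun h2 => h1 (by rw [h2, mul_zero])⟩
  · rintro ⟨h1, h2⟩
    exact mul_ne_zero (mul_ne_zero h2 h1) h2

theorem nd_square (u : Matrix κ κ ℤ) : Nd u ↔ u.det ≠ 0 := by
  unfold Nd
  rw [det_mul, det_transpose]
  constructor
  · intro h1 h2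
    exact h1 (by rw [h2, mul_zero])
  · intro h1
    exact mul_ne_zero h1 h1

theorem nd_card {v : Matrix ι κ ℤ} (hv : Nd v) : Fintype.card κ ≤ Fintype.card ι := by
  have h1 := (gr_pos_iff (rm v)).1 ((nd_iff v).1 hv)
  have h2 : Function.Injective (rm v).mulVecLin := by
    rw [injective_iff_map_eq_zero]
    exact h1
  have h3 := LinearMap.finrank_le_finrank_of_injective h2
  rwa [Module.finrank_fintype_fun_eq_card, Module.finrank_fintype_fun_eq_card] at h3

theorem gr_pos_of_nd {g : Matrix ι ι ℝ} (hg : g.det ≠ 0) {v : Matrix ι κ ℤ} (hv : Nd v) :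
    0 < gr (g * rm v) := by
  rw [gr_pos_iff]
  intro x hx
  rw [← mulVec_mulVec] at hx
  exact (gr_pos_iff (rm v)).1 ((nd_iff v).1 hv) x (eq_zero_of_mulVec_eq_zero hg hx)

/-- A single integer vector as a matrix with one column. -/
theorem nd_col {x : ι → ℤ} (hx : x ≠ 0) : Nd (Matrix.of fun i (_ : Fin 1) => x i) := by
  rw [nd_inj]
  intro y hy
  obtain ⟨i, hi⟩ := Function.ne_iff.1 hx
  have h1 := congrFun hy i
  simp only [mulVec, dotProduct, of_apply, Finset.univ_unique, Fin.default_eq_zero,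
    Finset.sum_singleton, Pi.zero_apply, mul_eq_zero] at h1
  funext j
  rw [Subsingleton.elim j 0]
  rcases h1 with h1 | h1
  · exact absurd h1 hi
  · exact h1

theorem gr_col (g : Matrix ι ι ℝ) (x : ι → ℤ) :
    gr (g * rm (Matrix.of fun i (_ : Fin 1) => x i)) = qf g (zc x) := by
  rw [gr_one]
  rfl

end Pool.Agent.Lib.MP_ddd95a_nt.Mord
end
end

section

/-!
# Stable matrices: basic rules
-/

open Matrix MeasureTheory Filter Set
open scoped ENNReal Topology

noncomputable section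

namespace Pool.Agent.Lib.MP_ddd95a_nt.Mord

variable {ι : Type*} [Fintype ι] [DecidableEq ι]

namespace StabBAux

theorem nd_unimod_mul {κ : Type*} [Fintype κ] [DecidableEq κ] {u : Matrix ι ι ℤ}
    (hu : |u.det| = 1) {v : Matrix ι κ ℤ} (hv : Nd v) : Nd (u * v) := by
  have hu0 : u.det ≠ 0 := by
    intro h
    rw [h] at hu
    simp at hu
  rw [nd_inj] at hv ⊢
  intro x hx
  rw [← Matrix.mulVec_mulVec] at hx
  exact hv x ((nd_inj u).1 ((nd_square u).2 hu0) _ hx)

theorem continuous_gr {κ : Type*} [Fintype κ] [DecidableEq κ] (V : Matrix ι κ ℝ) :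
    Continuous fun g : Matrix ι ι ℝ => gr (g * V) := by
  unfold gr
  fun_prop

end StabBAux

theorem stable_one : Stable (1 : Matrix ι ι ℝ) := by
  refine ⟨by simp, fun k v hv => ?_⟩
  rw [Matrix.one_mul]
  exact nd_one_le hv

theorem stable_vec {g : Matrix ι ι ℝ} (hg : Stable g) {x : ι → ℤ} (hx : x ≠ 0) :
    1 ≤ qf g (zc x) := by
  rw [← gr_col]
  exact hg.2 1 _ (nd_col hx)

theorem stable_unimod {g : Matrix ι ι ℝ} (hg : Stable g) {u : Matrix ι ι ℤ}
    (hu : |u.det| = 1) : Stable (g * rm u) := by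
  refine ⟨?_, fun k v hv => ?_⟩
  · rw [Matrix.det_mul, abs_mul, hg.1, det_rm, one_mul]
    exact_mod_cast hu
  · rw [Matrix.mul_assoc, ← rm_mul]
    exact hg.2 k _ (StabBAux.nd_unimod_mul hu hv)

theorem stable_closed {g : ℕ → Matrix ι ι ℝ} {g₀ : Matrix ι ι ℝ}
    (h : Tendsto g atTop (𝓝 g₀)) (hs : ∀ j, Stable (g j)) : Stable g₀ := by
  refine ⟨?_, fun k v hv => ?_⟩
  · have h1 : Tendsto (fun j => |(g j).det|) atTop (𝓝 |g₀.det|) := by
      have hc : Continuous fun g : Matrix ι ι ℝ => |g.det| := by fun_prop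
      exact (hc.tendsto g₀).comp h
    have h2 : Tendsto (fun j => |(g j).det|) atTop (𝓝 1) := by
      have : (fun j => |(g j).det|) = fun _ => (1 : ℝ) := by
        funext j
        exact (hs j).1
      rw [this]
      exact tendsto_const_nhds
    exact tendsto_nhds_unique h1 h2
  · have h1 : Tendsto (fun j => gr (g j * rm v)) atTop (𝓝 (gr (g₀ * rm v))) :=
      ((StabBAux.continuous_gr (rm v)).tendsto g₀).comp h
    exact ge_of_tendsto' h1 fun j => (hs j).2 k v hv

theorem stable_congr {g g' : Matrix ι ι ℝ} (h : gᵀ * g = g'ᵀ * g') (hs : Stable g) :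
    Stable g' := by
  refine ⟨?_, fun k v hv => ?_⟩
  · have h1 : g.det ^ 2 = g'.det ^ 2 := by
      have := congrArg Matrix.det h
      rw [Matrix.det_mul, Matrix.det_mul, Matrix.det_transpose, Matrix.det_transpose] at this
      rw [pow_two, pow_two]
      exact this
    have h2 := hs.1
    rw [sq_eq_sq_iff_abs_eq_abs] at h1
    rw [← h1]
    exact h2
  · have h1 : gr (g' * rm v) = gr (g * rm v) := by
      unfold gr
      rw [Matrix.transpose_mul, Matrix.transpose_mul, Matrix.mul_assoc, Matrix.mul_assoc,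
        ← Matrix.mul_assoc g'ᵀ, ← Matrix.mul_assoc gᵀ, h]
    rw [h1]
    exact hs.2 k v hv

/-- The condition in `Stable` for arbitrary finite index types. -/
theorem stable_gen {g : Matrix ι ι ℝ} (hg : Stable g) {κ : Type*} [Fintype κ] [DecidableEq κ]
    {v : Matrix ι κ ℤ} (hv : Nd v) : 1 ≤ gr (g * rm v) := by
  obtain ⟨e⟩ : Nonempty (Fin (Fintype.card κ) ≃ κ) := ⟨(Fintype.equivFin κ).symm⟩
  have h1 : Nd (v.submatrix id e) := by
    unfold Nd at hv ⊢
    have : (v.submatrix id e)ᵀ * (v.submatrix id e) = (vᵀ * v).submatrix e e := by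
      ext i j
      simp [Matrix.mul_apply]
    rw [this, Matrix.det_submatrix_equiv_self]
    exact hv
  have h2 := hg.2 _ _ h1
  have h3 : g * rm (v.submatrix id e) = (g * rm v).submatrix id e := by
    ext i j
    simp [Matrix.mul_apply, rm]
  rw [h3, gr_submatrix] at h2
  exact h2

end Pool.Agent.Lib.MP_ddd95a_nt.Mord
end
end
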