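import Pool.Agent.Lib.MP_ddd95a_nt.Mg.G001
import Pool.Agent.Lib.MP_ddd95a_nt.Mord.PL

section

/-!
# Existence of an empty box
-/

open Matrix MeasureTheory Filter Set
open scoped ENNReal Topology

noncomputable section

namespace Pool.Agent.Lib.MP_ddd95a_nt.Mord

namespace BoxEAux

variable {n : ℕ}

/-- the pointwise inequality for the box `τ` -/
theorem pt {κ : ℝ} (hκ : 0 < κ) (g : Matrix (Fin n) (Fin n) ℝ)
    (hno : ∀ τ : Fin n → ℝ, (∀ i, 0 < τ i) → κ ≤ ∏ i, τ i →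
      ∃ m : Fin n → ℤ, m ≠ 0 ∧ ∀ i, |(g *ᵥ zc m) i| ≤ τ i)
    (τ : Fin n → ℝ) (hτ : ∀ i, 0 < τ i) :
    (2 : ℝ≥0∞) ≤ (∑' m : {m : Fin n → ℤ // m ≠ 0},
        indicator {τ : Fin n → ℝ | ∀ i, |(g *ᵥ zc m.1) i| ≤ τ i} (fun _ => (1 : ℝ≥0∞)) τ)
      + 2 * (ENNReal.ofReal κ * ENNReal.ofReal (∏ i, (τ i)⁻¹)) := by
  have hpos : 0 < ∏ i, τ i := Finset.prod_pos fun i _ => hτ i
  by_cases h : κ ≤ ∏ i, τ i
  · obtain ⟨m, hm0, hm⟩ := hno τ hτ h
    refine le_add_right ?_
    have hmn : -m ≠ 0 := neg_ne_zero.mpr hm0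
    have hne : (⟨m, hm0⟩ : {m : Fin n → ℤ // m ≠ 0}) ≠ ⟨-m, hmn⟩ := by
      intro h
      have h' : m = -m := congrArg Subtype.val h
      apply hm0
      funext i
      have := congrFun h' i
      simp only [Pi.neg_apply] at this
      simp only [Pi.zero_apply]
      omega
    have hneg : zc (-m) = -zc m := by
      funext i
      simp [zc]
    refine le_trans ?_ (ENNReal.sum_le_tsum
      ({⟨m, hm0⟩, ⟨-m, hmn⟩} : Finset {m : Fin n → ℤ // m ≠ 0}))
    rw [Finset.sum_pair hne]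
    have h1 : τ ∈ {τ : Fin n → ℝ | ∀ i, |(g *ᵥ zc m) i| ≤ τ i} := hm
    have h2 : τ ∈ {τ : Fin n → ℝ | ∀ i, |(g *ᵥ zc (-m)) i| ≤ τ i} := by
      intro i
      rw [hneg, mulVec_neg, Pi.neg_apply, abs_neg]
      exact hm i
    rw [indicator_of_mem h1, indicator_of_mem h2]
    norm_num
  · push Not at h
    refine le_add_left ?_
    have h1 : (1 : ℝ≥0∞) ≤ ENNReal.ofReal κ * ENNReal.ofReal (∏ i, (τ i)⁻¹) := by
      rw [← ENNReal.ofReal_mul hκ.le, Finset.prod_inv_distrib]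
      rw [← ENNReal.ofReal_one]
      refine ENNReal.ofReal_le_ofReal ?_
      rw [← div_eq_mul_inv, le_div_iff₀ hpos, one_mul]
      exact h.le
    calc (2 : ℝ≥0∞) = 2 * 1 := by norm_num
      _ ≤ _ := by gcongr

end BoxEAux

/-- Proof: suppose not, `κ₀ = (4 (t √(π/2))^n)⁻¹`. For every `τ` with positive coordinates either there is
an integer `m ≠ 0` with `|(g m)_i| ≤ τ i` for all `i`, and then `-m` is another one, or there is none and
`∏ τ i < κ₀`. In both cases `1 ≤ (1/2) #{m ≠ 0 | ∀ i, |(g m)_i| ≤ τ i} + κ₀ ∏ (τ i)⁻¹`. Integrate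
against `dens t` over the positive orthant: `1` on the left (`dens_tail` for `y = 0`; the hyperplanes
`τ i = 0` are null sets), on the right `(1/2) ∑_(m ≠ 0) gw (t • g) (zc m) + κ₀ (t √(π/2))^n ≤ 1/4 + 1/4`
(`dens_tail` for `y = g m`, `dens_inv`, and `gw (t • g) 0 = 1`): contradiction. -/
theorem exists_box {n : ℕ} {t : ℝ} (ht : 0 < t) {g : Matrix (Fin n) (Fin n) ℝ}
    (h : ∑' m : Fin n → ℤ, gw (t • g) (zc m) ≤ ENNReal.ofReal (3 / 2)) :
    ∃ τ : Fin n → ℝ, (∀ i, 0 < τ i) ∧ (4 * (t * Real.sqrt (Real.pi / 2)) ^ n)⁻¹ ≤ ∏ i, τ i ∧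
      ∀ m : Fin n → ℤ, m ≠ 0 → ∃ i, τ i < |(g *ᵥ zc m) i| := by
  classical
  by_contra hcon
  push Not at hcon
  set S : ℝ := t * Real.sqrt (Real.pi / 2) with hS
  have hSpos : 0 < S := by positivity
  have hκ : 0 < (4 * S ^ n)⁻¹ := by positivity
  have hpt := BoxEAux.pt hκ g (fun τ h1 h2 => by
    obtain ⟨m, hm, hm'⟩ := hcon τ h1 h2
    exact ⟨m, hm, hm'⟩)
  set P : Set (Fin n → ℝ) := {τ : Fin n → ℝ | ∀ i, 0 < τ i} with hP
  have hPm : MeasurableSet P := by
    have : P = Set.univ.pi fun _ => Ioi (0 : ℝ) := by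
      ext τ
      simp [hP]
    rw [this]
    exact MeasurableSet.univ_pi fun _ => measurableSet_Ioi
  have hbox : ∀ y : Fin n → ℝ, MeasurableSet {τ : Fin n → ℝ | ∀ i, |y i| ≤ τ i} := by
    intro y
    have : {τ : Fin n → ℝ | ∀ i, |y i| ≤ τ i} = Set.univ.pi fun i => Ici |y i| := by
      ext τ
      simp only [mem_ofPred_eq, mem_univ_pi, mem_Ici]
    rw [this]
    exact MeasurableSet.univ_pi fun _ => measurableSet_Ici
  have hdm : Measurable (dens (n := n) t) := dens_measurable t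
  -- the total mass
  have hmass : ∫⁻ τ in P, dens t τ = 1 := by
    have h0 := dens_tail (n := n) ht 0
    have h1 : {τ : Fin n → ℝ | ∀ i, |(0 : Fin n → ℝ) i| ≤ τ i} =ᵐ[volume] P := by
      have hs1 : {τ : Fin n → ℝ | ∀ i, |(0 : Fin n → ℝ) i| ≤ τ i} =
          Set.univ.pi fun _ => Ici (0 : ℝ) := by
        ext τ
        simp only [Pi.zero_apply, abs_zero, mem_ofPred_eq, mem_univ_pi, mem_Ici]
      have hs2 : P = Set.univ.pi fun _ => Ioi (0 : ℝ) := by
        ext τ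
        simp [hP]
      rw [hs1, hs2, volume_pi]
      exact (Measure.pi_Ioi_ae_eq_pi_Ici (s := Set.univ) (f := fun _ : Fin n => (0 : ℝ))).symm
    rw [setLIntegral_congr h1] at h0
    rw [h0]
    simp
  -- integrate
  have hint : ∫⁻ τ in P, 2 * dens t τ ≤
      ∫⁻ τ in P, ((∑' m : {m : Fin n → ℤ // m ≠ 0},
        indicator {τ : Fin n → ℝ | ∀ i, |(g *ᵥ zc m.1) i| ≤ τ i} (fun _ => (1 : ℝ≥0∞)) τ)
      * dens t τ + 2 * ENNReal.ofReal (4 * S ^ n)⁻¹ *
        (ENNReal.ofReal (∏ i, (τ i)⁻¹) * dens t τ)) := by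
    refine setLIntegral_mono_ae' hPm (Eventually.of_forall fun τ hτ => ?_)
    have := mul_le_mul_left (hpt τ hτ) (dens t τ)
    refine le_trans this (le_of_eq ?_)
    ring
  have hind : ∀ m : {m : Fin n → ℤ // m ≠ 0}, Measurable fun τ : Fin n → ℝ =>
      indicator {τ : Fin n → ℝ | ∀ i, |(g *ᵥ zc m.1) i| ≤ τ i} (fun _ => (1 : ℝ≥0∞)) τ := fun m =>
    measurable_const.indicator (hbox _)
  have hterm : ∀ m : {m : Fin n → ℤ // m ≠ 0}, ∫⁻ τ in P,
      indicator {τ : Fin n → ℝ | ∀ i, |(g *ᵥ zc m.1) i| ≤ τ i} (fun _ => (1 : ℝ≥0∞)) τ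
        * dens t τ ≤ gw (t • g) (zc m.1) := by
    intro m
    calc ∫⁻ τ in P,
      indicator {τ : Fin n → ℝ | ∀ i, |(g *ᵥ zc m.1) i| ≤ τ i} (fun _ => (1 : ℝ≥0∞)) τ
        * dens t τ ≤ ∫⁻ τ,
      indicator {τ : Fin n → ℝ | ∀ i, |(g *ᵥ zc m.1) i| ≤ τ i} (fun _ => (1 : ℝ≥0∞)) τ
        * dens t τ := setLIntegral_le_lintegral _ _
      _ = ∫⁻ τ, indicator {τ : Fin n → ℝ | ∀ i, |(g *ᵥ zc m.1) i| ≤ τ i} (dens t) τ := by
        refine lintegral_congr fun τ => ?_
        by_cases hτ : τ ∈ {τ : Fin n → ℝ | ∀ i, |(g *ᵥ zc m.1) i| ≤ τ i}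
        · rw [indicator_of_mem hτ, indicator_of_mem hτ, one_mul]
        · rw [indicator_of_notMem hτ, indicator_of_notMem hτ, zero_mul]
      _ = ∫⁻ τ in {τ : Fin n → ℝ | ∀ i, |(g *ᵥ zc m.1) i| ≤ τ i}, dens t τ :=
        lintegral_indicator (hbox _) _
      _ = gw (t • g) (zc m.1) := by
        rw [dens_tail ht, gw, qf_smul]
        rfl
  have hsum : (∑' m : {m : Fin n → ℤ // m ≠ 0}, gw (t • g) (zc m.1)) ≤ ENNReal.ofReal (1 / 2) := by
    have h1 := (ENNReal.summable (f := fun m : ({0} : Set (Fin n → ℤ)) =>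
      gw (t • g) (zc m.1))).tsum_add_tsum_compl
      (f := fun m : Fin n → ℤ => gw (t • g) (zc m)) ENNReal.summable
    have h2 : ∑' m : ({0} : Set (Fin n → ℤ)), gw (t • g) (zc m.1) = 1 := by
      rw [tsum_singleton (0 : Fin n → ℤ) (fun m : Fin n → ℤ => gw (t • g) (zc m))]
      have : zc (0 : Fin n → ℤ) = 0 := by
        funext i
        simp [zc]
      rw [this, gw, qf]
      simp
    rw [h2] at h1
    have h3 : (1 : ℝ≥0∞) + ∑' m : {m : Fin n → ℤ // m ≠ 0}, gw (t • g) (zc m.1) ≤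
        1 + ENNReal.ofReal (1 / 2) := by
      refine le_trans (le_of_eq h1) (h.trans (le_of_eq ?_))
      rw [← ENNReal.ofReal_one, ← ENNReal.ofReal_add (by norm_num) (by norm_num)]
      norm_num
    exact (ENNReal.add_le_add_iff_left ENNReal.one_ne_top).mp h3
  have hL : ∫⁻ τ in P, 2 * dens t τ = 2 := by
    rw [lintegral_const_mul _ hdm, hmass, mul_one]
  have hR : ∫⁻ τ in P, ((∑' m : {m : Fin n → ℤ // m ≠ 0},
        indicator {τ : Fin n → ℝ | ∀ i, |(g *ᵥ zc m.1) i| ≤ τ i} (fun _ => (1 : ℝ≥0∞)) τ)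
      * dens t τ + 2 * ENNReal.ofReal (4 * S ^ n)⁻¹ *
        (ENNReal.ofReal (∏ i, (τ i)⁻¹) * dens t τ)) ≤ ENNReal.ofReal (1 / 2) +
        ENNReal.ofReal (1 / 2) := by
    have hm1 : Measurable fun τ : Fin n → ℝ => (∑' m : {m : Fin n → ℤ // m ≠ 0},
        indicator {τ : Fin n → ℝ | ∀ i, |(g *ᵥ zc m.1) i| ≤ τ i} (fun _ => (1 : ℝ≥0∞)) τ)
      * dens t τ := (Measurable.tsum hind).mul hdm
    have hm2 : Measurable fun τ : Fin n → ℝ => ENNReal.ofReal (∏ i, (τ i)⁻¹) * dens t τ := by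
      refine Measurable.mul ?_ hdm
      refine ENNReal.measurable_ofReal.comp ?_
      exact Finset.measurable_prod _ fun i _ => (measurable_pi_apply i).inv
    have hmm : ∀ m : {m : Fin n → ℤ // m ≠ 0}, Measurable fun τ : Fin n → ℝ =>
        indicator {τ : Fin n → ℝ | ∀ i, |(g *ᵥ zc m.1) i| ≤ τ i} (fun _ => (1 : ℝ≥0∞)) τ
          * dens t τ := fun m => (hind m).mul hdm
    rw [lintegral_add_left hm1, lintegral_const_mul _ hm2, dens_inv ht, ← hS]
    refine add_le_add ?_ ?_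
    · have : ∀ τ : Fin n → ℝ, (∑' m : {m : Fin n → ℤ // m ≠ 0},
        indicator {τ : Fin n → ℝ | ∀ i, |(g *ᵥ zc m.1) i| ≤ τ i} (fun _ => (1 : ℝ≥0∞)) τ)
          * dens t τ = ∑' m : {m : Fin n → ℤ // m ≠ 0},
        indicator {τ : Fin n → ℝ | ∀ i, |(g *ᵥ zc m.1) i| ≤ τ i} (fun _ => (1 : ℝ≥0∞)) τ
          * dens t τ := fun τ => ENNReal.tsum_mul_right.symm
      simp only [this]
      rw [lintegral_tsum fun m => (hmm m).aemeasurable]
      exact (ENNReal.tsum_le_tsum hterm).trans hsum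
    · rw [mul_assoc, ← ENNReal.ofReal_mul hκ.le]
      have : (2 : ℝ≥0∞) = ENNReal.ofReal 2 := by simp
      rw [this, ← ENNReal.ofReal_mul (by norm_num)]
      refine ENNReal.ofReal_le_ofReal (le_of_eq ?_)
      have : S ^ n ≠ 0 := by positivity
      field_simp
      norm_num
  rw [hL] at hint
  have hfin := hint.trans hR
  rw [← ENNReal.ofReal_add (by norm_num) (by norm_num)] at hfin
  norm_num at hfin

end Pool.Agent.Lib.MP_ddd95a_nt.Mord
end
end

section

/-!
# The Gaussian measure of the space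
-/

open Matrix MeasureTheory Filter Set
open scoped ENNReal Topology

noncomputable section

namespace Pool.Agent.Lib.MP_ddd95a_nt.Mord

variable {ι : Type*} [Fintype ι] [DecidableEq ι]

namespace JUniAux

theorem gw_one (x : ι → ℝ) :
    gw (1 : Matrix ι ι ℝ) x = ENNReal.ofReal (∏ i, Real.exp (-(1 / 2) * x i ^ 2)) := by
  unfold gw qf
  rw [← Real.exp_sum]
  congr 2
  rw [← Finset.mul_sum, Matrix.one_mulVec]
  ring

theorem J_one_univ : J (1 : Matrix ι ι ℝ) univ = 1 := by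
  have hint : Integrable (fun x : ι → ℝ => ∏ i, Real.exp (-(1 / 2) * x i ^ 2)) := by
    have h : Integrable (fun x : ℝ => Real.exp (-(1 / 2) * x ^ 2)) :=
      integrable_exp_neg_mul_sq (by norm_num)
    exact Integrable.fintype_prod (μ := fun _ => volume) (f := fun _ x => Real.exp (-(1 / 2) * x ^ 2))
      (fun _ => h)
  have hval : ∫ x : ι → ℝ, ∏ i, Real.exp (-(1 / 2) * x i ^ 2)
      = Real.sqrt (2 * Real.pi) ^ Fintype.card ι := by
    rw [integral_fintype_prod_volume_eq_pow (fun x : ℝ => Real.exp (-(1 / 2) * x ^ 2)),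
      integral_gaussian]
    congr 2
    ring
  have hpos : (0 : ℝ) < Real.sqrt (2 * Real.pi) ^ Fintype.card ι := by
    have := Real.pi_pos
    positivity
  have h1 : ∫⁻ x in (univ : Set (ι → ℝ)), gw (1 : Matrix ι ι ℝ) x
      = ENNReal.ofReal (Real.sqrt (2 * Real.pi) ^ Fintype.card ι) := by
    rw [Measure.restrict_univ, ← hval,
      ofReal_integral_eq_lintegral_ofReal hint (Filter.Eventually.of_forall fun x => by
        have : 0 ≤ ∏ i, Real.exp (-(1 / 2) * x i ^ 2) :=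
          Finset.prod_nonneg fun i _ => (Real.exp_pos _).le
        exact this)]
    exact lintegral_congr fun x => gw_one x
  unfold J
  rw [h1, Matrix.det_one, abs_one, ← ENNReal.ofReal_mul (by positivity), one_div,
    inv_mul_cancel₀ hpos.ne', ENNReal.ofReal_one]

end JUniAux

/-- The Gaussian integral (reduce to `g = 1` by `J_map`, then a product of one dimensional
integrals). -/
theorem J_univ {g : Matrix ι ι ℝ} (hg : g.det ≠ 0) : J g univ = 1 := by
  have h := J_map (1 : Matrix ι ι ℝ) g hg (S := univ) MeasurableSet.univ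
  rw [Matrix.one_mul] at h
  have himg : (fun x => g *ᵥ x) '' univ = univ := by
    rw [Set.image_univ]
    refine Set.range_eq_univ.mpr fun y => ⟨g⁻¹ *ᵥ y, ?_⟩
    show g *ᵥ (g⁻¹ *ᵥ y) = y
    rw [Matrix.mulVec_mulVec, Matrix.mul_nonsing_inv _ (isUnit_iff_ne_zero.mpr hg),
      Matrix.one_mulVec]
  rw [h, himg, JUniAux.J_one_univ]

theorem J_le_one {g : Matrix ι ι ℝ} (hg : g.det ≠ 0) (S : Set (ι → ℝ)) : J g S ≤ 1 := by
  exact (J_mono g (subset_univ S)).trans (J_univ hg).le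

theorem J_compl {g : Matrix ι ι ℝ} (hg : g.det ≠ 0) {S : Set (ι → ℝ)} (hS : MeasurableSet S) :
    J g S + J g Sᶜ = 1 := by
  have h := J_univ hg
  unfold J at h ⊢
  rw [← mul_add, lintegral_add_compl _ hS]
  rwa [Measure.restrict_univ] at h

end Pool.Agent.Lib.MP_ddd95a_nt.Mord
end
end

section

/-!
# Dilations of symmetric convex sets
-/

open Matrix MeasureTheory Filter Set
open scoped ENNReal Topology

noncomputable section

namespace Pool.Agent.Lib.MP_ddd95a_nt.Mord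

variable {n : ℕ}

namespace BorellAux

lemma qf_one (x : Fin n → ℝ) : qf (1 : Matrix (Fin n) (Fin n) ℝ) x = ∑ j, x j ^ 2 := by
  unfold qf
  rw [Matrix.one_mulVec]

lemma gw_mul (x y : Fin n → ℝ) :
    gw (1 : Matrix (Fin n) (Fin n) ℝ) x * gw (1 : Matrix (Fin n) (Fin n) ℝ) y ≤
      gw (1 : Matrix (Fin n) (Fin n) ℝ) (fun i => (x i + y i) / 2) ^ 2 := by
  unfold gw
  rw [← ENNReal.ofReal_mul (Real.exp_pos _).le, ← ENNReal.ofReal_pow (Real.exp_pos _).le,
    ← Real.exp_add, ← Real.exp_nat_mul]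
  apply ENNReal.ofReal_le_ofReal
  apply Real.exp_le_exp.mpr
  rw [qf_one, qf_one, qf_one]
  have h : ∑ j, ((x j + y j) / 2) ^ 2 ≤ (∑ j, x j ^ 2 + ∑ j, y j ^ 2) / 2 := by
    rw [← Finset.sum_add_distrib, Finset.sum_div]
    apply Finset.sum_le_sum
    intro j _
    nlinarith [sq_nonneg (x j - y j)]
  push_cast
  linarith

lemma mem_conv {C : Set (Fin n → ℝ)} (hc : Convex ℝ C)
    (hs : ∀ x ∈ C, -x ∈ C) {s : ℝ} (hs1 : 1 ≤ s) {x y : Fin n → ℝ} (hy : y ∈ C)
    (hz : s⁻¹ • (fun i => (x i + y i) / 2) ∈ C) : (2 * s + 1)⁻¹ • x ∈ C := by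
  have h0 : (0 : ℝ) < 2 * s + 1 := by linarith
  have h := hc hz (hs y hy) (a := 2 * s / (2 * s + 1)) (b := 1 / (2 * s + 1))
    (by positivity) (by positivity) (by field_simp)
  have he : (2 * s / (2 * s + 1)) • (s⁻¹ • fun i => (x i + y i) / 2) + (1 / (2 * s + 1)) • -y =
      (2 * s + 1)⁻¹ • x := by
    funext i
    simp only [Pi.add_apply, Pi.smul_apply, Pi.neg_apply, smul_eq_mul]
    have : s ≠ 0 := by linarith
    field_simp
    ring
  rw [he] at h
  exact h

lemma meas_pre {C : Set (Fin n → ℝ)} (hm : MeasurableSet C) (s : ℝ) :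
    MeasurableSet {x : Fin n → ℝ | s • x ∈ C} := by
  have : Measurable fun x : Fin n → ℝ => s • x := measurable_const_smul s
  exact this hm

end BorellAux

open BorellAux in
/-- One step. Proof: `q s = J 1 {x | s⁻¹ • x ∉ C}`; if `x` is not in `(2 s + 1) C` and `y ∈ C` then
`(x + y) / 2` is not in `s C` (otherwise `x = 2 (s c) - y ∈ (2 s + 1) C` by convexity and symmetry). `pl`
for the functions `1_(x ∉ (2s+1) C) exp (-|x|²/2)`, `1_C exp (-|x|²/2)`, `1_(x ∉ s C) exp (-|x|²/2)`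
(as `|x|² + |y|² ≥ |x + y|² / 2`). -/
theorem borell_step {C : Set (Fin n → ℝ)} (hm : MeasurableSet C) (hc : Convex ℝ C)
    (hs : ∀ x ∈ C, -x ∈ C) {s : ℝ} (hs1 : 1 ≤ s) :
    J (1 : Matrix (Fin n) (Fin n) ℝ) {x | (2 * s + 1)⁻¹ • x ∉ C} *
      J (1 : Matrix (Fin n) (Fin n) ℝ) C ≤
    J (1 : Matrix (Fin n) (Fin n) ℝ) {x | s⁻¹ • x ∉ C} ^ 2 := by
  have hA : MeasurableSet {x : Fin n → ℝ | (2 * s + 1)⁻¹ • x ∉ C} := (meas_pre hm _).compl
  have hB : MeasurableSet {x : Fin n → ℝ | s⁻¹ • x ∉ C} := (meas_pre hm _).compl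
  have hg := gw_measurable (1 : Matrix (Fin n) (Fin n) ℝ)
  have key := pl
    ({x : Fin n → ℝ | (2 * s + 1)⁻¹ • x ∉ C}.indicator (gw (1 : Matrix (Fin n) (Fin n) ℝ)))
    (C.indicator (gw (1 : Matrix (Fin n) (Fin n) ℝ)))
    ({x : Fin n → ℝ | s⁻¹ • x ∉ C}.indicator (gw (1 : Matrix (Fin n) (Fin n) ℝ)))
    (hg.indicator hA) (hg.indicator hm) (hg.indicator hB) (by
      intro x y
      by_cases hx : x ∈ {x : Fin n → ℝ | (2 * s + 1)⁻¹ • x ∉ C}
      · by_cases hy : y ∈ C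
        · have hz : (fun i => (x i + y i) / 2) ∈ {x : Fin n → ℝ | s⁻¹ • x ∉ C} := by
            intro hz
            exact hx (mem_conv hc hs hs1 hy hz)
          rw [indicator_of_mem hx, indicator_of_mem hy, indicator_of_mem hz]
          exact gw_mul x y
        · rw [indicator_of_notMem hy, mul_zero]
          exact zero_le
      · rw [indicator_of_notMem hx, zero_mul]
        exact zero_le)
  rw [lintegral_indicator hA, lintegral_indicator hm, lintegral_indicator hB] at key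
  unfold J
  set c := ENNReal.ofReal (|(1 : Matrix (Fin n) (Fin n) ℝ).det| /
    Real.sqrt (2 * Real.pi) ^ Fintype.card (Fin n))
  calc _ = c ^ 2 * ((∫⁻ x in {x : Fin n → ℝ | (2 * s + 1)⁻¹ • x ∉ C}, gw 1 x) *
        ∫⁻ x in C, gw 1 x) := by ring
    _ ≤ c ^ 2 * (∫⁻ x in {x : Fin n → ℝ | s⁻¹ • x ∉ C}, gw 1 x) ^ 2 := by gcongr
    _ = _ := by rw [mul_pow]

open BorellAux in
/-- Iterate `borell_step` with `s_j = 2^(j+1) - 1`: with `θ = J 1 C ≥ 3/4` and `q_j = J 1 {s_j⁻¹ x ∉ C}`,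
`q_0 / θ ≤ 1/3` and `q_(j+1) / θ ≤ (q_j / θ)²`. -/
theorem borell {C : Set (Fin n → ℝ)} (hm : MeasurableSet C) (hc : Convex ℝ C)
    (hs : ∀ x ∈ C, -x ∈ C)
    (h : ENNReal.ofReal (3 / 4) ≤ J (1 : Matrix (Fin n) (Fin n) ℝ) C) (j : ℕ) :
    ENNReal.ofReal (1 - (1 / 3) ^ (2 ^ j)) ≤
      J (1 : Matrix (Fin n) (Fin n) ℝ) {x | ((2 : ℝ) ^ (j + 1) - 1)⁻¹ • x ∈ C} := by
  have hdet : (1 : Matrix (Fin n) (Fin n) ℝ).det ≠ 0 := by rw [Matrix.det_one]; exact one_ne_zero
  have hfin : ∀ S : Set (Fin n → ℝ), J (1 : Matrix (Fin n) (Fin n) ℝ) S ≠ ∞ := fun S =>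
    ne_top_of_le_ne_top ENNReal.one_ne_top (J_le_one hdet S)
  set θ := (J (1 : Matrix (Fin n) (Fin n) ℝ) C).toReal with hθ
  have hθ1 : 3 / 4 ≤ θ := by
    rw [hθ, ← ENNReal.ofReal_le_iff_le_toReal (hfin C)]
    exact h
  have hθ2 : θ ≤ 1 := by
    rw [hθ]
    have := ENNReal.toReal_mono ENNReal.one_ne_top (J_le_one hdet C)
    simpa using this
  have hcompl : ∀ S : Set (Fin n → ℝ), MeasurableSet S →
      (J (1 : Matrix (Fin n) (Fin n) ℝ) S).toReal +
        (J (1 : Matrix (Fin n) (Fin n) ℝ) Sᶜ).toReal = 1 := by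
    intro S hS
    rw [← ENNReal.toReal_add (hfin _) (hfin _), J_compl hdet hS, ENNReal.toReal_one]
  have hq : ∀ j : ℕ, (J (1 : Matrix (Fin n) (Fin n) ℝ)
      {x | ((2 : ℝ) ^ (j + 1) - 1)⁻¹ • x ∉ C}).toReal ≤ θ * (1 / 3) ^ (2 ^ j) := by
    intro j
    induction j with
    | zero =>
      have h1 : {x : Fin n → ℝ | ((2 : ℝ) ^ (0 + 1) - 1)⁻¹ • x ∉ C} = Cᶜ := by
        ext x
        have : ((2 : ℝ) ^ (0 + 1) - 1)⁻¹ = 1 := by norm_num
        show ((2 : ℝ) ^ (0 + 1) - 1)⁻¹ • x ∉ C ↔ x ∉ C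
        rw [this, one_smul]
      rw [h1]
      have := hcompl C hm
      rw [pow_zero, pow_one]
      linarith
    | succ j ih =>
      have hp : (2 : ℝ) ≤ 2 ^ (j + 1) := by
        calc (2 : ℝ) = 2 ^ 1 := by norm_num
          _ ≤ 2 ^ (j + 1) := pow_le_pow_right₀ (by norm_num) (by omega)
      have hst := borell_step hm hc hs (s := (2 : ℝ) ^ (j + 1) - 1) (by linarith)
      have he : 2 * ((2 : ℝ) ^ (j + 1) - 1) + 1 = 2 ^ (j + 1 + 1) - 1 := by ring
      rw [he] at hst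
      have hst' := ENNReal.toReal_mono (ENNReal.pow_ne_top (hfin _)) hst
      rw [ENNReal.toReal_mul, ENNReal.toReal_pow, ← hθ] at hst'
      have h0 : 0 ≤ (J (1 : Matrix (Fin n) (Fin n) ℝ)
        {x | ((2 : ℝ) ^ (j + 1) - 1)⁻¹ • x ∉ C}).toReal := ENNReal.toReal_nonneg
      have h2 : (J (1 : Matrix (Fin n) (Fin n) ℝ)
        {x | ((2 : ℝ) ^ (j + 1) - 1)⁻¹ • x ∉ C}).toReal ^ 2 ≤ (θ * (1 / 3) ^ (2 ^ j)) ^ 2 :=
        pow_le_pow_left₀ h0 ih 2
      have h3 : (θ * (1 / 3 : ℝ) ^ (2 ^ j)) ^ 2 = (θ * (1 / 3) ^ (2 ^ (j + 1))) * θ := by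
        rw [mul_pow, ← pow_mul, ← pow_succ]
        ring
      rw [h3] at h2
      exact le_of_mul_le_mul_right (le_trans hst' h2) (by linarith)
  have hms := meas_pre hm ((2 : ℝ) ^ (j + 1) - 1)⁻¹
  have h1 := hcompl _ hms
  have h2 := hq j
  have h3 : ({x : Fin n → ℝ | ((2 : ℝ) ^ (j + 1) - 1)⁻¹ • x ∈ C})ᶜ =
      {x : Fin n → ℝ | ((2 : ℝ) ^ (j + 1) - 1)⁻¹ • x ∉ C} := rfl
  rw [h3] at h1
  rw [ENNReal.ofReal_le_iff_le_toReal (hfin _)]
  have h4 : θ * (1 / 3 : ℝ) ^ (2 ^ j) ≤ 1 * (1 / 3 : ℝ) ^ (2 ^ j) := by gcongr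
  linarith

end Pool.Agent.Lib.MP_ddd95a_nt.Mord
end
end

section

/-!
# The tail of the maximum
-/

open Matrix MeasureTheory Filter Set
open scoped ENNReal Topology

noncomputable section

namespace Pool.Agent.Lib.MP_ddd95a_nt.Mord

variable {n : ℕ}

namespace GauTAux

/-- the diagonal matrix with one entry `1 / √2` -/
def gm (i : Fin n) : Matrix (Fin n) (Fin n) ℝ :=
  Matrix.diagonal fun j => if j = i then (Real.sqrt 2)⁻¹ else 1

lemma gm_det (i : Fin n) : (gm i).det = (Real.sqrt 2)⁻¹ := by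
  unfold gm
  rw [Matrix.det_diagonal, Finset.prod_ite_eq' Finset.univ i (fun _ => (Real.sqrt 2)⁻¹)]
  simp

lemma qf_one (x : Fin n → ℝ) : qf (1 : Matrix (Fin n) (Fin n) ℝ) x = ∑ j, x j ^ 2 := by
  unfold qf
  rw [Matrix.one_mulVec]

lemma qf_gm (i : Fin n) (x : Fin n → ℝ) :
    qf (gm i) x = qf (1 : Matrix (Fin n) (Fin n) ℝ) x - x i ^ 2 / 2 := by
  rw [qf_one]
  unfold qf gm
  have h : ∀ j, ((Matrix.diagonal fun j => if j = i then (Real.sqrt 2)⁻¹ else 1) *ᵥ x) j ^ 2 =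
      x j ^ 2 - (if j = i then x j ^ 2 / 2 else 0) := by
    intro j
    rw [Matrix.mulVec_diagonal]
    by_cases h : j = i
    · simp only [h, if_true]
      rw [mul_pow, inv_pow, Real.sq_sqrt (by norm_num)]
      ring
    · simp only [h, if_false]
      ring
  rw [Finset.sum_congr rfl (fun j _ => h j), Finset.sum_sub_distrib]
  simp

lemma coord (i : Fin n) {m : ℝ} (hm : 0 ≤ m) :
    J (1 : Matrix (Fin n) (Fin n) ℝ) {x | m < |x i|} ≤
      ENNReal.ofReal (Real.sqrt 2 * Real.exp (-m ^ 2 / 4)) := by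
  have hs2 : 0 < Real.sqrt 2 := Real.sqrt_pos.mpr (by norm_num)
  have hdet : (gm i).det ≠ 0 := by
    rw [gm_det]; positivity
  have hJ := J_univ hdet
  unfold J at hJ ⊢
  rw [gm_det, abs_of_pos (by positivity)] at hJ
  rw [Matrix.det_one, abs_one]
  have hms : MeasurableSet {x : Fin n → ℝ | m < |x i|} :=
    measurableSet_lt measurable_const (by fun_prop)
  set P := Real.sqrt (2 * Real.pi) ^ Fintype.card (Fin n) with hP
  have hP0 : 0 < P := by positivity
  have h1 : ∫⁻ x in {x : Fin n → ℝ | m < |x i|}, gw (1 : Matrix (Fin n) (Fin n) ℝ) x ≤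
      ENNReal.ofReal (Real.exp (-m ^ 2 / 4)) * ∫⁻ x in (univ : Set (Fin n → ℝ)), gw (gm i) x := by
    rw [← lintegral_const_mul _ (gw_measurable _)]
    refine le_trans (setLIntegral_mono' (g := fun x => ENNReal.ofReal (Real.exp (-m ^ 2 / 4)) *
      gw (gm i) x) hms ?_) (lintegral_mono_set (subset_univ _))
    intro x hx
    have hx' : m < |x i| := hx
    unfold gw
    rw [← ENNReal.ofReal_mul (Real.exp_pos _).le]
    apply ENNReal.ofReal_le_ofReal
    rw [← Real.exp_add]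
    apply Real.exp_le_exp.mpr
    rw [qf_gm]
    have : m ^ 2 ≤ x i ^ 2 := by
      rw [← sq_abs (x i)]
      exact pow_le_pow_left₀ hm hx'.le 2
    linarith
  calc ENNReal.ofReal (1 / P) * ∫⁻ x in {x : Fin n → ℝ | m < |x i|}, gw 1 x
      ≤ ENNReal.ofReal (1 / P) * (ENNReal.ofReal (Real.exp (-m ^ 2 / 4)) *
          ∫⁻ x in (univ : Set (Fin n → ℝ)), gw (gm i) x) := by gcongr
    _ = ENNReal.ofReal (Real.sqrt 2 * Real.exp (-m ^ 2 / 4)) *
          (ENNReal.ofReal ((Real.sqrt 2)⁻¹ / P) *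
          ∫⁻ x in (univ : Set (Fin n → ℝ)), gw (gm i) x) := by
        rw [← mul_assoc, ← mul_assoc, ← ENNReal.ofReal_mul (by positivity),
          ← ENNReal.ofReal_mul (by positivity)]
        congr 2
        field_simp
    _ = ENNReal.ofReal (Real.sqrt 2 * Real.exp (-m ^ 2 / 4)) := by rw [hJ, mul_one]

end GauTAux

/-- Tail of the maximum: `J 1 {x | ∃ i, m < |x i|} ≤ 1/8` for `m = 2 √(log (16 n))`: a union bound and
`∫ exp (x²/4) exp (-x²/2) dx / √(2π) = √2`, so the measure of `{|x i| > m}` is at most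
`√2 exp (- m² / 4) = √2 / (16 n)`. -/
theorem tail_max (hn : 1 ≤ n) :
    J (1 : Matrix (Fin n) (Fin n) ℝ) {x | ∃ i, 2 * Real.sqrt (Real.log (16 * n)) < |x i|} ≤
      ENNReal.ofReal (1 / 8) := by
  set m := 2 * Real.sqrt (Real.log (16 * n)) with hm
  have hn' : (1 : ℝ) ≤ n := by exact_mod_cast hn
  have hlog : 0 ≤ Real.log (16 * n) := Real.log_nonneg (by linarith)
  have hm0 : 0 ≤ m := by positivity
  have hexp : Real.exp (-m ^ 2 / 4) = 1 / (16 * n) := by
    rw [hm, mul_pow, Real.sq_sqrt hlog]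
    have : -(2 ^ 2 * Real.log (16 * n)) / 4 = -Real.log (16 * n) := by ring
    rw [this, Real.exp_neg, Real.exp_log (by positivity), one_div]
  have hset : {x : Fin n → ℝ | ∃ i, m < |x i|} = ⋃ i, {x | m < |x i|} := by
    ext x; simp
  have hle : J (1 : Matrix (Fin n) (Fin n) ℝ) {x | ∃ i, m < |x i|} ≤
      ∑ i, J (1 : Matrix (Fin n) (Fin n) ℝ) {x | m < |x i|} := by
    unfold J
    rw [hset, ← Finset.mul_sum]
    gcongr
    refine le_trans (lintegral_iUnion_le _ _) ?_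
    rw [tsum_fintype]
  refine le_trans hle ?_
  refine le_trans (Finset.sum_le_sum (fun i _ => GauTAux.coord i hm0)) ?_
  rw [Finset.sum_const, Finset.card_univ, Fintype.card_fin, nsmul_eq_mul, hexp,
    ← ENNReal.ofReal_natCast, ← ENNReal.ofReal_mul (by positivity)]
  apply ENNReal.ofReal_le_ofReal
  have h2 : Real.sqrt 2 ≤ 2 := by
    rw [Real.sqrt_le_left (by norm_num)]
    norm_num
  have : (n : ℝ) * (Real.sqrt 2 * (1 / (16 * n))) = Real.sqrt 2 / 16 := by
    field_simp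
  rw [this]
  linarith

end Pool.Agent.Lib.MP_ddd95a_nt.Mord
end
end

section

/-!
# From signs to Gaussian vectors
-/

open Matrix MeasureTheory Filter Set
open scoped ENNReal Topology

noncomputable section

namespace Pool.Agent.Lib.MP_ddd95a_nt.Mord

variable {n : ℕ}

namespace GauAAux

/-- The standard Gaussian measure. -/
def gam (n : ℕ) : Measure (Fin n → ℝ) :=
  ENNReal.ofReal (|(1 : Matrix (Fin n) (Fin n) ℝ).det| /
    Real.sqrt (2 * Real.pi) ^ Fintype.card (Fin n)) •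
      (volume.withDensity (gw (1 : Matrix (Fin n) (Fin n) ℝ)))

lemma gam_apply {S : Set (Fin n → ℝ)} (hS : MeasurableSet S) :
    gam n S = J (1 : Matrix (Fin n) (Fin n) ℝ) S := by
  unfold gam J
  rw [Measure.smul_apply, withDensity_apply _ hS, smul_eq_mul]

lemma gam_univ : gam n univ = 1 := by
  rw [gam_apply MeasurableSet.univ]
  exact J_univ (by simp)

lemma gw_sign (e : Fin n → Bool) (x : Fin n → ℝ) :
    gw (1 : Matrix (Fin n) (Fin n) ℝ) (fun i => x i * sg e i) =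
      gw (1 : Matrix (Fin n) (Fin n) ℝ) x := by
  unfold gw qf
  simp only [one_mulVec]
  have h : ∀ i, (x i * sg e i) ^ 2 = x i ^ 2 := by
    intro i
    unfold sg
    split_ifs <;> ring
  simp only [h]

lemma sign_mp (e : Fin n → Bool) :
    MeasurePreserving (fun (x : Fin n → ℝ) (i : Fin n) => x i * sg e i) volume volume := by
  refine volume_preserving_pi (f := fun i (t : ℝ) => t * sg e i) fun i => ?_
  unfold sg
  by_cases h : e i = true
  · simp only [h, if_true, mul_one]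
    exact MeasurePreserving.id volume
  · simp only [h]
    have h2 : (fun t : ℝ => t * (if false = true then (1 : ℝ) else -1)) = fun t => -t := by
      funext t
      simp
    simp only [Bool.false_eq_true, if_false, mul_neg, mul_one]
    exact Measure.measurePreserving_neg volume

lemma gam_mp (e : Fin n → Bool) :
    MeasurePreserving (fun (x : Fin n → ℝ) (i : Fin n) => x i * sg e i) (gam n) (gam n) := by
  refine ⟨(sign_mp e).measurable, ?_⟩
  ext A hA
  rw [Measure.map_apply (sign_mp e).measurable hA]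
  have hA' := (sign_mp e).measurable hA
  unfold gam
  rw [Measure.smul_apply, Measure.smul_apply, withDensity_apply _ hA, withDensity_apply _ hA']
  congr 1
  rw [← (sign_mp e).setLIntegral_comp_preimage hA (gw_measurable _)]
  simp only [gw_sign]

/-- The cube. -/
def cub (n : ℕ) (m : ℝ) : Set (Fin n → ℝ) := {x | ∀ i, |x i| ≤ m}

lemma cub_measurable (m : ℝ) : MeasurableSet (cub n m) := by
  have : cub n m = ⋂ i, {x : Fin n → ℝ | |x i| ≤ m} := by
    ext x
    simp [cub]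
  rw [this]
  refine MeasurableSet.iInter fun i => ?_
  exact measurableSet_le (by fun_prop) measurable_const

lemma abs_sg (e : Fin n → Bool) (i : Fin n) : |sg e i| = 1 := by
  unfold sg
  split_ifs <;> simp

lemma cub_preimage (e : Fin n → Bool) (m : ℝ) :
    (fun (x : Fin n → ℝ) (i : Fin n) => x i * sg e i) ⁻¹' (cub n m) = cub n m := by
  ext x
  simp only [cub, mem_preimage, mem_ofPred_eq, abs_mul, abs_sg, mul_one]

lemma semi_continuous (p : Seminorm ℝ (Fin n → ℝ)) : Continuous p :=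
  continuousOn_univ.1 (ConvexOn.continuousOn isOpen_univ p.convexOn)

lemma comp_continuous (p : Seminorm ℝ (Fin n → ℝ)) (T : Matrix (Fin n) (Fin n) ℝ) :
    Continuous fun x => p (T *ᵥ x) := by
  have h : Continuous fun x : Fin n → ℝ => T *ᵥ x :=
    Continuous.matrix_mulVec continuous_const continuous_id
  exact (semi_continuous p).comp h

lemma sum_le (p : Seminorm ℝ (Fin n → ℝ)) (T : Matrix (Fin n) (Fin n) ℝ) {a m : ℝ}
    (hm : 0 ≤ m) (h : avg (fun e => p (T *ᵥ sg e)) ≤ a) {x : Fin n → ℝ} (hx : x ∈ cub n m) :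
    ∑ e : Fin n → Bool, p (T *ᵥ fun i => x i * sg e i) ≤ 2 ^ n * (m * a) := by
  have h1 := contraction p T (m := m) (r := x) hx
  have h2 : avg (fun e => p (T *ᵥ fun i => x i * sg e i)) ≤ m * a :=
    h1.trans (mul_le_mul_of_nonneg_left h hm)
  unfold avg at h2
  rw [div_le_iff₀ (by positivity)] at h2
  linarith

lemma lint_le (p : Seminorm ℝ (Fin n → ℝ)) (T : Matrix (Fin n) (Fin n) ℝ) {a m : ℝ}
    (hm : 0 ≤ m) (h : avg (fun e => p (T *ᵥ sg e)) ≤ a) :
    ∫⁻ x in cub n m, ENNReal.ofReal (p (T *ᵥ x)) ∂(gam n) ≤ ENNReal.ofReal (m * a) := by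
  have hpm : Measurable fun x => ENNReal.ofReal (p (T *ᵥ x)) :=
    (comp_continuous p T).measurable.ennreal_ofReal
  have h1 : ∀ e : Fin n → Bool,
      ∫⁻ x in cub n m, ENNReal.ofReal (p (T *ᵥ fun i => x i * sg e i)) ∂(gam n) =
        ∫⁻ x in cub n m, ENNReal.ofReal (p (T *ᵥ x)) ∂(gam n) := by
    intro e
    have h2 := (gam_mp e).setLIntegral_comp_preimage (cub_measurable m) hpm
    rw [cub_preimage] at h2
    exact h2
  have h3 : (2 : ℝ≥0∞) ^ n * ∫⁻ x in cub n m, ENNReal.ofReal (p (T *ᵥ x)) ∂(gam n) ≤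
      (2 : ℝ≥0∞) ^ n * ENNReal.ofReal (m * a) := by
    calc (2 : ℝ≥0∞) ^ n * ∫⁻ x in cub n m, ENNReal.ofReal (p (T *ᵥ x)) ∂(gam n)
        = ∑ e : Fin n → Bool,
          ∫⁻ x in cub n m, ENNReal.ofReal (p (T *ᵥ fun i => x i * sg e i)) ∂(gam n) := by
          rw [Finset.sum_congr rfl fun e _ => h1 e]
          simp
      _ = ∫⁻ x in cub n m, ∑ e : Fin n → Bool,
          ENNReal.ofReal (p (T *ᵥ fun i => x i * sg e i)) ∂(gam n) := by
          rw [lintegral_finsetSum]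
          intro e _
          exact hpm.comp (sign_mp e).measurable
      _ ≤ ∫⁻ x in cub n m, ENNReal.ofReal (2 ^ n * (m * a)) ∂(gam n) := by
          apply setLIntegral_mono' (cub_measurable m)
          intro x hx
          rw [← ENNReal.ofReal_sum_of_nonneg (fun e _ => apply_nonneg p _)]
          exact ENNReal.ofReal_le_ofReal (sum_le p T hm h hx)
      _ = ENNReal.ofReal (2 ^ n * (m * a)) * gam n (cub n m) := by
          rw [setLIntegral_const]
      _ ≤ ENNReal.ofReal (2 ^ n * (m * a)) * 1 := by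
          gcongr
          rw [← gam_univ (n := n)]
          exact measure_mono (subset_univ _)
      _ = (2 : ℝ≥0∞) ^ n * ENNReal.ofReal (m * a) := by
          rw [mul_one, ENNReal.ofReal_mul (by positivity)]
          congr 1
          rw [ENNReal.ofReal_pow (by norm_num)]
          norm_num
  exact (ENNReal.mul_le_mul_iff_right (by simp) (by simp)).1 h3

end GauAAux

/-- With `m = 2 √(log (16 n))` and `S = {x | ∀ i, |x i| ≤ m}`: by invariance under sign changes and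
`contraction` the Gaussian integral of `p (T x)` over `S` is at most `m a`, so by Markov's inequality
the measure of `{x ∈ S | p (T x) > 8 m a}` is at most `1/8`. -/
theorem gauss_mass (hn : 1 ≤ n) (p : Seminorm ℝ (Fin n → ℝ)) (T : Matrix (Fin n) (Fin n) ℝ)
    {a : ℝ} (ha : 0 < a) (h : avg (fun e => p (T *ᵥ sg e)) ≤ a) :
    ENNReal.ofReal (3 / 4) ≤ J (1 : Matrix (Fin n) (Fin n) ℝ)
      {x | p (T *ᵥ x) ≤ 16 * a * Real.sqrt (Real.log (16 * n))} := by
  set m : ℝ := 2 * Real.sqrt (Real.log (16 * n)) with hm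
  have hlog : 0 < Real.log (16 * n) := by
    apply Real.log_pos
    have : (1 : ℝ) ≤ n := by exact_mod_cast hn
    linarith
  have hm0 : 0 < m := by
    have := Real.sqrt_pos.2 hlog
    positivity
  have e0 : 16 * a * Real.sqrt (Real.log (16 * n)) = 8 * (m * a) := by
    rw [hm]
    ring
  rw [e0]
  have hma : 0 < m * a := by positivity
  have hcont := GauAAux.comp_continuous p T
  have hAm : MeasurableSet {x : Fin n → ℝ | p (T *ᵥ x) ≤ 8 * (m * a)} :=
    measurableSet_le hcont.measurable measurable_const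
  rw [← GauAAux.gam_apply hAm]
  -- Markov
  have hB : GauAAux.gam n (GauAAux.cub n m ∩ {x | 8 * (m * a) < p (T *ᵥ x)}) ≤
      ENNReal.ofReal (1 / 8) := by
    have h1 := GauAAux.lint_le p T hm0.le h
    have h2 := mul_meas_ge_le_lintegral
      (μ := (GauAAux.gam n).restrict (GauAAux.cub n m))
      (f := fun x => ENNReal.ofReal (p (T *ᵥ x))) hcont.measurable.ennreal_ofReal
      (ENNReal.ofReal (8 * (m * a)))
    have h3 : GauAAux.gam n (GauAAux.cub n m ∩ {x | 8 * (m * a) < p (T *ᵥ x)}) ≤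
        (GauAAux.gam n).restrict (GauAAux.cub n m)
          {x | ENNReal.ofReal (8 * (m * a)) ≤ ENNReal.ofReal (p (T *ᵥ x))} := by
      rw [Measure.restrict_apply' (GauAAux.cub_measurable m)]
      apply measure_mono
      rintro x ⟨hx1, hx2⟩
      exact ⟨ENNReal.ofReal_le_ofReal (le_of_lt hx2), hx1⟩
    have h4 : ENNReal.ofReal (8 * (m * a)) *
        GauAAux.gam n (GauAAux.cub n m ∩ {x | 8 * (m * a) < p (T *ᵥ x)}) ≤
        ENNReal.ofReal (8 * (m * a)) * ENNReal.ofReal (1 / 8) := by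
      calc _ ≤ ENNReal.ofReal (8 * (m * a)) *
          (GauAAux.gam n).restrict (GauAAux.cub n m)
            {x | ENNReal.ofReal (8 * (m * a)) ≤ ENNReal.ofReal (p (T *ᵥ x))} := by
            gcongr
        _ ≤ ENNReal.ofReal (m * a) := h2.trans h1
        _ = _ := by
            rw [← ENNReal.ofReal_mul (by positivity)]
            congr 1
            ring
    refine (ENNReal.mul_le_mul_iff_right ?_ ENNReal.ofReal_ne_top).1 h4
    rw [ne_eq, ENNReal.ofReal_eq_zero, not_le]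
    positivity
  have hC : GauAAux.gam n (GauAAux.cub n m)ᶜ ≤ ENNReal.ofReal (1 / 8) := by
    rw [GauAAux.gam_apply (GauAAux.cub_measurable m).compl]
    refine le_trans (J_mono _ ?_) (tail_max hn)
    intro x hx
    simp only [GauAAux.cub, mem_compl_iff, mem_ofPred_eq, not_forall, not_le] at hx
    exact hx
  have hD : GauAAux.gam n {x : Fin n → ℝ | p (T *ᵥ x) ≤ 8 * (m * a)}ᶜ ≤
      ENNReal.ofReal (1 / 4) := by
    calc _ ≤ GauAAux.gam n ((GauAAux.cub n m)ᶜ ∪
          (GauAAux.cub n m ∩ {x | 8 * (m * a) < p (T *ᵥ x)})) := by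
          apply measure_mono
          intro x hx
          simp only [mem_compl_iff, mem_ofPred_eq, not_le] at hx
          by_cases hc : x ∈ GauAAux.cub n m
          · exact Or.inr ⟨hc, hx⟩
          · exact Or.inl hc
      _ ≤ ENNReal.ofReal (1 / 8) + ENNReal.ofReal (1 / 8) :=
          (measure_union_le _ _).trans (add_le_add hC hB)
      _ = ENNReal.ofReal (1 / 4) := by
          rw [← ENNReal.ofReal_add (by norm_num) (by norm_num)]
          norm_num
  have hE := measure_add_measure_compl (μ := GauAAux.gam n) hAm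
  rw [GauAAux.gam_univ] at hE
  have hF : ENNReal.ofReal (3 / 4) + ENNReal.ofReal (1 / 4) ≤
      GauAAux.gam n {x : Fin n → ℝ | p (T *ᵥ x) ≤ 8 * (m * a)} + ENNReal.ofReal (1 / 4) := by
    have h1 : ENNReal.ofReal (3 / 4) + ENNReal.ofReal (1 / 4) = 1 := by
      rw [← ENNReal.ofReal_add (by norm_num) (by norm_num)]
      norm_num
    rw [h1, ← hE]
    gcongr
  exact (ENNReal.add_le_add_iff_right ENNReal.ofReal_ne_top).1 hF

end Pool.Agent.Lib.MP_ddd95a_nt.Mord
end
end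

section

/-!
# The Voronoi cell: covering and packing
-/

open Matrix MeasureTheory Filter Set
open scoped ENNReal Topology

noncomputable section

namespace Pool.Agent.Lib.MP_ddd95a_nt.Mord

variable {ι : Type*} [Fintype ι] [DecidableEq ι]

namespace VorBAux

theorem qf_pos {g : Matrix ι ι ℝ} (hg : g.det ≠ 0) {m : ι → ℤ} (hm : m ≠ 0) :
    0 < qf g (zc m) := by
  obtain ⟨c, hc, h⟩ := exists_lower hg
  refine lt_of_lt_of_le ?_ (h (zc m))
  refine mul_pos hc ?_
  obtain ⟨i, hi⟩ := Function.ne_iff.1 hm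
  refine Finset.sum_pos' (fun j _ => sq_nonneg _) ⟨i, Finset.mem_univ i, ?_⟩
  have : (m i : ℝ) ≠ 0 := Int.cast_ne_zero.2 hi
  exact pow_pos_of_ne_zero_sq this
where
  pow_pos_of_ne_zero_sq {a : ℝ} (h : a ≠ 0) : 0 < a ^ 2 := by positivity

/-- the linear form `x ↦ ⟨g x, g z⟩` -/
def lin (g : Matrix ι ι ℝ) (z : ι → ℝ) : (ι → ℝ) →ₗ[ℝ] ℝ where
  toFun x := (g *ᵥ x) ⬝ᵥ (g *ᵥ z)
  map_add' x y := by rw [mulVec_add, add_dotProduct]
  map_smul' c x := by rw [mulVec_smul, smul_dotProduct]; rfl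

theorem lin_self (g : Matrix ι ι ℝ) (z : ι → ℝ) : lin g z z = qf g z := by
  change (g *ᵥ z) ⬝ᵥ (g *ᵥ z) = _
  unfold qf dotProduct
  refine Finset.sum_congr rfl fun i _ => ?_
  rw [sq]

theorem hyper {g : Matrix ι ι ℝ} (hg : g.det ≠ 0) {m : ι → ℤ} (hm : m ≠ 0) :
    volume {x : ι → ℝ | qf g x = qf g (x - zc m)} = 0 := by
  have hq := qf_pos hg hm
  have h1 : {x : ι → ℝ | qf g x = qf g (x - zc m)} =
      ((AffineSubspace.mk' ((1 / 2 : ℝ) • zc m) (LinearMap.ker (lin g (zc m))) :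
        AffineSubspace ℝ (ι → ℝ)) : Set (ι → ℝ)) := by
    ext x
    rw [SetLike.mem_coe, AffineSubspace.mem_mk', LinearMap.mem_ker, vsub_eq_sub, map_sub, map_smul,
      lin_self]
    change qf g x = qf g (x - zc m) ↔ (g *ᵥ x) ⬝ᵥ (g *ᵥ zc m) - _ = 0
    rw [qf_sub, smul_eq_mul]
    constructor
    · intro h; linarith
    · intro h; linarith
  rw [h1]
  refine Measure.addHaar_affineSubspace _ _ ?_
  intro htop
  have h2 : (1 / 2 : ℝ) • zc m + zc m ∈
      (AffineSubspace.mk' ((1 / 2 : ℝ) • zc m) (LinearMap.ker (lin g (zc m))) :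
        AffineSubspace ℝ (ι → ℝ)) := by
    rw [htop]; exact AffineSubspace.mem_top ℝ _ _
  rw [AffineSubspace.mem_mk', LinearMap.mem_ker, vsub_eq_sub, add_sub_cancel_left, lin_self] at h2
  exact hq.ne' h2

end VorBAux

/-- Translates of the Voronoi cell cover: minimise `qf g (x - zc m)` over `m` (a minimum exists,
since `qf g (x - zc m) ≥ c |x - zc m|²` by `exists_lower`). -/
theorem vor_cover {g : Matrix ι ι ℝ} (hg : g.det ≠ 0) (x : ι → ℝ) :
    ∃ m : ι → ℤ, x - zc m ∈ vor g := by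
  obtain ⟨c, hc, h⟩ := exists_lower hg
  have hfin : {m : ι → ℤ | qf g (x - zc m) ≤ qf g x}.Finite := by
    refine (Set.finite_Icc (fun i => ⌊x i - Real.sqrt (qf g x / c)⌋)
      (fun i => ⌈x i + Real.sqrt (qf g x / c)⌉)).subset ?_
    intro m hm
    have h1 : c * ∑ i, (x - zc m) i ^ 2 ≤ qf g x := le_trans (h _) hm
    have h2 : ∀ i, |x i - m i| ≤ Real.sqrt (qf g x / c) := by
      intro i
      apply Real.abs_le_sqrt
      rw [le_div_iff₀ hc]
      have h3 : (x i - m i) ^ 2 ≤ ∑ i, (x - zc m) i ^ 2 :=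
        Finset.single_le_sum (f := fun i => (x - zc m) i ^ 2) (fun j _ => sq_nonneg _)
          (Finset.mem_univ i)
      nlinarith
    constructor
    · intro i
      have h4 := abs_le.1 (h2 i)
      have h5 : (⌊x i - Real.sqrt (qf g x / c)⌋ : ℝ) ≤ m i :=
        le_trans (Int.floor_le _) (by linarith [h4.2])
      exact_mod_cast h5
    · intro i
      have h4 := abs_le.1 (h2 i)
      have h5 : (m i : ℝ) ≤ ⌈x i + Real.sqrt (qf g x / c)⌉ :=
        le_trans (by linarith [h4.1]) (Int.le_ceil _)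
      exact_mod_cast h5
  have hzc0 : (zc (0 : ι → ℤ)) = 0 := by
    funext i; simp [zc]
  obtain ⟨m, hm, hmin⟩ := Set.exists_min_image _ (fun m : ι → ℤ => qf g (x - zc m)) hfin
    ⟨0, by change qf g (x - zc 0) ≤ qf g x; rw [hzc0, sub_zero]⟩
  refine ⟨m, ?_⟩
  intro m'
  have h1 : x - zc m - zc m' = x - zc (m + m') := by
    funext i
    simp only [zc, Pi.sub_apply, Pi.add_apply]
    push_cast
    ring
  rw [h1]
  by_cases h2 : qf g (x - zc (m + m')) ≤ qf g x
  · exact hmin _ h2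
  · exact le_trans hm (not_le.1 h2).le

/-- Almost every point of the cell satisfies all the strict inequalities (the exceptional set is a
countable union of hyperplanes `2 ⟨g x, g m⟩ = qf g m`, `g m ≠ 0`). -/
theorem vor_ae {g : Matrix ι ι ℝ} (hg : g.det ≠ 0) :
    ∀ᵐ x ∂(volume.restrict (vor g)), ∀ m : ι → ℤ, m ≠ 0 → qf g x < qf g (x - zc m) := by
  rw [ae_all_iff]
  intro m
  by_cases hm : m = 0
  · exact Filter.Eventually.of_forall fun x h => absurd hm h
  have h1 : ∀ᵐ x ∂(volume.restrict (vor g)), x ∈ vor g :=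
    ae_restrict_mem (vor_isClosed g).measurableSet
  have h2 : ∀ᵐ x ∂(volume.restrict (vor g)), ¬ qf g x = qf g (x - zc m) :=
    ae_restrict_of_ae (measure_eq_zero_iff_ae_notMem.1 (VorBAux.hyper hg hm))
  filter_upwards [h1, h2] with x hx1 hx2 _
  exact lt_of_le_of_ne (hx1 m) hx2

/-- If `x` and `x - zc m` are in the cell then `qf g x = qf g (x - zc m)`. -/
theorem vor_disj {g : Matrix ι ι ℝ} (hg : g.det ≠ 0) {m : ι → ℤ} (hm : m ≠ 0) :
    volume (vor g ∩ {x | x - zc m ∈ vor g}) = 0 := by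
  refine measure_mono_null ?_ (VorBAux.hyper hg hm)
  rintro x ⟨hx1, hx2⟩
  change qf g x = qf g (x - zc m)
  refine le_antisymm (hx1 m) ?_
  have h1 := hx2 (-m)
  have h2 : x - zc m - zc (-m) = x := by
    funext i
    simp only [zc, Pi.sub_apply, Pi.neg_apply]
    push_cast
    ring
  rwa [h2] at h1

end Pool.Agent.Lib.MP_ddd95a_nt.Mord
end
end

section

/-!
# Semicontinuity
-/

open Matrix MeasureTheory Filter Set
open scoped ENNReal Topology

noncomputable section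

namespace Pool.Agent.Lib.MP_ddd95a_nt.Mord

variable {ι : Type*} [Fintype ι] [DecidableEq ι]

namespace LscAux

lemma qf_le_frob (A : Matrix ι ι ℝ) (x : ι → ℝ) :
    qf A x ≤ (∑ i, ∑ j, A i j ^ 2) * ∑ j, x j ^ 2 := by
  unfold qf
  rw [Finset.sum_mul]
  apply Finset.sum_le_sum
  intro i _
  exact Finset.sum_mul_sq_le_sq_mul_sq _ _ _

lemma qf_half (g h : Matrix ι ι ℝ) (x : ι → ℝ) :
    qf h x / 2 - qf (g - h) x ≤ qf g x := by
  unfold qf
  rw [Finset.sum_div, ← Finset.sum_sub_distrib]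
  apply Finset.sum_le_sum
  intro i _
  rw [Matrix.sub_mulVec, Pi.sub_apply]
  nlinarith [sq_nonneg (2 * (g *ᵥ x) i - (h *ᵥ x) i)]

lemma cont_qf (x : ι → ℝ) : Continuous fun g : Matrix ι ι ℝ => qf g x := by
  have h : Continuous fun g : Matrix ι ι ℝ => (g, x) := by fun_prop
  have h2 := (qf_continuous₂ (ι := ι)).comp h
  exact h2

lemma lower {g₀ : Matrix ι ι ℝ} (hg : g₀.det ≠ 0) : ∃ c : ℝ, 0 < c ∧
    ∀ᶠ g in 𝓝 g₀, ∀ x, c * ∑ i, x i ^ 2 ≤ qf g x := by
  obtain ⟨c, hc, h⟩ := exists_lower hg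
  refine ⟨c / 4, by positivity, ?_⟩
  have hcont : Continuous fun g : Matrix ι ι ℝ => ∑ i, ∑ j, (g - g₀) i j ^ 2 := by
    apply continuous_finsetSum
    intro i _
    apply continuous_finsetSum
    intro j _
    have : Continuous fun g : Matrix ι ι ℝ => g i j := continuous_id.matrix_elem i j
    exact (this.sub continuous_const).pow 2
  have h0 : (∑ i, ∑ j, (g₀ - g₀) i j ^ 2) < c / 4 := by
    simp
    positivity
  have hev : ∀ᶠ g in 𝓝 g₀, (∑ i, ∑ j, (g - g₀) i j ^ 2) < c / 4 :=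
    hcont.continuousAt.eventually_lt continuousAt_const h0
  filter_upwards [hev] with g hgg x
  have h1 := qf_half g g₀ x
  have h2 := qf_le_frob (g - g₀) x
  have h3 := h x
  have h4 : 0 ≤ ∑ i, x i ^ 2 := Finset.sum_nonneg (fun i _ => sq_nonneg _)
  have h5 : (∑ i, ∑ j, (g - g₀) i j ^ 2) * ∑ j, x j ^ 2 ≤ c / 4 * ∑ j, x j ^ 2 :=
    mul_le_mul_of_nonneg_right hgg.le h4
  linarith

lemma fin_set (x : ι → ℝ) (R : ℝ) :
    {m : ι → ℤ | ∑ i, (x - zc m) i ^ 2 ≤ R ^ 2}.Finite := by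
  apply (Set.finite_Icc (fun i => ⌊x i - |R|⌋) (fun i => ⌈x i + |R|⌉)).subset
  intro m hm
  have h : ∀ i, |x i - m i| ≤ |R| := by
    intro i
    have h1 : (x - zc m) i ^ 2 ≤ ∑ i, (x - zc m) i ^ 2 :=
      Finset.single_le_sum (f := fun i => (x - zc m) i ^ 2) (fun i _ => sq_nonneg _)
        (Finset.mem_univ i)
    have h2 : (x i - m i) ^ 2 ≤ R ^ 2 := le_trans h1 hm
    exact sq_le_sq.mp h2
  constructor
  · intro i
    have := abs_le.mp (h i)
    have h3 : (⌊x i - |R|⌋ : ℝ) ≤ x i - |R| := Int.floor_le _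
    have h4 : (⌊x i - |R|⌋ : ℝ) ≤ m i := by linarith
    exact_mod_cast h4
  · intro i
    have := abs_le.mp (h i)
    have h3 : x i + |R| ≤ (⌈x i + |R|⌉ : ℝ) := Int.le_ceil _
    have h4 : (m i : ℝ) ≤ (⌈x i + |R|⌉ : ℝ) := by linarith
    exact_mod_cast h4

lemma J_eq (G : Matrix ι ι ℝ) {S : Set (ι → ℝ)} (hS : MeasurableSet S) :
    J G S = ∫⁻ x, S.indicator (fun x => ENNReal.ofReal
      (|G.det| / Real.sqrt (2 * Real.pi) ^ Fintype.card ι * Real.exp (-(qf G x) / 2))) x := by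
  unfold J
  rw [lintegral_indicator hS, ← lintegral_const_mul _ (gw_measurable G)]
  apply lintegral_congr
  intro x
  unfold gw
  rw [← ENNReal.ofReal_mul (by positivity)]

lemma tendsto_dens {G : ℕ → Matrix ι ι ℝ} {G₀ : Matrix ι ι ℝ}
    (hG : Tendsto G atTop (𝓝 G₀)) (x : ι → ℝ) :
    Tendsto (fun j => ENNReal.ofReal
      (|(G j).det| / Real.sqrt (2 * Real.pi) ^ Fintype.card ι * Real.exp (-(qf (G j) x) / 2)))
      atTop (𝓝 (ENNReal.ofReal
      (|G₀.det| / Real.sqrt (2 * Real.pi) ^ Fintype.card ι * Real.exp (-(qf G₀ x) / 2)))) := by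
  have hcont : Continuous fun g : Matrix ι ι ℝ => ENNReal.ofReal
      (|g.det| / Real.sqrt (2 * Real.pi) ^ Fintype.card ι * Real.exp (-(qf g x) / 2)) := by
    apply ENNReal.continuous_ofReal.comp
    have h1 : Continuous fun g : Matrix ι ι ℝ => g.det := continuous_id.matrix_det
    have h2 := cont_qf (ι := ι) x
    exact (h1.abs.div_const _).mul (Real.continuous_exp.comp (h2.neg.div_const 2))
  exact (hcont.tendsto G₀).comp hG

end LscAux

/-- Pointwise: if all the inequalities at `x` are strict then `x` is in the cell of `g` for all `g` near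
`g₀`: for `g` near `g₀`, `qf g (x - zc m) ≥ c |x - zc m|²` with a uniform `c > 0` (`exists_lower` for
`g₀`, halved), so only finitely many `m` matter, and for each of them use continuity. -/
theorem vor_near {g₀ : Matrix ι ι ℝ} (hg : g₀.det ≠ 0) {x : ι → ℝ}
    (hx : ∀ m : ι → ℤ, m ≠ 0 → qf g₀ x < qf g₀ (x - zc m)) : ∀ᶠ g in 𝓝 g₀, x ∈ vor g := by
  obtain ⟨c, hc, hlow⟩ := LscAux.lower hg
  set Q := qf g₀ x + 1 with hQ
  have hQ0 : 0 < Q := by
    have := qf_nonneg g₀ x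
    linarith
  have h1 : ∀ᶠ g in 𝓝 g₀, qf g x < Q :=
    (LscAux.cont_qf x).continuousAt.eventually_lt continuousAt_const (by linarith)
  set R := Real.sqrt (Q / c) with hR
  have hfin := LscAux.fin_set x R
  have h2 : ∀ᶠ g in 𝓝 g₀, ∀ m ∈ {m : ι → ℤ | ∑ i, (x - zc m) i ^ 2 ≤ R ^ 2},
      qf g x ≤ qf g (x - zc m) := by
    rw [Filter.eventually_all_finite hfin]
    intro m _
    by_cases hm : m = 0
    · refine Eventually.of_forall (fun g => ?_)
      have : x - zc m = x := by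
        rw [hm]
        funext i
        simp [zc]
      rw [this]
    · exact ((LscAux.cont_qf x).continuousAt.eventually_lt
        (LscAux.cont_qf (x - zc m)).continuousAt (hx m hm)).mono (fun g hg => hg.le)
  filter_upwards [hlow, h1, h2] with g hg1 hg2 hg3
  intro m
  by_cases hm : ∑ i, (x - zc m) i ^ 2 ≤ R ^ 2
  · exact hg3 m hm
  · push Not at hm
    have h3 := hg1 (x - zc m)
    have h4 : c * R ^ 2 = Q := by
      rw [hR, Real.sq_sqrt (by positivity)]
      field_simp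
    have h5 : c * R ^ 2 ≤ c * ∑ i, (x - zc m) i ^ 2 := mul_le_mul_of_nonneg_left hm.le hc.le
    linarith

/-- Proof: Fatou (`MeasureTheory.lintegral_liminf_le`) for the functions
`x ↦ indicator (vor (g j)) (gw (G j)) x`: by `vor_ae` and `vor_near` the lower limit is at least
`indicator (vor g₀) (gw G₀) x` for almost every `x`. -/
theorem J_vor_lsc {g G : ℕ → Matrix ι ι ℝ} {g₀ G₀ : Matrix ι ι ℝ}
    (hg : Tendsto g atTop (𝓝 g₀)) (hG : Tendsto G atTop (𝓝 G₀)) (hg₀ : g₀.det ≠ 0)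
    (hG₀ : G₀.det ≠ 0) {c : ℝ≥0∞} (hc : c < J G₀ (vor g₀)) :
    ∀ᶠ j in atTop, c < J (G j) (vor (g j)) := by
  have hmeas : ∀ g : Matrix ι ι ℝ, MeasurableSet (vor g) := fun g => (vor_isClosed g).measurableSet
  set f : Matrix ι ι ℝ → (ι → ℝ) → ℝ≥0∞ := fun g x => ENNReal.ofReal
      (|g.det| / Real.sqrt (2 * Real.pi) ^ Fintype.card ι * Real.exp (-(qf g x) / 2)) with hf
  have hfm : ∀ g, Measurable (f g) := by
    intro g
    apply ENNReal.continuous_ofReal.measurable.comp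
    have h2 := qf_continuous g
    exact (continuous_const.mul (Real.continuous_exp.comp (h2.neg.div_const 2))).measurable
  have hae : ∀ᵐ x, x ∈ vor g₀ → ∀ m : ι → ℤ, m ≠ 0 → qf g₀ x < qf g₀ (x - zc m) :=
    (ae_restrict_iff' (hmeas g₀)).mp (vor_ae hg₀)
  have hle : J G₀ (vor g₀) ≤ ∫⁻ x, liminf (fun j => (vor (g j)).indicator (f (G j)) x) atTop := by
    rw [LscAux.J_eq G₀ (hmeas g₀)]
    apply lintegral_mono_ae
    filter_upwards [hae] with x hx
    by_cases hxm : x ∈ vor g₀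
    · rw [indicator_of_mem hxm]
      have hnear := hg.eventually (vor_near hg₀ (hx hxm))
      have htend : Tendsto (fun j => (vor (g j)).indicator (f (G j)) x) atTop (𝓝 (f G₀ x)) := by
        apply (LscAux.tendsto_dens hG x).congr'
        filter_upwards [hnear] with j hj
        rw [indicator_of_mem hj]
      rw [htend.liminf_eq]
    · rw [indicator_of_notMem hxm]
      exact zero_le
  have hfatou := lintegral_liminf_le (μ := (volume : Measure (ι → ℝ)))
    (u := atTop) (f := fun j : ℕ => (vor (g j)).indicator (f (G j))) (fun j => (hfm (G j)).indicator (hmeas (g j)))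
  have hlim : c < liminf (fun j => ∫⁻ x, (vor (g j)).indicator (f (G j)) x) atTop :=
    lt_of_lt_of_le hc (le_trans hle hfatou)
  filter_upwards [Filter.eventually_lt_of_lt_liminf hlim] with j hj
  rw [LscAux.J_eq (G j) (hmeas (g j))]
  exact hj

end Pool.Agent.Lib.MP_ddd95a_nt.Mord
end
end
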