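import Pool.Agent.Lib.MP_ddd95a_nt.Mg.G005
import Pool.Agent.Lib.MP_ddd95a_nt.Mord.Lewis
import Pool.Agent.Lib.MP_ddd95a_nt.Mord.Poly
import Pool.Agent.Lib.MP_ddd95a_nt.Mord.Norm
import Pool.Agent.Lib.MP_ddd95a_nt.Mg.G001

section

/-!
# The Rademacher projection: choice of the parameter
-/

open Matrix MeasureTheory Filter Set
open scoped ENNReal Topology

noncomputable section

namespace Pool.Agent.Lib.MP_ddd95a_nt.Mord

/-- `J = ⌈log₂ n⌉ + 1`: `n ≤ 2^(2J)` and `J (1 + log J) ≤ C (1 + log n)^(3/2)`. -/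
theorem rad_bound : ∃ C₁ : ℝ, 0 < C₁ ∧ ∀ n : ℕ, 1 ≤ n → ∀ p : Seminorm ℝ (Fin n → ℝ),
    (∀ x, x ≠ 0 → 0 < p x) → ∀ f : (Fin n → Bool) → Fin n → ℝ, (∀ e, p (f e) ≤ 1) →
      avg (fun e => p (rad f e)) ≤ C₁ * ((1 + Real.log n) * Real.sqrt (1 + Real.log n)) := by
  refine ⟨32, by norm_num, fun n hn p hp f hf => ?_⟩
  set J : ℕ := Nat.log 2 n + 1 with hJ
  have hJ1 : 1 ≤ J := by omega
  have h := rad_bound_J p hp hf J hJ1
  have hn0 : (1 : ℝ) ≤ n := by exact_mod_cast hn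
  have hlog0 : 0 ≤ Real.log n := Real.log_nonneg hn0
  have hJR : (1 : ℝ) ≤ J := by exact_mod_cast hJ1
  have hlogJ0 : 0 ≤ Real.log J := Real.log_nonneg hJR
  have hnJ : (n : ℝ) / 2 ^ (2 * J) ≤ 1 := by
    rw [div_le_one (by positivity)]
    have h1 : n < 2 ^ J := Nat.lt_pow_succ_log_self (by norm_num) n
    have h2 : 2 ^ J ≤ 2 ^ (2 * J) := Nat.pow_le_pow_right (by norm_num) (by omega)
    have h3 : n ≤ 2 ^ (2 * J) := by omega
    exact_mod_cast h3
  have hlog2 : (0.6931471803 : ℝ) < Real.log 2 := Real.log_two_gt_d9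
  have hlog2' : Real.log 2 < (0.6931471808 : ℝ) := Real.log_two_lt_d9
  have hJL : (J : ℝ) ≤ 2 * (1 + Real.log n) := by
    have h1 : (2 : ℝ) ^ (Nat.log 2 n) ≤ n := by
      have : 2 ^ (Nat.log 2 n) ≤ n := Nat.pow_log_le_self 2 (by omega)
      exact_mod_cast this
    have h2 : (Nat.log 2 n : ℝ) * Real.log 2 ≤ Real.log n := by
      rw [← Real.log_pow]
      exact Real.log_le_log (by positivity) h1
    have h3 : (J : ℝ) = Nat.log 2 n + 1 := by rw [hJ]; push_cast; ring
    rw [h3]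
    have h4 : (0 : ℝ) ≤ Nat.log 2 n := Nat.cast_nonneg _
    nlinarith
  set L : ℝ := 1 + Real.log n with hL
  have hL1 : 1 ≤ L := by linarith
  have hs1 : 1 ≤ Real.sqrt L := by
    rw [Real.one_le_sqrt]; exact hL1
  have hlogJ : 1 + Real.log J ≤ 2 * Real.sqrt L := by
    have h1 : Real.log J ≤ Real.log (2 * L) := Real.log_le_log (by linarith) hJL
    have h2 : Real.log (2 * L) = Real.log 2 + Real.log L :=
      Real.log_mul (by norm_num) (by linarith)
    have h3 : Real.log L = 2 * Real.log (Real.sqrt L) := by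
      rw [Real.log_sqrt (by linarith)]; ring
    have h4 : Real.log (Real.sqrt L) ≤ Real.sqrt L - 1 :=
      Real.log_le_sub_one_of_pos (by linarith)
    linarith
  calc avg (fun e => p (rad f e)) ≤ 4 * J * (1 + Real.log J) * (1 + n / 2 ^ (2 * J)) := h
    _ ≤ 4 * J * (1 + Real.log J) * 2 := by
        apply mul_le_mul_of_nonneg_left (by linarith) (by positivity)
    _ = 8 * (J * (1 + Real.log J)) := by ring
    _ ≤ 8 * ((2 * L) * (2 * Real.sqrt L)) := by
        apply mul_le_mul_of_nonneg_left _ (by norm_num)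
        exact mul_le_mul hJL hlogJ (by linarith) (by linarith)
    _ = 32 * (L * Real.sqrt L) := by ring

end Pool.Agent.Lib.MP_ddd95a_nt.Mord
end
end

section

/-!
# Linear images of small average norm
-/

open Matrix MeasureTheory Filter Set
open scoped ENNReal Topology

noncomputable section

namespace Pool.Agent.Lib.MP_ddd95a_nt.Mord

namespace PosiAux

variable {n : ℕ}

theorem avg_mono {φ χ : (Fin n → Bool) → ℝ} (h : ∀ e, φ e ≤ χ e) : avg φ ≤ avg χ := by
  unfold avg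
  exact div_le_div_of_nonneg_right (Finset.sum_le_sum fun e _ => h e) (by positivity)

theorem avg_nonneg {φ : (Fin n → Bool) → ℝ} (h : ∀ e, 0 ≤ φ e) : 0 ≤ avg φ := by
  unfold avg
  exact div_nonneg (Finset.sum_nonneg fun e _ => h e) (by positivity)

theorem avg_mul (c : ℝ) (φ : (Fin n → Bool) → ℝ) : avg (fun e => c * φ e) = c * avg φ := by
  unfold avg
  rw [← Finset.mul_sum, mul_div_assoc]

theorem avg_sum {κ : Type*} (s : Finset κ) (φ : κ → (Fin n → Bool) → ℝ) :
    avg (fun e => ∑ k ∈ s, φ k e) = ∑ k ∈ s, avg (φ k) := by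
  unfold avg
  rw [Finset.sum_comm, Finset.sum_div]

/-- The matrix `W`. -/
def W (ψ : (Fin n → Bool) → Fin n → ℝ) : Matrix (Fin n) (Fin n) ℝ :=
  fun a i => avg (fun e => ψ e a * sg e i)

theorem W_mulVec (ψ : (Fin n → Bool) → Fin n → ℝ) (e : Fin n → Bool) :
    W ψ *ᵥ sg e = rad ψ e := by
  funext a
  rfl

theorem trace_W (ψ : (Fin n → Bool) → Fin n → ℝ) (V : Matrix (Fin n) (Fin n) ℝ) :
    (V * W ψ).trace = avg (fun e => sg e ⬝ᵥ (V *ᵥ ψ e)) := by
  have h : ∀ e, sg e ⬝ᵥ (V *ᵥ ψ e) = ∑ i, ∑ a, V i a * (ψ e a * sg e i) := by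
    intro e
    simp only [dotProduct, mulVec, Finset.mul_sum]
    refine Finset.sum_congr rfl fun i _ => Finset.sum_congr rfl fun a _ => ?_
    ring
  simp only [h, avg_sum, avg_mul]
  rfl

end PosiAux

open PosiAux in
/-- Proof: take `u` from `lewis`. For every `e` choose `ψ e ∈ K` (compact) maximising
`x ↦ ⟨sg e, u⁻¹ x⟩`, with maximal value `H e ≥ 0`. Then `avg H = trace (u⁻¹ W)` with
`W = avg (ψ e (sg e)ᵀ)`, and `W *ᵥ sg e' = rad ψ e'`; so `avg H ≤ n avg (p (rad ψ)) ≤ n B`, `B` the bound in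
`rad_bound` (`p (ψ e) ≤ 1`). The set `u⁻¹ K` is contained in `{x | ∀ e, ⟨sg e, x⟩ ≤ H e}`, so by
`poly_vol`: `1 / det u = volume (u⁻¹ K) ≤ (2 avg H)^n / n! ≤ (2 n B)^n / n! ≤ (2 e B)^n`
(`n! ≥ (n / e)^n`). Take `T = (det u)^(-1/n) u`: `det T = 1` and
`avg (p (T sg e)) ≤ (det u)^(-1/n) ≤ 2 e B`. -/
theorem ell_pos : ∃ C₂ : ℝ, 0 < C₂ ∧ ∀ n : ℕ, 1 ≤ n → ∀ (K : Set (Fin n → ℝ)), IsCompact K →
    Convex ℝ K → (∀ x ∈ K, -x ∈ K) → volume K = 1 → ∀ p : Seminorm ℝ (Fin n → ℝ),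
    (∀ x, x ≠ 0 → 0 < p x) → (∀ x, p x ≤ 1 ↔ x ∈ K) →
    ∃ T : Matrix (Fin n) (Fin n) ℝ, T.det = 1 ∧
      avg (fun e => p (T *ᵥ sg e)) ≤ C₂ * ((1 + Real.log n) * Real.sqrt (1 + Real.log n)) := by
  obtain ⟨C₁, hC₁, hrad⟩ := rad_bound
  refine ⟨2 * Real.exp 1 * C₁, by positivity, ?_⟩
  intro n hn K hK _ _ hv p hp hpK
  obtain ⟨u, hu, hu1, hu2⟩ := lewis hn p hp
  set B : ℝ := C₁ * ((1 + Real.log n) * Real.sqrt (1 + Real.log n)) with hB
  have h0K : (0 : Fin n → ℝ) ∈ K := (hpK 0).mp (by rw [map_zero]; norm_num)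
  -- the maximisers
  have hex : ∀ e : Fin n → Bool, ∃ x ∈ K, ∀ y ∈ K, sg e ⬝ᵥ (u⁻¹ *ᵥ y) ≤ sg e ⬝ᵥ (u⁻¹ *ᵥ x) := by
    intro e
    obtain ⟨x, hx, hmax⟩ := hK.exists_isMaxOn ⟨0, h0K⟩
      (f := fun y : Fin n → ℝ => sg e ⬝ᵥ (u⁻¹ *ᵥ y)) (by
        refine Continuous.continuousOn ?_
        exact continuous_const.dotProduct (continuous_const.matrix_mulVec continuous_id))
    exact ⟨x, hx, fun y hy => hmax hy⟩
  choose ψ hψK hψ using hex
  set H : (Fin n → Bool) → ℝ := fun e => sg e ⬝ᵥ (u⁻¹ *ᵥ ψ e) with hH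
  have hH0 : ∀ e, 0 ≤ H e := by
    intro e
    have := hψ e 0 h0K
    rw [mulVec_zero, dotProduct_zero] at this
    exact this
  have hHB : avg H ≤ n * B := by
    have h1 := hu2 (W ψ)
    rw [trace_W] at h1
    have h2 : avg (fun e => p (W ψ *ᵥ sg e)) ≤ B := by
      simp only [W_mulVec]
      exact hrad n hn p hp ψ fun e => (hpK _).mpr (hψK e)
    exact h1.trans (mul_le_mul_of_nonneg_left h2 (Nat.cast_nonneg n))
  have hB0 : 0 ≤ B := by
    have : 0 ≤ avg H := avg_nonneg hH0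
    have h2 := this.trans hHB
    have hn' : (0 : ℝ) < n := by exact_mod_cast hn
    exact nonneg_of_mul_nonneg_right h2 hn'
  -- volumes
  have hdet : u.det ≠ 0 := hu.ne'
  have hinv : u⁻¹.det = u.det⁻¹ := by
    rw [det_nonsing_inv, Ring.inverse_eq_inv']
  have hsub : (Matrix.toLin' u⁻¹) '' K ⊆ {x : Fin n → ℝ | ∀ e, sg e ⬝ᵥ x ≤ H e} := by
    rintro _ ⟨y, hy, rfl⟩ e
    rw [toLin'_apply]
    exact hψ e y hy
  have hvol := (measure_mono hsub).trans (poly_vol H hH0)
  rw [Measure.addHaar_image_linearMap, LinearMap.det_toLin', hv, mul_one, hinv,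
    abs_of_pos (inv_pos.mpr hu)] at hvol
  have hfac : (0 : ℝ) < n.factorial := by exact_mod_cast n.factorial_pos
  have hvol2 : u.det⁻¹ ≤ (2 * avg H) ^ n / n.factorial := by
    refine (ENNReal.ofReal_le_ofReal_iff ?_).mp hvol
    have := avg_nonneg hH0
    positivity
  have hvol3 : u.det⁻¹ ≤ (2 * Real.exp 1 * B) ^ n := by
    have h1 : (2 * avg H) ^ n ≤ (2 * (n * B)) ^ n := by
      have := avg_nonneg hH0
      gcongr
    have h2 : (n : ℝ) ^ n / n.factorial ≤ Real.exp n :=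
      Real.pow_div_factorial_le_exp (n : ℝ) (Nat.cast_nonneg n) n
    have h3 : Real.exp (n : ℝ) = Real.exp 1 ^ n := by
      rw [← Real.exp_nat_mul, mul_one]
    calc u.det⁻¹ ≤ (2 * avg H) ^ n / n.factorial := hvol2
      _ ≤ (2 * (n * B)) ^ n / n.factorial := by gcongr
      _ = (2 * B) ^ n * ((n : ℝ) ^ n / n.factorial) := by
        rw [show (2 * (n * B) : ℝ) = (2 * B) * n by ring, mul_pow]
        ring
      _ ≤ (2 * B) ^ n * Real.exp 1 ^ n := by
        rw [← h3]
        gcongr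
      _ = (2 * Real.exp 1 * B) ^ n := by
        rw [← mul_pow]
        ring
  -- the matrix
  have hn0 : (n : ℝ) ≠ 0 := by
    have : (0 : ℝ) < n := by exact_mod_cast hn
    exact this.ne'
  set s : ℝ := (u.det⁻¹) ^ ((1 : ℝ) / n) with hs
  have hs0 : 0 ≤ s := Real.rpow_nonneg (inv_pos.mpr hu).le _
  have hsn : s ^ n = u.det⁻¹ := by
    rw [hs, ← Real.rpow_natCast, ← Real.rpow_mul (inv_pos.mpr hu).le, one_div,
      inv_mul_cancel₀ hn0, Real.rpow_one]
  have hsB : s ≤ 2 * Real.exp 1 * B := by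
    have h1 : s ^ n ≤ (2 * Real.exp 1 * B) ^ n := by
      rw [hsn]
      exact hvol3
    exact (pow_le_pow_iff_left₀ hs0 (by positivity) (by omega)).mp h1
  refine ⟨s • u, ?_, ?_⟩
  · rw [det_smul, Fintype.card_fin, hsn, inv_mul_cancel₀ hdet]
  · have h1 : ∀ e, p ((s • u) *ᵥ sg e) = s * p (u *ᵥ sg e) := by
      intro e
      rw [smul_mulVec, map_smul_eq_mul, Real.norm_eq_abs, abs_of_nonneg hs0]
    simp only [h1, avg_mul]
    calc s * avg (fun e => p (u *ᵥ sg e)) ≤ s * 1 := by gcongr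
      _ ≤ 2 * Real.exp 1 * B := by rw [mul_one]; exact hsB
      _ = _ := by rw [hB]; ring

end Pool.Agent.Lib.MP_ddd95a_nt.Mord
end
end

section

/-!
# Values of the functional
-/

open Matrix MeasureTheory Filter Set
open scoped ENNReal Topology

noncomputable section

namespace Pool.Agent.Lib.MP_ddd95a_nt.Mord

theorem low_mono {n : ℕ} {w c c' : ℝ} {g : Matrix (Fin n) (Fin n) ℝ} (h : c' ≤ c)
    (hg : Low w c g) : Low w c' g := fun k h1 h2 v hv => h.trans (hg k h1 h2 v hv)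

/-- `Low` is invariant under integer matrices of determinant one on the right
(`g * rm u * rm v = g * rm (u * v)`, `Nd (u * v)`). -/
theorem low_unimod {n : ℕ} {w c : ℝ} {g : Matrix (Fin n) (Fin n) ℝ} (hg : Low w c g)
    {u : Matrix (Fin n) (Fin n) ℤ} (hu : |u.det| = 1) : Low w c (g * rm u) := by
  intro k h1 h2 v hv
  rw [Matrix.mul_assoc, ← rm_mul]
  refine hg k h1 h2 (u * v) ?_
  rw [nd_inj] at hv ⊢
  intro x hx
  rw [← mulVec_mulVec] at hx
  refine hv x (eq_zero_of_mulVec_eq_zero (M := u) ?_ hx)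
  intro h0
  rw [h0, abs_zero] at hu
  exact zero_ne_one hu

/-- `Low` is a closed condition. -/
theorem low_closed {n : ℕ} {w c : ℝ} {g : ℕ → Matrix (Fin n) (Fin n) ℝ}
    {g₀ : Matrix (Fin n) (Fin n) ℝ} {b : ℕ → ℝ} (hg : Tendsto g atTop (𝓝 g₀))
    (hb : Tendsto b atTop (𝓝 c)) (h : ∀ j, Low w (b j) (g j)) : Low w c g₀ := by
  intro k h1 h2 v hv
  have hc : Continuous fun g : Matrix (Fin n) (Fin n) ℝ => gr (g * rm v) * w ^ (k * (n - k)) := by
    unfold gr
    refine Continuous.mul (Continuous.matrix_det ?_) continuous_const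
    have h3 : Continuous fun g : Matrix (Fin n) (Fin n) ℝ => g * rm v :=
      continuous_id.matrix_mul continuous_const
    exact h3.matrix_transpose.matrix_mul h3
  exact le_of_tendsto_of_tendsto' hb ((hc.tendsto g₀).comp hg) fun j => h j k h1 h2 v hv

/-- Vectors are bounded below (`k = 1`, `nd_col`, `gr_col`). -/
theorem low_vec {n : ℕ} {w c : ℝ} (hw : 0 < w) {g : Matrix (Fin n) (Fin n) ℝ} (hn : 2 ≤ n)
    (hg : Low w c g) (x : Fin n → ℤ) (hx : x ≠ 0) : c / w ^ (n - 1) ≤ qf g (zc x) := by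
  have h1 := hg 1 le_rfl (by omega) _ (nd_col hx)
  rw [gr_col, one_mul] at h1
  rw [div_le_iff₀ (by positivity)]
  exact h1

/-- Every matrix of determinant one satisfies `Low w c` for some `c > 0`: `exists_lower`, `gr_mono`,
`nd_one_le`: `gr (g * rm v) ≥ b ^ k * gr (rm v) ≥ min 1 (b ^ n)`. -/
theorem low_pos {n : ℕ} {w : ℝ} (hw : 1 ≤ w) {g : Matrix (Fin n) (Fin n) ℝ} (hg : g.det = 1) :
    ∃ c : ℝ, 0 < c ∧ Low w c g := by
  obtain ⟨b, hb, hbl⟩ := exists_lower (g := g) (by rw [hg]; exact one_ne_zero)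
  refine ⟨min 1 (b ^ n), lt_min one_pos (by positivity), fun k h1 h2 v hv => ?_⟩
  have h3 := gr_mono hb.le hbl (rm v)
  rw [Fintype.card_fin] at h3
  have h4 := nd_one_le hv
  have h5 : min 1 (b ^ n) ≤ b ^ k := by
    rcases le_total b 1 with h6 | h6
    · exact (min_le_right _ _).trans (pow_le_pow_of_le_one hb.le h6 h2.le)
    · exact (min_le_left _ _).trans (one_le_pow₀ h6)
  have h6 : b ^ k ≤ gr (g * rm v) := by
    refine le_trans ?_ h3
    have h7 : 0 < b ^ k := by positivity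
    nlinarith
  have h7 : 1 ≤ w ^ (k * (n - k)) := one_le_pow₀ hw
  have h8 : 0 < b ^ k := by positivity
  calc min 1 (b ^ n) ≤ gr (g * rm v) := h5.trans h6
    _ = gr (g * rm v) * 1 := (mul_one _).symm
    _ ≤ gr (g * rm v) * w ^ (k * (n - k)) :=
      mul_le_mul_of_nonneg_left h7 (h8.le.trans h6)

end Pool.Agent.Lib.MP_ddd95a_nt.Mord
end
end

section

/-!
# Two sublattices: adapted bases
-/

open Matrix MeasureTheory Filter Set
open scoped ENNReal Topology

noncomputable section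

namespace Pool.Agent.Lib.MP_ddd95a_nt.Mord

namespace SubAAux

/-- The saturation of a submodule. -/
def sat {n : ℕ} (R : Submodule ℤ (Fin n → ℤ)) : Submodule ℤ (Fin n → ℤ) where
  carrier := {x | ∃ m : ℤ, m ≠ 0 ∧ m • x ∈ R}
  add_mem' := by
    rintro x y ⟨m, hm, hx⟩ ⟨l, hl, hy⟩
    refine ⟨m * l, mul_ne_zero hm hl, ?_⟩
    have h1 : (m * l) • (x + y) = l • (m • x) + m • (l • y) := by
      simp only [smul_add, smul_smul, mul_comm m l]
    rw [h1]
    exact R.add_mem (R.smul_mem _ hx) (R.smul_mem _ hy)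
  zero_mem' := ⟨1, one_ne_zero, by simp⟩
  smul_mem' := by
    rintro c x ⟨m, hm, hx⟩
    refine ⟨m, hm, ?_⟩
    rw [smul_comm]
    exact R.smul_mem _ hx

theorem mem_sat {n : ℕ} {R : Submodule ℤ (Fin n → ℤ)} {x : Fin n → ℤ} :
    x ∈ sat R ↔ ∃ m : ℤ, m ≠ 0 ∧ m • x ∈ R := Iff.rfl

theorem le_sat {n : ℕ} (R : Submodule ℤ (Fin n → ℤ)) : R ≤ sat R :=
  fun x hx => ⟨1, one_ne_zero, by simpa using hx⟩

theorem sat_smul {n : ℕ} {R : Submodule ℤ (Fin n → ℤ)} {c : ℤ} (hc : c ≠ 0) {x : Fin n → ℤ}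
    (h : c • x ∈ sat R) : x ∈ sat R := by
  obtain ⟨m, hm, hx⟩ := h
  exact ⟨m * c, mul_ne_zero hm hc, by rwa [smul_smul] at hx⟩

/-- A basis of a module modulo a submodule with torsion free quotient. -/
theorem lift_basis {n : ℕ} (W I : Submodule ℤ (Fin n → ℤ))
    (hs : ∀ (c : ℤ) (x : Fin n → ℤ), c ≠ 0 → x ∈ W → c • x ∈ I → x ∈ I) :
    ∃ (q : ℕ) (b : Matrix (Fin n) (Fin q) ℤ), (∀ y, b *ᵥ y ∈ W) ∧
      (∀ w ∈ W, ∃ y, w - b *ᵥ y ∈ I) ∧ (∀ y, b *ᵥ y ∈ I → y = 0) := by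
  let I' : Submodule ℤ W := I.comap W.subtype
  have : Module.Finite ℤ W := inferInstance
  have : Module.Finite ℤ (W ⧸ I') := inferInstance
  have : Module.IsTorsionFree ℤ (W ⧸ I') := by
    refine Module.isTorsionFree_iff_smul_eq_zero.2 fun c x hcx => ?_
    by_cases hc : c = 0
    · exact Or.inl hc
    · right
      obtain ⟨w, rfl⟩ := Submodule.Quotient.mk_surjective _ x
      rw [← Submodule.Quotient.mk_smul, Submodule.Quotient.mk_eq_zero] at hcx
      rw [Submodule.Quotient.mk_eq_zero]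
      exact hs c w hc w.2 hcx
  have : Module.Free ℤ (W ⧸ I') := Module.free_iff_isTorsionFree.2 inferInstance
  let β := Module.finBasis ℤ (W ⧸ I')
  set q := Module.finrank ℤ (W ⧸ I')
  choose f hf using fun j : Fin q => Submodule.Quotient.mk_surjective I' (β j)
  let b : Matrix (Fin n) (Fin q) ℤ := Matrix.of fun i j => (f j : Fin n → ℤ) i
  have hb : ∀ y, b *ᵥ y = ((∑ j, y j • f j : W) : Fin n → ℤ) := by
    intro y
    ext i
    simp [b, Matrix.mulVec, dotProduct, mul_comm]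
  have hq : ∀ y : Fin q → ℤ, (Submodule.Quotient.mk (∑ j, y j • f j) : W ⧸ I') = ∑ j, y j • β j := by
    intro y
    have : (Submodule.Quotient.mk (∑ j, y j • f j) : W ⧸ I') = I'.mkQ (∑ j, y j • f j) := rfl
    rw [this, map_sum]
    refine Finset.sum_congr rfl fun j _ => ?_
    rw [map_smul]
    congr 1
    exact hf j
  refine ⟨q, b, fun y => ?_, fun w hw => ?_, fun y hy => ?_⟩
  · rw [hb]
    exact Subtype.coe_prop _
  · refine ⟨fun j => β.repr (Submodule.Quotient.mk ⟨w, hw⟩) j, ?_⟩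
    rw [hb]
    have h1 : (Submodule.Quotient.mk ((⟨w, hw⟩ : W) -
        ∑ j, (β.repr (Submodule.Quotient.mk ⟨w, hw⟩) j) • f j) : W ⧸ I') = 0 := by
      rw [Submodule.Quotient.mk_sub, hq, β.sum_repr, sub_self]
    rw [Submodule.Quotient.mk_eq_zero] at h1
    exact h1
  · have h1 : (Submodule.Quotient.mk (∑ j, y j • f j) : W ⧸ I') = 0 := by
      rw [Submodule.Quotient.mk_eq_zero]
      show ((∑ j, y j • f j : W) : Fin n → ℤ) ∈ I
      rw [← hb]; exact hy
    rw [hq] at h1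
    have := Fintype.linearIndependent_iff.1 β.linearIndependent y h1
    exact funext this

/-- The matrix of the coordinates. -/
theorem exists_mat {n p q k : ℕ} (a : Matrix (Fin n) (Fin p) ℤ) (b : Matrix (Fin n) (Fin q) ℤ)
    (v : Matrix (Fin n) (Fin k) ℤ) (h : ∀ j, ∃ x y, (v.col j) = a *ᵥ x + b *ᵥ y) :
    ∃ M : Matrix (Fin p ⊕ Fin q) (Fin k) ℤ, v = fromCols a b * M := by
  choose x y h using h
  refine ⟨Matrix.of fun i j => Sum.elim (x j) (y j) i, ?_⟩
  ext i j
  have h1 := congrFun (h j) i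
  rw [Matrix.col_apply] at h1
  rw [h1, ← fromCols_mulVec_sumElim]
  simp [Matrix.mul_apply, Matrix.mulVec, dotProduct]

theorem rank_le {m k : Type*} [Fintype m] [Fintype k] [DecidableEq k] (M : Matrix m k ℤ)
    (h : ∀ x : k → ℤ, M *ᵥ x = 0 → x = 0) : Fintype.card k ≤ Fintype.card m := by
  have hinj : Function.Injective M.mulVecLin := by
    rw [← LinearMap.ker_eq_bot, LinearMap.ker_eq_bot']
    intro x hx
    exact h x (by simpa using hx)
  have := LinearMap.finrank_le_finrank_of_injective hinj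
  simpa using this

/-- The number of columns. -/
theorem card_eq {n k : ℕ} {s : Type*} [Fintype s] [DecidableEq s] (v : Matrix (Fin n) (Fin k) ℤ)
    (w : Matrix (Fin n) s ℤ) (hv : ∀ x, v *ᵥ x = 0 → x = 0) (hw : ∀ x, w *ᵥ x = 0 → x = 0)
    (hsat : ∀ y, w *ᵥ y ∈ sat (LinearMap.range v.mulVecLin))
    (hM : ∃ M : Matrix s (Fin k) ℤ, v = w * M) : Fintype.card s = k := by
  obtain ⟨M, hM⟩ := hM
  apply le_antisymm
  · -- every column of `w` has a multiple in the range of `v`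
    have h1 : ∀ j : s, ∃ (m : ℤ) (x : Fin k → ℤ), m ≠ 0 ∧ m • w.col j = v *ᵥ x := by
      intro j
      obtain ⟨m, hm, x, hx⟩ := hsat (Pi.single j 1)
      refine ⟨m, x, hm, ?_⟩
      rw [Matrix.mulVec_single_one] at hx
      rw [← hx]
      simp
    choose m x hm hx using h1
    have h2 : Matrix.of (fun i j => m j * w i j) = v * Matrix.of (fun i j => x j i) := by
      ext i j
      have h3 := congrFun (hx j) i
      simp only [Pi.smul_apply, Matrix.col_apply, smul_eq_mul] at h3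
      simp [Matrix.mul_apply, h3, Matrix.mulVec, dotProduct]
    have := rank_le (Matrix.of fun (i : Fin k) (j : s) => x j i) (by
      intro y hy
      have h3 : (Matrix.of (fun i j => m j * w i j)) *ᵥ y = 0 := by
        rw [h2, ← Matrix.mulVec_mulVec, hy, Matrix.mulVec_zero]
      have h4 : w *ᵥ (fun j => m j * y j) = 0 := by
        rw [← h3]
        ext i
        simp only [Matrix.mulVec, dotProduct, Matrix.of_apply]
        exact Finset.sum_congr rfl fun j _ => by ring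
      have h5 := hw _ h4
      ext j
      have h6 := congrFun h5 j
      simp only [Pi.zero_apply, mul_eq_zero] at h6
      exact h6.resolve_left (hm j))
    simpa using this
  · have := rank_le M (by
      intro y hy
      refine hv y ?_
      rw [hM, ← Matrix.mulVec_mulVec, hy, Matrix.mulVec_zero])
    simpa using this

end SubAAux

open SubAAux

/-- Bases adapted to two sublattices.
Proof: let `W`, `W'` be the sets of the integer vectors `x` such that a nonzero multiple of `x` lies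
in the span of the columns of `v`, resp. `v'`. The quotients of `ℤ^n` by `W`, `W'`, `W ∩ W'` are
torsion free. So `W ∩ W'` is free (basis `a`), and it is a direct summand of `W` (complement with
basis `b`) and of `W'` (complement with basis `c`), because `W / (W ∩ W')` and `W' / (W ∩ W')` are
finitely generated and torsion free, hence free. The ranks are `p + q = k` and `p + r = l`. The
columns of `v` are integer combinations of those of `(a, b)`. Independence of `(a, b, c)`: if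
`a x + b y + c z = 0` then `b y` is in `W ∩ W'`, so `y = 0`, and then `a x + c z = 0` gives
`x = 0`, `z = 0`. -/
theorem adapted {n k l : ℕ} (v : Matrix (Fin n) (Fin k) ℤ) (v' : Matrix (Fin n) (Fin l) ℤ)
    (hv : Nd v) (hv' : Nd v') :
    ∃ (p q r : ℕ) (a : Matrix (Fin n) (Fin p) ℤ) (b : Matrix (Fin n) (Fin q) ℤ)
      (c : Matrix (Fin n) (Fin r) ℤ) (M : Matrix (Fin p ⊕ Fin q) (Fin k) ℤ)
      (M' : Matrix (Fin p ⊕ Fin r) (Fin l) ℤ), p + q = k ∧ p + r = l ∧
      Nd (fromCols a (fromCols b c)) ∧ v = fromCols a b * M ∧ v' = fromCols a c * M' := by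
  set W := sat (LinearMap.range v.mulVecLin) with hW
  set W' := sat (LinearMap.range v'.mulVecLin) with hW'
  obtain ⟨p, a, ha1, ha2, ha3⟩ := lift_basis (W ⊓ W') ⊥ (fun c x hc _ h => by
    rw [Submodule.mem_bot] at h ⊢
    exact (smul_eq_zero.1 h).resolve_left hc)
  obtain ⟨q, b, hb1, hb2, hb3⟩ := lift_basis W (W ⊓ W') (fun c x hc hx h =>
    ⟨hx, sat_smul hc h.2⟩)
  obtain ⟨r, c, hc1, hc2, hc3⟩ := lift_basis W' (W ⊓ W') (fun c x hc hx h =>
    ⟨sat_smul hc h.1, hx⟩)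
  have ha0 : ∀ x, a *ᵥ x = 0 → x = 0 := fun x hx => ha3 x (by rw [hx]; exact Submodule.zero_mem _)
  have hI : ∀ w ∈ W ⊓ W', ∃ x, w = a *ᵥ x := by
    intro w hw
    obtain ⟨x, hx⟩ := ha2 w hw
    rw [Submodule.mem_bot, sub_eq_zero] at hx
    exact ⟨x, hx⟩
  have hWab : ∀ w ∈ W, ∃ x y, w = a *ᵥ x + b *ᵥ y := by
    intro w hw
    obtain ⟨y, hy⟩ := hb2 w hw
    obtain ⟨x, hx⟩ := hI _ hy
    exact ⟨x, y, by rw [← hx]; abel⟩
  have hWac : ∀ w ∈ W', ∃ x y, w = a *ᵥ x + c *ᵥ y := by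
    intro w hw
    obtain ⟨y, hy⟩ := hc2 w hw
    obtain ⟨x, hx⟩ := hI _ hy
    exact ⟨x, y, by rw [← hx]; abel⟩
  have hcol : ∀ j, v.col j ∈ W := fun j => le_sat _ ⟨Pi.single j 1, by simp⟩
  have hcol' : ∀ j, v'.col j ∈ W' := fun j => le_sat _ ⟨Pi.single j 1, by simp⟩
  obtain ⟨M, hM⟩ := exists_mat a b v fun j => hWab _ (hcol j)
  obtain ⟨M', hM'⟩ := exists_mat a c v' fun j => hWac _ (hcol' j)
  have hab : ∀ x y, a *ᵥ x + b *ᵥ y = 0 → x = 0 ∧ y = 0 := by
    intro x y h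
    have hy : y = 0 := by
      apply hb3
      have : b *ᵥ y = -(a *ᵥ x) := by rw [eq_neg_iff_add_eq_zero, add_comm]; exact h
      rw [this]
      exact Submodule.neg_mem _ (ha1 x)
    refine ⟨ha0 x ?_, hy⟩
    rw [hy, Matrix.mulVec_zero, add_zero] at h
    exact h
  have hac : ∀ x y, a *ᵥ x + c *ᵥ y = 0 → x = 0 ∧ y = 0 := by
    intro x y h
    have hy : y = 0 := by
      apply hc3
      have : c *ᵥ y = -(a *ᵥ x) := by rw [eq_neg_iff_add_eq_zero, add_comm]; exact h
      rw [this]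
      exact Submodule.neg_mem _ (ha1 x)
    refine ⟨ha0 x ?_, hy⟩
    rw [hy, Matrix.mulVec_zero, add_zero] at h
    exact h
  have sum0 : ∀ {s t : Type} (z : s ⊕ t → ℤ), z ∘ Sum.inl = 0 → z ∘ Sum.inr = 0 → z = 0 := by
    intro s t z h1 h2
    ext (i | i)
    · exact congrFun h1 i
    · exact congrFun h2 i
  refine ⟨p, q, r, a, b, c, M, M', ?_, ?_, ?_, hM, hM'⟩
  · have := card_eq v (fromCols a b) ((nd_inj v).1 hv) (fun z hz => by
      rw [fromCols_mulVec] at hz
      obtain ⟨h1, h2⟩ := hab _ _ hz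
      exact sum0 z h1 h2) (fun z => by
      rw [fromCols_mulVec]
      exact Submodule.add_mem _ (ha1 _).1 (hb1 _)) ⟨M, hM⟩
    simpa using this
  · have := card_eq v' (fromCols a c) ((nd_inj v').1 hv') (fun z hz => by
      rw [fromCols_mulVec] at hz
      obtain ⟨h1, h2⟩ := hac _ _ hz
      exact sum0 z h1 h2) (fun z => by
      rw [fromCols_mulVec]
      exact Submodule.add_mem _ (ha1 _).2 (hc1 _)) ⟨M', hM'⟩
    simpa using this
  · rw [nd_inj]
    intro z hz
    rw [fromCols_mulVec, fromCols_mulVec] at hz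
    set x := z ∘ Sum.inl
    set y := (z ∘ Sum.inr) ∘ Sum.inl
    set t := (z ∘ Sum.inr) ∘ Sum.inr
    have hy : y = 0 := by
      apply hb3
      refine ⟨hb1 y, ?_⟩
      have : b *ᵥ y = -(a *ᵥ x + c *ᵥ t) := by
        rw [eq_neg_iff_add_eq_zero, ← hz]; abel
      rw [this]
      exact Submodule.neg_mem _ (Submodule.add_mem _ (ha1 x).2 (hc1 t))
    rw [hy, Matrix.mulVec_zero, zero_add] at hz
    obtain ⟨hx, ht⟩ := hac x t hz
    exact sum0 z hx (sum0 _ hy ht)

end Pool.Agent.Lib.MP_ddd95a_nt.Mord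
end
end

section

/-!
# Submodularity of the covolume
-/

open Matrix MeasureTheory Filter Set
open scoped ENNReal Topology

noncomputable section

namespace Pool.Agent.Lib.MP_ddd95a_nt.Mord

namespace SubAux

theorem rm_fromCols {ι κ μ : Type*} (a : Matrix ι κ ℤ) (b : Matrix ι μ ℤ) :
    rm (fromCols a b) = fromCols (rm a) (rm b) := by
  ext i (j | j) <;> rfl

theorem nd_submatrix {ι κ μ : Type*} [Fintype ι] [Fintype κ] [DecidableEq κ] [Fintype μ]
    [DecidableEq μ] (v : Matrix ι κ ℤ) (e : μ ≃ κ) (hv : Nd v) : Nd (v.submatrix id e) := by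
  unfold Nd at hv ⊢
  have h1 : (v.submatrix id e)ᵀ * v.submatrix id e = (vᵀ * v).submatrix e e := by
    rw [transpose_submatrix, submatrix_mul _ _ e id e Function.bijective_id]
  rw [h1, det_submatrix_equiv_self]
  exact hv

/-- The square matrix has nonzero determinant. -/
theorem det_ne {ι κ : Type*} [Fintype ι] [DecidableEq ι] [Fintype κ] [DecidableEq κ] {k : ℕ}
    {v : Matrix ι (Fin k) ℤ} {w : Matrix ι κ ℤ} {M : Matrix κ (Fin k) ℤ} (e : κ ≃ Fin k)
    (hv : Nd v) (h : v = w * M) : (M.submatrix id e).det ≠ 0 := by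
  have h1 : v.submatrix id e = w * M.submatrix id e := by
    rw [h, submatrix_mul _ _ id id e Function.bijective_id, submatrix_id_id]
  have h2 := nd_submatrix v e hv
  rw [h1] at h2
  exact ((nd_mul_sq w _).1 h2).2

theorem ge_of_mul {ι κ : Type*} [Fintype ι] [DecidableEq ι] [Fintype κ] [DecidableEq κ] {k : ℕ}
    {v : Matrix ι (Fin k) ℤ} {w : Matrix ι κ ℤ} {M : Matrix κ (Fin k) ℤ} (e : κ ≃ Fin k)
    (hv : Nd v) (h : v = w * M) (g : Matrix ι ι ℝ) : gr (g * rm w) ≤ gr (g * rm v) := by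
  have hd := det_ne e hv h
  have h1 : (g * rm v).submatrix id e = g * rm w * rm (M.submatrix id e) := by
    rw [h, rm_mul, ← Matrix.mul_assoc, submatrix_mul _ _ id id e Function.bijective_id,
      submatrix_id_id]
    rfl
  rw [← gr_submatrix (g * rm v) e, h1, gr_mul_sq, det_rm]
  have h2 : (1 : ℝ) ≤ ((M.submatrix id e).det : ℝ) ^ 2 := by
    have h3 : (1 : ℤ) ≤ (M.submatrix id e).det ^ 2 := by
      have := sq_pos_of_ne_zero hd
      omega
    exact_mod_cast h3
  exact le_mul_of_one_le_left (gr_nonneg _) h2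

/-- A right inverse over the real numbers. -/
theorem exists_inv {κ : Type*} [Fintype κ] [DecidableEq κ] {k : ℕ} (M : Matrix κ (Fin k) ℤ)
    (e : κ ≃ Fin k) (hd : (M.submatrix id e).det ≠ 0) :
    ∃ N : Matrix (Fin k) κ ℝ, rm M * N = 1 := by
  have h1 : (rm (M.submatrix id e)).det ≠ 0 := by
    rw [det_rm]
    exact_mod_cast hd
  refine ⟨((rm (M.submatrix id e))⁻¹).submatrix e.symm id, ?_⟩
  have h2 : rm M = (rm (M.submatrix id e)).submatrix id e.symm := by
    ext i j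
    simp [rm]
  have h3 : (rm (M.submatrix id e)).submatrix id e.symm *
      ((rm (M.submatrix id e))⁻¹).submatrix e.symm id =
      (rm (M.submatrix id e) * (rm (M.submatrix id e))⁻¹).submatrix id id :=
    (submatrix_mul _ _ id e.symm id e.symm.bijective).symm
  rw [h2, h3, mul_nonsing_inv _ (isUnit_iff_ne_zero.2 h1), submatrix_id_id]

end SubAux

open SubAux

/-- Submodularity. From `adapted`: `a` is the first matrix, `d = (a, b, c)` (reindexed by
`Fin (p + (q + r))`, `finSumFinEquiv`). `gr (g v) = det(M)² gr (g (a, b))` where `M` is made square by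
reindexing, `det M ≠ 0` is an integer, so `gr (g v) ≥ gr (g (a, b))`; similarly for `v'`; and `kot` for
`X = g a`, `Y = g b`, `Z = g c`. If `p = k` then `q = 0` and `v = a M`, `M` a `k × k` matrix, and
`v' = (a, c) M'` with `M'` invertible over `ℝ`, so `a = v' X'` and `v = v' (X' M)`. -/
theorem submod {n k l : ℕ} (v : Matrix (Fin n) (Fin k) ℤ) (v' : Matrix (Fin n) (Fin l) ℤ)
    (hv : Nd v) (hv' : Nd v') :
    ∃ (p s : ℕ) (a : Matrix (Fin n) (Fin p) ℤ) (d : Matrix (Fin n) (Fin s) ℤ),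
      p + s = k + l ∧ p ≤ k ∧ p ≤ l ∧ Nd a ∧ Nd d ∧
      (∀ g : Matrix (Fin n) (Fin n) ℝ, gr (g * rm a) * gr (g * rm d) ≤
        gr (g * rm v) * gr (g * rm v')) ∧
      (p = k → ∃ X : Matrix (Fin l) (Fin k) ℝ, rm v = rm v' * X) := by
  obtain ⟨p, q, r, a, b, c, M, M', hpq, hpr, hnd, hvM, hvM'⟩ := adapted v v' hv hv'
  have e1 : Fin p ⊕ Fin q ≃ Fin k := finSumFinEquiv.trans (finCongr hpq)
  have e2 : Fin p ⊕ Fin r ≃ Fin l := finSumFinEquiv.trans (finCongr hpr)
  have e3 : Fin (p + (q + r)) ≃ Fin p ⊕ (Fin q ⊕ Fin r) :=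
    finSumFinEquiv.symm.trans (Equiv.sumCongr (Equiv.refl _) finSumFinEquiv.symm)
  refine ⟨p, p + (q + r), a, (fromCols a (fromCols b c)).submatrix id e3, by omega, by omega,
    by omega, ?_, nd_submatrix _ e3 hnd, ?_, ?_⟩
  · rw [nd_inj] at hnd ⊢
    intro x hx
    have h1 := hnd (Sum.elim x 0) (by
      rw [fromCols_mulVec_sumElim, hx]
      simp)
    funext i
    exact congrFun h1 (Sum.inl i)
  · intro g
    have h1 : gr (g * rm ((fromCols a (fromCols b c)).submatrix id e3)) =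
        gr (fromCols (g * rm a) (fromCols (g * rm b) (g * rm c))) := by
      have h2 : g * rm ((fromCols a (fromCols b c)).submatrix id e3) =
          (g * rm (fromCols a (fromCols b c))).submatrix id e3 := by
        rw [submatrix_mul _ _ id id e3 Function.bijective_id, submatrix_id_id]
        rfl
      rw [h2, gr_submatrix, rm_fromCols, rm_fromCols, mul_fromCols, mul_fromCols]
    rw [h1]
    refine (kot (g * rm a) (g * rm b) (g * rm c)).trans ?_
    rw [← mul_fromCols, ← mul_fromCols, ← rm_fromCols, ← rm_fromCols]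
    exact mul_le_mul (ge_of_mul e1 hv hvM g) (ge_of_mul e2 hv' hvM' g) (gr_nonneg _)
      (gr_nonneg _)
  · intro hpk
    have hq : q = 0 := by omega
    subst hq
    obtain ⟨N, hN⟩ := exists_inv M' e2 (det_ne e2 hv' hvM')
    obtain ⟨W, hW⟩ : ∃ W : Matrix (Fin p) (Fin k) ℝ, W = Matrix.of fun i j =>
      rm M (Sum.inl i) j := ⟨_, rfl⟩
    refine ⟨N * fromRows (1 : Matrix (Fin p) (Fin p) ℝ) (0 : Matrix (Fin r) (Fin p) ℝ) * W, ?_⟩
    have h1 : rm v' * N = fromCols (rm a) (rm c) := by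
      rw [hvM', rm_mul, Matrix.mul_assoc, hN, Matrix.mul_one, rm_fromCols]
    have h2 : rm v = rm a * W := by
      rw [hvM, rm_mul, hW]
      ext i j
      rw [Matrix.mul_apply, Matrix.mul_apply, Fintype.sum_sum_type]
      simp [rm]
    rw [← Matrix.mul_assoc, ← Matrix.mul_assoc, h1, fromCols_mul_fromRows, Matrix.mul_one,
      Matrix.mul_zero, add_zero]
    exact h2

end Pool.Agent.Lib.MP_ddd95a_nt.Mord
end
end

section

/-!
# The active sublattices form a chain
-/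

open Matrix MeasureTheory Filter Set
open scoped ENNReal Topology

noncomputable section

namespace Pool.Agent.Lib.MP_ddd95a_nt.Mord

namespace ChainAux

theorem low_small {n : ℕ} {w c : ℝ} (hc1 : c < 1) {g : Matrix (Fin n) (Fin n) ℝ}
    (hL : Low w c g) {p : ℕ} (hp : p < n) (a : Matrix (Fin n) (Fin p) ℤ) (ha : Nd a) :
    c ≤ gr (g * rm a) * w ^ (p * (n - p)) := by
  rcases Nat.eq_zero_or_pos p with h | h
  · subst h
    rw [gr_empty]
    simp only [zero_mul, pow_zero, mul_one]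
    exact hc1.le
  · exact hL p h hp a ha

theorem low_large {n : ℕ} {w c : ℝ} (hc1 : c < 1) {g : Matrix (Fin n) (Fin n) ℝ}
    (hg : |g.det| = 1) (hL : Low w c g) {s : ℕ} (hs1 : 1 ≤ s) (hs : s ≤ n)
    (d : Matrix (Fin n) (Fin s) ℤ) (hd : Nd d) :
    c ≤ gr (g * rm d) * w ^ (s * (n - s)) := by
  rcases Nat.lt_or_ge s n with h | h
  · exact hL s hs1 h d hd
  · have h' : s = n := le_antisymm hs h
    subst h'
    rw [gr_square, Matrix.det_mul, det_rm]
    have h1 : d.det ≠ 0 := (nd_square d).1 hd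
    have h2 : (1 : ℤ) ≤ d.det ^ 2 := by
      have : 0 < d.det ^ 2 := by positivity
      omega
    have h3 : (1 : ℝ) ≤ (d.det : ℝ) ^ 2 := by exact_mod_cast h2
    have h4 : g.det ^ 2 = 1 := by
      rw [← sq_abs, hg]
      norm_num
    rw [mul_pow, h4, Nat.sub_self, Nat.mul_zero, pow_zero, one_mul, mul_one]
    linarith

end ChainAux

/-- Proof: `submod` gives `p + s = k + l`, `p ≤ k ≤ l ≤ s`, `a`, `d`. Always
`gr (g a) * w ^ (p (n - p)) ≥ c` (by `Low` if `p ≥ 1`; if `p = 0` the left hand side is `1`), and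
`gr (g d) * w ^ (s (n - s)) ≥ c` (by `Low` if `s < n`; if `s = n` the left hand side is
`det(g)² det(d)² ≥ 1`; `s ≤ n` by `nd_card`). Hence
`c² / (w ^ (p (n-p)) w ^ (s (n-s))) ≤ gr (g a) gr (g d) ≤ gr (g v) gr (g v') =
c² / (w ^ (k (n-k)) w ^ (l (n-l)))`, so `k (n-k) + l (n-l) ≤ p (n-p) + s (n-s)` as `w > 1`, i.e.
`(k - p) (l - p) ≤ 0`, so `p = k` (or `p = l = k`). -/
theorem chain {n : ℕ} {w c : ℝ} (hw : 1 < w) (hc : 0 < c) (hc1 : c < 1)
    {g : Matrix (Fin n) (Fin n) ℝ} (hg : |g.det| = 1) (hL : Low w c g) {k l : ℕ} (hkl : k ≤ l)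
    {v : Matrix (Fin n) (Fin k) ℤ} {v' : Matrix (Fin n) (Fin l) ℤ} (hv : Act w c g v)
    (hv' : Act w c g v') : ∃ X : Matrix (Fin l) (Fin k) ℝ, rm v = rm v' * X := by
  obtain ⟨hk1, hkn, hnv, hev⟩ := hv
  obtain ⟨hl1, hln, hnv', hev'⟩ := hv'
  obtain ⟨p, s, a, d, hps, hpk, hpl, ha, hd, hsub, hX⟩ := submod v v' hnv hnv'
  apply hX
  by_contra hne
  have hlt : p < k := lt_of_le_of_ne hpk hne
  have hsn : s ≤ n := by
    have := nd_card hd
    simpa using this
  have hs1 : 1 ≤ s := by omega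
  have hA := ChainAux.low_small (w := w) hc1 hL (lt_of_lt_of_le hlt hkn.le) a ha
  have hB := ChainAux.low_large (w := w) hc1 hg hL hs1 hsn d hd
  have hw0 : 0 < w := by linarith
  have hxp : 0 < w ^ (p * (n - p)) := by positivity
  have hxs : 0 < w ^ (s * (n - s)) := by positivity
  have hxk : 0 < w ^ (k * (n - k)) := by positivity
  have hxl : 0 < w ^ (l * (n - l)) := by positivity
  have hAB : c * c ≤ (gr (g * rm a) * w ^ (p * (n - p))) * (gr (g * rm d) * w ^ (s * (n - s))) :=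
    mul_le_mul hA hB hc.le (hc.le.trans hA)
  have hle := hsub g
  have h1 : c * c * (w ^ (k * (n - k)) * w ^ (l * (n - l)))
      ≤ c * c * (w ^ (p * (n - p)) * w ^ (s * (n - s))) := by
    calc c * c * (w ^ (k * (n - k)) * w ^ (l * (n - l)))
        ≤ ((gr (g * rm a) * w ^ (p * (n - p))) * (gr (g * rm d) * w ^ (s * (n - s))))
          * (w ^ (k * (n - k)) * w ^ (l * (n - l))) :=
          mul_le_mul_of_nonneg_right hAB (by positivity)
      _ = (gr (g * rm a) * gr (g * rm d)) * ((w ^ (p * (n - p)) * w ^ (s * (n - s)))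
          * (w ^ (k * (n - k)) * w ^ (l * (n - l)))) := by ring
      _ ≤ (gr (g * rm v) * gr (g * rm v')) * ((w ^ (p * (n - p)) * w ^ (s * (n - s)))
          * (w ^ (k * (n - k)) * w ^ (l * (n - l)))) :=
          mul_le_mul_of_nonneg_right hle (by positivity)
      _ = (gr (g * rm v) * w ^ (k * (n - k))) * (gr (g * rm v') * w ^ (l * (n - l)))
          * (w ^ (p * (n - p)) * w ^ (s * (n - s))) := by ring
      _ = c * c * (w ^ (p * (n - p)) * w ^ (s * (n - s))) := by rw [hev, hev']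
  have h2 : w ^ (k * (n - k)) * w ^ (l * (n - l)) ≤ w ^ (p * (n - p)) * w ^ (s * (n - s)) :=
    le_of_mul_le_mul_left h1 (by positivity)
  rw [← pow_add, ← pow_add, pow_le_pow_iff_right₀ hw] at h2
  have e1 : ((n - k : ℕ) : ℤ) = n - k := by push_cast [Nat.cast_sub hkn.le]; ring
  have e2 : ((n - l : ℕ) : ℤ) = n - l := by push_cast [Nat.cast_sub hln.le]; ring
  have e3 : ((n - p : ℕ) : ℤ) = n - p := by push_cast [Nat.cast_sub (hlt.le.trans hkn.le)]; ring
  have e4 : ((n - s : ℕ) : ℤ) = n - s := by push_cast [Nat.cast_sub hsn]; ring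
  have h3 : (k : ℤ) * (n - k) + l * (n - l) ≤ p * (n - p) + s * (n - s) := by
    have := h2
    zify at this
    rw [e1, e2, e3, e4] at this
    exact this
  have hs : (s : ℤ) = k + l - p := by
    have : (p : ℤ) + s = k + l := by exact_mod_cast hps
    linarith
  rw [hs] at h3
  have h4 : (0 : ℤ) < (k - p) * (l - p) := by
    apply mul_pos
    · have : (p : ℤ) < k := by exact_mod_cast hlt
      linarith
    · have : (p : ℤ) < l := by exact_mod_cast lt_of_lt_of_le hlt hkl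
      linarith
  nlinarith [h3, h4]

/-- Two active sublattices of the same rank have the same covolume functions: `v = v' X`,
`det(X)² = 1`. -/
theorem chain_eq {n : ℕ} {w c : ℝ} (hw : 1 < w) (hc : 0 < c) (hc1 : c < 1)
    {g : Matrix (Fin n) (Fin n) ℝ} (hg : |g.det| = 1) (hL : Low w c g) {k : ℕ}
    {v v' : Matrix (Fin n) (Fin k) ℤ} (hv : Act w c g v) (hv' : Act w c g v')
    (g' : Matrix (Fin n) (Fin n) ℝ) : gr (g' * rm v) = gr (g' * rm v') := by
  obtain ⟨X, hX⟩ := chain hw hc hc1 hg hL le_rfl hv hv'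
  obtain ⟨hk1, hkn, hnv, hev⟩ := hv
  obtain ⟨hl1, hln, hnv', hev'⟩ := hv'
  have hw0 : 0 < w := by linarith
  have hxk : 0 < w ^ (k * (n - k)) := by positivity
  have h1 : gr (g * rm v) = gr (g * rm v') := by
    have : gr (g * rm v) * w ^ (k * (n - k)) = gr (g * rm v') * w ^ (k * (n - k)) := by
      rw [hev, hev']
    exact mul_right_cancel₀ hxk.ne' this
  have h2 : gr (g * rm v') ≠ 0 := by
    intro h
    rw [h, zero_mul] at hev'
    exact hc.ne hev'
  have h3 : ∀ G : Matrix (Fin n) (Fin n) ℝ, gr (G * rm v) = X.det ^ 2 * gr (G * rm v') := by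
    intro G
    rw [hX, ← Matrix.mul_assoc, gr_mul_sq]
  have h4 : X.det ^ 2 = 1 := by
    have := h3 g
    rw [h1] at this
    have h5 : (X.det ^ 2 - 1) * gr (g * rm v') = 0 := by linarith
    rcases mul_eq_zero.1 h5 with h | h
    · linarith
    · exact absurd h h2
  rw [h3 g', h4, one_mul]

end Pool.Agent.Lib.MP_ddd95a_nt.Mord
end
end
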