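import Pool.Agent.Lib.MP_ddd95a_nt.Mord.Defs
import Pool.Agent.Lib.MP_ddd95a_nt.Mg.G001

section

/-!
# The matrix min
-/

open Matrix MeasureTheory Filter Set
open scoped ENNReal Topology

noncomputable section

namespace Pool.Agent.Lib.MP_ddd95a_nt.Mord

/-- The matrix `min (k, c)` is positive definite: `∑ x_k x_c min(k, c) = ∑_(t < n) (∑_(c > t) x_c)²`.
So if `∑_c x_c min (k, c) = 0` for all `k ∈ S` then `x = 0` on `S`. -/
theorem min_mat (S : Finset ℕ) (hS : ∀ k ∈ S, 0 < k) (x : ℕ → ℝ)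
    (h : ∀ k ∈ S, ∑ c ∈ S, x c * ((min k c : ℕ) : ℝ) = 0) : ∀ k ∈ S, x k = 0 := by
  classical
  obtain ⟨N, hN⟩ : ∃ N : ℕ, ∀ k ∈ S, k ≤ N := ⟨S.sup id, fun k hk => Finset.le_sup (f := id) hk⟩
  -- the tails
  obtain ⟨T, hT⟩ : ∃ T : ℕ → ℝ, T = fun t => ∑ c ∈ S, if t < c then x c else 0 := ⟨_, rfl⟩
  have hTa : ∀ t, T t = ∑ c ∈ S, if t < c then x c else 0 := fun t => by rw [hT]
  have hmin : ∀ k ∈ S, ∀ c, ((min k c : ℕ) : ℝ) = ∑ t ∈ Finset.range N,
      (if t < k then (1 : ℝ) else 0) * (if t < c then 1 else 0) := by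
    intro k hk c
    have h1 : ∀ t, (if t < k then (1 : ℝ) else 0) * (if t < c then 1 else 0) =
        if t < min k c then 1 else 0 := by
      intro t
      by_cases h2 : t < k <;> by_cases h3 : t < c <;> simp [h2, h3]
    rw [Finset.sum_congr rfl fun t _ => h1 t, Finset.sum_boole]
    congr 1
    have h2 : (Finset.range N).filter (fun t => t < min k c) = Finset.range (min k c) := by
      ext t
      rw [Finset.mem_filter, Finset.mem_range, Finset.mem_range]
      have := hN k hk
      omega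
    rw [h2, Finset.card_range]
  have hsum : ∑ t ∈ Finset.range N, T t ^ 2 = 0 := by
    have h1 : ∑ k ∈ S, x k * ∑ c ∈ S, x c * ((min k c : ℕ) : ℝ) = 0 :=
      Finset.sum_eq_zero fun k hk => by rw [h k hk, mul_zero]
    rw [← h1]
    have h2 : ∀ t, T t ^ 2 = ∑ k ∈ S, ∑ c ∈ S, (x k * (if t < k then 1 else 0)) *
        (x c * (if t < c then 1 else 0)) := by
      intro t
      rw [← Finset.sum_mul_sum, ← sq, hTa]
      congr 1
      exact Finset.sum_congr rfl fun c _ => by split_ifs <;> simp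
    rw [Finset.sum_congr rfl fun t _ => h2 t, Finset.sum_comm]
    refine Finset.sum_congr rfl fun k hk => ?_
    rw [Finset.sum_comm, Finset.mul_sum]
    refine Finset.sum_congr rfl fun c _ => ?_
    rw [hmin k hk c, Finset.mul_sum, Finset.mul_sum]
    refine Finset.sum_congr rfl fun t _ => ?_
    ring
  have hT0 : ∀ t, t < N → T t = 0 := by
    intro t ht
    have h1 := (Finset.sum_eq_zero_iff_of_nonneg fun t _ => sq_nonneg (T t)).1 hsum t
      (Finset.mem_range.2 ht)
    exact pow_eq_zero_iff (two_ne_zero) |>.1 h1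
  have hT0' : ∀ t, T t = 0 := by
    intro t
    rcases lt_or_ge t N with h1 | h1
    · exact hT0 t h1
    · rw [hTa]
      refine Finset.sum_eq_zero fun c hc => ?_
      rw [if_neg]
      have := hN c hc
      omega
  intro k hk
  have hk0 := hS k hk
  have h1 : T (k - 1) - T k = x k := by
    rw [hTa, hTa, ← Finset.sum_sub_distrib]
    rw [Finset.sum_eq_single_of_mem k hk]
    · rw [if_pos (by omega), if_neg (lt_irrefl k), sub_zero]
    · intro c _ hck
      by_cases h2 : k < c
      · rw [if_pos (by omega), if_pos h2, sub_self]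
      · rw [if_neg (by omega), if_neg h2, sub_self]
  rw [← h1, hT0', hT0', sub_self]

end Pool.Agent.Lib.MP_ddd95a_nt.Mord
end
end

section

/-!
# The linear algebra of the perturbation
-/

open Matrix MeasureTheory Filter Set
open scoped ENNReal Topology

noncomputable section

namespace Pool.Agent.Lib.MP_ddd95a_nt.Mord

namespace LinAux

theorem sum_ind (k c : ℕ) : ∑ i : Fin k, (if (i : ℕ) < c then (1 : ℝ) else 0) = ((min k c : ℕ) : ℝ) := by
  rw [Fin.sum_univ_eq_sum_range (fun i => if i < c then (1 : ℝ) else 0) k, Finset.sum_boole]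
  have e : Finset.filter (fun i => i < c) (Finset.range k) = Finset.range (min k c) := by
    ext i
    simp only [Finset.mem_filter, Finset.mem_range, lt_min_iff]
  rw [e, Finset.card_range]

end LinAux

/-- Linear algebra: consider the vectors `θ = ∑_(c ∈ S ∪ {n}) x_c χ_c`, `χ_c` the indicator function of
`π {0, …, c-1}`, and the square linear system for `x` with the equations `Λ k θ = 1` (`k ∈ S`) and
`∑ θ i = 0`. If its matrix is invertible we get the first alternative. Otherwise there is `x ≠ 0` with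
`Λ k θ = 0` (`k ∈ S`), `∑ θ i = 0`; as `∑_(i < k) θ (π i) = ∑_c x_c min (k, c)`, `min_mat` for the set
`S ∪ {n}` gives some `k ∈ S ∪ {n}` with `∑_(i < k) θ (π i) ≠ 0`, and `k ≠ n`. -/
theorem lin_alt {n : ℕ} (hn : 1 ≤ n) (S : Finset ℕ) (hS : ∀ k ∈ S, 0 < k ∧ k < n)
    (Λ : ℕ → (Fin n → ℝ) →ₗ[ℝ] ℝ) (π : Equiv.Perm (Fin n)) :
    (∃ θ : Fin n → ℝ, ∑ i, θ i = 0 ∧ ∀ k ∈ S, Λ k θ = 1) ∨
    (∃ θ : Fin n → ℝ, ∑ i, θ i = 0 ∧ (∀ k ∈ S, Λ k θ = 0) ∧
      ∃ k ∈ S, ∃ hk : k ≤ n, ∑ i : Fin k, θ (π (Fin.castLE hk i)) ≠ 0) := by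
  classical
  have hnS : n ∉ S := fun h => absurd (hS n h).2 (lt_irrefl n)
  let S' : Finset ℕ := insert n S
  let χ : ℕ → Fin n → ℝ := fun c i => if ((π.symm i : Fin n) : ℕ) < c then 1 else 0
  let Θ : (S' → ℝ) →ₗ[ℝ] (Fin n → ℝ) :=
    { toFun := fun x i => ∑ c : S', x c * χ c i
      map_add' := by
        intro x y
        funext i
        simp only [Pi.add_apply, add_mul, Finset.sum_add_distrib]
      map_smul' := by
        intro a x
        funext i
        simp only [Pi.smul_apply, smul_eq_mul, RingHom.id_apply, mul_assoc, Finset.mul_sum] }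
  let σ : (Fin n → ℝ) →ₗ[ℝ] ℝ :=
    { toFun := fun θ => ∑ i, θ i
      map_add' := by
        intro x y
        simp only [Pi.add_apply, Finset.sum_add_distrib]
      map_smul' := by
        intro a x
        simp only [Pi.smul_apply, smul_eq_mul, RingHom.id_apply, Finset.mul_sum] }
  let T : (S' → ℝ) →ₗ[ℝ] (S' → ℝ) :=
    LinearMap.pi fun k => if (k : ℕ) ∈ S then (Λ k).comp Θ else σ.comp Θ
  have hT1 : ∀ x : S' → ℝ, ∀ k (hk : k ∈ S), T x ⟨k, Finset.mem_insert_of_mem hk⟩ = Λ k (Θ x) := by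
    intro x k hk
    change (if k ∈ S then (Λ k).comp Θ else σ.comp Θ) x = _
    rw [if_pos hk]
    rfl
  have hT2 : ∀ x : S' → ℝ, T x ⟨n, Finset.mem_insert_self n S⟩ = ∑ i, Θ x i := by
    intro x
    change (if n ∈ S then (Λ n).comp Θ else σ.comp Θ) x = _
    rw [if_neg hnS]
    rfl
  by_cases hinj : Function.Injective T
  · left
    have hsurj : Function.Surjective T := LinearMap.injective_iff_surjective.mp hinj
    obtain ⟨x, hx⟩ := hsurj (fun k => if (k : ℕ) ∈ S then 1 else 0)
    refine ⟨Θ x, ?_, ?_⟩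
    · rw [← hT2, hx]
      exact if_neg hnS
    · intro k hk
      rw [← hT1 x k hk, hx]
      exact if_pos hk
  · right
    have hex : ∃ x : S' → ℝ, T x = 0 ∧ x ≠ 0 := by
      by_contra hcon
      push Not at hcon
      exact hinj ((injective_iff_map_eq_zero T).mpr hcon)
    obtain ⟨x, hx, hx0⟩ := hex
    have hsum : ∑ i, Θ x i = 0 := by
      rw [← hT2, hx]
      rfl
    refine ⟨Θ x, hsum, ?_, ?_⟩
    · intro k hk
      rw [← hT1 x k hk, hx]
      rfl
    · by_contra hcon
      push Not at hcon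
      let x' : ℕ → ℝ := fun c => if h : c ∈ S' then x ⟨c, h⟩ else 0
      have hx' : ∀ c : S', x' c = x c := by
        intro c
        change (if h : (c : ℕ) ∈ S' then x ⟨c, h⟩ else 0) = x c
        rw [dif_pos c.2]
      have key : ∀ k, ∀ hk : k ≤ n, ∑ i : Fin k, Θ x (π (Fin.castLE hk i)) =
          ∑ c ∈ S', x' c * ((min k c : ℕ) : ℝ) := by
        intro k hk
        change ∑ i : Fin k, ∑ c : S', x c * χ c (π (Fin.castLE hk i)) = _
        rw [Finset.sum_comm, ← Finset.sum_coe_sort S' (fun c => x' c * ((min k c : ℕ) : ℝ))]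
        refine Finset.sum_congr rfl fun c _ => ?_
        rw [← Finset.mul_sum, hx', ← LinAux.sum_ind k c]
        congr 1
        refine Finset.sum_congr rfl fun i _ => ?_
        change (if ((π.symm (π (Fin.castLE hk i)) : Fin n) : ℕ) < (c : ℕ) then (1 : ℝ) else 0) = _
        rw [Equiv.symm_apply_apply]
        rfl
      have hz : ∀ k ∈ S', ∑ c ∈ S', x' c * ((min k c : ℕ) : ℝ) = 0 := by
        intro k hk
        rcases Finset.mem_insert.mp hk with rfl | hk'
        · rw [← key k le_rfl, ← hsum]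
          exact Fintype.sum_equiv ((Equiv.refl (Fin k)).trans π) _ _ (fun i => rfl)
        · have hkn : k ≤ n := (hS k hk').2.le
          rw [← key k hkn]
          exact hcon k hk' hkn
      have hpos : ∀ k ∈ S', 0 < k := by
        intro k hk
        rcases Finset.mem_insert.mp hk with rfl | hk'
        · omega
        · exact (hS k hk').1
      have h0 := min_mat S' hpos x' hz
      apply hx0
      funext c
      rw [← hx']
      exact h0 c c.2

end Pool.Agent.Lib.MP_ddd95a_nt.Mord
end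
end

section

/-!
# The closure of the orbit
-/

open Matrix MeasureTheory Filter Set
open scoped ENNReal Topology

noncomputable section

namespace Pool.Agent.Lib.MP_ddd95a_nt.Mord

/-- The elements of the closure of the orbit: determinant one, invariance. -/
theorem orb_self {n : ℕ} (h : Matrix (Fin n) (Fin n) ℝ) : h ∈ orb h := by
  refine ⟨fun _ => 1, fun _ => one_pos, Finset.prod_const_one, 1, Matrix.det_one, ?_⟩
  have h1 : rm (1 : Matrix (Fin n) (Fin n) ℤ) = 1 := by
    rw [rm, Matrix.map_one _ Int.cast_zero Int.cast_one]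
  rw [h1, Matrix.mul_one, Matrix.diagonal_one, Matrix.one_mul]

theorem orb_det {n : ℕ} {h g : Matrix (Fin n) (Fin n) ℝ} (hh : h.det = 1)
    (hg : g ∈ closure (orb h)) : g.det = 1 := by
  have hcl : IsClosed {g : Matrix (Fin n) (Fin n) ℝ | g.det = 1} :=
    isClosed_eq (Continuous.matrix_det continuous_id) continuous_const
  have hsub : orb h ⊆ {g : Matrix (Fin n) (Fin n) ℝ | g.det = 1} := by
    rintro g ⟨a, _, ha, u, hu, rfl⟩
    change (diagonal a * h * rm u).det = 1
    rw [Matrix.det_mul, Matrix.det_mul, Matrix.det_diagonal, ha, hh, det_rm, hu]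
    norm_num
  exact closure_minimal hsub hcl hg

theorem orb_unimod {n : ℕ} {h g : Matrix (Fin n) (Fin n) ℝ} (hg : g ∈ closure (orb h))
    {u : Matrix (Fin n) (Fin n) ℤ} (hu : u.det = 1) : g * rm u ∈ closure (orb h) := by
  have hc : Continuous fun g : Matrix (Fin n) (Fin n) ℝ => g * rm u :=
    Continuous.matrix_mul continuous_id continuous_const
  apply map_mem_closure hc hg
  rintro g ⟨a, ha0, ha, u', hu', rfl⟩
  refine ⟨a, ha0, ha, u' * u, ?_, ?_⟩
  · rw [Matrix.det_mul, hu, hu', one_mul]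
  · change Matrix.diagonal a * h * rm u' * rm u = Matrix.diagonal a * h * rm (u' * u)
    rw [rm_mul, Matrix.mul_assoc (Matrix.diagonal a * h)]

theorem orb_tilt {n : ℕ} {h g : Matrix (Fin n) (Fin n) ℝ} (hg : g ∈ closure (orb h))
    {θ : Fin n → ℝ} (hθ : ∑ i, θ i = 0) : tilt θ g ∈ closure (orb h) := by
  have hc : Continuous fun g : Matrix (Fin n) (Fin n) ℝ => tilt θ g :=
    Continuous.matrix_mul continuous_const continuous_id
  apply map_mem_closure hc hg
  rintro g ⟨a, ha0, ha, u, hu, rfl⟩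
  refine ⟨fun i => Real.exp (θ i) * a i, fun i => mul_pos (Real.exp_pos _) (ha0 i), ?_, u, hu, ?_⟩
  · rw [Finset.prod_mul_distrib, ha, ← Real.exp_sum, hθ, Real.exp_zero, one_mul]
  · change Matrix.diagonal (fun i => Real.exp (θ i)) * (Matrix.diagonal a * h * rm u) = _
    rw [← Matrix.mul_assoc, ← Matrix.mul_assoc, Matrix.diagonal_mul_diagonal]

end Pool.Agent.Lib.MP_ddd95a_nt.Mord
end
end
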