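import Pool.Agent.Lib.MP_ddd95a_nt.Mord.VorT
import Pool.Agent.Lib.MP_ddd95a_nt.Mg.G001
import Pool.Agent.Lib.MP_ddd95a_nt.Mord.Herm
import Pool.Agent.Lib.MP_ddd95a_nt.Mg.G006
import Pool.Agent.Lib.MP_ddd95a_nt.Mg.G008

section

/-!
# Other fundamental domains have smaller Gaussian measure
-/

open Matrix MeasureTheory Filter Set
open scoped ENNReal Topology

noncomputable section

namespace Pool.Agent.Lib.MP_ddd95a_nt.Mord

variable {ι : Type*} [Fintype ι] [DecidableEq ι]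

namespace JFAux

omit [DecidableEq ι] in
/-- Almost every point has at most one integer translate in the set. -/
theorem ae_sum_le {S : Set (ι → ℝ)}
    (hd : ∀ m : ι → ℤ, m ≠ 0 → volume (S ∩ {x | x - zc m ∈ S}) = 0) :
    ∀ᵐ x : ι → ℝ, ∑' m : ι → ℤ, S.indicator (fun _ => (1 : ℝ≥0∞)) (x + zc m) ≤ 1 := by
  have h1 : ∀ᵐ x : ι → ℝ, ∀ m : ι → ℤ, ∀ m' : ι → ℤ, m' ≠ 0 →
      ¬ (x + zc m ∈ S ∧ x + zc m - zc m' ∈ S) := by
    rw [ae_all_iff]
    intro m
    rw [ae_all_iff]
    intro m'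
    by_cases hm : m' = 0
    · exact Filter.Eventually.of_forall fun x h => absurd hm h
    · have h2 : ∀ᵐ y : ι → ℝ, ¬ (y ∈ S ∧ y - zc m' ∈ S) := by
        rw [ae_iff]
        have : {a : ι → ℝ | ¬ ¬ (a ∈ S ∧ a - zc m' ∈ S)} = S ∩ {x | x - zc m' ∈ S} := by
          ext y
          simp only [mem_ofPred_eq, not_not, mem_inter_iff]
        rw [this]
        exact hd m' hm
      have h3 := (measurePreserving_add_right (volume : Measure (ι → ℝ)) (zc m)).quasiMeasurePreserving.ae h2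
      filter_upwards [h3] with x hx _
      exact hx
  filter_upwards [h1] with x hx
  by_cases hex : ∃ m : ι → ℤ, x + zc m ∈ S
  · obtain ⟨m, hm⟩ := hex
    rw [tsum_eq_single m]
    · rw [indicator_of_mem hm]
    · intro m' hm'
      apply indicator_of_notMem
      intro h'
      refine hx m (m - m') (sub_ne_zero.mpr hm'.symm) ⟨hm, ?_⟩
      have : x + zc m - zc (m - m') = x + zc m' := by
        funext i
        simp only [zc, Pi.add_apply, Pi.sub_apply]
        push_cast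
        ring
      rw [this]
      exact h'
  · have : ∀ m : ι → ℤ, S.indicator (fun _ => (1 : ℝ≥0∞)) (x + zc m) = 0 := fun m =>
      indicator_of_notMem (fun h => hex ⟨m, h⟩) _
    simp only [this, tsum_zero, zero_le]

omit [DecidableEq ι] in
theorem gw_le {g : Matrix ι ι ℝ} {y : ι → ℝ} (hy : y ∈ vor g) (m : ι → ℤ) :
    gw g (y + zc m) ≤ gw g y := by
  unfold gw
  apply ENNReal.ofReal_le_ofReal
  apply Real.exp_le_exp.mpr
  have h := hy (-m)
  have h2 : y - zc (-m) = y + zc m := by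
    funext i
    simp only [zc, Pi.add_apply, Pi.sub_apply, Pi.neg_apply]
    push_cast
    ring
  rw [h2] at h
  linarith

end JFAux

/-- Proof: let `c` be the constant in `J`. For `y ∈ vor g`: `qf g y ≤ qf g (y + zc m)`, so
`gw g (y + zc m) ≤ gw g y`. By `vor_tile`, `J g S = c ∑_m ∫_(vor g) 1_S(y + m) gw g (y + m) dy ≤
c ∫_(vor g) (∑_m 1_S(y + m)) gw g y dy`, and `∑_m 1_S(y + m) ≤ 1` for almost every `y` by `hd`. -/
theorem J_le_F {g : Matrix ι ι ℝ} (hg : g.det ≠ 0) {S : Set (ι → ℝ)} (hS : MeasurableSet S)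
    (hd : ∀ m : ι → ℤ, m ≠ 0 → volume (S ∩ {x | x - zc m ∈ S}) = 0) : J g S ≤ F g := by
  unfold F J
  apply mul_le_mul_right
  have hcl : MeasurableSet (vor g) := (vor_isClosed g).measurableSet
  have hgm := gw_measurable g
  have hm : Measurable (S.indicator (gw g)) := hgm.indicator hS
  rw [← lintegral_indicator hS, vor_tile hg _ hm]
  have h1 : ∀ m : ι → ℤ, ∫⁻ x in vor g, S.indicator (gw g) (x + zc m)
      ≤ ∫⁻ x in vor g, S.indicator (fun _ => (1 : ℝ≥0∞)) (x + zc m) * gw g x := by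
    intro m
    apply lintegral_mono_ae
    filter_upwards [ae_restrict_mem hcl] with x hx
    by_cases h : x + zc m ∈ S
    · rw [indicator_of_mem h, indicator_of_mem h, one_mul]
      exact JFAux.gw_le hx m
    · rw [indicator_of_notMem h]
      exact zero_le
  calc ∑' m : ι → ℤ, ∫⁻ x in vor g, S.indicator (gw g) (x + zc m)
      ≤ ∑' m : ι → ℤ, ∫⁻ x in vor g, S.indicator (fun _ => (1 : ℝ≥0∞)) (x + zc m) * gw g x :=
        ENNReal.tsum_le_tsum h1
    _ = ∫⁻ x in vor g, ∑' m : ι → ℤ, S.indicator (fun _ => (1 : ℝ≥0∞)) (x + zc m) * gw g x := by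
        rw [lintegral_tsum]
        intro m
        exact (((measurable_const.indicator hS).comp (measurable_id.add_const (zc m))).mul
          hgm).aemeasurable
    _ ≤ ∫⁻ x in vor g, gw g x := by
        apply lintegral_mono_ae
        filter_upwards [ae_restrict_of_ae (JFAux.ae_sum_le hd)] with x hx
        rw [ENNReal.tsum_mul_right]
        calc (∑' m : ι → ℤ, S.indicator (fun _ => (1 : ℝ≥0∞)) (x + zc m)) * gw g x
            ≤ 1 * gw g x := mul_le_mul_left hx _
          _ = gw g x := one_mul _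

end Pool.Agent.Lib.MP_ddd95a_nt.Mord
end
end

section

/-!
# Logarithmic concavity along the diagonal group
-/

open Matrix MeasureTheory Filter Set
open scoped ENNReal Topology

noncomputable section

namespace Pool.Agent.Lib.MP_ddd95a_nt.Mord

variable {n : ℕ}

namespace LogCAux

theorem det_tilt (θ : Fin n → ℝ) (G : Matrix (Fin n) (Fin n) ℝ) :
    (tilt θ G).det = Real.exp (∑ i, θ i) * G.det := by
  unfold tilt
  rw [Matrix.det_mul, Matrix.det_diagonal, Real.exp_sum]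

theorem wt_continuous (θ : Fin n → ℝ) (G : Matrix (Fin n) (Fin n) ℝ) (s : ℝ) :
    Continuous (wt θ G s) := by
  unfold wt
  exact Real.continuous_exp.comp (((qf_continuous _).neg).div_const 2)

theorem mulVec_continuous (G : Matrix (Fin n) (Fin n) ℝ) (i : Fin n) :
    Continuous (fun x : Fin n → ℝ => (G *ᵥ x) i) :=
  (continuous_apply i).comp (continuous_const.matrix_mulVec continuous_id)

theorem q_continuous (θ : Fin n → ℝ) (G : Matrix (Fin n) (Fin n) ℝ) :
    Continuous (fun x : Fin n → ℝ => ∑ i, θ i * (G *ᵥ x) i ^ 2) :=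
  continuous_finsetSum _ fun i _ => continuous_const.mul ((mulVec_continuous G i).pow 2)

theorem Z_pos {K : Set (Fin n → ℝ)} (hK : IsCompact K) (hv : volume K ≠ 0) (θ : Fin n → ℝ)
    (G : Matrix (Fin n) (Fin n) ℝ) (s : ℝ) : 0 < ∫ x in K, wt θ G s x := by
  have h1 : IntegrableOn (wt θ G s) K := (wt_continuous θ G s).continuousOn.integrableOn_compact hK
  have h0 : 0 ≤ wt θ G s := fun x => (Real.exp_pos _).le
  rw [integral_pos_iff_support_of_nonneg h0 h1]
  have h2 : Function.support (wt θ G s) = univ := by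
    ext x
    simp only [Function.mem_support, mem_univ, iff_true]
    exact (Real.exp_pos _).ne'
  rw [h2, Measure.restrict_apply_univ]
  exact pos_iff_ne_zero.2 hv

theorem ineq {K : Set (Fin n → ℝ)} (hK : IsCompact K) (hc : Convex ℝ K)
    (hs : ∀ x ∈ K, -x ∈ K) (θ : Fin n → ℝ)
    {G : Matrix (Fin n) (Fin n) ℝ} (hG : G.det ≠ 0) (s : ℝ) :
    (∫ x in K, ((∑ i, θ i * (tilt (s • θ) G *ᵥ x) i ^ 2) ^ 2 -
        2 * ∑ i, θ i ^ 2 * (tilt (s • θ) G *ᵥ x) i ^ 2) * wt θ G s x) *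
      (∫ x in K, wt θ G s x) -
      (-∫ x in K, (∑ i, θ i * (tilt (s • θ) G *ᵥ x) i ^ 2) * wt θ G s x) *
      (-∫ x in K, (∑ i, θ i * (tilt (s • θ) G *ᵥ x) i ^ 2) * wt θ G s x) ≤ 0 := by
  have hd : (tilt (s • θ) G).det ≠ 0 := by
    rw [det_tilt]
    exact mul_ne_zero (Real.exp_pos _).ne' hG
  have h1 := var_ineq_lin hK.measurableSet hc hs θ hd
  have hi1 : IntegrableOn (fun x => (∑ i, θ i * (tilt (s • θ) G *ᵥ x) i ^ 2) ^ 2 * wt θ G s x) K :=
    (((q_continuous θ _).pow 2).mul (wt_continuous θ G s)).continuousOn.integrableOn_compact hK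
  have hi2 : IntegrableOn (fun x => (∑ i, θ i ^ 2 * (tilt (s • θ) G *ᵥ x) i ^ 2) * wt θ G s x) K :=
    ((q_continuous (fun i => θ i ^ 2) _).mul (wt_continuous θ G s)).continuousOn.integrableOn_compact hK
  have h2 : (∫ x in K, ((∑ i, θ i * (tilt (s • θ) G *ᵥ x) i ^ 2) ^ 2 -
        2 * ∑ i, θ i ^ 2 * (tilt (s • θ) G *ᵥ x) i ^ 2) * wt θ G s x) =
      (∫ x in K, (∑ i, θ i * (tilt (s • θ) G *ᵥ x) i ^ 2) ^ 2 * wt θ G s x) -
      2 * ∫ x in K, (∑ i, θ i ^ 2 * (tilt (s • θ) G *ᵥ x) i ^ 2) * wt θ G s x := by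
    rw [← integral_const_mul, ← integral_sub hi1 (hi2.const_mul 2)]
    refine integral_congr_ae (Filter.Eventually.of_forall fun x => ?_)
    change _ * _ = _ - _
    ring
  rw [h2]
  have h3 : ∀ x, Real.exp (-(qf (tilt (s • θ) G) x) / 2) = wt θ G s x := fun _ => rfl
  simp only [h3] at h1
  nlinarith

theorem J_eq {K : Set (Fin n → ℝ)} (hK : IsCompact K) {θ : Fin n → ℝ} (hθ : ∑ i, θ i = 0)
    (G : Matrix (Fin n) (Fin n) ℝ) (s : ℝ) :
    J (tilt (s • θ) G) K =
      ENNReal.ofReal (|G.det| / Real.sqrt (2 * Real.pi) ^ Fintype.card (Fin n)) *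
        ENNReal.ofReal (∫ x in K, wt θ G s x) := by
  have h1 : IntegrableOn (wt θ G s) K := (wt_continuous θ G s).continuousOn.integrableOn_compact hK
  unfold J
  have h2 : (tilt (s • θ) G).det = G.det := by
    rw [det_tilt]
    have h3 : ∑ i, (s • θ) i = 0 := by
      simp only [Pi.smul_apply, smul_eq_mul]
      rw [← Finset.mul_sum, hθ, mul_zero]
    rw [h3, Real.exp_zero, one_mul]
  rw [h2, ofReal_integral_eq_lintegral_ofReal h1
    (Filter.Eventually.of_forall fun x => (Real.exp_pos _).le)]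
  rfl

end LogCAux

/-- Proof: with `Z`, `Z'`, `Z''` from `hasDerivAt_wt`, `hasDerivAt_wt'`: `(log Z)'' = (Z'' Z - Z'²) / Z²`
and `Z'' Z ≤ Z'²` is `var_ineq_lin` for the matrix `tilt (s • θ) G` (its determinant is not `0`);
`Z > 0` since `volume K > 0`. -/
theorem log_concave {K : Set (Fin n → ℝ)} (hK : IsCompact K) (hc : Convex ℝ K)
    (hs : ∀ x ∈ K, -x ∈ K) (hv : volume K ≠ 0) (θ : Fin n → ℝ)
    {G : Matrix (Fin n) (Fin n) ℝ} (hG : G.det ≠ 0) :
    ConcaveOn ℝ univ (fun s => Real.log (∫ x in K, wt θ G s x)) := by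
  have hZ : ∀ s, 0 < ∫ x in K, wt θ G s x := LogCAux.Z_pos hK hv θ G
  have h1 : ∀ s, HasDerivAt (fun s => Real.log (∫ x in K, wt θ G s x))
      ((-∫ x in K, (∑ i, θ i * (tilt (s • θ) G *ᵥ x) i ^ 2) * wt θ G s x) /
        ∫ x in K, wt θ G s x) s := fun s => (hasDerivAt_wt hK θ G s).log (hZ s).ne'
  have h2 : deriv (fun s => Real.log (∫ x in K, wt θ G s x)) = fun s =>
      ((-∫ x in K, (∑ i, θ i * (tilt (s • θ) G *ᵥ x) i ^ 2) * wt θ G s x) /
        ∫ x in K, wt θ G s x) := funext fun s => (h1 s).deriv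
  have h3 : ∀ s, HasDerivAt (fun s =>
      ((-∫ x in K, (∑ i, θ i * (tilt (s • θ) G *ᵥ x) i ^ 2) * wt θ G s x) /
        ∫ x in K, wt θ G s x))
      (((∫ x in K, ((∑ i, θ i * (tilt (s • θ) G *ᵥ x) i ^ 2) ^ 2 -
        2 * ∑ i, θ i ^ 2 * (tilt (s • θ) G *ᵥ x) i ^ 2) * wt θ G s x) *
      (∫ x in K, wt θ G s x) -
      (-∫ x in K, (∑ i, θ i * (tilt (s • θ) G *ᵥ x) i ^ 2) * wt θ G s x) *
      (-∫ x in K, (∑ i, θ i * (tilt (s • θ) G *ᵥ x) i ^ 2) * wt θ G s x)) /
        (∫ x in K, wt θ G s x) ^ 2) s := fun s =>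
    (hasDerivAt_wt' hK θ G s).div (hasDerivAt_wt hK θ G s) (hZ s).ne'
  refine concaveOn_univ_of_deriv2_nonpos (fun s => (h1 s).differentiableAt) ?_ ?_
  · rw [h2]
    exact fun s => (h3 s).differentiableAt
  · intro s
    rw [Function.iterate_succ, Function.iterate_one, Function.comp_apply, h2, (h3 s).deriv]
    exact div_nonpos_of_nonpos_of_nonneg (LogCAux.ineq hK hc hs θ hG s) (sq_nonneg _)

/-- The form which is used: `J (tilt (s • θ) G) K` is a constant times `∫ x in K, wt θ G s x`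
(as `∑ θ i = 0` the determinants agree); a concave function with `φ s ≤ φ 0` satisfies
`φ 1 ≤ φ s`. -/
theorem J_decr {K : Set (Fin n → ℝ)} (hK : IsCompact K) (hc : Convex ℝ K)
    (hs : ∀ x ∈ K, -x ∈ K) (hv : volume K ≠ 0) {θ : Fin n → ℝ} (hθ : ∑ i, θ i = 0)
    {G : Matrix (Fin n) (Fin n) ℝ} (hG : G.det ≠ 0) {s : ℝ} (hs0 : 0 < s) (hs1 : s < 1)
    (h : J (tilt (s • θ) G) K ≤ J G K) : J (tilt θ G) K ≤ J (tilt (s • θ) G) K := by
  have hZ : ∀ s, 0 < ∫ x in K, wt θ G s x := LogCAux.Z_pos hK hv θ G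
  have hJ := LogCAux.J_eq hK hθ G
  have h0 : J G K = J (tilt ((0 : ℝ) • θ) G) K := by
    congr 1
    unfold tilt
    have : (diagonal fun i => Real.exp (((0 : ℝ) • θ) i)) = (1 : Matrix (Fin n) (Fin n) ℝ) := by
      rw [← Matrix.diagonal_one]
      congr 1
      funext i
      rw [zero_smul, Pi.zero_apply, Real.exp_zero]
    rw [this, Matrix.one_mul]
  have h1 : J (tilt θ G) K = J (tilt ((1 : ℝ) • θ) G) K := by rw [one_smul]
  have hc0 : 0 < |G.det| / Real.sqrt (2 * Real.pi) ^ Fintype.card (Fin n) := by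
    have := abs_pos.2 hG
    positivity
  have hc1 : ENNReal.ofReal (|G.det| / Real.sqrt (2 * Real.pi) ^ Fintype.card (Fin n)) ≠ 0 :=
    (ENNReal.ofReal_pos.2 hc0).ne'
  rw [h0, hJ, hJ, ENNReal.mul_le_mul_iff_right hc1 ENNReal.ofReal_ne_top,
    ENNReal.ofReal_le_ofReal_iff (hZ 0).le] at h
  rw [h1, hJ, hJ, ENNReal.mul_le_mul_iff_right hc1 ENNReal.ofReal_ne_top,
    ENNReal.ofReal_le_ofReal_iff (hZ s).le]
  have hcon := (log_concave hK hc hs hv θ hG).2 (mem_univ 0) (mem_univ 1)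
    (show (0 : ℝ) ≤ 1 - s by linarith) hs0.le (show (1 - s) + s = 1 by ring)
  simp only [smul_eq_mul, mul_zero, mul_one, zero_add] at hcon
  have h2 : Real.log (∫ x in K, wt θ G s x) ≤ Real.log (∫ x in K, wt θ G 0 x) :=
    Real.log_le_log (hZ s) h
  have h3 : Real.log (∫ x in K, wt θ G 1 x) ≤ Real.log (∫ x in K, wt θ G s x) := by
    nlinarith
  exact (Real.log_le_log_iff (hZ 1) (hZ s)).1 h3

end Pool.Agent.Lib.MP_ddd95a_nt.Mord
end
end

section

/-!
# Reduction theory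
-/

open Matrix MeasureTheory Filter Set
open scoped ENNReal Topology

noncomputable section

namespace Pool.Agent.Lib.MP_ddd95a_nt.Mord

namespace RedAux

/-- The block matrix with the first row `(1, m)` and the lower right block `U`. -/
def wm {k : ℕ} (m : Fin k → ℤ) (U : Matrix (Fin k) (Fin k) ℤ) :
    Matrix (Fin (k + 1)) (Fin (k + 1)) ℤ :=
  Matrix.of fun i j => Fin.cases (Fin.cases 1 m j) (fun i' => Fin.cases 0 (fun j' => U i' j') j) i

theorem wm_zero_zero {k : ℕ} (m : Fin k → ℤ) (U : Matrix (Fin k) (Fin k) ℤ) :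
    wm m U 0 0 = 1 := rfl

theorem wm_zero_succ {k : ℕ} (m : Fin k → ℤ) (U : Matrix (Fin k) (Fin k) ℤ) (j : Fin k) :
    wm m U 0 j.succ = m j := rfl

theorem wm_succ_zero {k : ℕ} (m : Fin k → ℤ) (U : Matrix (Fin k) (Fin k) ℤ) (i : Fin k) :
    wm m U i.succ 0 = 0 := rfl

theorem wm_succ_succ {k : ℕ} (m : Fin k → ℤ) (U : Matrix (Fin k) (Fin k) ℤ) (i j : Fin k) :
    wm m U i.succ j.succ = U i j := rfl

theorem det_wm {k : ℕ} (m : Fin k → ℤ) (U : Matrix (Fin k) (Fin k) ℤ) :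
    (wm m U).det = U.det := by
  rw [Matrix.det_succ_column_zero, Fin.sum_univ_succ, Finset.sum_eq_zero, add_zero]
  · rw [wm_zero_zero]
    have h : (wm m U).submatrix (Fin.succAbove 0) Fin.succ = U := by
      ext i j
      rw [Matrix.submatrix_apply, Fin.succAbove_zero, wm_succ_succ]
    rw [h]
    simp
  · intro i _
    rw [wm_succ_zero]
    simp

/-- `q ≤ max 1 D` if `q ^ (k + 1) ≤ D`. -/
theorem le_max_of_pow {q D : ℝ} {k : ℕ} (h : q ^ (k + 1) ≤ D) : q ≤ max 1 D := by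
  rcases le_total q 1 with h1 | h1
  · exact h1.trans (le_max_left _ _)
  · exact ((le_self_pow₀ h1 (Nat.succ_ne_zero k)).trans h).trans (le_max_right _ _)

theorem col_sq {n k : ℕ} (V'' : Matrix (Fin n) (Fin k) ℝ) (v₀ : Fin n → ℝ)
    (horth : ∀ j, ∑ i, V'' i j * v₀ i = 0) (u : Fin k → ℝ) (t : ℝ) :
    ∑ i, ((∑ l, V'' i l * u l) + t * v₀ i) ^ 2
      = ∑ i, (∑ l, V'' i l * u l) ^ 2 + t ^ 2 * ∑ i, v₀ i ^ 2 := by
  have h1 : ∑ i, (∑ l, V'' i l * u l) * v₀ i = 0 := by
    have h2 : ∑ i, (∑ l, V'' i l * u l) * v₀ i = ∑ l, u l * ∑ i, V'' i l * v₀ i := by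
      simp_rw [Finset.sum_mul, Finset.mul_sum]
      rw [Finset.sum_comm]
      refine Finset.sum_congr rfl fun l _ => Finset.sum_congr rfl fun i _ => ?_
      ring
    rw [h2]
    exact Finset.sum_eq_zero fun l _ => by rw [horth, mul_zero]
  have h3 : ∀ i, ((∑ l, V'' i l * u l) + t * v₀ i) ^ 2
      = (∑ l, V'' i l * u l) ^ 2 + t ^ 2 * v₀ i ^ 2 + 2 * t * ((∑ l, V'' i l * u l) * v₀ i) := by
    intro i; ring
  simp_rw [h3]
  rw [Finset.sum_add_distrib, Finset.sum_add_distrib, ← Finset.mul_sum, ← Finset.mul_sum, h1]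
  ring

end RedAux

open RedAux in
/-- A lattice with minimum at least `c` and determinant at most `C` has a basis of bounded vectors.
Induction on `k` with `red_step`: `q` is bounded by `herm` (applied with `c := q`), `gr V'' ≤ C / c`,
`V''` has minimum `≥ 3/4 c`; the induction hypothesis gives `U₂` with bounded columns of
`V'' U₂`; take `U (1 ⊕ U₂)` and add multiples of the first column to the others such that the
coefficients of the first column are at most `1/2` in absolute value; then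
`|column j|² ≤ R' + q / 4`. -/
theorem red (n k : ℕ) : ∀ (c C : ℝ), 0 < c → ∃ R : ℝ, ∀ V : Matrix (Fin n) (Fin k) ℝ,
    0 < gr V → (∀ x : Fin k → ℤ, x ≠ 0 → c ≤ qf V (zc x)) → gr V ≤ C →
    ∃ U : Matrix (Fin k) (Fin k) ℤ, |U.det| = 1 ∧ ∀ j, ∑ i, (V * rm U) i j ^ 2 ≤ R := by
  induction k with
  | zero =>
    intro c C hc
    exact ⟨0, fun V _ _ _ => ⟨1, by simp, fun j => j.elim0⟩⟩
  | succ k ih =>
    intro c C hc
    obtain ⟨R', hR'⟩ := ih (3 / 4 * c) (C / c) (by positivity)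
    set Q : ℝ := max 1 (C / (3 / 4 : ℝ) ^ ((k + 1) ^ 2)) with hQ
    refine ⟨max Q (R' + Q), fun V hV hmin hC => ?_⟩
    obtain ⟨U, q, V'', μ, hU, hq, hqmin, ⟨x, hx, hxq⟩, hcol0, hcolj, horth, hgr, hmin''⟩ :=
      red_step V hV
    have hcq : c ≤ q := by rw [← hxq]; exact hmin x hx
    have hqQ : q ≤ Q := by
      apply le_max_of_pow (k := k)
      rw [le_div_iff₀ (by positivity), mul_comm]
      exact (herm n (k + 1) V q hq hV hqmin).trans hC
    have hgr'' : 0 < gr V'' := by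
      rw [hgr] at hV
      exact (pos_iff_pos_of_mul_pos hV).mp hq
    have hgr''C : gr V'' ≤ C / c := by
      rw [le_div_iff₀ hc]
      calc gr V'' * c ≤ gr V'' * q := mul_le_mul_of_nonneg_left hcq hgr''.le
        _ = gr V := by rw [hgr, mul_comm]
        _ ≤ C := hC
    obtain ⟨U₂, hU₂, hcol₂⟩ := hR' V'' hgr''
      (fun y hy => (by nlinarith : 3 / 4 * c ≤ 3 / 4 * q).trans (hmin'' y hy)) hgr''C
    -- the coefficients of the first column
    set t : Fin k → ℝ := fun j => ∑ l, μ l * (U₂ l j : ℝ) with ht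
    set m : Fin k → ℤ := fun j => - round (t j) with hm
    refine ⟨U * wm m U₂, ?_, ?_⟩
    · rw [Matrix.det_mul, det_wm, abs_mul, hU, hU₂, one_mul]
    · have hmul : V * rm (U * wm m U₂) = (V * rm U) * rm (wm m U₂) := by
        rw [rm_mul, Matrix.mul_assoc]
      intro j
      rw [hmul]
      refine Fin.cases ?_ (fun j => ?_) j
      · have h1 : ∀ i, ((V * rm U) * rm (wm m U₂)) i 0 = (V * rm U) i 0 := by
          intro i
          rw [Matrix.mul_apply, Fin.sum_univ_succ, Finset.sum_eq_zero, add_zero]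
          · change (V * rm U) i 0 * ((wm m U₂ 0 0 : ℤ) : ℝ) = _
            rw [wm_zero_zero, Int.cast_one, mul_one]
          · intro l _
            change (V * rm U) i l.succ * ((wm m U₂ l.succ 0 : ℤ) : ℝ) = _
            rw [wm_succ_zero, Int.cast_zero, mul_zero]
        simp_rw [h1]
        rw [hcol0]
        exact hqQ.trans (le_max_left _ _)
      · have h1 : ∀ i, ((V * rm U) * rm (wm m U₂)) i j.succ
            = (∑ l, V'' i l * (U₂ l j : ℝ)) + (m j + t j) * (V * rm U) i 0 := by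
          intro i
          rw [Matrix.mul_apply, Fin.sum_univ_succ]
          change (V * rm U) i 0 * ((wm m U₂ 0 j.succ : ℤ) : ℝ)
            + ∑ l : Fin k, (V * rm U) i l.succ * ((wm m U₂ l.succ j.succ : ℤ) : ℝ) = _
          rw [wm_zero_succ]
          have h2 : ∑ l : Fin k, (V * rm U) i l.succ * ((wm m U₂ l.succ j.succ : ℤ) : ℝ)
              = (∑ l, V'' i l * (U₂ l j : ℝ)) + t j * (V * rm U) i 0 := by
            rw [ht, Finset.sum_mul, ← Finset.sum_add_distrib]
            refine Finset.sum_congr rfl fun l _ => ?_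
            rw [wm_succ_succ, hcolj]
            ring
          rw [h2]
          ring
        simp_rw [h1]
        rw [col_sq V'' (fun i => (V * rm U) i 0) horth, hcol0]
        have h3 : ∑ i, (∑ l, V'' i l * (U₂ l j : ℝ)) ^ 2 ≤ R' := hcol₂ j
        have h4 : ((m j : ℝ) + t j) ^ 2 ≤ 1 := by
          have h5 := abs_sub_round (t j)
          have h6 : (m j : ℝ) + t j = t j - round (t j) := by
            rw [hm]
            push_cast
            ring
          rw [h6, ← sq_abs]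
          nlinarith [abs_nonneg (t j - round (t j))]
        have h7 : ((m j : ℝ) + t j) ^ 2 * q ≤ Q := by nlinarith
        exact (add_le_add h3 h7).trans (le_max_right _ _)

end Pool.Agent.Lib.MP_ddd95a_nt.Mord
end
end

section

/-!
# Bounded representatives
-/

open Matrix MeasureTheory Filter Set
open scoped ENNReal Topology

noncomputable section

namespace Pool.Agent.Lib.MP_ddd95a_nt.Mord

namespace RepAAux

theorem inv_le {n : ℕ} {g : Matrix (Fin n) (Fin n) ℝ} (hg : |g.det| = 1) {B : ℝ} (hB : 1 ≤ B)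
    (h : ∀ i j, |g i j| ≤ B) (i j : Fin n) : |g⁻¹ i j| ≤ (n.factorial : ℝ) * B ^ n := by
  have h1 : |g.adjugate i j| ≤ (n.factorial : ℝ) * B ^ n := by
    rw [Matrix.adjugate_apply]
    have h2 := Matrix.det_le (abv := AbsoluteValue.abs) (A := g.updateRow j (Pi.single i 1)) (x := B)
      (by
        intro a b
        rw [Matrix.updateRow_apply]
        change |_| ≤ B
        split_ifs with hab
        · by_cases hb : b = i
          · subst hb
            rw [Pi.single_eq_same, abs_one]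
            exact hB
          · rw [Pi.single_eq_of_ne hb, abs_zero]
            linarith
        · exact h a b)
    rw [Fintype.card_fin, nsmul_eq_mul] at h2
    exact h2
  rw [Matrix.inv_def, Ring.inverse_eq_inv', Matrix.smul_apply, smul_eq_mul, abs_mul, abs_inv, hg,
    inv_one, one_mul]
  exact h1

end RepAAux

/-- Sublattices of bounded covolume have bases which are bounded, uniformly in `g`.
Proof: apply `red n k c C` to `V = g * rm v` for each `k ≤ n` (`k ≤ n` by `nd_card`; `gr V > 0` by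
`gr_pos_of_nd`; for `x ≠ 0` the vector `v x` is not `0` by `nd_inj`). The columns of `g v U` are
bounded and `g⁻¹ = adjugate g / det g` is bounded, as `|det g| = 1` and the entries of `g` are. -/
theorem fin_rep (n : ℕ) (c R₀ C : ℝ) (hc : 0 < c) : ∃ R : ℕ, ∀ g : Matrix (Fin n) (Fin n) ℝ,
    |g.det| = 1 → (∀ i j, |g i j| ≤ R₀) → (∀ x : Fin n → ℤ, x ≠ 0 → c ≤ qf g (zc x)) →
    ∀ (k : ℕ) (v : Matrix (Fin n) (Fin k) ℤ), Nd v → gr (g * rm v) ≤ C →
      ∃ U : Matrix (Fin k) (Fin k) ℤ, |U.det| = 1 ∧ ∀ i j, |(v * U) i j| ≤ (R : ℤ) := by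
  choose R hR using fun k => red n k c C hc
  set M : ℝ := ∑ k ∈ Finset.range (n + 1), |R k| with hM
  set B : ℝ := (n.factorial : ℝ) * (max 1 R₀) ^ n with hB
  refine ⟨⌈(n : ℝ) * (B * Real.sqrt M)⌉₊, ?_⟩
  intro g hg hgR hgc k v hv hC
  have hg0 : g.det ≠ 0 := by
    intro h0
    rw [h0, abs_zero] at hg
    exact zero_ne_one hg
  have hkn : k ≤ n := by
    have := nd_card hv
    rwa [Fintype.card_fin, Fintype.card_fin] at this
  obtain ⟨U, hU, hUR⟩ := hR k (g * rm v) (gr_pos_of_nd hg0 hv) (by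
    intro x hx
    rw [qf_mul, rm_mulVec]
    exact hgc _ (fun h => hx ((nd_inj v).1 hv x h))) hC
  refine ⟨U, hU, ?_⟩
  intro i j
  have hRM : R k ≤ M := by
    refine le_trans (le_abs_self _) ?_
    exact Finset.single_le_sum (f := fun k => |R k|) (fun _ _ => abs_nonneg _)
      (Finset.mem_range.2 (by omega))
  have hW : ∀ l, |(g * rm v * rm U) l j| ≤ Real.sqrt M := by
    intro l
    apply Real.abs_le_sqrt
    refine le_trans ?_ (le_trans (hUR j) hRM)
    exact Finset.single_le_sum (f := fun i => (g * rm v * rm U) i j ^ 2)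
      (fun _ _ => sq_nonneg _) (Finset.mem_univ l)
  have hinv : ∀ a b, |g⁻¹ a b| ≤ B := RepAAux.inv_le hg (le_max_left 1 R₀)
    (fun a b => le_trans (hgR a b) (le_max_right 1 R₀))
  have h1 : rm (v * U) = g⁻¹ * (g * rm v * rm U) := by
    rw [Matrix.mul_assoc g, Matrix.nonsing_inv_mul_cancel_left _ _ (isUnit_iff_ne_zero.2 hg0),
      rm_mul]
  have h2 : |((v * U) i j : ℝ)| ≤ (n : ℝ) * (B * Real.sqrt M) := by
    have h3 : (((v * U) i j : ℤ) : ℝ) = rm (v * U) i j := rfl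
    rw [h3, h1, Matrix.mul_apply]
    refine le_trans (Finset.abs_sum_le_sum_abs _ _) ?_
    refine le_trans (Finset.sum_le_card_nsmul _ _ (B * Real.sqrt M) ?_) ?_
    · intro l _
      rw [abs_mul]
      exact mul_le_mul (hinv i l) (hW l) (abs_nonneg _) (le_trans (abs_nonneg _) (hinv i l))
    · rw [Finset.card_univ, Fintype.card_fin, nsmul_eq_mul]
  have h4 : (|((v * U) i j)| : ℤ) ≤ ((⌈(n : ℝ) * (B * Real.sqrt M)⌉₊ : ℕ) : ℤ) := by
    have h5 : ((|((v * U) i j)| : ℤ) : ℝ) ≤ (((⌈(n : ℝ) * (B * Real.sqrt M)⌉₊ : ℕ) : ℤ) : ℝ) := by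
      rw [Int.cast_abs, Int.cast_natCast]
      exact le_trans h2 (Nat.le_ceil _)
    exact_mod_cast h5
  exact h4

end Pool.Agent.Lib.MP_ddd95a_nt.Mord
end
end

section

/-!
# Stability is an open condition in the interior
-/

open Matrix MeasureTheory Filter Set
open scoped ENNReal Topology

noncomputable section

namespace Pool.Agent.Lib.MP_ddd95a_nt.Mord

namespace OpenAux

/-- The lower bound is stable under small changes. -/
theorem lower_near {n : ℕ} {g : Matrix (Fin n) (Fin n) ℝ} {c : ℝ} (hc : 0 < c)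
    (h : ∀ x, c * ∑ i, x i ^ 2 ≤ qf g x) :
    ∀ᶠ g' in 𝓝 g, ∀ x : Fin n → ℤ, x ≠ 0 → c / 4 ≤ qf g' (zc x) := by
  have h1 : Continuous fun g' : Matrix (Fin n) (Fin n) ℝ => ∑ i, ∑ j, (g i j - g' i j) ^ 2 := by
    fun_prop
  have h2 : ∀ᶠ g' in 𝓝 g, ∑ i, ∑ j, (g i j - g' i j) ^ 2 < c / 4 := by
    refine (h1.tendsto g).eventually_lt_const ?_
    simpa using hc
  filter_upwards [h2] with g' hg' x hx
  have h3 : qf g (zc x) ≤ 2 * qf g' (zc x) + 2 * ((c / 4) * ∑ i, zc x i ^ 2) := by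
    have h4 : ∀ i, (g *ᵥ zc x) i ^ 2 ≤ 2 * (g' *ᵥ zc x) i ^ 2 +
        2 * ((∑ j, (g i j - g' i j) ^ 2) * ∑ j, zc x j ^ 2) := by
      intro i
      have h5 : (g *ᵥ zc x) i = (g' *ᵥ zc x) i + ∑ j, (g i j - g' i j) * zc x j := by
        unfold Matrix.mulVec dotProduct
        rw [← Finset.sum_add_distrib]
        exact Finset.sum_congr rfl fun j _ => by ring
      have h6 : (∑ j, (g i j - g' i j) * zc x j) ^ 2 ≤
          (∑ j, (g i j - g' i j) ^ 2) * ∑ j, zc x j ^ 2 :=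
        Finset.sum_mul_sq_le_sq_mul_sq _ _ _
      rw [h5]
      nlinarith [sq_nonneg ((g' *ᵥ zc x) i - ∑ j, (g i j - g' i j) * zc x j)]
    have h7 : qf g (zc x) ≤ ∑ i, (2 * (g' *ᵥ zc x) i ^ 2 +
        2 * ((∑ j, (g i j - g' i j) ^ 2) * ∑ j, zc x j ^ 2)) := Finset.sum_le_sum fun i _ => h4 i
    rw [Finset.sum_add_distrib, ← Finset.mul_sum, ← Finset.mul_sum, ← Finset.sum_mul] at h7
    refine h7.trans (add_le_add le_rfl (mul_le_mul_of_nonneg_left ?_ (by norm_num)))
    exact mul_le_mul_of_nonneg_right hg'.le (Finset.sum_nonneg fun _ _ => sq_nonneg _)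
  have h8 : (1 : ℝ) ≤ ∑ i, zc x i ^ 2 := by
    obtain ⟨i, hi⟩ : ∃ i, x i ≠ 0 := by
      by_contra hne
      push Not at hne
      exact hx (funext hne)
    have h9 : (1 : ℤ) ≤ x i ^ 2 := by
      have := sq_pos_of_ne_zero hi
      omega
    have h10 : (1 : ℝ) ≤ zc x i ^ 2 := by
      unfold zc
      exact_mod_cast h9
    exact h10.trans (Finset.single_le_sum (f := fun i => zc x i ^ 2)
      (fun _ _ => sq_nonneg _) (Finset.mem_univ i))
  have h11 := h (zc x)
  nlinarith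

theorem finite_bdd (n k : ℕ) (R : ℤ) :
    {v : Matrix (Fin n) (Fin k) ℤ | ∀ i j, |v i j| ≤ R}.Finite := by
  refine (Set.finite_Icc (fun (_ : Fin n) (_ : Fin k) => -R) fun _ _ => R).subset ?_
  intro v hv
  exact ⟨fun i j => (abs_le.1 (hv i j)).1, fun i j => (abs_le.1 (hv i j)).2⟩

theorem gr_cont {n k : ℕ} (W : Matrix (Fin n) (Fin k) ℝ) :
    Continuous fun g : Matrix (Fin n) (Fin n) ℝ => gr (g * W) := by
  unfold gr
  fun_prop

end OpenAux

open OpenAux

/-- Proof: for `g'` near `g`: entries bounded, `qf g' (zc x) ≥ 1/2` for integer `x ≠ 0` (`stable_vec`,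
`exists_lower`), so by `fin_rep n (1/2) R₀ 1` every `v` with `gr (g' v) ≤ 1` can be replaced by one of
finitely many matrices `v'` with `gr (g' v') = gr (g' v)`; for these (of rank `1 ≤ k < n`)
`gr (g v') > 1` and this remains true for `g'` near `g`. Ranks `0` and `n`: the value is `1`, resp.
`det(g')² det(v)² ≥ 1`. Ranks `> n` do not occur (`nd_card`). -/
theorem stable_open {n : ℕ} {g : Matrix (Fin n) (Fin n) ℝ} (hg : Stable g)
    (h : ∀ k, 1 ≤ k → k < n → ∀ v : Matrix (Fin n) (Fin k) ℤ, Nd v → gr (g * rm v) ≠ 1) :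
    ∀ᶠ g' in 𝓝 g, |g'.det| = 1 → Stable g' := by
  have hdet : g.det ≠ 0 := by
    intro h0
    have := hg.1
    rw [h0, abs_zero] at this
    exact zero_ne_one this
  obtain ⟨c, hc, hcl⟩ := exists_lower hdet
  obtain ⟨R₀, hR₀⟩ : ∃ R₀ : ℝ, ∀ i j, |g i j| < R₀ := by
    refine ⟨(∑ i, ∑ j, |g i j|) + 1, fun i j => ?_⟩
    have h1 : |g i j| ≤ ∑ j, |g i j| :=
      Finset.single_le_sum (f := fun j => |g i j|) (fun _ _ => abs_nonneg _) (Finset.mem_univ j)
    have h2 : ∑ j, |g i j| ≤ ∑ i, ∑ j, |g i j| :=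
      Finset.single_le_sum (f := fun i => ∑ j, |g i j|)
        (fun _ _ => Finset.sum_nonneg fun _ _ => abs_nonneg _) (Finset.mem_univ i)
    linarith
  obtain ⟨R, hR⟩ := fin_rep n (c / 4) R₀ 1 (by positivity)
  have e1 := lower_near hc hcl
  have e2 : ∀ᶠ g' in 𝓝 g, ∀ i j, |g' i j| ≤ R₀ := by
    rw [eventually_all]
    intro i
    rw [eventually_all]
    intro j
    have h1 : Continuous fun g' : Matrix (Fin n) (Fin n) ℝ => |g' i j| := by fun_prop
    exact ((h1.tendsto g).eventually_lt_const (hR₀ i j)).mono fun g' hg' => hg'.le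
  have e3 : ∀ᶠ g' in 𝓝 g, ∀ k ∈ Finset.range n, 1 ≤ k →
      ∀ v ∈ {v : Matrix (Fin n) (Fin k) ℤ | ∀ i j, |v i j| ≤ (R : ℤ)}, Nd v →
        1 < gr (g' * rm v) := by
    rw [Finset.eventually_all]
    intro k hk
    rw [Finset.mem_range] at hk
    by_cases hk1 : 1 ≤ k
    · have h1 : ∀ᶠ g' in 𝓝 g, ∀ v ∈ {v : Matrix (Fin n) (Fin k) ℤ | ∀ i j, |v i j| ≤ (R : ℤ)},
          Nd v → 1 < gr (g' * rm v) := by
        rw [(finite_bdd n k R).eventually_all]
        intro v _
        by_cases hv : Nd v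
        · have h2 : 1 < gr (g * rm v) := lt_of_le_of_ne (hg.2 k v hv) (h k hk1 hk v hv).symm
          exact (((gr_cont (rm v)).tendsto g).eventually_const_lt h2).mono fun g' hg' _ => hg'
        · exact Eventually.of_forall fun g' h' => absurd h' hv
      exact h1.mono fun g' hg' _ => hg'
    · exact Eventually.of_forall fun g' h' => absurd h' hk1
  filter_upwards [e1, e2, e3] with g' h1 h2 h3 hd
  refine ⟨hd, fun k v hv => ?_⟩
  have hkn : k ≤ n := by simpa using nd_card hv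
  rcases Nat.eq_zero_or_pos k with rfl | hk
  · rw [gr_empty]
  rcases hkn.lt_or_eq with hlt | rfl
  · by_contra hlt1
    rw [not_le] at hlt1
    obtain ⟨U, hU, hb⟩ := hR g' hd h2 h1 k v hv hlt1.le
    have hU0 : U.det ≠ 0 := by
      intro h0
      rw [h0, abs_zero] at hU
      exact zero_ne_one hU
    have h4 := h3 k (Finset.mem_range.2 hlt) hk (v * U) hb ((nd_mul_sq v U).2 ⟨hv, hU0⟩)
    rw [rm_mul, ← Matrix.mul_assoc, gr_unimod _ hU] at h4
    linarith
  · rw [gr_square, det_mul, mul_pow, det_rm, ← sq_abs g'.det, hd]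
    have h4 : (1 : ℤ) ≤ v.det ^ 2 := by
      have := sq_pos_of_ne_zero ((nd_square v).1 hv)
      omega
    have h5 : (1 : ℝ) ≤ (v.det : ℝ) ^ 2 := by exact_mod_cast h4
    linarith

end Pool.Agent.Lib.MP_ddd95a_nt.Mord
end
end

section

/-!
# Sublattices of covolume one extend
-/

open Matrix MeasureTheory Filter Set
open scoped ENNReal Topology

noncomputable section

namespace Pool.Agent.Lib.MP_ddd95a_nt.Mord

namespace ExtUAux

/-- two injections of a finite type differ by a permutation -/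
theorem perm_ext {n k : ℕ} (c f : Fin k → Fin n) (hc : Function.Injective c)
    (hf : Function.Injective f) : ∃ σ : Equiv.Perm (Fin n), ∀ j, σ (c j) = f j := by
  classical
  let e : {x // x ∈ Set.range c} ≃ {x // x ∈ Set.range f} :=
    (Equiv.ofInjective c hc).symm.trans (Equiv.ofInjective f hf)
  refine ⟨e.extendSubtype, fun j => ?_⟩
  rw [Equiv.extendSubtype_apply_of_mem e (c j) ⟨j, rfl⟩]
  have h1 : (⟨c j, ⟨j, rfl⟩⟩ : {x // x ∈ Set.range c}) = Equiv.ofInjective c hc j := by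
    apply Subtype.ext
    rfl
  rw [h1]
  simp [e]

/-- Smith normal form of the lattice of the columns -/
theorem snf {n k : ℕ} {v : Matrix (Fin n) (Fin k) ℤ} (hv : Nd v) :
    ∃ (b : Module.Basis (Fin n) ℤ (Fin n → ℤ)) (f : Fin k → Fin n) (C : Matrix (Fin k) (Fin k) ℤ),
      Function.Injective f ∧ v = (Matrix.of fun i j => b (f j) i) * C := by
  have hli : LinearIndependent ℤ (fun j : Fin k => fun i => v i j) := by
    rw [Fintype.linearIndependent_iff]
    intro x hx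
    have h1 : v *ᵥ x = 0 := by
      rw [← hx]
      funext i
      rw [Matrix.mulVec, dotProduct, Finset.sum_apply]
      refine Finset.sum_congr rfl (fun j _ => ?_)
      simp [mul_comm]
    have h2 := (nd_inj v).1 hv x h1
    intro j
    rw [h2]
    rfl
  set N : Submodule ℤ (Fin n → ℤ) := Submodule.span ℤ (Set.range (fun j : Fin k => fun i => v i j))
    with hN
  let B : Module.Basis (Fin k) ℤ N := Module.Basis.span hli
  have hB : ∀ j, ((B j : N) : Fin n → ℤ) = fun i => v i j := fun j =>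
    Module.Basis.coe_span_apply hli j
  obtain ⟨n', b, bN, f, a, snf⟩ :=
    Submodule.smithNormalForm (Pi.basisFun ℤ (Fin n)) N
  have hn : n' = k := by
    have h1 := Module.finrank_eq_card_basis bN
    have h2 := Module.finrank_eq_card_basis B
    rw [Fintype.card_fin] at h1 h2
    rw [← h1, ← h2]
  subst hn
  refine ⟨b, f, Matrix.of fun i j => a i * bN.repr (B j) i, f.injective, ?_⟩
  ext i j
  rw [Matrix.mul_apply]
  have h1 : (fun i => v i j) = ∑ l, (bN.repr (B j) l) • (a l • b (f l)) := by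
    rw [← hB j]
    conv_lhs => rw [← bN.sum_repr (B j)]
    rw [Submodule.coe_sum]
    refine Finset.sum_congr rfl (fun l _ => ?_)
    rw [Submodule.coe_smul, snf l]
  have h2 := congrFun h1 i
  simp only [Finset.sum_apply, Pi.smul_apply, smul_eq_mul] at h2
  rw [h2]
  refine Finset.sum_congr rfl (fun l _ => ?_)
  simp only [Matrix.of_apply]
  ring

end ExtUAux

/-- If `gr (g * rm v) ≤ 1` and all values are at least one then the columns of `v` are the first
columns of an integer matrix of determinant `± 1` (up to the equivalence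
`Fin k ⊕ Fin (n - k) ≃ Fin n`).
Proof: the span `M` of the columns of `v` is saturated: otherwise there are `v₁` and an integer
matrix `C` with `v = v₁ * C`, `|det C| ≥ 2`, and `gr (g v) = det(C)² gr (g v₁) ≥ 4`. So `ℤ^n / M` is
torsion free, hence free, and a basis of `M` extends to a basis of `ℤ^n`. -/
theorem extend_stable {n k : ℕ} (hk : k ≤ n) {g : Matrix (Fin n) (Fin n) ℝ} (hg : Stable g)
    {v : Matrix (Fin n) (Fin k) ℤ} (hv : Nd v) (h1 : gr (g * rm v) = 1) :
    ∃ u : Matrix (Fin n) (Fin n) ℤ, |u.det| = 1 ∧ ∀ i (j : Fin k), u i (Fin.castLE hk j) = v i j := by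
  obtain ⟨b, f, C, hf, hvC⟩ := ExtUAux.snf hv
  set v₁ : Matrix (Fin n) (Fin k) ℤ := Matrix.of fun i j => b (f j) i with hv₁
  have hnd : Nd v₁ ∧ C.det ≠ 0 := by
    rw [hvC] at hv
    exact (nd_mul_sq v₁ C).1 hv
  have hdet : |C.det| = 1 := by
    have h2 : gr (g * rm v) = ((C.det : ℤ) : ℝ) ^ 2 * gr (g * rm v₁) := by
      rw [hvC, rm_mul, ← Matrix.mul_assoc, gr_mul_sq, det_rm]
    have h3 := hg.2 k v₁ hnd.1
    rw [h1] at h2
    have h4 : ((C.det : ℤ) : ℝ) ^ 2 ≤ 1 := by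
      have h5 : 0 ≤ ((C.det : ℤ) : ℝ) ^ 2 := sq_nonneg _
      nlinarith
    have h6 : (C.det) ^ 2 ≤ 1 := by exact_mod_cast h4
    have h7 : |C.det| ≤ 1 := by
      have h8 : |C.det| ^ 2 ≤ 1 := by rwa [sq_abs]
      have h9 : 0 ≤ |C.det| := abs_nonneg _
      nlinarith
    have h8 : 1 ≤ |C.det| := Int.one_le_abs hnd.2
    omega
  obtain ⟨m, rfl⟩ : ∃ m, n = k + m := Nat.exists_eq_add_of_le hk
  obtain ⟨σ, hσ⟩ := ExtUAux.perm_ext (fun j : Fin k => Fin.castLE hk j) f
    (Fin.castLE_injective hk) hf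
  let e : Fin k ⊕ Fin m ≃ Fin (k + m) := finSumFinEquiv
  have he : ∀ j : Fin k, e (Sum.inl j) = Fin.castLE hk j := by
    intro j
    rfl
  set u₀ : Matrix (Fin (k + m)) (Fin (k + m)) ℤ :=
    (Pi.basisFun ℤ (Fin (k + m))).toMatrix (b.reindex σ.symm) with hu₀
  have hu₀det : |u₀.det| = 1 := by
    have h2 : IsUnit ((Pi.basisFun ℤ (Fin (k + m))).det (b.reindex σ.symm)) :=
      Module.Basis.isUnit_det _ _
    rw [Module.Basis.det_apply] at h2
    exact Int.isUnit_iff_abs_eq.1 h2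
  have hu₀e : ∀ i c, u₀ i c = b (σ c) i := by
    intro i c
    rw [hu₀, Module.Basis.toMatrix_apply, Pi.basisFun_repr, Module.Basis.reindex_apply,
      Equiv.symm_symm]
  set C' : Matrix (Fin (k + m)) (Fin (k + m)) ℤ :=
    (fromBlocks C 0 0 (1 : Matrix (Fin m) (Fin m) ℤ)).submatrix e.symm e.symm with hC'
  have hC'det : C'.det = C.det := by
    rw [hC', Matrix.det_submatrix_equiv_self, Matrix.det_fromBlocks_zero₂₁, Matrix.det_one, mul_one]
  refine ⟨u₀ * C', ?_, ?_⟩
  · rw [Matrix.det_mul, abs_mul, hu₀det, hC'det, hdet, mul_one]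
  · intro i j
    rw [Matrix.mul_apply, ← Equiv.sum_comp e, Fintype.sum_sum_type]
    have h2 : ∀ x : Fin m, u₀ i (e (Sum.inr x)) * C' (e (Sum.inr x)) (Fin.castLE hk j) = 0 := by
      intro x
      rw [hC', ← he j, Matrix.submatrix_apply, Equiv.symm_apply_apply, Equiv.symm_apply_apply,
        Matrix.fromBlocks_apply₂₁, Matrix.zero_apply, mul_zero]
    rw [Finset.sum_eq_zero (fun x _ => h2 x), add_zero, hvC, Matrix.mul_apply]
    refine Finset.sum_congr rfl (fun x _ => ?_)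
    rw [hC', ← he j, Matrix.submatrix_apply, Equiv.symm_apply_apply, Equiv.symm_apply_apply,
      Matrix.fromBlocks_apply₁₁, hu₀e, he x, hσ x]
    rfl

end Pool.Agent.Lib.MP_ddd95a_nt.Mord
end
end

section

/-!
# Bounded bases
-/

open Matrix MeasureTheory Filter Set
open scoped ENNReal Topology

noncomputable section

namespace Pool.Agent.Lib.MP_ddd95a_nt.Mord

/-- A lattice of covolume one and minimum at least `c` has a bounded basis (Mahler).
From `red n n c 1`; to get `det u = 1` multiply the first column by `-1` if necessary. -/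
theorem bdd_rep (n : ℕ) (c : ℝ) (hc : 0 < c) : ∃ R : ℝ, ∀ g : Matrix (Fin n) (Fin n) ℝ,
    |g.det| = 1 → (∀ x : Fin n → ℤ, x ≠ 0 → c ≤ qf g (zc x)) →
    ∃ u : Matrix (Fin n) (Fin n) ℤ, u.det = 1 ∧ ∀ i j, |(g * rm u) i j| ≤ R := by
  obtain ⟨R, hR⟩ := red n n c 1 hc
  refine ⟨R + 1, fun g hg hx => ?_⟩
  have hgr : gr g = 1 := by
    rw [gr_square, ← sq_abs, hg, one_pow]
  obtain ⟨U, hU, hUR⟩ := hR g (by rw [hgr]; exact one_pos) hx hgr.le
  have hent : ∀ i j, |(g * rm U) i j| ≤ R + 1 := by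
    intro i j
    have h1 : (g * rm U) i j ^ 2 ≤ R := by
      refine le_trans ?_ (hUR j)
      exact Finset.single_le_sum (f := fun i => (g * rm U) i j ^ 2)
        (fun i _ => sq_nonneg _) (Finset.mem_univ i)
    rw [← sq_abs] at h1
    nlinarith [sq_nonneg (|(g * rm U) i j| - 1), abs_nonneg ((g * rm U) i j)]
  rcases (abs_eq (zero_le_one' ℤ)).1 hU with h1 | h1
  · exact ⟨U, h1, hent⟩
  · cases n with
    | zero =>
      rw [det_isEmpty] at h1
      exact absurd h1 (by norm_num)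
    | succ m =>
      refine ⟨U * diagonal (fun j => if j = 0 then -1 else 1), ?_, fun i j => ?_⟩
      · rw [det_mul, det_diagonal, h1, Finset.prod_ite_eq' Finset.univ (0 : Fin (m + 1))]
        simp
      · have h2 : (g * rm (U * diagonal (fun j : Fin (m + 1) => if j = 0 then (-1 : ℤ) else 1))) i j =
            (g * rm U) i j * (if j = 0 then (-1 : ℝ) else 1) := by
          have h3 : rm (U * diagonal (fun j : Fin (m + 1) => if j = 0 then (-1 : ℤ) else 1)) =
              rm U * diagonal (fun j : Fin (m + 1) => if j = 0 then (-1 : ℝ) else 1) := by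
            rw [rm_mul]
            congr 1
            ext a b
            unfold rm
            rw [map_apply, diagonal_apply, diagonal_apply]
            split_ifs <;> simp
          rw [h3, ← Matrix.mul_assoc, mul_diagonal]
        rw [h2, abs_mul]
        have h4 : |(if j = 0 then (-1 : ℝ) else 1)| = 1 := by split_ifs <;> simp
        rw [h4, mul_one]
        exact hent i j

end Pool.Agent.Lib.MP_ddd95a_nt.Mord
end
end

section

/-!
# The maximal value on the closure of the orbit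
-/

open Matrix MeasureTheory Filter Set
open scoped ENNReal Topology

noncomputable section

namespace Pool.Agent.Lib.MP_ddd95a_nt.Mord

namespace LowMaxAux

theorem bdd_seq {n : ℕ} {R : ℝ} (g : ℕ → Matrix (Fin n) (Fin n) ℝ)
    (h : ∀ j a b, |g j a b| ≤ R) :
    ∃ (g₀ : Matrix (Fin n) (Fin n) ℝ) (φ : ℕ → ℕ), StrictMono φ ∧
      Tendsto (g ∘ φ) atTop (𝓝 g₀) := by
  let x : ℕ → Fin n → Fin n → ℝ := g
  have hK : IsCompact (Set.univ.pi fun _ : Fin n => Set.univ.pi fun _ : Fin n => Icc (-R) R) :=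
    isCompact_univ_pi fun _ => isCompact_univ_pi fun _ => isCompact_Icc
  have hmem : ∀ j, x j ∈
      (Set.univ.pi fun _ : Fin n => Set.univ.pi fun _ : Fin n => Icc (-R) R) := by
    intro j a _ b _
    exact abs_le.1 (h j a b)
  obtain ⟨g₀, -, φ, hφ, hlim⟩ := hK.tendsto_subseq hmem
  exact ⟨g₀, φ, hφ, hlim⟩

end LowMaxAux

/-- The maximum is attained.
Proof: let `c` be the supremum of the `c'` such that `Low w c' g` for some `g` in the closure;
it is positive (`low_pos`, `orb_self`) and finite: `Low w c' g` gives `qf g (zc x) ≥ c' / w^(n-1)`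
(`low_vec`) and `herm n n g` with `gr g = 1` bounds it. Take `g_j` with values tending to `c`, at
least `c / 2`; `bdd_rep` and `orb_unimod`, `low_unimod` allow to assume that the `g_j` are bounded;
a subsequence converges; `low_closed`. -/
theorem low_max {n : ℕ} (hn : 2 ≤ n) {w : ℝ} (hw : 1 < w) {h : Matrix (Fin n) (Fin n) ℝ}
    (hh : h.det = 1) : ∃ (c : ℝ) (g : Matrix (Fin n) (Fin n) ℝ), 0 < c ∧
      g ∈ closure (orb h) ∧ Low w c g ∧ ∀ g' ∈ closure (orb h), ∀ c', Low w c' g' → c' ≤ c := by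
  have hw0 : 0 < w := one_pos.trans hw
  have hwn : 0 < w ^ (n - 1) := by positivity
  obtain ⟨c₀, hc₀, hL₀⟩ := low_pos hw.le hh
  have hmem₀ : c₀ ∈ {c' : ℝ | ∃ g ∈ closure (orb h), Low w c' g} :=
    ⟨h, subset_closure (orb_self h), hL₀⟩
  have hbdd : BddAbove {c' : ℝ | ∃ g ∈ closure (orb h), Low w c' g} := by
    refine ⟨((4 / 3 : ℝ) ^ (n ^ 2)) * w ^ (n - 1), ?_⟩
    rintro c' ⟨g, hg, hL⟩
    by_cases hc' : 0 < c'
    · have hq : 0 < c' / w ^ (n - 1) := by positivity
      have hgr : gr g = 1 := by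
        rw [gr_square, orb_det hh hg, one_pow]
      have h1 := herm n n g (c' / w ^ (n - 1)) hq (by rw [hgr]; exact one_pos)
        fun x hx => low_vec hw0 hn hL x hx
      rw [hgr] at h1
      have h2 : (c' / w ^ (n - 1)) ^ n ≤ (4 / 3 : ℝ) ^ (n ^ 2) := by
        have h3 : (3 / 4 : ℝ) ^ (n ^ 2) * (4 / 3 : ℝ) ^ (n ^ 2) = 1 := by
          rw [← mul_pow]
          norm_num
        have h4 : 0 < (4 / 3 : ℝ) ^ (n ^ 2) := by positivity
        calc (c' / w ^ (n - 1)) ^ n = ((3 / 4 : ℝ) ^ (n ^ 2) * (c' / w ^ (n - 1)) ^ n) *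
            (4 / 3 : ℝ) ^ (n ^ 2) := by
              rw [mul_assoc, mul_comm ((c' / w ^ (n - 1)) ^ n), ← mul_assoc, h3, one_mul]
          _ ≤ 1 * (4 / 3 : ℝ) ^ (n ^ 2) := mul_le_mul_of_nonneg_right h1 h4.le
          _ = _ := one_mul _
      have h5 : c' / w ^ (n - 1) ≤ (4 / 3 : ℝ) ^ (n ^ 2) := by
        rcases le_total (c' / w ^ (n - 1)) 1 with h6 | h6
        · exact h6.trans (one_le_pow₀ (by norm_num))
        · refine le_trans ?_ h2
          calc c' / w ^ (n - 1) = (c' / w ^ (n - 1)) ^ 1 := (pow_one _).symm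
            _ ≤ (c' / w ^ (n - 1)) ^ n := pow_le_pow_right₀ h6 (by omega)
      rwa [div_le_iff₀ hwn] at h5
    · push Not at hc'
      exact hc'.trans (by positivity)
  have hne : {c' : ℝ | ∃ g ∈ closure (orb h), Low w c' g}.Nonempty := ⟨c₀, hmem₀⟩
  obtain ⟨c, hcd⟩ : ∃ c, c = sSup {c' : ℝ | ∃ g ∈ closure (orb h), Low w c' g} := ⟨_, rfl⟩
  have hc : 0 < c := by
    rw [hcd]
    exact hc₀.trans_le (le_csSup hbdd hmem₀)
  have hseq : ∀ j : ℕ, ∃ c', c - c / ((j : ℝ) + 2) < c' ∧ c' ≤ c ∧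
      ∃ g ∈ closure (orb h), Low w c' g := by
    intro j
    have h1 : c - c / ((j : ℝ) + 2) < sSup {c' : ℝ | ∃ g ∈ closure (orb h), Low w c' g} := by
      rw [← hcd]
      have : 0 < c / ((j : ℝ) + 2) := by positivity
      linarith
    obtain ⟨c', hc', hlt⟩ := exists_lt_of_lt_csSup hne h1
    exact ⟨c', hlt, by rw [hcd]; exact le_csSup hbdd hc', hc'⟩
  choose b hb1 hb2 g hgm hgL using hseq
  have hbhalf : ∀ j, c / 2 ≤ b j := by
    intro j
    have h1 : c / ((j : ℝ) + 2) ≤ c / 2 := by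
      apply div_le_div_of_nonneg_left hc.le (by norm_num)
      have : (0 : ℝ) ≤ j := Nat.cast_nonneg j
      linarith
    have h2 := hb1 j
    linarith
  have hblim : Tendsto b atTop (𝓝 c) := by
    have h1 : Tendsto (fun j : ℕ => c - c / ((j : ℝ) + 2)) atTop (𝓝 c) := by
      have h2 : Tendsto (fun j : ℕ => c / ((j : ℝ) + 2)) atTop (𝓝 0) :=
        tendsto_const_nhds.div_atTop (tendsto_atTop_add_const_right _ _ tendsto_natCast_atTop_atTop)
      simpa using tendsto_const_nhds.sub h2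
    exact tendsto_of_tendsto_of_tendsto_of_le_of_le h1 tendsto_const_nhds
      (fun j => (hb1 j).le) hb2
  obtain ⟨R, hR⟩ := bdd_rep n ((c / 2) / w ^ (n - 1)) (by positivity)
  have hmin : ∀ j, ∀ x : Fin n → ℤ, x ≠ 0 → (c / 2) / w ^ (n - 1) ≤ qf (g j) (zc x) := by
    intro j x hx
    refine le_trans ?_ (low_vec hw0 hn (hgL j) x hx)
    exact div_le_div_of_nonneg_right (hbhalf j) hwn.le
  have hdet : ∀ j, |(g j).det| = 1 := fun j => by
    rw [orb_det hh (hgm j), abs_one]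
  choose u hu hub using fun j => hR (g j) (hdet j) (hmin j)
  obtain ⟨g₀, φ, hφ, hlim⟩ := LowMaxAux.bdd_seq (fun j => g j * rm (u j)) hub
  refine ⟨c, g₀, hc, ?_, ?_, ?_⟩
  · exact isClosed_closure.mem_of_tendsto hlim
      (Eventually.of_forall fun j => orb_unimod (hgm (φ j)) (hu (φ j)))
  · exact low_closed hlim (hblim.comp hφ.tendsto_atTop) fun j =>
      low_unimod (hgL (φ j)) (by rw [hu (φ j)]; exact abs_one)
  · intro g' hg' c' hL'
    rw [hcd]
    exact le_csSup hbdd ⟨g', hg', hL'⟩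

end Pool.Agent.Lib.MP_ddd95a_nt.Mord
end
end

section

/-!
# A maximiser with a minimal set of active sublattices
-/

open Matrix MeasureTheory Filter Set
open scoped ENNReal Topology

noncomputable section

namespace Pool.Agent.Lib.MP_ddd95a_nt.Mord

namespace MinActAux

theorem act_unimod {n k : ℕ} {w c : ℝ} {g : Matrix (Fin n) (Fin n) ℝ}
    {v : Matrix (Fin n) (Fin k) ℤ} {U : Matrix (Fin k) (Fin k) ℤ} (hU : |U.det| = 1) :
    Act w c g (v * U) ↔ Act w c g v := by
  have hU0 : U.det ≠ 0 := by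
    intro h0
    rw [h0, abs_zero] at hU
    exact zero_ne_one hU
  have h1 : gr (g * rm (v * U)) = gr (g * rm v) := by
    rw [rm_mul, ← Matrix.mul_assoc]
    exact gr_unimod _ hU
  unfold Act
  rw [nd_mul_sq, h1]
  constructor
  · rintro ⟨a, b, ⟨c, -⟩, d⟩
    exact ⟨a, b, c, d⟩
  · rintro ⟨a, b, c, d⟩
    exact ⟨a, b, ⟨c, hU0⟩, d⟩

theorem fin_bdd (n : ℕ) (R : ℤ) :
    {p : Σ k : Fin n, Matrix (Fin n) (Fin k) ℤ | ∀ i j, |p.2 i j| ≤ R}.Finite := by
  have h1 : ∀ k : Fin n, {v : Matrix (Fin n) (Fin k) ℤ | ∀ i j, |v i j| ≤ R}.Finite := by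
    intro k
    have h2 : (Set.univ.pi fun _ : Fin n => Set.univ.pi fun _ : Fin k => Icc (-R) R).Finite :=
      Set.Finite.pi fun _ => Set.Finite.pi fun _ => Set.finite_Icc _ _
    refine h2.subset ?_
    intro v hv i _ j _
    exact abs_le.1 (hv i j)
  refine (Set.finite_iUnion fun k => (h1 k).image (Sigma.mk k)).subset ?_
  rintro ⟨k, v⟩ hv
  exact Set.mem_iUnion.2 ⟨k, v, hv, rfl⟩

end MinActAux

open MinActAux in
/-- Existence of a maximiser whose set of active sublattices is minimal among those nearby.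
Proof: let `R₀` be larger than all entries of the given `g₁`, and let `𝒮` be the set of the `g` in the
closure of the orbit with `Low w c g` and all entries `< R₀` in absolute value. For `g ∈ 𝒮`:
`qf g (zc x) ≥ c / w^(n-1)` (`low_vec`), so `fin_rep n (c / w^(n-1)) R₀ 1` gives `R` such that every
active `v` is of the form `v' U` with entries of `v'` bounded by `R` (note `gr (g v) ≤ 1` if `v` is
active, since `c < 1 ≤ w^(..)`). Let `N g` be the number of active matrices with entries bounded by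
`R` (finitely many, all ranks `< n`). Choose `g₀ ∈ 𝒮` with `N g₀` minimal. If all active matrices of
`g' ∈ 𝒮` are active for `g₀`, then `N g' ≤ N g₀`, so the bounded active matrices are the same, so all
active matrices are the same (activity of `v` and `v U` are equivalent, `gr_unimod`). -/
theorem min_act {n : ℕ} (hn : 2 ≤ n) {w c : ℝ} (hw : 1 < w) (hc : 0 < c) (hc1 : c < 1)
    {h g₁ : Matrix (Fin n) (Fin n) ℝ} (hh : h.det = 1) (hg₁ : g₁ ∈ closure (orb h))
    (hL : Low w c g₁) :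
    ∃ g₀ ∈ closure (orb h), Low w c g₀ ∧ ∀ᶠ g' in 𝓝 g₀, g' ∈ closure (orb h) → Low w c g' →
      (∀ (k : ℕ) (v : Matrix (Fin n) (Fin k) ℤ), Act w c g' v → Act w c g₀ v) →
      ∀ (k : ℕ) (v : Matrix (Fin n) (Fin k) ℤ), Act w c g₀ v → Act w c g' v := by
  classical
  have hw0 : 0 < w := one_pos.trans hw
  set R₀ : ℝ := (∑ i, ∑ j, |g₁ i j|) + 1 with hR₀
  have hg₁R : ∀ i j, |g₁ i j| < R₀ := by
    intro i j
    have h1 : |g₁ i j| ≤ ∑ j, |g₁ i j| :=
      Finset.single_le_sum (f := fun j => |g₁ i j|) (fun _ _ => abs_nonneg _) (Finset.mem_univ j)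
    have h2 : ∑ j, |g₁ i j| ≤ ∑ i, ∑ j, |g₁ i j| :=
      Finset.single_le_sum (f := fun i => ∑ j, |g₁ i j|)
        (fun _ _ => Finset.sum_nonneg fun _ _ => abs_nonneg _) (Finset.mem_univ i)
    linarith
  obtain ⟨R, hR⟩ := fin_rep n (c / w ^ (n - 1)) R₀ 1 (div_pos hc (pow_pos hw0 _))
  set S : Set (Matrix (Fin n) (Fin n) ℝ) :=
    {g | g ∈ closure (orb h) ∧ Low w c g ∧ ∀ i j, |g i j| < R₀} with hS
  have hA : ∀ g : Matrix (Fin n) (Fin n) ℝ,
      {p : Σ k : Fin n, Matrix (Fin n) (Fin k) ℤ |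
        Act w c g p.2 ∧ ∀ i j, |p.2 i j| ≤ (R : ℤ)}.Finite := fun g =>
    (fin_bdd n (R : ℤ)).subset fun p hp => hp.2
  obtain ⟨m, ⟨g₀, hg₀, hm⟩, hmin⟩ := wellFounded_lt.has_min
    ((fun g : Matrix (Fin n) (Fin n) ℝ => Set.ncard {p : Σ k : Fin n, Matrix (Fin n) (Fin k) ℤ |
        Act w c g p.2 ∧ ∀ i j, |p.2 i j| ≤ (R : ℤ)}) '' S) ⟨_, g₁, ⟨hg₁, hL, hg₁R⟩, rfl⟩
  refine ⟨g₀, hg₀.1, hg₀.2.1, ?_⟩
  have hev : ∀ᶠ g' in 𝓝 g₀, ∀ i j, |g' i j| < R₀ := by
    rw [eventually_all]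
    intro i
    rw [eventually_all]
    intro j
    have hcont : Continuous fun g' : Matrix (Fin n) (Fin n) ℝ => |g' i j| :=
      (continuous_apply_apply i j).abs
    exact hcont.continuousAt.eventually (gt_mem_nhds (hg₀.2.2 i j))
  filter_upwards [hev] with g' hb hcl hlow hact k v hv
  have hle : {p : Σ k : Fin n, Matrix (Fin n) (Fin k) ℤ |
        Act w c g' p.2 ∧ ∀ i j, |p.2 i j| ≤ (R : ℤ)} ⊆
      {p : Σ k : Fin n, Matrix (Fin n) (Fin k) ℤ |
        Act w c g₀ p.2 ∧ ∀ i j, |p.2 i j| ≤ (R : ℤ)} :=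
    fun p hp => ⟨hact _ _ hp.1, hp.2⟩
  have hge := hmin _ ⟨g', ⟨hcl, hlow, hb⟩, rfl⟩
  rw [← hm] at hge
  have heq := Set.eq_of_subset_of_ncard_le hle (not_lt.1 hge) (hA g₀)
  have hdet : |g₀.det| = 1 := by rw [orb_det hh hg₀.1]; exact abs_one
  have hgr : gr (g₀ * rm v) ≤ 1 := by
    have h1 : gr (g₀ * rm v) * 1 ≤ gr (g₀ * rm v) * w ^ (k * (n - k)) :=
      mul_le_mul_of_nonneg_left (one_le_pow₀ hw.le) (gr_nonneg _)
    rw [hv.2.2.2, mul_one] at h1
    exact h1.trans hc1.le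
  obtain ⟨U, hU, hUb⟩ := hR g₀ hdet (fun i j => (hg₀.2.2 i j).le)
    (fun x hx => low_vec hw0 hn hg₀.2.1 x hx) k v hv.2.2.1 hgr
  have hin : (⟨⟨k, hv.2.1⟩, v * U⟩ : Σ k : Fin n, Matrix (Fin n) (Fin k) ℤ) ∈
      {p : Σ k : Fin n, Matrix (Fin n) (Fin k) ℤ |
        Act w c g₀ p.2 ∧ ∀ i j, |p.2 i j| ≤ (R : ℤ)} :=
    ⟨(act_unimod hU).2 hv, hUb⟩
  rw [← heq] at hin
  exact (act_unimod hU).1 hin.1

end Pool.Agent.Lib.MP_ddd95a_nt.Mord
end
end

section

/-!
# Small perturbations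
-/

open Matrix MeasureTheory Filter Set
open scoped ENNReal Topology

noncomputable section

namespace Pool.Agent.Lib.MP_ddd95a_nt.Mord

namespace PertAux

theorem cont_entry {n : ℕ} (i j : Fin n) :
    Continuous fun g : Matrix (Fin n) (Fin n) ℝ => g i j :=
  continuous_id.matrix_elem i j

theorem cont_rm_mul {n k : ℕ} (v : Matrix (Fin n) (Fin k) ℤ) :
    Continuous fun g : Matrix (Fin n) (Fin n) ℝ => gr (g * rm v) := by
  unfold gr
  have h : Continuous fun g : Matrix (Fin n) (Fin n) ℝ => g * rm v :=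
    continuous_id.matrix_mul continuous_const
  exact (h.matrix_transpose.matrix_mul h).matrix_det

theorem int_sq {n : ℕ} (x : Fin n → ℤ) (hx : x ≠ 0) : (1 : ℝ) ≤ ∑ i, zc x i ^ 2 := by
  have hex : ∃ i, x i ≠ 0 := by
    by_contra hcon
    push Not at hcon
    exact hx (funext hcon)
  obtain ⟨i, hi⟩ := hex
  have h1 : (1 : ℝ) ≤ zc x i ^ 2 := by
    have : (1 : ℤ) ≤ x i ^ 2 := by
      have := pow_pos (abs_pos.mpr hi) 2
      rw [sq_abs] at this
      omega
    have h2 : ((1 : ℤ) : ℝ) ≤ ((x i ^ 2 : ℤ) : ℝ) := by exact_mod_cast this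
    simpa [zc] using h2
  exact h1.trans (Finset.single_le_sum (f := fun i => zc x i ^ 2) (fun i _ => sq_nonneg _)
    (Finset.mem_univ i))

theorem qf_le {n : ℕ} (g : Matrix (Fin n) (Fin n) ℝ) (x : Fin n → ℝ) :
    qf g x ≤ (∑ i, ∑ j, g i j ^ 2) * ∑ j, x j ^ 2 := by
  unfold qf
  rw [Finset.sum_mul]
  refine Finset.sum_le_sum fun i _ => ?_
  have h := Finset.sum_mul_sq_le_sq_mul_sq Finset.univ (fun j => g i j) x
  exact h

theorem qf_tri {n : ℕ} (g g' : Matrix (Fin n) (Fin n) ℝ) (x : Fin n → ℝ) :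
    qf g x ≤ 2 * qf g' x + 2 * qf (g - g') x := by
  unfold qf
  rw [Finset.mul_sum, Finset.mul_sum, ← Finset.sum_add_distrib]
  refine Finset.sum_le_sum fun i _ => ?_
  have e : ((g - g') *ᵥ x) i = (g *ᵥ x) i - (g' *ᵥ x) i := by
    rw [Matrix.sub_mulVec]
    rfl
  rw [e]
  nlinarith [sq_nonneg ((g *ᵥ x) i - 2 * (g' *ᵥ x) i)]

/-- uniform lower bound for integer vectors near `g` -/
theorem near {n : ℕ} {g : Matrix (Fin n) (Fin n) ℝ} (hg : |g.det| = 1) :
    ∃ c₁ : ℝ, 0 < c₁ ∧ ∃ R₀ : ℝ, ∀ᶠ g' in 𝓝 g, (∀ i j, |g' i j| ≤ R₀) ∧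
      ∀ x : Fin n → ℤ, x ≠ 0 → c₁ ≤ qf g' (zc x) := by
  have hdet : g.det ≠ 0 := by
    intro h
    rw [h, abs_zero] at hg
    exact zero_ne_one hg
  obtain ⟨b, hb, hlow⟩ := exists_lower hdet
  refine ⟨b / 4, by positivity, ∑ i, ∑ j, |g i j| + 1, ?_⟩
  have h1 : ∀ᶠ g' in 𝓝 g, ∀ i j, |g' i j| ≤ ∑ i, ∑ j, |g i j| + 1 := by
    refine eventually_all.mpr fun i => eventually_all.mpr fun j => ?_
    have hc : Continuous fun g' : Matrix (Fin n) (Fin n) ℝ => |g' i j| := (cont_entry i j).abs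
    have hlt : |g i j| < ∑ i, ∑ j, |g i j| + 1 := by
      have h2 : |g i j| ≤ ∑ j, |g i j| :=
        Finset.single_le_sum (f := fun j => |g i j|) (fun j _ => abs_nonneg _) (Finset.mem_univ j)
      have h3 : ∑ j, |g i j| ≤ ∑ i, ∑ j, |g i j| :=
        Finset.single_le_sum (f := fun i => ∑ j, |g i j|)
          (fun i _ => Finset.sum_nonneg fun j _ => abs_nonneg _) (Finset.mem_univ i)
      linarith
    have := (hc.tendsto g).eventually_lt_const hlt
    exact this.mono fun g' h => h.le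
  have h2 : ∀ᶠ g' in 𝓝 g, ∑ i, ∑ j, (g - g') i j ^ 2 < b / 4 := by
    have hc : Continuous fun g' : Matrix (Fin n) (Fin n) ℝ => ∑ i, ∑ j, (g - g') i j ^ 2 := by
      refine continuous_finsetSum _ fun i _ => continuous_finsetSum _ fun j _ => ?_
      exact (continuous_const.sub (cont_entry i j)).pow 2
    have h0 : ∑ i, ∑ j, (g - g) i j ^ 2 < b / 4 := by
      simp only [sub_self, Matrix.zero_apply, ne_eq, OfNat.ofNat_ne_zero, not_false_eq_true,
        zero_pow, Finset.sum_const_zero]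
      positivity
    exact (hc.tendsto g).eventually_lt_const h0
  filter_upwards [h1, h2] with g' hg1 hg2
  refine ⟨hg1, fun x hx => ?_⟩
  have h3 := hlow (zc x)
  have h4 := qf_tri g g' (zc x)
  have h5 := qf_le (g - g') (zc x)
  have h6 := int_sq x hx
  have h7 : (∑ i, ∑ j, (g - g') i j ^ 2) * ∑ j, zc x j ^ 2 ≤ b / 4 * ∑ j, zc x j ^ 2 :=
    mul_le_mul_of_nonneg_right hg2.le (by linarith)
  have h8 : b / 4 * 1 ≤ b / 4 * ∑ j, zc x j ^ 2 := mul_le_mul_of_nonneg_left h6 (by positivity)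
  linarith

theorem fin_bdd (n k R : ℕ) :
    {v : Matrix (Fin n) (Fin k) ℤ | ∀ i j, |v i j| ≤ (R : ℤ)}.Finite := by
  have h : (Set.pi univ fun _ : Fin n => Set.pi univ fun _ : Fin k => Set.Icc (-(R : ℤ)) R).Finite :=
    Set.Finite.pi fun _ => Set.Finite.pi fun _ => Set.finite_Icc _ _
  refine h.subset ?_
  intro v hv i _ j _
  exact abs_le.mp (hv i j)

theorem val_one {n k : ℕ} {w : ℝ} (hw : 1 < w) : (1 : ℝ) ≤ w ^ (k * (n - k)) := one_le_pow₀ hw.le

theorem det_ne {k : ℕ} {U : Matrix (Fin k) (Fin k) ℤ} (h : |U.det| = 1) : U.det ≠ 0 := by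
  intro h0
  rw [h0, abs_zero] at h
  exact zero_ne_one h

theorem gr_rep {n k : ℕ} (g : Matrix (Fin n) (Fin n) ℝ) (v : Matrix (Fin n) (Fin k) ℤ)
    {U : Matrix (Fin k) (Fin k) ℤ} (h : |U.det| = 1) : gr (g * rm (v * U)) = gr (g * rm v) := by
  rw [rm_mul, ← Matrix.mul_assoc, gr_unimod _ h]

end PertAux

/-- For `g'` near `g` only the sublattices which are active for `g` can have a value at most `c`.
Proof: for `g'` near `g` the entries are bounded and `qf g' (zc x) ≥ c₁ := c / w^(n-1) / 2` for all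
integer `x ≠ 0` (`low_vec` for `g`; `|(g' - g) x| ≤ ε n |x|`, and `|x|² ≤ C qf g x` by `exists_lower`).
If `gr (g' v) w^(k(n-k)) ≤ c` then `gr (g' v) ≤ 1`, and `fin_rep n c₁ R₀ 1` gives `U` such that `v U` is
one of finitely many matrices; `gr (g' (v U)) = gr (g' v)`. For each of the finitely many bounded
matrices `v'` with `Nd v'`, `1 ≤ k < n`, which are not active for `g` we have `gr (g v') w^(..) > c`
(`Low`), and this remains true for `g'` near `g` by continuity. -/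
theorem pert {n : ℕ} (hn : 2 ≤ n) {w c : ℝ} (hw : 1 < w) (hc : 0 < c) (hc1 : c < 1)
    {g : Matrix (Fin n) (Fin n) ℝ} (hg : |g.det| = 1) (hL : Low w c g) :
    ∀ᶠ g' in 𝓝 g, |g'.det| = 1 → ∀ k, 1 ≤ k → k < n → ∀ v : Matrix (Fin n) (Fin k) ℤ, Nd v →
      gr (g' * rm v) * w ^ (k * (n - k)) ≤ c → Act w c g v := by
  obtain ⟨c₁, hc₁, R₀, hnear⟩ := PertAux.near hg
  obtain ⟨R, hR⟩ := fin_rep n c₁ R₀ 1 hc₁
  have hfin : ∀ᶠ g' in 𝓝 g, ∀ k ∈ Finset.range n,
      ∀ v ∈ {v : Matrix (Fin n) (Fin k) ℤ | ∀ i j, |v i j| ≤ (R : ℤ)},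
        1 ≤ k → Nd v → ¬ Act w c g v → c < gr (g' * rm v) * w ^ (k * (n - k)) := by
    refine (Filter.eventually_all_finset _).mpr fun k hk => ?_
    refine (Filter.eventually_all_finite (PertAux.fin_bdd n k R)).mpr fun v _ => ?_
    by_cases h1 : 1 ≤ k ∧ Nd v ∧ ¬ Act w c g v
    · obtain ⟨hk1, hnd, hact⟩ := h1
      have hkn := Finset.mem_range.mp hk
      have hle := hL k hk1 hkn v hnd
      have hne : c ≠ gr (g * rm v) * w ^ (k * (n - k)) := by
        intro he
        exact hact ⟨hk1, hkn, hnd, he.symm⟩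
      have hlt := lt_of_le_of_ne hle hne
      have hcont : Continuous fun g' : Matrix (Fin n) (Fin n) ℝ =>
          gr (g' * rm v) * w ^ (k * (n - k)) := (PertAux.cont_rm_mul v).mul_const _
      have := (hcont.tendsto g).eventually_const_lt hlt
      exact this.mono fun g' h _ _ _ => h
    · exact Eventually.of_forall fun g' a b d => absurd ⟨a, b, d⟩ h1
  filter_upwards [hnear, hfin] with g' h1 h2 hdet k hk1 hkn v hnd hval
  have hgr1 : gr (g' * rm v) ≤ 1 := by
    have h3 := gr_nonneg (g' * rm v)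
    have h4 := PertAux.val_one (n := n) (k := k) hw
    nlinarith [mul_le_mul_of_nonneg_left h4 h3]
  obtain ⟨U, hU, hbd⟩ := hR g' hdet h1.1 h1.2 k v hnd hgr1
  have hnd' : Nd (v * U) := (nd_mul_sq v U).mpr ⟨hnd, PertAux.det_ne hU⟩
  have hact : Act w c g (v * U) := by
    by_contra hna
    have h5 := h2 k (Finset.mem_range.mpr hkn) (v * U) hbd hk1 hnd' hna
    rw [PertAux.gr_rep g' v hU] at h5
    exact absurd hval (not_le.mpr h5)
  refine ⟨hk1, hkn, hnd, ?_⟩
  have h6 := hact.2.2.2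
  rw [PertAux.gr_rep g v hU] at h6
  exact h6

/-- The same for strict bounds, uniformly: if all values at the active sublattices of `g'` are `> c`,
then `Low w c' g'` for some `c' > c`. (For `g'` near `g`; the minimum over finitely many
matrices: as above every `v` with `gr (g' v) w^(..) ≤ 1` can be replaced by one of finitely many.) -/
theorem pert_strict {n : ℕ} (hn : 2 ≤ n) {w c : ℝ} (hw : 1 < w) (hc : 0 < c) (hc1 : c < 1)
    {g : Matrix (Fin n) (Fin n) ℝ} (hg : |g.det| = 1) (hL : Low w c g) :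
    ∀ᶠ g' in 𝓝 g, |g'.det| = 1 →
      (∀ (k : ℕ) (v : Matrix (Fin n) (Fin k) ℤ), Act w c g v →
        c < gr (g' * rm v) * w ^ (k * (n - k))) → ∃ c', c < c' ∧ Low w c' g' := by
  obtain ⟨c₁, hc₁, R₀, hnear⟩ := PertAux.near hg
  obtain ⟨R, hR⟩ := fin_rep n c₁ R₀ 1 hc₁
  filter_upwards [hnear, pert hn hw hc hc1 hg hL] with g' h1 h2 hdet hact
  have hpos : ∀ k, 1 ≤ k → k < n → ∀ v : Matrix (Fin n) (Fin k) ℤ, Nd v →
      c < gr (g' * rm v) * w ^ (k * (n - k)) := by
    intro k hk1 hkn v hnd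
    by_contra hcon
    push Not at hcon
    have h3 := h2 hdet k hk1 hkn v hnd hcon
    exact absurd hcon (not_le.mpr (hact k v h3))
  have hev : ∀ᶠ c' in 𝓝[>] c, ∀ k ∈ Finset.range n,
      ∀ v ∈ {v : Matrix (Fin n) (Fin k) ℤ | ∀ i j, |v i j| ≤ (R : ℤ)},
        1 ≤ k → Nd v → c' ≤ gr (g' * rm v) * w ^ (k * (n - k)) := by
    refine (Filter.eventually_all_finset _).mpr fun k hk => ?_
    refine (Filter.eventually_all_finite (PertAux.fin_bdd n k R)).mpr fun v _ => ?_
    by_cases h3 : 1 ≤ k ∧ Nd v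
    · have hlt := hpos k h3.1 (Finset.mem_range.mp hk) v h3.2
      have := Ioo_mem_nhdsGT hlt
      filter_upwards [this] with c' hc' _ _
      exact hc'.2.le
    · exact Eventually.of_forall fun c' a b => absurd ⟨a, b⟩ h3
  have hev1 : ∀ᶠ c' in 𝓝[>] c, c' ∈ Ioo c 1 := Ioo_mem_nhdsGT hc1
  obtain ⟨c', hc'1, hc'2⟩ := (hev1.and hev).exists
  refine ⟨c', hc'1.1, ?_⟩
  intro k hk1 hkn v hnd
  have h4 := PertAux.val_one (n := n) (k := k) hw
  by_cases hgr1 : gr (g' * rm v) ≤ 1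
  · obtain ⟨U, hU, hbd⟩ := hR g' hdet h1.1 h1.2 k v hnd hgr1
    have hnd' : Nd (v * U) := (nd_mul_sq v U).mpr ⟨hnd, PertAux.det_ne hU⟩
    have h5 := hc'2 k (Finset.mem_range.mpr hkn) (v * U) hbd hk1 hnd'
    rw [PertAux.gr_rep g' v hU] at h5
    exact h5
  · push Not at hgr1
    have h6 := hc'1.2
    nlinarith [mul_le_mul_of_nonneg_left h4 (by linarith : (0 : ℝ) ≤ gr (g' * rm v))]

end Pool.Agent.Lib.MP_ddd95a_nt.Mord
end
end
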