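import Pool.Agent.Lib.MP_ddd95a_nt.Mg.G001
import Pool.Agent.Lib.MP_ddd95a_nt.Mord.Defs
import Pool.Agent.Lib.MP_ddd95a_nt.Mord.Auer
import Pool.Agent.Lib.MP_ddd95a_nt.Defs

section

/-!
# The noise operator
-/

open Matrix MeasureTheory Filter Set
open scoped ENNReal Topology

noncomputable section

namespace Pool.Agent.Lib.MP_ddd95a_nt.Mord

variable {n : ℕ}

namespace CubeBAux

theorem sg_sq (e : Fin n → Bool) (i : Fin n) : sg e i * sg e i = 1 := by
  unfold sg
  split_ifs <;> norm_num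

theorem abs_sg (e : Fin n → Bool) (i : Fin n) : |sg e i| = 1 := by
  unfold sg
  split_ifs <;> norm_num

theorem avg_sum {κ : Type*} (s : Finset κ) (φ : κ → (Fin n → Bool) → ℝ) :
    avg (fun e => ∑ k ∈ s, φ k e) = ∑ k ∈ s, avg (φ k) := by
  unfold avg
  rw [Finset.sum_comm, Finset.sum_div]

theorem avg_mul (c : ℝ) (φ : (Fin n → Bool) → ℝ) : avg (fun e => c * φ e) = c * avg φ := by
  unfold avg
  rw [← Finset.mul_sum, mul_div_assoc]

theorem weight (ρ : ℝ) (e : Fin n → Bool) :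
    avg (fun e' : Fin n → Bool => ∏ i, (1 + ρ * sg e i * sg e' i)) = 1 := by
  rw [avg_prod (fun i s => 1 + ρ * sg e i * s)]
  refine Finset.prod_eq_one fun i _ => ?_
  ring

theorem expand (ρ : ℝ) (e e' : Fin n → Bool) :
    ∏ i, (1 + ρ * sg e i * sg e' i) =
      ∑ S : Finset (Fin n), ρ ^ S.card * (wal S e * wal S e') := by
  rw [Finset.prod_one_add, Finset.powerset_univ]
  refine Finset.sum_congr rfl fun S _ => ?_
  rw [Finset.prod_mul_distrib, Finset.prod_mul_distrib, Finset.prod_const]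
  unfold wal
  ring

theorem parseval (d : Finset (Fin n) → ℝ) :
    avg (fun e => (∑ S : Finset (Fin n), d S * wal S e) ^ 2) = ∑ S, d S ^ 2 := by
  have h1 : ∀ e : Fin n → Bool, (∑ S : Finset (Fin n), d S * wal S e) ^ 2 =
      ∑ S : Finset (Fin n), ∑ T : Finset (Fin n), (d S * d T) * (wal S e * wal T e) := by
    intro e
    rw [sq, Finset.sum_mul_sum]
    refine Finset.sum_congr rfl fun S _ => Finset.sum_congr rfl fun T _ => ?_
    ring
  simp only [h1]
  rw [avg_sum]
  refine Finset.sum_congr rfl fun S _ => ?_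
  rw [avg_sum]
  simp only [avg_mul, wal_orth]
  rw [Finset.sum_eq_single S]
  · rw [if_pos rfl]
    ring
  · intro T _ hT
    rw [if_neg (Ne.symm hT), mul_zero]
  · intro h
    exact absurd (Finset.mem_univ S) h

theorem nz_one (f : (Fin n → Bool) → Fin n → ℝ) (e : Fin n → Bool) (a : Fin n) :
    nz 1 f e a = f e a := by
  unfold nz avg
  rw [Finset.sum_eq_single e]
  · have h1 : ∏ i, (1 + 1 * sg e i * sg e i) = (2 : ℝ) ^ n := by
      have h2 : ∀ i, 1 + 1 * sg e i * sg e i = (2 : ℝ) := by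
        intro i
        rw [one_mul, sg_sq]
        norm_num
      simp only [h2, Finset.prod_const, Finset.card_univ, Fintype.card_fin]
    rw [h1]
    field_simp
  · intro e' _ he
    have h1 : ∃ i, e' i ≠ e i := by
      by_contra h
      push Not at h
      exact he (funext h)
    obtain ⟨i, hi⟩ := h1
    rw [Finset.prod_eq_zero (Finset.mem_univ i), zero_mul]
    have h2 : sg e i * sg e' i = -1 := by
      unfold sg
      rcases h3 : e i <;> rcases h4 : e' i <;> simp_all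
    rw [one_mul, h2]
    norm_num
  · intro h
    exact absurd (Finset.mem_univ e) h

end CubeBAux

open CubeBAux

/-- The weights `∏ (1 + ρ e_i e'_i)` are nonnegative for `|ρ| ≤ 1` and have average one. -/
theorem nz_le (p : Seminorm ℝ (Fin n → ℝ)) {f : (Fin n → Bool) → Fin n → ℝ}
    (hf : ∀ e, p (f e) ≤ 1) {ρ : ℝ} (hρ : |ρ| ≤ 1) (e : Fin n → Bool) : p (nz ρ f e) ≤ 1 := by
  have h0 : ∀ e' : Fin n → Bool, 0 ≤ ∏ i, (1 + ρ * sg e i * sg e' i) := by
    intro e'
    refine Finset.prod_nonneg fun i _ => ?_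
    have h1 : |ρ * sg e i * sg e' i| ≤ 1 := by
      rw [abs_mul, abs_mul, abs_sg, abs_sg, mul_one, mul_one]
      exact hρ
    linarith [(abs_le.mp h1).1]
  have h1 : nz ρ f e = ((2 : ℝ) ^ n)⁻¹ • ∑ e' : Fin n → Bool,
      (∏ i, (1 + ρ * sg e i * sg e' i)) • f e' := by
    funext a
    rw [Pi.smul_apply, Finset.sum_apply]
    unfold nz avg
    simp only [Pi.smul_apply, smul_eq_mul]
    rw [div_eq_inv_mul]
  have h2 : p (∑ e' : Fin n → Bool, (∏ i, (1 + ρ * sg e i * sg e' i)) • f e') ≤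
      ∑ e' : Fin n → Bool, ∏ i, (1 + ρ * sg e i * sg e' i) := by
    refine (Finset.le_sum_of_subadditive p (map_zero p).le (map_add_le_add p) _ _).trans ?_
    refine Finset.sum_le_sum fun e' _ => ?_
    rw [map_smul_eq_mul, Real.norm_of_nonneg (h0 e')]
    exact mul_le_of_le_one_right (h0 e') (hf e')
  have h3 := weight ρ e
  unfold avg at h3
  rw [h1, map_smul_eq_mul, Real.norm_of_nonneg (by positivity)]
  calc ((2 : ℝ) ^ n)⁻¹ * p (∑ e' : Fin n → Bool, (∏ i, (1 + ρ * sg e i * sg e' i)) • f e')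
      ≤ ((2 : ℝ) ^ n)⁻¹ * ∑ e' : Fin n → Bool, ∏ i, (1 + ρ * sg e i * sg e' i) :=
        mul_le_mul_of_nonneg_left h2 (by positivity)
    _ = 1 := by
        rw [← div_eq_inv_mul]
        exact h3

/-- Expand the product (`Finset.prod_one_add`). -/
theorem nz_eq (ρ : ℝ) (f : (Fin n → Bool) → Fin n → ℝ) (e : Fin n → Bool) (a : Fin n) :
    nz ρ f e a = ∑ S : Finset (Fin n), ρ ^ S.card * (wal S e * fc f S a) := by
  unfold nz
  have h1 : (fun e' : Fin n → Bool => (∏ i, (1 + ρ * sg e i * sg e' i)) * f e' a) =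
      fun e' => ∑ S : Finset (Fin n), (ρ ^ S.card * wal S e) * (f e' a * wal S e') := by
    funext e'
    rw [expand, Finset.sum_mul]
    refine Finset.sum_congr rfl fun S _ => ?_
    ring
  rw [h1, avg_sum]
  refine Finset.sum_congr rfl fun S _ => ?_
  rw [avg_mul]
  unfold fc
  ring

theorem rad_eq (f : (Fin n → Bool) → Fin n → ℝ) (e : Fin n → Bool) (a : Fin n) :
    rad f e a = ∑ S : Finset (Fin n), (if S.card = 1 then 1 else 0) * (wal S e * fc f S a) := by
  have h1 : ∑ S : Finset (Fin n), (if S.card = 1 then (1 : ℝ) else 0) * (wal S e * fc f S a) =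
      ∑ S ∈ Finset.powersetCard 1 (Finset.univ : Finset (Fin n)), wal S e * fc f S a := by
    rw [← Finset.sum_filter_add_sum_filter_not Finset.univ (fun S : Finset (Fin n) => S.card = 1)]
    have h2 : ∑ S ∈ Finset.univ.filter (fun S : Finset (Fin n) => ¬ S.card = 1),
        (if S.card = 1 then (1 : ℝ) else 0) * (wal S e * fc f S a) = 0 := by
      refine Finset.sum_eq_zero fun S hS => ?_
      rw [if_neg (Finset.mem_filter.mp hS).2, zero_mul]
    rw [h2, add_zero]
    refine Finset.sum_congr ?_ fun S hS => ?_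
    · ext S
      simp [Finset.mem_powersetCard]
    · rw [if_pos (Finset.mem_powersetCard.mp hS).2, one_mul]
  rw [h1, Finset.powersetCard_one, Finset.sum_map]
  unfold rad
  refine Finset.sum_congr rfl fun i _ => ?_
  change _ = wal {i} e * fc f {i} a
  unfold wal fc
  have h3 : ∀ e' : Fin n → Bool, wal {i} e' = sg e' i := fun e' => by
    unfold wal
    rw [Finset.prod_singleton]
  simp only [h3]
  rw [Finset.prod_singleton, mul_comm]

/-- Parseval, for the functions `∑ c_S f_S w_S`: all coordinates `a`. From `wal_orth` and the expansion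
`f e a = ∑ S, fc f S a * wal S e` (`nz_eq` for `ρ = 1`, `nz 1 f = f`). -/
theorem parseval_le (f : (Fin n → Bool) → Fin n → ℝ) (c : Finset (Fin n) → ℝ) {A : ℝ}
    (hc : ∀ S, |c S| ≤ A) (a : Fin n) :
    avg (fun e => (∑ S : Finset (Fin n), c S * (wal S e * fc f S a)) ^ 2) ≤
      A ^ 2 * avg (fun e => f e a ^ 2) := by
  have h1 : (fun e => (∑ S : Finset (Fin n), c S * (wal S e * fc f S a)) ^ 2) =
      fun e => (∑ S : Finset (Fin n), (c S * fc f S a) * wal S e) ^ 2 := by
    funext e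
    congr 1
    refine Finset.sum_congr rfl fun S _ => ?_
    ring
  have h2 : (fun e => f e a ^ 2) = fun e => (∑ S : Finset (Fin n), fc f S a * wal S e) ^ 2 := by
    funext e
    congr 1
    rw [← nz_one f e a, nz_eq]
    refine Finset.sum_congr rfl fun S _ => ?_
    rw [one_pow]
    ring
  rw [h1, h2, parseval, parseval, Finset.mul_sum]
  refine Finset.sum_le_sum fun S _ => ?_
  rw [mul_pow]
  refine mul_le_mul_of_nonneg_right ?_ (sq_nonneg _)
  rw [← sq_abs (c S)]
  exact pow_le_pow_left₀ (abs_nonneg _) (hc S) 2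

end Pool.Agent.Lib.MP_ddd95a_nt.Mord
end
end

section

/-!
# Central difference weights
-/

open Matrix MeasureTheory Filter Set
open scoped ENNReal Topology

noncomputable section

namespace Pool.Agent.Lib.MP_ddd95a_nt.Mord

namespace DiffAux

theorem neg_one_sub {J i : ℕ} (h : i ≤ 2 * J) : (-1 : ℝ) ^ (2 * J - i) = (-1) ^ i := by
  have h1 : (-1 : ℝ) ^ (2 * J - i) * (-1) ^ i = 1 := by
    rw [← pow_add, Nat.sub_add_cancel h, pow_mul]
    norm_num
  have h2 : (-1 : ℝ) ^ i * (-1) ^ i = 1 := by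
    rw [← mul_pow]
    norm_num
  have h3 : (-1 : ℝ) ^ i ≠ 0 := pow_ne_zero _ (by norm_num)
  exact mul_right_cancel₀ h3 (h1.trans h2.symm)

theorem full {J m : ℕ} (h : m < 2 * J) :
    ∑ i ∈ Finset.range (2 * J + 1), (-1 : ℝ) ^ i * ((2 * J).choose i : ℝ) * ((i : ℝ) - J) ^ m
      = 0 := by
  have h1 := congrFun (fwdDiff_iter_pow_eq_zero_of_lt (R := ℝ) h) (-(J : ℝ))
  rw [fwdDiff_iter_eq_sum_shift] at h1
  rw [Pi.zero_apply] at h1
  rw [← h1]
  refine Finset.sum_congr rfl fun i hi => ?_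
  have hi' : i ≤ 2 * J := Nat.lt_succ_iff.mp (Finset.mem_range.mp hi)
  rw [zsmul_eq_mul, nsmul_eq_mul, mul_one]
  push_cast
  rw [neg_one_sub hi', neg_add_eq_sub]

theorem half {J m : ℕ} (h : m < 2 * J) (hm : Even m) :
    2 * ∑ i ∈ Finset.range J, (-1 : ℝ) ^ i * ((2 * J).choose (J + (i + 1)) : ℝ) *
      ((i + 1 : ℕ) : ℝ) ^ m = ((2 * J).choose J : ℝ) * 0 ^ m := by
  set f : ℕ → ℝ := fun i => (-1 : ℝ) ^ i * ((2 * J).choose i : ℝ) * ((i : ℝ) - J) ^ m with hf
  have hsym : ∀ i, i ≤ 2 * J → f (2 * J - i) = f i := by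
    intro i hi
    simp only [hf]
    rw [neg_one_sub hi, Nat.choose_symm hi, Nat.cast_sub hi]
    congr 1
    rw [← hm.neg_pow ((i : ℝ) - J)]
    congr 1
    push_cast
    ring
  have h1 : ∑ i ∈ Finset.range (2 * J + 1), f i = 0 := full h
  have h2 : 2 * J + 1 = (J + 1) + J := by ring
  rw [h2, Finset.sum_range_add, Finset.sum_range_succ, ← Finset.sum_range_reflect] at h1
  have h3 : ∑ j ∈ Finset.range J, f (J - 1 - j) = ∑ j ∈ Finset.range J, f (J + 1 + j) := by
    refine Finset.sum_congr rfl fun j hj => ?_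
    have hj' := Finset.mem_range.mp hj
    rw [← hsym (J - 1 - j) (by omega)]
    congr 1
    omega
  rw [h3] at h1
  have h4 : f J = (-1 : ℝ) ^ J * (((2 * J).choose J : ℝ) * 0 ^ m) := by
    simp only [hf]
    rw [sub_self]
    ring
  have h5 : ∑ j ∈ Finset.range J, f (J + 1 + j) = (-1 : ℝ) ^ J * (-∑ i ∈ Finset.range J,
      (-1 : ℝ) ^ i * ((2 * J).choose (J + (i + 1)) : ℝ) * ((i + 1 : ℕ) : ℝ) ^ m) := by
    rw [← Finset.sum_neg_distrib, Finset.mul_sum]
    refine Finset.sum_congr rfl fun j _ => ?_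
    simp only [hf]
    have e1 : J + 1 + j = J + (j + 1) := by ring
    rw [e1, pow_add, pow_succ]
    have e2 : ((J + (j + 1) : ℕ) : ℝ) - J = ((j + 1 : ℕ) : ℝ) := by
      push_cast
      ring
    rw [e2]
    ring
  rw [h4, h5] at h1
  have h6 : (-1 : ℝ) ^ J ≠ 0 := pow_ne_zero _ (by norm_num)
  have h7 : (-1 : ℝ) ^ J * (((2 * J).choose J : ℝ) * 0 ^ m - 2 * ∑ i ∈ Finset.range J,
      (-1 : ℝ) ^ i * ((2 * J).choose (J + (i + 1)) : ℝ) * ((i + 1 : ℕ) : ℝ) ^ m) = 0 := by
    linear_combination h1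
  rcases mul_eq_zero.mp h7 with h8 | h8
  · exact absurd h8 h6
  · linarith

end DiffAux

open DiffAux

/-- Numerical differentiation at `0`. Take `w j = (-1)^(j+1) C(2J, J+j) / (j C(2J, J))` (this is `0` for
`j > J`); then `|w j| ≤ 1 / j`. For even `k` the terms vanish. For odd `k ≤ 2J - 1`:
`∑_(j=1)^J 2 w_j j^k = - C(2J,J)⁻¹ ∑_(j ≠ 0) (-1)^j C(2J, J+j) j^(k-1)` (sum over
`-J ≤ j ≤ J`, `j ≠ 0`), and the full sum over `-J ≤ j ≤ J` (the term `j = 0` is `C(2J,J)` if `k = 1` and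
`0` otherwise) is a `2J`-th finite difference of a polynomial of degree `k - 1 < 2J`, hence `0`. -/
theorem central (J : ℕ) (hJ : 1 ≤ J) : ∃ w : ℕ → ℝ, (∀ j : ℕ, 1 ≤ j → |w j| ≤ 1 / j) ∧
    ∀ k : ℕ, k ≤ 2 * J → ∑ j ∈ Finset.Icc 1 J, w j * ((j : ℝ) ^ k - (-(j : ℝ)) ^ k) =
      if k = 1 then 1 else 0 := by
  have hC : (0 : ℝ) < ((2 * J).choose J : ℝ) := by
    exact_mod_cast Nat.choose_pos (by omega)
  refine ⟨fun j => (-1) ^ (j + 1) * ((2 * J).choose (J + j) : ℝ) /
    (j * ((2 * J).choose J : ℝ)), fun j hj => ?_, fun k hk => ?_⟩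
  · have hj' : (0 : ℝ) < j := by exact_mod_cast hj
    rw [abs_div, abs_mul, abs_pow, abs_neg, abs_one, one_pow, one_mul,
      abs_of_nonneg (Nat.cast_nonneg _), abs_of_pos (mul_pos hj' hC), div_le_div_iff₀
      (mul_pos hj' hC) hj', one_mul, mul_comm]
    refine mul_le_mul_of_nonneg_left ?_ hj'.le
    have h1 := Nat.choose_le_middle (J + j) (2 * J)
    rw [Nat.mul_div_cancel_left J (by norm_num)] at h1
    exact_mod_cast h1
  · rcases Nat.even_or_odd k with hev | hodd
    · have h1 : k ≠ 1 := by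
        rintro rfl
        exact absurd hev (by decide)
      rw [if_neg h1]
      refine Finset.sum_eq_zero fun j _ => ?_
      rw [hev.neg_pow, sub_self, mul_zero]
    · obtain ⟨l, rfl⟩ := hodd
      have hm : 2 * l < 2 * J := by omega
      have h2 := half hm (even_two_mul l)
      have h3 : ∑ j ∈ Finset.Icc 1 J, (-1 : ℝ) ^ (j + 1) * ((2 * J).choose (J + j) : ℝ) /
          (j * ((2 * J).choose J : ℝ)) * ((j : ℝ) ^ (2 * l + 1) - (-(j : ℝ)) ^ (2 * l + 1)) =
          ∑ i ∈ Finset.range J, (2 / ((2 * J).choose J : ℝ)) *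
            ((-1 : ℝ) ^ i * ((2 * J).choose (J + (i + 1)) : ℝ) * ((i + 1 : ℕ) : ℝ) ^ (2 * l)) := by
        refine Finset.sum_nbij' (fun j => j - 1) (fun i => i + 1) ?_ ?_ ?_ ?_ ?_
        · intro j hj
          rw [Finset.mem_Icc] at hj
          rw [Finset.mem_range]
          omega
        · intro i hi
          rw [Finset.mem_range] at hi
          rw [Finset.mem_Icc]
          omega
        · intro j hj
          rw [Finset.mem_Icc] at hj
          omega
        · intro i _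
          rfl
        · intro j hj
          rw [Finset.mem_Icc] at hj
          obtain ⟨i, rfl⟩ : ∃ i, j = i + 1 := ⟨j - 1, by omega⟩
          rw [Nat.add_sub_cancel]
          have hi0 : ((i + 1 : ℕ) : ℝ) ≠ 0 := by exact_mod_cast Nat.succ_ne_zero i
          have e1 : (-((i + 1 : ℕ) : ℝ)) ^ (2 * l + 1) = -(((i + 1 : ℕ) : ℝ) ^ (2 * l + 1)) :=
            Odd.neg_pow ⟨l, rfl⟩ _
          have e2 : (-1 : ℝ) ^ (i + 1 + 1) = (-1) ^ i := by
            rw [pow_succ, pow_succ]
            ring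
          rw [e1, e2, pow_succ]
          field_simp
          ring
      rw [h3, ← Finset.mul_sum, div_mul_eq_mul_div, h2]
      by_cases hl : l = 0
      · subst hl
        simp only [mul_zero, pow_zero, mul_one, zero_add, if_true]
        exact div_self hC.ne'
      · rw [if_neg (by omega), zero_pow (by omega), mul_zero, zero_div]

end Pool.Agent.Lib.MP_ddd95a_nt.Mord
end
end

section

/-!
# The Rademacher projection
-/

open Matrix MeasureTheory Filter Set
open scoped ENNReal Topology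

noncomputable section

namespace Pool.Agent.Lib.MP_ddd95a_nt.Mord

namespace RadJAux

variable {n : ℕ}

theorem avg_add (φ ψ : (Fin n → Bool) → ℝ) : avg (fun e => φ e + ψ e) = avg φ + avg ψ := by
  unfold avg
  rw [Finset.sum_add_distrib, add_div]

theorem avg_mul_left (c : ℝ) (φ : (Fin n → Bool) → ℝ) : avg (fun e => c * φ e) = c * avg φ := by
  unfold avg
  rw [← Finset.mul_sum, mul_div_assoc]

theorem avg_sum {ι : Type*} (s : Finset ι) (φ : ι → (Fin n → Bool) → ℝ) :
    avg (fun e => ∑ i ∈ s, φ i e) = ∑ i ∈ s, avg (φ i) := by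
  unfold avg
  rw [Finset.sum_comm, Finset.sum_div]

theorem harm (J : ℕ) : ∑ j ∈ Finset.Icc 1 J, (1 / (j : ℝ)) ≤ 1 + Real.log J := by
  have h := harmonic_le_one_add_log J
  rw [harmonic_eq_sum_Icc] at h
  push_cast at h
  simpa using h

/-- the multiplier of the difference quotient -/
def am (w : ℕ → ℝ) (J : ℕ) (k : ℕ) : ℝ :=
  ∑ j ∈ Finset.Icc 1 J, (w j * (2 * J)) * ((j / (2 * J : ℝ)) ^ k - (-(j / (2 * J : ℝ))) ^ k)

/-- the difference quotient -/
def Qd (w : ℕ → ℝ) (J : ℕ) (f : (Fin n → Bool) → Fin n → ℝ) (e : Fin n → Bool) : Fin n → ℝ :=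
  ∑ j ∈ Finset.Icc 1 J, (w j * (2 * J)) • (nz (j / (2 * J : ℝ)) f e - nz (-(j / (2 * J : ℝ))) f e)

theorem Qd_eq (w : ℕ → ℝ) (J : ℕ) (f : (Fin n → Bool) → Fin n → ℝ) (e : Fin n → Bool)
    (a : Fin n) :
    Qd w J f e a = ∑ S : Finset (Fin n), am w J S.card * (wal S e * fc f S a) := by
  unfold Qd am
  rw [Finset.sum_apply]
  simp only [Pi.smul_apply, Pi.sub_apply, smul_eq_mul, nz_eq, Finset.sum_mul]
  rw [Finset.sum_comm]
  refine Finset.sum_congr rfl (fun j _ => ?_)
  rw [← Finset.sum_sub_distrib, Finset.mul_sum]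
  refine Finset.sum_congr rfl (fun S _ => ?_)
  ring

theorem am_small (w : ℕ → ℝ) (J : ℕ) (hJ : 1 ≤ J)
    (hw : ∀ k : ℕ, k ≤ 2 * J → ∑ j ∈ Finset.Icc 1 J, w j * ((j : ℝ) ^ k - (-(j : ℝ)) ^ k) =
      if k = 1 then 1 else 0) (k : ℕ) (hk : k ≤ 2 * J) : am w J k = if k = 1 then 1 else 0 := by
  have hJR : (1 : ℝ) ≤ J := by exact_mod_cast hJ
  have hJ0 : (2 * J : ℝ) ≠ 0 := by positivity
  have h1 : am w J k = (2 * J) / (2 * J : ℝ) ^ k *
      ∑ j ∈ Finset.Icc 1 J, w j * ((j : ℝ) ^ k - (-(j : ℝ)) ^ k) := by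
    unfold am
    rw [Finset.mul_sum]
    refine Finset.sum_congr rfl (fun j _ => ?_)
    rw [← neg_div, div_pow, div_pow]
    ring
  rw [h1, hw k hk]
  by_cases h : k = 1
  · rw [if_pos h, h, pow_one, mul_one, div_self hJ0]
  · rw [if_neg h, mul_zero]

theorem am_large (w : ℕ → ℝ) (J : ℕ) (hJ : 1 ≤ J) (hw : ∀ j : ℕ, 1 ≤ j → |w j| ≤ 1 / j)
    (k : ℕ) (hk : 2 * J < k) :
    |am w J k| ≤ 2 * J * (1 + Real.log J) / 2 ^ (2 * J) := by
  have hJR : (1 : ℝ) ≤ J := by exact_mod_cast hJ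
  have h1 : |am w J k| ≤ ∑ j ∈ Finset.Icc 1 J, (1 / (j : ℝ)) * (2 * J / 2 ^ (2 * J)) := by
    unfold am
    refine (Finset.abs_sum_le_sum_abs _ _).trans (Finset.sum_le_sum (fun j hj => ?_))
    rw [Finset.mem_Icc] at hj
    have hjJ : (j : ℝ) ≤ J := by exact_mod_cast hj.2
    have hj0 : (0 : ℝ) ≤ j := Nat.cast_nonneg _
    have hr0 : 0 ≤ (j / (2 * J : ℝ)) := by positivity
    have hr1 : (j / (2 * J : ℝ)) ≤ 1 / 2 := by
      rw [div_le_div_iff₀ (by positivity) (by norm_num)]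
      linarith
    have hpw : (j / (2 * J : ℝ)) ^ k ≤ (1 / 2) ^ (2 * J + 1) :=
      (pow_le_pow_left₀ hr0 hr1 k).trans (pow_le_pow_of_le_one (by norm_num) (by norm_num) hk)
    have h2 : |(j / (2 * J : ℝ)) ^ k - (-(j / (2 * J : ℝ))) ^ k| ≤ 2 * (1 / 2) ^ (2 * J + 1) := by
      refine (abs_sub _ _).trans ?_
      rw [abs_pow, abs_pow, abs_neg, abs_of_nonneg hr0]
      linarith
    have h3 : (2 : ℝ) * (1 / 2) ^ (2 * J + 1) = 1 / 2 ^ (2 * J) := by
      rw [pow_succ, one_div, inv_pow]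
      field_simp
    rw [h3] at h2
    rw [abs_mul, abs_mul, abs_of_nonneg (show (0 : ℝ) ≤ 2 * J by positivity)]
    calc |w j| * (2 * J) * |(j / (2 * J : ℝ)) ^ k - (-(j / (2 * J : ℝ))) ^ k|
        ≤ (1 / (j : ℝ)) * (2 * J) * (1 / 2 ^ (2 * J)) := by
          refine mul_le_mul (mul_le_mul_of_nonneg_right (hw j hj.1) (by positivity)) h2
            (abs_nonneg _) (by positivity)
      _ = (1 / (j : ℝ)) * (2 * J / 2 ^ (2 * J)) := by ring
  refine h1.trans ?_
  rw [← Finset.sum_mul]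
  have h2 := mul_le_mul_of_nonneg_right (harm J) (show (0 : ℝ) ≤ 2 * J / 2 ^ (2 * J) by positivity)
  refine h2.trans (le_of_eq ?_)
  ring

theorem p_Qd (p : Seminorm ℝ (Fin n → ℝ)) {f : (Fin n → Bool) → Fin n → ℝ}
    (hf : ∀ e, p (f e) ≤ 1) (w : ℕ → ℝ) (J : ℕ) (hJ : 1 ≤ J)
    (hw : ∀ j : ℕ, 1 ≤ j → |w j| ≤ 1 / j) (e : Fin n → Bool) :
    p (Qd w J f e) ≤ 4 * J * (1 + Real.log J) := by
  have hJR : (1 : ℝ) ≤ J := by exact_mod_cast hJ
  have h1 : p (Qd w J f e) ≤ ∑ j ∈ Finset.Icc 1 J, (1 / (j : ℝ)) * (4 * J) := by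
    unfold Qd
    refine (Finset.le_sum_of_subadditive p (map_zero p).le (map_add_le_add p) _ _).trans
      (Finset.sum_le_sum (fun j hj => ?_))
    rw [Finset.mem_Icc] at hj
    have hjJ : (j : ℝ) ≤ J := by exact_mod_cast hj.2
    have hj0 : (0 : ℝ) ≤ j := Nat.cast_nonneg _
    have hr0 : 0 ≤ (j / (2 * J : ℝ)) := by positivity
    have hr1 : |(j / (2 * J : ℝ))| ≤ 1 := by
      rw [abs_of_nonneg hr0, div_le_one (by positivity)]
      linarith
    have hr2 : |(-(j / (2 * J : ℝ)))| ≤ 1 := by rw [abs_neg]; exact hr1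
    rw [map_smul_eq_mul, Real.norm_eq_abs, abs_mul,
      abs_of_nonneg (show (0 : ℝ) ≤ 2 * J by positivity)]
    have h2 : p (nz (j / (2 * J : ℝ)) f e - nz (-(j / (2 * J : ℝ))) f e) ≤ 2 := by
      refine (map_sub_le_add p _ _).trans ?_
      linarith [nz_le p hf hr1 e, nz_le p hf hr2 e]
    calc |w j| * (2 * J) * p (nz (j / (2 * J : ℝ)) f e - nz (-(j / (2 * J : ℝ))) f e)
        ≤ (1 / (j : ℝ)) * (2 * J) * 2 := by
          refine mul_le_mul (mul_le_mul_of_nonneg_right (hw j hj.1) (by positivity)) h2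
            (apply_nonneg _ _) (by positivity)
      _ = (1 / (j : ℝ)) * (4 * J) := by ring
  refine h1.trans ?_
  rw [← Finset.sum_mul]
  have h2 := mul_le_mul_of_nonneg_right (harm J) (show (0 : ℝ) ≤ 4 * J by positivity)
  refine h2.trans (le_of_eq ?_)
  ring

theorem fc_mulVec (V : Matrix (Fin n) (Fin n) ℝ) (f : (Fin n → Bool) → Fin n → ℝ)
    (S : Finset (Fin n)) (i : Fin n) :
    fc (fun e => V *ᵥ f e) S i = ∑ a, V i a * fc f S a := by
  unfold fc
  rw [show (fun e => (V *ᵥ f e) i * wal S e) = fun e => ∑ a, V i a * (f e a * wal S e) from ?_]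
  · rw [avg_sum]
    refine Finset.sum_congr rfl (fun a _ => ?_)
    rw [avg_mul_left]
  · funext e
    rw [Matrix.mulVec, dotProduct, Finset.sum_mul]
    refine Finset.sum_congr rfl (fun a _ => ?_)
    ring

end RadJAux

open RadJAux

/-- Bound for the Rademacher projection with an explicit parameter `J`.
Proof: let `δ = 1 / (2 J)`, `w` as in `central`, and consider
`Q e = ∑_(j=1)^J (w j / δ) (nz (j δ) f e - nz (-(j δ)) f e)`. By `nz_eq` its Walsh coefficients are those of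
`f` multiplied by `a_k = ∑_j (w j / δ) ((j δ)^k - (-(j δ))^k) = δ^(k-1) ∑_j w j (j^k - (-j)^k)`, `k = |S|`, so
`a_1 = 1`, `a_k = 0` for the other `k ≤ 2J`, and
`|a_k| ≤ (2/δ) ∑_j (1/j) (j δ)^k ≤ 4 J (1 + log J) 2^(-k) ≤ 2 J (1 + log J) 2^(-2J)` for `k > 2J`
(`j δ ≤ 1/2`). By `nz_le`: `p (Q e) ≤ ∑_j 2 |w j| / δ ≤ 4 J (1 + log J)`. Finally
`rad f = Q - tail`, where in Auerbach coordinates `V` every coordinate of the tail has
`avg (tail_i²) ≤ A² avg ((V f)_i²) ≤ A²` (`parseval_le` applied to the function `V f`,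
`|(V f e)_i| ≤ p (f e) ≤ 1`), `A = 2 J (1 + log J) 2^(-2J)`, so
`avg (p tail) ≤ ∑_i avg |tail_i| ≤ n A` (Cauchy-Schwarz). -/
theorem rad_bound_J {n : ℕ} (p : Seminorm ℝ (Fin n → ℝ)) (hp : ∀ x, x ≠ 0 → 0 < p x)
    {f : (Fin n → Bool) → Fin n → ℝ} (hf : ∀ e, p (f e) ≤ 1) (J : ℕ) (hJ : 1 ≤ J) :
    avg (fun e => p (rad f e)) ≤
      4 * J * (1 + Real.log J) * (1 + n / 2 ^ (2 * J)) := by
  have hJR : (1 : ℝ) ≤ J := by exact_mod_cast hJ
  have hlog : 0 ≤ Real.log J := Real.log_nonneg hJR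
  obtain ⟨w, hw1, hw2⟩ := central J hJ
  obtain ⟨V, hV, hVp⟩ := auerbach p hp
  set A : ℝ := 2 * J * (1 + Real.log J) / 2 ^ (2 * J) with hA
  have hA0 : 0 < A := by rw [hA]; positivity
  set c : Finset (Fin n) → ℝ := fun S => am w J S.card - (if S.card = 1 then 1 else 0) with hc
  have hcA : ∀ S, |c S| ≤ A := by
    intro S
    by_cases hS : S.card ≤ 2 * J
    · rw [hc]
      simp only
      rw [am_small w J hJ hw2 _ hS, sub_self, abs_zero]
      exact hA0.le
    · rw [hc]
      simp only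
      rw [if_neg (by omega), sub_zero]
      exact am_large w J hJ hw1 _ (by omega)
  set tl : (Fin n → Bool) → Fin n → ℝ := fun e a => ∑ S : Finset (Fin n),
    c S * (wal S e * fc f S a) with htl
  have hrad : ∀ e, rad f e = Qd w J f e - tl e := by
    intro e
    funext a
    rw [Pi.sub_apply, Qd_eq, htl, rad_eq, ← Finset.sum_sub_distrib]
    refine Finset.sum_congr rfl (fun S _ => ?_)
    rw [hc]
    ring
  have hVtl : ∀ e i, (V *ᵥ tl e) i
      = ∑ S : Finset (Fin n), c S * (wal S e * fc (fun e => V *ᵥ f e) S i) := by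
    intro e i
    simp only [fc_mulVec, Finset.mul_sum]
    rw [Matrix.mulVec, dotProduct, Finset.sum_comm]
    refine Finset.sum_congr rfl (fun a _ => ?_)
    rw [htl, Finset.mul_sum]
    refine Finset.sum_congr rfl (fun S _ => ?_)
    ring
  have htail : ∀ i, avg (fun e => |(V *ᵥ tl e) i|) ≤ A := by
    intro i
    have h1 : avg (fun e => (V *ᵥ tl e) i ^ 2) ≤ A ^ 2 := by
      have h2 := parseval_le (fun e => V *ᵥ f e) c hcA i
      have h3 : avg (fun e => (V *ᵥ f e) i ^ 2) ≤ 1 := by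
        have h4 : avg (fun e : Fin n → Bool => (V *ᵥ f e) i ^ 2) ≤
            avg (fun _ : Fin n → Bool => (1 : ℝ)) := by
          refine avg_mono (fun e => ?_)
          have h5 : |(V *ᵥ f e) i| ≤ 1 := ((hVp (f e)).1 i).trans (hf e)
          rw [← sq_abs]
          exact pow_le_one₀ (abs_nonneg _) h5
        rwa [avg_const] at h4
      have h6 : (fun e => (V *ᵥ tl e) i ^ 2)
          = fun e => (∑ S : Finset (Fin n), c S * (wal S e * fc (fun e => V *ᵥ f e) S i)) ^ 2 := by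
        funext e
        rw [hVtl]
      rw [h6]
      refine h2.trans ?_
      have : 0 ≤ A ^ 2 := by positivity
      nlinarith
    have h7 : avg (fun e => |(V *ᵥ tl e) i|) ≤
        avg (fun e => (1 / (2 * A)) * (V *ᵥ tl e) i ^ 2 + A / 2) := by
      refine avg_mono (fun e => ?_)
      have h8 : 0 ≤ (|(V *ᵥ tl e) i| - A) ^ 2 := sq_nonneg _
      rw [← sq_abs ((V *ᵥ tl e) i)]
      have h9 : (1 / (2 * A)) * |(V *ᵥ tl e) i| ^ 2 + A / 2 - |(V *ᵥ tl e) i|
          = (1 / (2 * A)) * (|(V *ᵥ tl e) i| - A) ^ 2 := by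
        field_simp
        ring
      have h10 : 0 ≤ (1 / (2 * A)) * (|(V *ᵥ tl e) i| - A) ^ 2 := by positivity
      linarith
    refine h7.trans ?_
    rw [avg_add, avg_mul_left, avg_const]
    have h11 : (1 / (2 * A)) * avg (fun e => (V *ᵥ tl e) i ^ 2) ≤ (1 / (2 * A)) * A ^ 2 :=
      mul_le_mul_of_nonneg_left h1 (by positivity)
    have h12 : (1 / (2 * A)) * A ^ 2 = A / 2 := by
      field_simp
    linarith
  have hmain : avg (fun e => p (rad f e)) ≤
      avg (fun e => 4 * J * (1 + Real.log J) + ∑ i, |(V *ᵥ tl e) i|) := by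
    refine avg_mono (fun e => ?_)
    rw [hrad]
    refine (map_sub_le_add p _ _).trans (add_le_add (p_Qd p hf w J hJ hw1 e) (hVp (tl e)).2)
  refine hmain.trans ?_
  rw [avg_add, avg_const, avg_sum]
  have hsum : ∑ i : Fin n, avg (fun e => |(V *ᵥ tl e) i|) ≤ n * A := by
    refine (Finset.sum_le_sum (fun i _ => htail i)).trans ?_
    rw [Finset.sum_const, Finset.card_univ, Fintype.card_fin, nsmul_eq_mul]
  have hfin : (n : ℝ) * A ≤ 4 * J * (1 + Real.log J) * (n / 2 ^ (2 * J)) := by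
    rw [hA]
    have h1 : (n : ℝ) * (2 * J * (1 + Real.log J) / 2 ^ (2 * J))
        = 2 * J * (1 + Real.log J) * (n / 2 ^ (2 * J)) := by ring
    rw [h1]
    have h2 : 0 ≤ (n : ℝ) / 2 ^ (2 * J) := by positivity
    have h3 : 2 * J * (1 + Real.log J) ≤ 4 * J * (1 + Real.log J) := by nlinarith
    exact mul_le_mul_of_nonneg_right h3 h2
  nlinarith [hsum, hfin]

end Pool.Agent.Lib.MP_ddd95a_nt.Mord
end
end

section

end

section

/-!
# The asymptotic consequence
-/

open Matrix MeasureTheory Filter Set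
open scoped ENNReal Topology

noncomputable section

namespace Pool.Agent.Lib.MP_ddd95a_nt.Mord

/-- The elementary limit. Proof: `log` of the left bound is `- (log C + 3 log log d) / log d → 0`. -/
theorem kap_lim {κ : ℕ → ℝ} {C : ℝ} (hC : 0 < C)
    (h1 : ∀ d : ℕ, 2 ≤ d → ((C * Real.log d ^ 3) ^ d)⁻¹ ≤ κ d)
    (h2 : ∀ d : ℕ, 2 ≤ d → κ d ≤ 1) :
    Tendsto (fun d : ℕ => κ d ^ (1 / ((d : ℝ) * Real.log d))) atTop (𝓝 1) := by
  have hlim1 : Tendsto (fun x : ℝ => Real.log x / x) atTop (𝓝 0) :=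
    Real.isLittleO_log_id_atTop.tendsto_div_nhds_zero
  have hlim2 : Tendsto (fun x : ℝ => Real.exp (-(Real.log C * x⁻¹ + 3 * (Real.log x / x)))) atTop
      (𝓝 1) := by
    have h3 : Tendsto (fun x : ℝ => -(Real.log C * x⁻¹ + 3 * (Real.log x / x))) atTop
        (𝓝 (-(Real.log C * 0 + 3 * 0))) :=
      ((tendsto_inv_atTop_zero.const_mul _).add (hlim1.const_mul _)).neg
    have h4 := (Real.continuous_exp.tendsto _).comp h3
    rw [mul_zero, mul_zero, add_zero, neg_zero, Real.exp_zero] at h4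
    exact h4
  have hlog : Tendsto (fun d : ℕ => Real.log (d : ℝ)) atTop atTop :=
    Real.tendsto_log_atTop.comp tendsto_natCast_atTop_atTop
  have hlim3 := hlim2.comp hlog
  refine tendsto_of_tendsto_of_tendsto_of_le_of_le' hlim3 tendsto_const_nhds ?_ ?_
  · filter_upwards [eventually_ge_atTop 2] with d hd
    have hd2 : (2 : ℝ) ≤ d := by exact_mod_cast hd
    have hx : 0 < Real.log (d : ℝ) := Real.log_pos (by linarith)
    have hd0 : (0 : ℝ) < d := by linarith
    have hpos : 0 < ((C * Real.log d ^ 3) ^ d)⁻¹ := by positivity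
    have h3 : (((C * Real.log d ^ 3) ^ d)⁻¹) ^ (1 / ((d : ℝ) * Real.log d))
        ≤ κ d ^ (1 / ((d : ℝ) * Real.log d)) :=
      Real.rpow_le_rpow hpos.le (h1 d hd) (by positivity)
    refine le_trans (le_of_eq ?_) h3
    rw [Real.rpow_def_of_pos hpos, Function.comp_apply]
    congr 1
    rw [Real.log_inv, Real.log_pow, Real.log_mul hC.ne' (by positivity), Real.log_pow]
    field_simp
    push_cast
    ring
  · filter_upwards [eventually_ge_atTop 2] with d hd
    have hd2 : (2 : ℝ) ≤ d := by exact_mod_cast hd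
    have hx : 0 < Real.log (d : ℝ) := Real.log_pos (by linarith)
    have hd0 : (0 : ℝ) < d := by linarith
    have hpos : 0 < ((C * Real.log d ^ 3) ^ d)⁻¹ := by positivity
    have hκ : 0 < κ d := lt_of_lt_of_le hpos (h1 d hd)
    exact Real.rpow_le_one hκ.le (h2 d hd) (by positivity)

end Pool.Agent.Lib.MP_ddd95a_nt.Mord
end
end

section

/-!
# The upper bound of Minkowski
-/

open Matrix MeasureTheory Filter Set
open scoped ENNReal Topology

noncomputable section

namespace Pool.Agent.Lib.MP_ddd95a_nt.Mord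

/-- Minkowski's linear form theorem: from `τ` with `∏ τ i = κ > 1` for the identity matrix (or any
matrix) Minkowski's convex body theorem (`MeasureTheory.exists_ne_zero_mem_lattice_of_measure_mul_two_pow_le_measure`
or elementary: for `A = 1` the condition says that no unit vector is in the box, so `τ i < 1` for all
`i`, and `κ = ∏ τ i ≤ 1`). -/
theorem adm_le_one {d : ℕ} {κ : ℝ} (h : IsAdmissible d κ) : κ ≤ 1 := by
  obtain ⟨τ, hτ, hprod, hu⟩ := h.2 1 Matrix.det_one
  rw [← hprod]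
  apply Finset.prod_le_one (fun i _ => (hτ i).le)
  intro k _
  by_contra hcon
  rw [not_le] at hcon
  have h1 := hu (Pi.single k 1) (fun i => by
    have h2 : ∑ j, (1 : Matrix (Fin d) (Fin d) ℝ) i j * ((Pi.single k (1 : ℤ) : Fin d → ℤ) j : ℝ)
        = ((Pi.single k (1 : ℤ) : Fin d → ℤ) i : ℝ) := by
      rw [Finset.sum_eq_single i]
      · rw [Matrix.one_apply_eq, one_mul]
      · intro j _ hj
        rw [Matrix.one_apply_ne hj.symm, zero_mul]
      · intro hi
        exact absurd (Finset.mem_univ i) hi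
    rw [h2]
    by_cases hik : i = k
    · subst hik
      rw [Pi.single_eq_same]
      simp only [Int.cast_one, abs_one]
      exact hcon.le
    · rw [Pi.single_eq_of_ne hik]
      simp only [Int.cast_zero, abs_zero]
      exact (hτ i).le)
  have h3 := congrFun h1 k
  rw [Pi.single_eq_same] at h3
  simp at h3

end Pool.Agent.Lib.MP_ddd95a_nt.Mord
end
end

section

/-!
# The inequality of Koteljanskii for Gram determinants
-/

open Matrix MeasureTheory Filter Set
open scoped ENNReal Topology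

noncomputable section

namespace Pool.Agent.Lib.MP_ddd95a_nt.Mord

variable {ι κ μ ν : Type*} [Fintype ι] [Fintype κ] [DecidableEq κ] [Fintype μ]
  [DecidableEq μ] [Fintype ν] [DecidableEq ν]

namespace KotAux

theorem one_le_det {M : Matrix κ κ ℝ} (h : (M - 1).PosSemidef) : 1 ≤ M.det := by
  have h1 : M.IsHermitian := by
    have h2 : M = (M - 1) + 1 := by abel
    rw [h2]
    exact h.isHermitian.add isHermitian_one
  have h3 : ∀ i, 1 ≤ h1.eigenvalues i := by
    intro i
    have h4 := h1.eigenvalues_eq i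
    have h5 := h.re_dotProduct_nonneg (WithLp.ofLp (h1.eigenvectorBasis i))
    rw [sub_mulVec, one_mulVec, dotProduct_sub, map_sub, ← h4] at h5
    have h6 : RCLike.re (star (WithLp.ofLp (h1.eigenvectorBasis i)) ⬝ᵥ
        WithLp.ofLp (h1.eigenvectorBasis i)) = (1 : ℝ) := by
      have h7 := h1.eigenvectorBasis.orthonormal.1 i
      have h8 : ‖h1.eigenvectorBasis i‖ ^ 2 = 1 := by rw [h7]; norm_num
      rw [EuclideanSpace.norm_sq_eq] at h8
      simp only [dotProduct, Pi.star_apply, star_trivial, RCLike.re_to_real]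
      rw [← h8]
      refine Finset.sum_congr rfl fun j _ => ?_
      rw [Real.norm_eq_abs, sq_abs, sq]
    rw [h6] at h5
    linarith
  rw [h1.det_eq_prod_eigenvalues]
  calc (1 : ℝ) = ∏ i : κ, (1 : ℝ) := by simp
    _ ≤ ∏ i, (h1.eigenvalues i : ℝ) := Finset.prod_le_prod (fun i _ => zero_le_one) fun i _ => h3 i

open scoped MatrixOrder in
/-- the determinant is monotone -/
theorem det_mono {A B : Matrix κ κ ℝ} (hA : A.PosSemidef) (h : (B - A).PosSemidef) :
    A.det ≤ B.det := by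
  have hB : B.PosSemidef := by
    have h2 : B = (B - A) + A := by abel
    rw [h2]
    exact h.add hA
  by_cases h0 : A.det = 0
  · rw [h0]
    exact hB.det_nonneg
  · obtain ⟨S, hS⟩ : ∃ S : Matrix κ κ ℝ, A = Sᵀ * S := by
      obtain ⟨S, hS⟩ := (CStarAlgebra.nonneg_iff_eq_star_mul_self (a := A)).1
        (nonneg_iff_posSemidef.2 hA)
      exact ⟨S, by rw [hS, star_eq_conjTranspose, conjTranspose_eq_transpose_of_trivial]⟩
    have hSd : S.det ≠ 0 := by
      intro h1
      apply h0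
      rw [hS, det_mul, h1, mul_zero]
    have hSu : IsUnit S.det := isUnit_iff_ne_zero.2 hSd
    have h2 : ((S⁻¹)ᵀ * (B - A) * S⁻¹).PosSemidef := by
      have h3 := h.conjTranspose_mul_mul_same S⁻¹
      rwa [conjTranspose_eq_transpose_of_trivial] at h3
    have h4 : (S⁻¹)ᵀ * (B - A) * S⁻¹ = (S⁻¹)ᵀ * B * S⁻¹ - 1 := by
      rw [Matrix.mul_sub, Matrix.sub_mul]
      congr 1
      rw [hS, ← Matrix.mul_assoc, Matrix.mul_assoc, Matrix.mul_nonsing_inv S hSu, Matrix.mul_one,
        ← transpose_mul, Matrix.mul_nonsing_inv S hSu, transpose_one]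
    rw [h4] at h2
    have h5 := one_le_det h2
    rw [det_mul, det_mul, det_transpose, det_nonsing_inv, Ring.inverse_eq_inv'] at h5
    rw [hS, det_mul, det_transpose]
    have h6 : 0 < S.det ^ 2 := by positivity
    have h7 : (S.det)⁻¹ * B.det * (S.det)⁻¹ = B.det / S.det ^ 2 := by
      field_simp
    rw [h7, le_div_iff₀ h6, one_mul] at h5
    rw [← sq]
    exact h5

/-- The projection orthogonal to the columns of `X`. -/
def pj [DecidableEq ι] (X : Matrix ι κ ℝ) : Matrix ι ι ℝ := 1 - X * (Xᵀ * X)⁻¹ * Xᵀ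

theorem pj_sq [DecidableEq ι] (X : Matrix ι κ ℝ) (hX : gr X ≠ 0) : (pj X)ᵀ * pj X = pj X := by
  have hu : IsUnit (Xᵀ * X).det := isUnit_iff_ne_zero.2 hX
  have h1 : ((Xᵀ * X)⁻¹)ᵀ = (Xᵀ * X)⁻¹ := by
    rw [transpose_nonsing_inv, transpose_mul, transpose_transpose]
  have h2 : (pj X)ᵀ = pj X := by
    unfold pj
    rw [transpose_sub, transpose_one, transpose_mul, transpose_mul, transpose_transpose, h1,
      Matrix.mul_assoc]
  rw [h2]
  unfold pj
  rw [Matrix.mul_sub, Matrix.mul_one, Matrix.sub_mul, Matrix.one_mul]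
  have h3 : X * (Xᵀ * X)⁻¹ * Xᵀ * (X * (Xᵀ * X)⁻¹ * Xᵀ) = X * (Xᵀ * X)⁻¹ * Xᵀ := by
    calc X * (Xᵀ * X)⁻¹ * Xᵀ * (X * (Xᵀ * X)⁻¹ * Xᵀ) =
        X * ((Xᵀ * X)⁻¹ * (Xᵀ * X)) * (Xᵀ * X)⁻¹ * Xᵀ := by simp only [Matrix.mul_assoc]
      _ = _ := by rw [nonsing_inv_mul _ hu, Matrix.mul_one]
  rw [h3, sub_self, sub_zero]

theorem gram_pj [DecidableEq ι] (X : Matrix ι κ ℝ) (hX : gr X ≠ 0) (Y : Matrix ι μ ℝ) :
    (pj X * Y)ᵀ * (pj X * Y) = Yᵀ * Y - Yᵀ * X * (Xᵀ * X)⁻¹ * (Xᵀ * Y) := by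
  have h1 : (pj X * Y)ᵀ * (pj X * Y) = Yᵀ * ((pj X)ᵀ * pj X) * Y := by
    rw [transpose_mul]
    simp only [Matrix.mul_assoc]
  rw [h1, pj_sq X hX]
  unfold pj
  rw [Matrix.mul_sub, Matrix.sub_mul, Matrix.mul_one]
  simp only [Matrix.mul_assoc]

theorem gr_fromCols [DecidableEq ι] (X : Matrix ι κ ℝ) (hX : gr X ≠ 0) (Y : Matrix ι μ ℝ) :
    gr (fromCols X Y) = gr X * gr (pj X * Y) := by
  have hu : IsUnit (Xᵀ * X) := (isUnit_iff_isUnit_det _).2 (isUnit_iff_ne_zero.2 hX)
  have hi : Invertible (Xᵀ * X) := hu.invertible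
  have h1 : (fromCols X Y)ᵀ * fromCols X Y =
      fromBlocks (Xᵀ * X) (Xᵀ * Y) (Yᵀ * X) (Yᵀ * Y) := by
    rw [transpose_fromCols, fromRows_mul_fromCols]
  unfold gr
  rw [h1, det_fromBlocks₁₁, gram_pj X hX, invOf_eq_nonsing_inv]

theorem gr_fischer [DecidableEq ι] (Y : Matrix ι μ ℝ) (Z : Matrix ι ν ℝ) :
    gr (fromCols Y Z) ≤ gr Y * gr Z := by
  by_cases hY : gr Y = 0
  · rw [hY, zero_mul]
    by_contra hcon
    push Not at hcon
    have h1 := (gr_pos_iff (fromCols Y Z)).1 hcon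
    have h2 : ¬ (0 < gr Y) := by rw [hY]; exact lt_irrefl 0
    rw [gr_pos_iff] at h2
    push Not at h2
    obtain ⟨x, hx, hx0⟩ := h2
    apply hx0
    have h3 : fromCols Y Z *ᵥ Sum.elim x 0 = 0 := by
      rw [fromCols_mulVec_sumElim, hx, mulVec_zero, add_zero]
    have h4 := h1 _ h3
    funext i
    exact congrFun h4 (Sum.inl i)
  · rw [gr_fromCols Y hY]
    refine mul_le_mul_of_nonneg_left ?_ (gr_nonneg Y)
    unfold gr
    refine det_mono ?_ ?_
    · have h2 := posSemidef_conjTranspose_mul_self (pj Y * Z)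
      rwa [conjTranspose_eq_transpose_of_trivial] at h2
    · rw [gram_pj Y hY, sub_sub_cancel]
      have h3 : (Yᵀ * Y).PosSemidef := by
        have h2 := posSemidef_conjTranspose_mul_self Y
        rwa [conjTranspose_eq_transpose_of_trivial] at h2
      have h4 := h3.inv.conjTranspose_mul_mul_same (Yᵀ * Z)
      rw [conjTranspose_eq_transpose_of_trivial, transpose_mul, transpose_transpose] at h4
      exact h4

end KotAux

/-- Submodularity of Gram determinants.
Proof: if `gr X = 0` the left hand side is `0` (and Gram determinants are nonnegative). Otherwise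
let `P = 1 - X (Xᵀ X)⁻¹ Xᵀ` be the projection orthogonal to the columns of `X`; the Schur complement
formula (`Matrix.det_fromBlocks₁₁`) gives `gr [X Y] = gr X * gr (P Y)`, `gr [X Z] = gr X * gr (P Z)`,
`gr [X Y Z] = gr X * gr (P [Y Z])`, so it suffices that `gr [Y' Z'] ≤ gr Y' * gr Z'`: again trivial if
`gr Y' = 0` (then `gr [Y' Z'] = 0`, a kernel vector), otherwise `gr [Y' Z'] = gr Y' * gr (P' Z')` and
`(P' Z')ᵀ (P' Z') = Z'ᵀ Z' - (positive semidefinite)`, determinants are monotone on positive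
semidefinite matrices. -/
theorem kot (X : Matrix ι κ ℝ) (Y : Matrix ι μ ℝ) (Z : Matrix ι ν ℝ) :
    gr X * gr (fromCols X (fromCols Y Z)) ≤ gr (fromCols X Y) * gr (fromCols X Z) := by
  classical
  by_cases hX : gr X = 0
  · rw [hX, zero_mul]
    exact mul_nonneg (gr_nonneg _) (gr_nonneg _)
  · rw [KotAux.gr_fromCols X hX, KotAux.gr_fromCols X hX, KotAux.gr_fromCols X hX, mul_fromCols]
    have h1 := KotAux.gr_fischer (KotAux.pj X * Y) (KotAux.pj X * Z)
    have h2 := gr_nonneg X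
    calc gr X * (gr X * gr (fromCols (KotAux.pj X * Y) (KotAux.pj X * Z))) ≤
        gr X * (gr X * (gr (KotAux.pj X * Y) * gr (KotAux.pj X * Z))) := by gcongr
      _ = _ := by ring

end Pool.Agent.Lib.MP_ddd95a_nt.Mord
end
end

section

/-!
# The Cauchy-Binet formula, ungrouped
-/

open Matrix MeasureTheory Filter Set
open scoped ENNReal Topology

noncomputable section

namespace Pool.Agent.Lib.MP_ddd95a_nt.Mord

namespace CBAux

theorem det_expand {n k : ℕ} (A : Matrix (Fin k) (Fin n) ℝ) (B : Matrix (Fin n) (Fin k) ℝ) :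
    (A * B).det = ∑ f : Fin k → Fin n, (A.submatrix id f).det * ∏ j, B (f j) j := by
  rw [det_apply']
  have h1 : ∀ σ : Equiv.Perm (Fin k), ∏ i, (A * B) (σ i) i =
      ∑ f : Fin k → Fin n, ∏ i, (A (σ i) (f i) * B (f i) i) := by
    intro σ
    simp only [Matrix.mul_apply]
    rw [Finset.prod_univ_sum]
    simp
  simp only [h1, Finset.mul_sum]
  rw [Finset.sum_comm]
  refine Finset.sum_congr rfl fun f _ => ?_
  rw [det_apply', Finset.sum_mul]
  refine Finset.sum_congr rfl fun σ _ => ?_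
  rw [Finset.prod_mul_distrib, mul_assoc]
  rfl

end CBAux

/-- Ungrouped Cauchy-Binet formula: `k! det (A B) = ∑ det (A_f) det (B_f)` over all maps
`f : Fin k → Fin n`.
Proof: expand `det (A B)` multilinearly in the columns of `A B` (column `j` of `A B` is
`∑ i, B i j • (column i of A)`), so `det (A B) = ∑_f (∏_j B (f j) j) det (A.submatrix id f)`.
Replacing `f` by `f ∘ σ` gives, for every permutation `σ`,
`det (A B) = ∑_f sign σ (∏_j B (f (σ j)) j) det (A.submatrix id f)`; sum over `σ` (`k!` terms). -/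
theorem cb {n k : ℕ} (A : Matrix (Fin k) (Fin n) ℝ) (B : Matrix (Fin n) (Fin k) ℝ) :
    (k.factorial : ℝ) * (A * B).det =
      ∑ f : Fin k → Fin n, (A.submatrix id f).det * (B.submatrix f id).det := by
  have h1 : ∀ σ : Equiv.Perm (Fin k), (A * B).det = ∑ f : Fin k → Fin n,
      (A.submatrix id f).det * (((Equiv.Perm.sign σ : ℤ) : ℝ) * ∏ j, B (f (σ j)) j) := by
    intro σ
    rw [CBAux.det_expand]
    refine (Equiv.sum_comp (Equiv.arrowCongr σ.symm (Equiv.refl (Fin n)))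
      (fun f => (A.submatrix id f).det * ∏ j, B (f j) j)).symm.trans ?_
    refine Finset.sum_congr rfl fun f _ => ?_
    have h2 : (Equiv.arrowCongr σ.symm (Equiv.refl (Fin n))) f = f ∘ σ := by
      funext j
      simp [Equiv.arrowCongr]
    rw [h2]
    have h3 : A.submatrix id (f ∘ σ) = (A.submatrix id f).submatrix id σ := rfl
    rw [h3, det_permute', mul_comm (((Equiv.Perm.sign σ : ℤ) : ℝ)), mul_assoc]
    rfl
  have h2 : ∑ σ : Equiv.Perm (Fin k), (A * B).det = (k.factorial : ℝ) * (A * B).det := by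
    rw [Finset.sum_const, Finset.card_univ, Fintype.card_perm, Fintype.card_fin, nsmul_eq_mul]
  rw [← h2, Finset.sum_congr rfl fun σ _ => h1 σ, Finset.sum_comm]
  refine Finset.sum_congr rfl fun f _ => ?_
  rw [← Finset.mul_sum, det_apply' (B.submatrix f id)]
  rfl

/-- From `cb` with `A = (D V)ᵀ`, `B = D V`. -/
theorem gr_diag {n k : ℕ} (V : Matrix (Fin n) (Fin k) ℝ) (d : Fin n → ℝ) :
    (k.factorial : ℝ) * gr (diagonal d * V) =
      ∑ f : Fin k → Fin n, (∏ a, d (f a)) ^ 2 * (V.submatrix f id).det ^ 2 := by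
  unfold gr
  rw [cb]
  refine Finset.sum_congr rfl fun f _ => ?_
  have h1 : (diagonal d * V).submatrix f id = diagonal (fun a => d (f a)) * V.submatrix f id := by
    ext i j
    rw [submatrix_apply, diagonal_mul, diagonal_mul, submatrix_apply]
  have h2 : (diagonal d * V)ᵀ.submatrix id f = ((diagonal d * V).submatrix f id)ᵀ := rfl
  rw [h2, det_transpose, h1, det_mul, det_diagonal]
  ring

end Pool.Agent.Lib.MP_ddd95a_nt.Mord
end
end

section

/-!
# Covolumes along the diagonal group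
-/

open Matrix MeasureTheory Filter Set
open scoped ENNReal Topology

noncomputable section

namespace Pool.Agent.Lib.MP_ddd95a_nt.Mord

namespace JetAux

theorem tilt_expand {n k : ℕ} (g : Matrix (Fin n) (Fin n) ℝ) (v : Matrix (Fin n) (Fin k) ℤ)
    (θ : Fin n → ℝ) :
    (k.factorial : ℝ) * gr (tilt θ g * rm v) =
      ∑ f : Fin k → Fin n, Real.exp (2 * ∑ a, θ (f a)) * ((g * rm v).submatrix f id).det ^ 2 := by
  have h := gr_diag (g * rm v) (fun i => Real.exp (θ i))
  have e : tilt θ g * rm v = diagonal (fun i => Real.exp (θ i)) * (g * rm v) := by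
    unfold tilt
    rw [Matrix.mul_assoc]
  rw [e, h]
  refine Finset.sum_congr rfl fun f _ => ?_
  have e2 : (∏ a, Real.exp (θ (f a))) ^ 2 = Real.exp (2 * ∑ a, θ (f a)) := by
    rw [← Real.exp_sum, ← Real.exp_nat_mul]
    norm_num
  rw [e2]

theorem plain_expand {n k : ℕ} (g : Matrix (Fin n) (Fin n) ℝ) (v : Matrix (Fin n) (Fin k) ℤ) :
    (k.factorial : ℝ) * gr (g * rm v) =
      ∑ f : Fin k → Fin n, ((g * rm v).submatrix f id).det ^ 2 := by
  have h := gr_diag (g * rm v) (fun _ => 1)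
  have e : diagonal (fun _ : Fin n => (1 : ℝ)) * (g * rm v) = g * rm v := by
    rw [Matrix.diagonal_one, Matrix.one_mul]
  rw [e] at h
  rw [h]
  refine Finset.sum_congr rfl fun f _ => ?_
  rw [Finset.prod_const_one]
  ring

end JetAux

/-- `gr (tilt θ V)` is a sum of exponentials of linear functions (`gr_diag`) and `exp x ≥ 1 + x`. -/
theorem gr_tilt_ge {n k : ℕ} (g : Matrix (Fin n) (Fin n) ℝ) (v : Matrix (Fin n) (Fin k) ℤ)
    (θ : Fin n → ℝ) :
    gr (g * rm v) + 2 * der (g * rm v) θ ≤ gr (tilt θ g * rm v) := by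
  have hk : (0 : ℝ) < (k.factorial : ℝ) := by exact_mod_cast Nat.factorial_pos k
  have h1 := JetAux.tilt_expand g v θ
  have h2 := JetAux.plain_expand g v
  have h3 : (k.factorial : ℝ) * der (g * rm v) θ =
      ∑ f : Fin k → Fin n, (∑ a, θ (f a)) * ((g * rm v).submatrix f id).det ^ 2 := by
    unfold der
    rw [mul_div_cancel₀ _ hk.ne']
  have h4 : (k.factorial : ℝ) * (gr (g * rm v) + 2 * der (g * rm v) θ) ≤
      (k.factorial : ℝ) * gr (tilt θ g * rm v) := by
    have e : (k.factorial : ℝ) * (gr (g * rm v) + 2 * der (g * rm v) θ) =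
        (k.factorial : ℝ) * gr (g * rm v) + 2 * ((k.factorial : ℝ) * der (g * rm v) θ) := by ring
    rw [e, h1, h2, h3, Finset.mul_sum, ← Finset.sum_add_distrib]
    refine Finset.sum_le_sum fun f _ => ?_
    have h5 := Real.add_one_le_exp (2 * ∑ a, θ (f a))
    have h6 := sq_nonneg ((g * rm v).submatrix f id).det
    nlinarith [mul_le_mul_of_nonneg_right h5 h6]
  exact le_of_mul_le_mul_left h4 hk

/-- If `gr (tilt θ g v)` and `gr (tilt (-θ) g v)` both equal `gr (g v)` then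
`∑_f det(V_f)² (exp (2 θ_f) + exp (- 2 θ_f) - 2) = 0`, a sum of nonnegative terms. -/
theorem gr_tilt_eq {n k : ℕ} (g : Matrix (Fin n) (Fin n) ℝ) (v : Matrix (Fin n) (Fin k) ℤ)
    (θ : Fin n → ℝ) (h1 : gr (tilt θ g * rm v) = gr (g * rm v))
    (h2 : gr (tilt (-θ) g * rm v) = gr (g * rm v)) (f : Fin k → Fin n)
    (hf : ((g * rm v).submatrix f id).det ≠ 0) : ∑ a, θ (f a) = 0 := by
  have e1 := JetAux.tilt_expand g v θ
  have e2 := JetAux.tilt_expand g v (-θ)
  have e3 := JetAux.plain_expand g v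
  rw [h1, e3] at e1
  rw [h2, e3] at e2
  have e4 : ∑ f : Fin k → Fin n, (Real.exp (2 * ∑ a, θ (f a)) + Real.exp (-(2 * ∑ a, θ (f a))) - 2) *
      ((g * rm v).submatrix f id).det ^ 2 = 0 := by
    have e5 : ∀ f : Fin k → Fin n,
        (Real.exp (2 * ∑ a, θ (f a)) + Real.exp (-(2 * ∑ a, θ (f a))) - 2) *
        ((g * rm v).submatrix f id).det ^ 2 =
        Real.exp (2 * ∑ a, θ (f a)) * ((g * rm v).submatrix f id).det ^ 2 +
        Real.exp (2 * ∑ a, (-θ) (f a)) * ((g * rm v).submatrix f id).det ^ 2 -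
        2 * ((g * rm v).submatrix f id).det ^ 2 := by
      intro f
      have : (2 * ∑ a, (-θ) (f a)) = -(2 * ∑ a, θ (f a)) := by
        simp only [Pi.neg_apply, Finset.sum_neg_distrib]
        ring
      rw [this]
      ring
    rw [Finset.sum_congr rfl fun f _ => e5 f, Finset.sum_sub_distrib, Finset.sum_add_distrib,
      ← Finset.mul_sum, ← e1, ← e2]
    ring
  have hnn : ∀ t : ℝ, 0 ≤ Real.exp t + Real.exp (-t) - 2 := by
    intro t
    have h := Real.add_one_le_exp t
    have h' := Real.add_one_le_exp (-t)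
    linarith
  have e6 : ∀ f ∈ (Finset.univ : Finset (Fin k → Fin n)),
      0 ≤ (Real.exp (2 * ∑ a, θ (f a)) + Real.exp (-(2 * ∑ a, θ (f a))) - 2) *
      ((g * rm v).submatrix f id).det ^ 2 := fun f _ => mul_nonneg (hnn _) (sq_nonneg _)
  have e7 := (Finset.sum_eq_zero_iff_of_nonneg e6).mp e4 f (Finset.mem_univ f)
  have e8 : Real.exp (2 * ∑ a, θ (f a)) + Real.exp (-(2 * ∑ a, θ (f a))) - 2 = 0 := by
    rcases mul_eq_zero.mp e7 with h | h
    · exact h
    · exact absurd (pow_eq_zero_iff (two_ne_zero)|>.mp h) hf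
  by_contra hne
  have hne2 : (2 * ∑ a, θ (f a)) ≠ 0 := mul_ne_zero two_ne_zero hne
  have h := Real.add_one_lt_exp hne2
  have h' := Real.add_one_lt_exp (neg_ne_zero.mpr hne2)
  linarith

/-- `der V` as a linear map. -/
theorem der_linear {n k : ℕ} (V : Matrix (Fin n) (Fin k) ℝ) :
    ∃ Λ : (Fin n → ℝ) →ₗ[ℝ] ℝ, ∀ θ, Λ θ = der V θ := by
  refine ⟨{ toFun := der V, map_add' := ?_, map_smul' := ?_ }, fun θ => rfl⟩
  · intro x y
    unfold der
    rw [← add_div, ← Finset.sum_add_distrib]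
    congr 1
    refine Finset.sum_congr rfl fun f _ => ?_
    simp only [Pi.add_apply, Finset.sum_add_distrib]
    ring
  · intro c x
    unfold der
    simp only [Pi.smul_apply, smul_eq_mul, RingHom.id_apply]
    rw [← mul_div_assoc, Finset.mul_sum]
    congr 1
    refine Finset.sum_congr rfl fun f _ => ?_
    rw [← Finset.mul_sum]
    ring

end Pool.Agent.Lib.MP_ddd95a_nt.Mord
end
end
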