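import Pool.Agent.Lib.MP_ddd95a_nt.Mg.G001
import Pool.Agent.Lib.MP_ddd95a_nt.Mord.VorT
import Pool.Agent.Lib.MP_ddd95a_nt.Mg.G002
import Pool.Agent.Lib.MP_ddd95a_nt.Mg.G008
import Pool.Agent.Lib.MP_ddd95a_nt.Mg.G005

section

/-!
# Nested nonzero minors
-/

open Matrix MeasureTheory Filter Set
open scoped ENNReal Topology

noncomputable section

namespace Pool.Agent.Lib.MP_ddd95a_nt.Mord

namespace NestAux

/-- Independent rows can be completed to a basis of rows. -/
theorem extend_rows {n a : ℕ} (V : Matrix (Fin n) (Fin a) ℝ) (hV : gr V ≠ 0)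
    (s : Finset (Fin n)) (hs : LinearIndepOn ℝ V.row (s : Set (Fin n))) :
    ∃ t : Finset (Fin n), s ⊆ t ∧ t.card = a ∧ LinearIndepOn ℝ V.row (t : Set (Fin n)) := by
  classical
  obtain ⟨b, -, hsb, hspan, hb⟩ := exists_linearIndepOn_extension hs (Set.subset_univ _)
  have hrank : V.rank = a := by
    rw [← Matrix.rank_transpose_mul_self]
    have hu : IsUnit (Vᵀ * V) := by
      rw [Matrix.isUnit_iff_isUnit_det]
      exact isUnit_iff_ne_zero.2 hV
    have := Matrix.rank_of_isUnit (Vᵀ * V) hu
    simpa using this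
  have hfr : Module.finrank ℝ (Submodule.span ℝ (V.row '' b)) = a := by
    have h1 : Submodule.span ℝ (V.row '' b) = Submodule.span ℝ (Set.range V.row) := by
      apply le_antisymm
      · exact Submodule.span_mono (Set.image_subset_range _ _)
      · rw [Submodule.span_le, ← Set.image_univ]
        exact hspan
    rw [h1, ← Matrix.rank_eq_finrank_span_row, hrank]
  refine ⟨b.toFinite.toFinset, ?_, ?_, ?_⟩
  · intro x hx
    exact (Set.Finite.mem_toFinset _).2 (hsb hx)
  · have h2 : Module.finrank ℝ (Submodule.span ℝ (Set.range fun x : b => V.row x))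
        = Fintype.card b := finrank_span_eq_card hb
    rw [← Set.image_eq_range, hfr] at h2
    rw [h2, Set.Finite.card_toFinset]
  · rw [Set.Finite.coe_toFinset]
    exact hb

/-- The chain of sets. -/
theorem chain {n : ℕ} (V : ∀ k : ℕ, Matrix (Fin n) (Fin k) ℝ) (S : Finset ℕ)
    (hV : ∀ k ∈ S, gr (V k) ≠ 0)
    (hn : ∀ k ∈ S, ∀ l ∈ S, k ≤ l → ∃ X : Matrix (Fin l) (Fin k) ℝ, V k = V l * X) :
    ∃ I : ℕ → Finset (Fin n), (∀ k ∈ S, (I k).card = k ∧
      LinearIndepOn ℝ (V k).row (I k : Set (Fin n))) ∧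
      ∀ k ∈ S, ∀ l ∈ S, k ≤ l → I k ⊆ I l := by
  classical
  induction S using Finset.induction_on_max with
  | empty => exact ⟨fun _ => ∅, by simp, by simp⟩
  | insert a s hmax ih =>
    obtain ⟨I, hI1, hI2⟩ := ih (fun k hk => hV k (Finset.mem_insert_of_mem hk))
      (fun k hk l hl => hn k (Finset.mem_insert_of_mem hk) l (Finset.mem_insert_of_mem hl))
    have hbase : ∃ J : Finset (Fin n), (∀ k ∈ s, I k ⊆ J) ∧
        LinearIndepOn ℝ (V a).row (J : Set (Fin n)) := by
      by_cases hne : s.Nonempty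
      · refine ⟨I (s.max' hne), fun k hk => hI2 k hk _ (s.max'_mem hne) (s.le_max' k hk), ?_⟩
        have hm := s.max'_mem hne
        obtain ⟨X, hX⟩ := hn _ (Finset.mem_insert_of_mem hm) a (Finset.mem_insert_self _ _)
          (hmax _ hm).le
        have h1 := (hI1 _ hm).2
        have h2 : (V (s.max' hne)).row = (Matrix.vecMulLinear X) ∘ (V a).row := by
          ext i j
          rw [hX]
          simp [Matrix.mul_apply, Matrix.vecMul, dotProduct]
        rw [h2] at h1
        exact LinearIndepOn.of_comp _ h1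
      · refine ⟨∅, fun k hk => absurd ⟨k, hk⟩ hne, ?_⟩
        simp
    obtain ⟨J, hJ1, hJ2⟩ := hbase
    obtain ⟨t, ht1, ht2, ht3⟩ := extend_rows (V a) (hV a (Finset.mem_insert_self _ _)) J hJ2
    refine ⟨fun k => if k = a then t else I k, ?_, ?_⟩
    · intro k hk
      by_cases hka : k = a
      · subst hka
        simp only [if_true]
        exact ⟨ht2, ht3⟩
      · simp only [if_neg hka]
        exact hI1 k ((Finset.mem_insert.1 hk).resolve_left hka)
    · intro k hk l hl hkl
      by_cases hla : l = a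
      · by_cases hka : k = a
        · simp [hla, hka]
        · have hks := (Finset.mem_insert.1 hk).resolve_left hka
          simp only [if_neg hka, if_pos hla]
          exact (hJ1 k hks).trans ht1
      · have hls := (Finset.mem_insert.1 hl).resolve_left hla
        have hka : k ≠ a := by
          have := hmax l hls
          omega
        simp only [if_neg hka, if_neg hla]
        exact hI2 k ((Finset.mem_insert.1 hk).resolve_left hka) l hls hkl

end NestAux

open NestAux

/-- Nested families of rows with nonzero minors.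
Proof: induction over the elements of `S` in increasing order. A set of rows on which `V k` is
independent is also independent for `V l` when `V k = V l * X` (a relation between the rows of
`V l` gives one between the rows of `V k`), so it can be extended to a set of `l` independent rows of
`V l` (which has rank `l`, because `gr (V l) ≠ 0`). So there are nested sets `I_k`, `k ∈ S`, with
`|I_k| = k`; choose the permutation `π` of `Fin n` which maps `{0, …, k-1}` onto `I_k`. -/
theorem nested {n : ℕ} (S : Finset ℕ) (hS : ∀ k ∈ S, k ≤ n)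
    (V : ∀ k : ℕ, Matrix (Fin n) (Fin k) ℝ) (hV : ∀ k ∈ S, gr (V k) ≠ 0)
    (hn : ∀ k ∈ S, ∀ l ∈ S, k ≤ l → ∃ X : Matrix (Fin l) (Fin k) ℝ, V k = V l * X) :
    ∃ π : Equiv.Perm (Fin n), ∀ k ∈ S, ∀ hk : k ≤ n,
      ((V k).submatrix (fun i : Fin k => π (Fin.castLE hk i)) id).det ≠ 0 := by
  classical
  obtain ⟨I, hI1, hI2⟩ := chain V S hV hn
  let f : Fin n → ℕ := fun i =>
    (insert (n + 1) (S.filter fun k => i ∈ I k)).min' (Finset.insert_nonempty _ _)
  have hf : ∀ k ∈ S, ∀ i, f i ≤ k ↔ i ∈ I k := by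
    intro k hk i
    constructor
    · intro h
      have hmem := (insert (n + 1) (S.filter fun k => i ∈ I k)).min'_mem
        (Finset.insert_nonempty _ _)
      rcases Finset.mem_insert.1 hmem with h1 | h1
      · have h2 : f i = n + 1 := h1
        have := hS k hk
        omega
      · rw [Finset.mem_filter] at h1
        exact hI2 _ h1.1 k hk h h1.2
    · intro h
      exact Finset.min'_le _ _ (Finset.mem_insert_of_mem (Finset.mem_filter.2 ⟨hk, h⟩))
  let π := Tuple.sort f
  have hmono : Monotone (f ∘ π) := Tuple.monotone_sort f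
  have hmem : ∀ k ∈ S, ∀ j : Fin n, (j : ℕ) < k → π j ∈ I k := by
    intro k hk j hj
    by_contra hcon
    rw [← hf k hk] at hcon
    have hsub : (I k).map π.symm.toEmbedding ⊆ Finset.univ.filter fun j' : Fin n => j' < j := by
      intro x hx
      rw [Finset.mem_map] at hx
      obtain ⟨y, hy, rfl⟩ := hx
      rw [Finset.mem_filter]
      refine ⟨Finset.mem_univ _, ?_⟩
      by_contra hge
      have h1 : f (π j) ≤ f (π (π.symm y)) := hmono (not_lt.1 hge)
      rw [Equiv.apply_symm_apply] at h1
      exact hcon (h1.trans ((hf k hk y).2 hy))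
    have hc := Finset.card_le_card hsub
    rw [Finset.card_map, (hI1 k hk).1] at hc
    have : (Finset.univ.filter fun j' : Fin n => j' < j).card = j := by
      have h2 : (Finset.univ.filter fun j' : Fin n => j' < j) = Finset.Iio j := by
        ext x; simp
      rw [h2, Fin.card_Iio]
    omega
  refine ⟨π, fun k hk hkn => ?_⟩
  have hli : LinearIndependent ℝ ((V k).submatrix (fun i : Fin k => π (Fin.castLE hkn i)) id).row := by
    have h1 : LinearIndependent ℝ fun x : (I k : Set (Fin n)) => (V k).row x := (hI1 k hk).2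
    let e : Fin k → (I k : Set (Fin n)) := fun i =>
      ⟨π (Fin.castLE hkn i), hmem k hk _ (by simp)⟩
    have he : Function.Injective e := by
      intro x y hxy
      have h2 : π (Fin.castLE hkn x) = π (Fin.castLE hkn y) := congrArg Subtype.val hxy
      exact Fin.castLE_injective hkn (π.injective h2)
    exact h1.comp e he
  rw [Matrix.linearIndependent_rows_iff_isUnit, Matrix.isUnit_iff_isUnit_det] at hli
  exact hli.ne_zero

end Pool.Agent.Lib.MP_ddd95a_nt.Mord
end
end

section

/-!
# The theta function and the cell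
-/

open Matrix MeasureTheory Filter Set
open scoped ENNReal Topology

noncomputable section

namespace Pool.Agent.Lib.MP_ddd95a_nt.Mord

variable {ι : Type*} [Fintype ι] [DecidableEq ι]

namespace ThetaAux

theorem gw_meas (g : Matrix ι ι ℝ) : Measurable (gw g) := by
  unfold gw
  have := (qf_continuous g).measurable
  fun_prop

theorem qf_sum (g : Matrix ι ι ℝ) (x y : ι → ℝ) :
    qf g (x + y) + qf g (x - y) = 2 * qf g x + 2 * qf g y := by
  have h1 := qf_sub g x (-y)
  have h2 := qf_sub g x y
  rw [qf_neg, mulVec_neg, sub_neg_eq_add, dotProduct_neg] at h1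
  rw [h1, h2]
  ring

theorem real_ineq {a b s r : ℝ} (h : a + b = 2 * s + 2 * r) :
    2 * (Real.exp (-s / 2) * Real.exp (-r / 2)) ≤ Real.exp (-a / 2) + Real.exp (-b / 2) := by
  have h1 : Real.exp (-s / 2) * Real.exp (-r / 2) = Real.exp (-a / 4) * Real.exp (-b / 4) := by
    rw [← Real.exp_add, ← Real.exp_add]
    congr 1
    linarith
  have h2 : Real.exp (-a / 2) = Real.exp (-a / 4) ^ 2 := by
    rw [← Real.exp_nat_mul]
    congr 1
    push_cast
    ring
  have h3 : Real.exp (-b / 2) = Real.exp (-b / 4) ^ 2 := by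
    rw [← Real.exp_nat_mul]
    congr 1
    push_cast
    ring
  rw [h1, h2, h3]
  nlinarith [sq_nonneg (Real.exp (-a / 4) - Real.exp (-b / 4))]

theorem gw_ineq (g : Matrix ι ι ℝ) (x y : ι → ℝ) :
    2 * (gw g y * gw g x) ≤ gw g (x + y) + gw g (x - y) := by
  unfold gw
  rw [← ENNReal.ofReal_mul (Real.exp_pos _).le, ← ENNReal.ofReal_add (Real.exp_pos _).le
    (Real.exp_pos _).le]
  have : (2 : ℝ≥0∞) = ENNReal.ofReal 2 := by simp
  rw [this, ← ENNReal.ofReal_mul (by norm_num)]
  refine ENNReal.ofReal_le_ofReal ?_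
  rw [mul_comm (Real.exp _)]
  exact real_ineq (qf_sum g x y)

theorem flip (g : Matrix ι ι ℝ) (y : ι → ℝ) :
    ∫⁻ x in vor g, gw g (x - y) = ∫⁻ x in vor g, gw g (x + y) := by
  have hm : MeasurableSet (vor g) := (vor_isClosed g).measurableSet
  rw [← lintegral_indicator hm, ← lintegral_indicator hm]
  rw [← lintegral_neg_eq_self (μ := volume)
    (fun x => (vor g).indicator (fun x => gw g (x + y)) x)]
  refine lintegral_congr fun x => ?_
  by_cases hx : x ∈ vor g
  · rw [indicator_of_mem hx, indicator_of_mem (vor_neg hx)]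
    have e : -(x - y) = -x + y := by abel
    unfold gw
    rw [← qf_neg g (x - y), e]
  · have hx' : -x ∉ vor g := by
      intro h
      have := vor_neg h
      rw [neg_neg] at this
      exact hx this
    rw [indicator_of_notMem hx, indicator_of_notMem hx']

theorem key (g : Matrix ι ι ℝ) (y : ι → ℝ) :
    gw g y * ∫⁻ x in vor g, gw g x ≤ ∫⁻ x in vor g, gw g (x + y) := by
  have hw := gw_meas g
  have h1 : 2 * (gw g y * ∫⁻ x in vor g, gw g x) ≤ 2 * ∫⁻ x in vor g, gw g (x + y) := by
    calc 2 * (gw g y * ∫⁻ x in vor g, gw g x) = ∫⁻ x in vor g, 2 * (gw g y * gw g x) := by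
          rw [lintegral_const_mul _ (by fun_prop), lintegral_const_mul _ hw]
      _ ≤ ∫⁻ x in vor g, (gw g (x + y) + gw g (x - y)) := lintegral_mono fun x => gw_ineq g x y
      _ = 2 * ∫⁻ x in vor g, gw g (x + y) := by
          rw [lintegral_add_left (by fun_prop), flip, two_mul]
  exact (ENNReal.mul_le_mul_iff_right (by norm_num) (by norm_num)).mp h1

end ThetaAux

/-- Proof: by `J_univ` and `vor_tile` `1 = c ∑_m ∫_(vor g) gw g (x + zc m) dx`, `c` the constant in `J`. By the
symmetry of the cell `∫_(vor g) gw g (x + zc m) = (1/2) ∫_(vor g) (gw g (x + zc m) + gw g (x - zc m))`, and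
`gw g (x + y) + gw g (x - y) = 2 gw g x gw g y cosh ⟨g x, g y⟩ ≥ 2 gw g x gw g y`. -/
theorem theta_le {g : Matrix ι ι ℝ} (hg : g.det ≠ 0) :
    (∑' m : ι → ℤ, gw g (zc m)) * F g ≤ 1 := by
  rw [← J_univ hg]
  unfold F J
  rw [Measure.restrict_univ, vor_tile hg (gw g) (ThetaAux.gw_meas g), ← mul_assoc,
    mul_comm (∑' m : ι → ℤ, gw g (zc m)), mul_assoc]
  refine mul_le_mul_right ?_ _
  rw [← ENNReal.tsum_mul_right]
  exact ENNReal.tsum_le_tsum fun m => ThetaAux.key g (zc m)

end Pool.Agent.Lib.MP_ddd95a_nt.Mord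
end
end

section

/-!
# Transfer of an empty box to the orbit
-/

open Matrix MeasureTheory Filter Set
open scoped ENNReal Topology

noncomputable section

namespace Pool.Agent.Lib.MP_ddd95a_nt.Mord

namespace TranAux

theorem isOpen_good {n : ℕ} (g : Matrix (Fin n) (Fin n) ℝ) (τ : Fin n → ℝ) :
    IsOpen {g' : Matrix (Fin n) (Fin n) ℝ |
      ∀ i, ∑ j, |(g * adjugate g' - 1) i j| * τ j < τ i} := by
  have h : {g' : Matrix (Fin n) (Fin n) ℝ |
      ∀ i, ∑ j, |(g * adjugate g' - 1) i j| * τ j < τ i}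
      = ⋂ i, {g' : Matrix (Fin n) (Fin n) ℝ |
        ∑ j, |(g * adjugate g' - 1) i j| * τ j < τ i} := by
    ext g'
    simp
  rw [h]
  refine isOpen_iInter_of_finite fun i => ?_
  refine isOpen_lt ?_ continuous_const
  refine continuous_finsetSum _ fun j _ => ?_
  refine Continuous.mul ?_ continuous_const
  refine Continuous.abs ?_
  have hc : Continuous fun g' : Matrix (Fin n) (Fin n) ℝ => g * adjugate g' - 1 :=
    (continuous_const.matrix_mul continuous_id.matrix_adjugate).sub continuous_const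
  exact (continuous_apply_apply i j).comp hc

end TranAux

/-- Proof: for `g'` near `g` the box with the side lengths `τ i / 2` contains no nonzero vector `g' m`:
if `|(g' m)_i| ≤ τ i / 2` for all `i` then `m` is bounded (`g'⁻¹` is bounded near `g`), so
`|((g - g') m)_i| ≤ τ i / 2` if `g'` is near enough, and `|(g m)_i| ≤ τ i` for all `i`. Take such a `g'`
in the orbit, `g' = diagonal a * h * rm u`, and `τ' i = τ i / (2 a i)`; every integer vector is `u m`. -/
theorem box_transfer {n : ℕ} {h g : Matrix (Fin n) (Fin n) ℝ} (hh : h.det = 1)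
    (hg : g ∈ closure (orb h)) {τ : Fin n → ℝ} (hτ : ∀ i, 0 < τ i)
    (hb : ∀ m : Fin n → ℤ, m ≠ 0 → ∃ i, τ i < |(g *ᵥ zc m) i|) :
    ∃ τ' : Fin n → ℝ, (∀ i, 0 < τ' i) ∧ ∏ i, τ' i = (∏ i, τ i) / 2 ^ n ∧
      ∀ m : Fin n → ℤ, m ≠ 0 → ∃ i, τ' i < |(h *ᵥ zc m) i| := by
  have hgd : g.det = 1 := orb_det hh hg
  have hmem : g ∈ {g' : Matrix (Fin n) (Fin n) ℝ |
      ∀ i, ∑ j, |(g * adjugate g' - 1) i j| * τ j < τ i} := by
    intro i
    rw [Matrix.mul_adjugate, hgd, one_smul, sub_self]
    simpa using hτ i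
  obtain ⟨g', hU, ho⟩ := mem_closure_iff.1 hg _ (TranAux.isOpen_good g τ) hmem
  have hgd' : g'.det = 1 := orb_det hh (subset_closure ho)
  have hb' : ∀ m : Fin n → ℤ, m ≠ 0 → ∃ i, τ i / 2 < |(g' *ᵥ zc m) i| := by
    intro m hm
    by_contra hcon
    push Not at hcon
    obtain ⟨i, hi⟩ := hb m hm
    have e1 : g *ᵥ zc m = g' *ᵥ zc m + (g * adjugate g' - 1) *ᵥ (g' *ᵥ zc m) := by
      rw [Matrix.sub_mulVec, Matrix.one_mulVec, Matrix.mulVec_mulVec, Matrix.mul_assoc,
        Matrix.adjugate_mul, hgd', one_smul, Matrix.mul_one]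
      abel
    have e2 : |(g *ᵥ zc m) i| ≤ τ i := by
      rw [e1, Pi.add_apply]
      refine (abs_add_le _ _).trans ?_
      have h1 : |((g * adjugate g' - 1) *ᵥ (g' *ᵥ zc m)) i|
          ≤ ∑ j, |(g * adjugate g' - 1) i j| * (τ j / 2) := by
        unfold Matrix.mulVec
        unfold dotProduct
        refine (Finset.abs_sum_le_sum_abs _ _).trans (Finset.sum_le_sum fun j _ => ?_)
        rw [abs_mul]
        exact mul_le_mul_of_nonneg_left (hcon j) (abs_nonneg _)
      have h2 : ∑ j, |(g * adjugate g' - 1) i j| * (τ j / 2)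
          = (∑ j, |(g * adjugate g' - 1) i j| * τ j) / 2 := by
        rw [Finset.sum_div]
        exact Finset.sum_congr rfl fun j _ => by ring
      have h3 := hU i
      have h4 := hcon i
      linarith
    linarith
  obtain ⟨a, ha, hpa, u, hu, he⟩ := ho
  refine ⟨fun i => τ i / (2 * a i), fun i => ?_, ?_, fun m hm => ?_⟩
  · have := hτ i
    have := ha i
    positivity
  · rw [Finset.prod_div_distrib, Finset.prod_mul_distrib, hpa, mul_one]
    simp
  · have hum : u *ᵥ (adjugate u *ᵥ m) = m := by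
      rw [Matrix.mulVec_mulVec, Matrix.mul_adjugate, hu, one_smul, Matrix.one_mulVec]
    have hm' : adjugate u *ᵥ m ≠ 0 := by
      intro h0
      rw [h0, Matrix.mulVec_zero] at hum
      exact hm hum.symm
    obtain ⟨i, hi⟩ := hb' _ hm'
    refine ⟨i, ?_⟩
    have e3 : (g' *ᵥ zc (adjugate u *ᵥ m)) i = a i * (h *ᵥ zc m) i := by
      rw [he, ← Matrix.mulVec_mulVec, rm_mulVec, hum, ← Matrix.mulVec_mulVec,
        Matrix.mulVec_diagonal]
    rw [e3, abs_mul, abs_of_pos (ha i)] at hi
    rw [div_lt_iff₀ (by have := ha i; positivity)]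
    have := ha i
    nlinarith

end Pool.Agent.Lib.MP_ddd95a_nt.Mord
end
end

section

/-!
# Empty boxes of the golden ratio lattice
-/

open Matrix

noncomputable section

namespace Pool.Agent.Lib.MP_ddd95a_nt.Mord

/-- The golden ratio. -/
def phi : ℝ := (1 + Real.sqrt 5) / 2

/-- The scaling factor: `scl ^ 2 = 1 / √5`. -/
def scl : ℝ := (Real.sqrt (Real.sqrt 5))⁻¹

/-- The matrix of the lattice of the integers of `ℚ(√5)`, of determinant one; the conjugate of
`phi` is `1 - phi`. -/
def gold : Matrix (Fin 2) (Fin 2) ℝ := scl • !![phi, 1; 1 - phi, 1]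

namespace GoldAux

theorem sq5 : Real.sqrt 5 ^ 2 = 5 := Real.sq_sqrt (by norm_num)

theorem sqrt5_pos : 0 < Real.sqrt 5 := Real.sqrt_pos.2 (by norm_num)

theorem sqrt5_gt : 2.236 < Real.sqrt 5 := by
  rw [show (2.236 : ℝ) = Real.sqrt (2.236 ^ 2) by rw [Real.sqrt_sq (by norm_num)]]
  exact Real.sqrt_lt_sqrt (by norm_num) (by norm_num)

theorem sqrt5_lt : Real.sqrt 5 < 2.2361 := by
  rw [Real.sqrt_lt' (by norm_num)]
  norm_num

theorem phi_sq : phi ^ 2 = phi + 1 := by
  unfold phi
  have := sq5
  nlinarith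

theorem phi_gt : 1.618 < phi := by
  unfold phi
  linarith [sqrt5_gt]

theorem phi_lt : phi < 1.6181 := by
  unfold phi
  linarith [sqrt5_lt]

theorem scl_pos : 0 < scl := inv_pos.2 (Real.sqrt_pos.2 sqrt5_pos)

theorem scl_sq : scl ^ 2 * Real.sqrt 5 = 1 := by
  unfold scl
  rw [inv_pow, Real.sq_sqrt sqrt5_pos.le, inv_mul_cancel₀ sqrt5_pos.ne']

theorem scl_sq_lt : scl ^ 2 < 0.4473 := by
  have h1 := scl_sq
  have h2 := sqrt5_gt
  have h3 : 0 < scl ^ 2 := pow_pos scl_pos 2
  nlinarith

/-- The box contains no nonzero point of the lattice `{scl (a φ + b, a (1 - φ) + b)}`. -/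
def Emp (x y : ℝ) : Prop := ∀ a b : ℤ, |scl * (a * phi + b)| ≤ x → |scl * (a * (1 - phi) + b)| ≤ y →
  a = 0 ∧ b = 0

theorem emp_symm {x y : ℝ} (h : Emp x y) : Emp y x := by
  intro a b h1 h2
  -- the conjugate of `a φ + b` is `- a φ + (a + b)`
  have h3 := h (-a) (a + b) (by
    have : scl * (((-a : ℤ) : ℝ) * phi + ((a + b : ℤ) : ℝ)) = scl * (a * (1 - phi) + b) := by
      push_cast
      ring
    rw [this]
    exact h2) (by
    have : scl * (((-a : ℤ) : ℝ) * (1 - phi) + ((a + b : ℤ) : ℝ)) = scl * (a * phi + b) := by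
      push_cast
      ring
    rw [this]
    exact h1)
  constructor
  · have := h3.1
    omega
  · have := h3.1
    have := h3.2
    omega

/-- Multiplication by the unit `φ`. -/
theorem emp_unit {x y : ℝ} (h : Emp x y) : Emp (x * phi) (y / phi) := by
  have hp : 0 < phi := by linarith [phi_gt]
  intro a b h1 h2
  -- `(a φ + b) / φ = a φ' + b'` with `1/φ = φ - 1`
  have h3 := h b (a - b) (by
    have e : scl * ((b : ℝ) * phi + ((a - b : ℤ) : ℝ)) * phi = scl * (a * phi + b) := by
      push_cast
      have := phi_sq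
      linear_combination scl * b * this
    have e2 : |scl * ((b : ℝ) * phi + ((a - b : ℤ) : ℝ))| * phi = |scl * (a * phi + b)| := by
      rw [← e, abs_mul _ phi, abs_of_pos hp]
    have : |scl * ((b : ℝ) * phi + ((a - b : ℤ) : ℝ))| * phi ≤ x * phi := by rw [e2]; exact h1
    exact le_of_mul_le_mul_right this hp) (by
    have e : scl * ((b : ℝ) * (1 - phi) + ((a - b : ℤ) : ℝ)) =
        -(scl * (a * (1 - phi) + b) * phi) := by
      push_cast
      have := phi_sq
      linear_combination -scl * a * this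
    rw [e, abs_neg, abs_mul _ phi, abs_of_pos hp]
    calc |scl * (a * (1 - phi) + b)| * phi ≤ y / phi * phi := by gcongr
      _ = y := div_mul_cancel₀ _ hp.ne')
  constructor
  · have := h3.1
    have := h3.2
    omega
  · exact h3.1

theorem emp_unit' {x y : ℝ} (h : Emp x y) : Emp (x / phi) (y * phi) :=
  emp_symm (emp_unit (emp_symm h))

/-- The basic range. -/
theorem emp_base {x y : ℝ} (hy : 0 < y) (h : Emp x y) (h1 : y ≤ x)
    (h2 : x ≤ phi ^ 2 * y) : x * y ≤ 181 / 250 := by
  have hp : 0 < phi := by linarith [phi_gt]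
  have hs := scl_pos
  have hpg := phi_gt
  have hpl := phi_lt
  have hps := phi_sq
  -- the point `(scl, scl)` is not in the box
  have hy1 : y < scl := by
    by_contra hcon
    push Not at hcon
    have := h 0 1 (by simp [abs_of_pos hs]; linarith) (by simp [abs_of_pos hs]; linarith)
    exact one_ne_zero this.2
  by_cases hc : scl * (phi - 1) ≤ y
  · have hx1 : x < scl * phi := by
      by_contra hcon
      push Not at hcon
      have := h 1 0 (by
        simp only [Int.cast_one, one_mul, Int.cast_zero, add_zero]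
        rw [abs_of_pos (mul_pos hs hp)]
        exact hcon) (by
        simp only [Int.cast_one, one_mul, Int.cast_zero, add_zero]
        rw [abs_of_nonpos (by nlinarith)]
        linarith)
      exact one_ne_zero this.1
    have h3 : x * y ≤ scl * phi * scl := by
      apply mul_le_mul hx1.le hy1.le hy.le (by positivity)
    have h4 := scl_sq_lt
    nlinarith
  · push Not at hc
    have h3 : x * y ≤ phi ^ 2 * y * y := by
      apply mul_le_mul_of_nonneg_right h2 hy.le
    have h4 := scl_sq_lt
    have h5 : y * y ≤ (scl * (phi - 1)) * (scl * (phi - 1)) :=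
      mul_le_mul hc.le hc.le hy.le (by nlinarith)
    have h6 : phi ^ 2 * ((scl * (phi - 1)) * (scl * (phi - 1))) = scl ^ 2 := by
      have : phi * (phi - 1) = 1 := by linarith
      calc phi ^ 2 * ((scl * (phi - 1)) * (scl * (phi - 1))) =
          scl ^ 2 * (phi * (phi - 1)) ^ 2 := by ring
        _ = scl ^ 2 := by rw [this]; ring
    have h7 : phi ^ 2 * (y * y) ≤ phi ^ 2 * ((scl * (phi - 1)) * (scl * (phi - 1))) :=
      mul_le_mul_of_nonneg_left h5 (by positivity)
    nlinarith

/-- Every empty box has half area at most `0.724`. -/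
theorem emp_le : ∀ (N : ℕ) {x y : ℝ}, 0 < x → 0 < y → Emp x y → y ≤ x →
    x ≤ phi ^ (2 * N) * y → x * y ≤ 181 / 250 := by
  have hp : 0 < phi := by linarith [phi_gt]
  have hp1 : 1 < phi := by linarith [phi_gt]
  intro N
  induction N with
  | zero =>
    intro x y hx hy h h1 h2
    rw [mul_zero, pow_zero, one_mul] at h2
    exact emp_base hy h h1 (h2.trans (le_mul_of_one_le_left hy.le (one_le_pow₀ hp1.le)))
  | succ N ih =>
    intro x y hx hy h h1 h2
    by_cases hc : x ≤ phi ^ 2 * y
    · exact emp_base hy h h1 hc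
    · push Not at hc
      have h3 := ih (x := x / phi) (y := y * phi) (by positivity) (by positivity) (emp_unit' h)
        (by
          rw [le_div_iff₀ hp]
          nlinarith) (by
          rw [div_le_iff₀ hp]
          calc x ≤ phi ^ (2 * (N + 1)) * y := h2
            _ = phi ^ (2 * N) * (y * phi) * phi := by ring)
      have h4 : x / phi * (y * phi) = x * y := by field_simp
      rw [← h4]
      exact h3

theorem emp_le' {x y : ℝ} (hx : 0 < x) (hy : 0 < y) (h : Emp x y) : x * y ≤ 181 / 250 := by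
  have hp1 : 1 < phi := by linarith [phi_gt]
  have key : ∀ x y : ℝ, 0 < x → 0 < y → Emp x y → y ≤ x → x * y ≤ 181 / 250 := by
    intro x y hx hy h hxy
    obtain ⟨N, hN⟩ := pow_unbounded_of_one_lt (x / y) (one_lt_pow₀ hp1 (two_ne_zero))
    refine emp_le N hx hy h hxy ?_
    rw [← pow_mul] at hN
    rw [div_lt_iff₀ hy] at hN
    exact hN.le
  rcases le_total y x with h1 | h1
  · exact key x y hx hy h h1
  · rw [mul_comm]
    exact key y x hy hx (emp_symm h) h1

end GoldAux

open GoldAux

theorem gold_det : gold.det = 1 := by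
  unfold gold
  rw [Matrix.det_smul, Fintype.card_fin, Matrix.det_fin_two_of]
  have h1 := scl_sq
  have h2 : phi * 1 - 1 * (1 - phi) = Real.sqrt 5 := by
    unfold phi
    ring
  rw [h2, h1]

theorem gold_box {x y : ℝ} (hx : 0 < x) (hy : 0 < y)
    (h : ∀ u : Fin 2 → ℤ, |∑ j, gold 0 j * (u j : ℝ)| ≤ x → |∑ j, gold 1 j * (u j : ℝ)| ≤ y →
      u = 0) : x * y ≤ 181 / 250 := by
  apply emp_le' hx hy
  intro a b h1 h2
  have h3 := h ![a, b] (by
    rw [Fin.sum_univ_two]
    refine le_trans (le_of_eq ?_) h1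
    congr 1
    simp [gold]
    ring) (by
    rw [Fin.sum_univ_two]
    refine le_trans (le_of_eq ?_) h2
    congr 1
    simp [gold]
    ring)
  have h4 := congrFun h3 0
  have h5 := congrFun h3 1
  simp at h4 h5
  exact ⟨h4, h5⟩

end Pool.Agent.Lib.MP_ddd95a_nt.Mord
end
end
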