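import Pool.Agent.Lib.MP_ddd95a_nt.Mg.G006
import Pool.Agent.Lib.MP_ddd95a_nt.Mg.G002
import Pool.Agent.Lib.MP_ddd95a_nt.Mord.MainB
import Pool.Agent.Lib.MP_ddd95a_nt.Mg.G003
import Pool.Agent.Lib.MP_ddd95a_nt.Mg.G005
import Pool.Agent.Lib.MP_ddd95a_nt.Mg.G009
import Pool.Agent.Lib.MP_ddd95a_nt.Mg.G008

section

/-!
# Good positions of symmetric convex bodies
-/

open Matrix MeasureTheory Filter Set
open scoped ENNReal Topology

noncomputable section

namespace Pool.Agent.Lib.MP_ddd95a_nt.Mord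

namespace EllAux

/-- choice of the exponent -/
lemma exists_pow {L : ℝ} (hL : 1 ≤ L) : ∃ j : ℕ, L ≤ 2 ^ j ∧ (2 : ℝ) ^ j ≤ 2 * L := by
  have hex : ∃ j : ℕ, L ≤ 2 ^ j := by
    obtain ⟨j, hj⟩ := pow_unbounded_of_one_lt L (one_lt_two)
    exact ⟨j, hj.le⟩
  classical
  refine ⟨Nat.find hex, Nat.find_spec hex, ?_⟩
  rcases Nat.eq_zero_or_pos (Nat.find hex) with h | h
  · rw [h, pow_zero]
    linarith
  · obtain ⟨k, hk⟩ := Nat.exists_eq_succ_of_ne_zero h.ne'
    have hlt : k < Nat.find hex := by omega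
    have := Nat.find_min hex hlt
    push Not at this
    rw [hk, Nat.succ_eq_add_one, pow_succ]
    linarith

lemma pow_third {N : ℕ} (hN : 1 ≤ N) {j : ℕ} (hj : 1 + Real.log N ≤ 2 ^ j) :
    (1 / 3 : ℝ) ^ (2 ^ j) ≤ 1 / (3 * N) := by
  have hN' : (1 : ℝ) ≤ N := by exact_mod_cast hN
  have h1 : (3 * N : ℝ) ≤ 3 ^ (2 ^ j) := by
    have h3 : Real.exp 1 ≤ 3 := by
      have := Real.exp_one_lt_d9
      linarith
    have hlog3 : 1 ≤ Real.log 3 := by
      rw [Real.le_log_iff_exp_le (by norm_num)]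
      exact h3
    have h4 : Real.log (3 * N) ≤ Real.log (3 ^ (2 ^ j)) := by
      rw [Real.log_mul (by norm_num) (by positivity), Real.log_pow]
      have hlogN : 0 ≤ Real.log N := Real.log_nonneg hN'
      push_cast
      calc Real.log 3 + Real.log N ≤ Real.log 3 * (1 + Real.log N) := by
            nlinarith
        _ ≤ Real.log 3 * 2 ^ j := by gcongr
        _ = 2 ^ j * Real.log 3 := by ring
    exact (Real.log_le_log_iff (by positivity) (by positivity)).mp h4
  rw [one_div, inv_pow, one_div]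
  exact inv_anti₀ (by positivity) h1

lemma preimage_meas {n : ℕ} {K : Set (Fin n → ℝ)} (hK : IsCompact K)
    (p : Seminorm ℝ (Fin n → ℝ)) (hp : ∀ x, p x ≤ 1 ↔ x ∈ K) (T : Matrix (Fin n) (Fin n) ℝ)
    {r : ℝ} (hr : 0 < r) : MeasurableSet {x : Fin n → ℝ | p (T *ᵥ x) ≤ r} := by
  have h : {x : Fin n → ℝ | p (T *ᵥ x) ≤ r} = (fun x => T *ᵥ (r⁻¹ • x)) ⁻¹' K := by
    ext x
    rw [mem_preimage, ← hp, Matrix.mulVec_smul, map_smul_eq_mul,
      Real.norm_of_nonneg (by positivity)]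
    show p (T *ᵥ x) ≤ r ↔ _
    rw [inv_mul_le_iff₀ hr, mul_one]
  rw [h]
  have hc : Continuous fun x : Fin n → ℝ => T *ᵥ (r⁻¹ • x) := by fun_prop
  exact (hK.isClosed.preimage hc).measurableSet

lemma convex_ball {n : ℕ} (p : Seminorm ℝ (Fin n → ℝ)) (T : Matrix (Fin n) (Fin n) ℝ)
    (r : ℝ) : Convex ℝ {x : Fin n → ℝ | p (T *ᵥ x) ≤ r} := by
  intro x hx y hy a b ha hb hab
  have hx' : p (T *ᵥ x) ≤ r := hx
  have hy' : p (T *ᵥ y) ≤ r := hy
  show p (T *ᵥ (a • x + b • y)) ≤ r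
  rw [Matrix.mulVec_add, Matrix.mulVec_smul, Matrix.mulVec_smul]
  refine le_trans (map_add_le_add p _ _) ?_
  rw [map_smul_eq_mul, map_smul_eq_mul, Real.norm_of_nonneg ha, Real.norm_of_nonneg hb]
  calc a * p (T *ᵥ x) + b * p (T *ᵥ y) ≤ a * r + b * r := by gcongr
    _ = r := by rw [← add_mul, hab, one_mul]

lemma symm_ball {n : ℕ} (p : Seminorm ℝ (Fin n → ℝ)) (T : Matrix (Fin n) (Fin n) ℝ)
    (r : ℝ) : ∀ x ∈ {x : Fin n → ℝ | p (T *ᵥ x) ≤ r}, -x ∈ {x : Fin n → ℝ | p (T *ᵥ x) ≤ r} := by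
  intro x hx
  show p (T *ᵥ (-x)) ≤ r
  rw [Matrix.mulVec_neg, map_neg_eq_map]
  exact hx

lemma root_le {n N : ℕ} (hn : 1 ≤ n) (hnN : n ≤ N) :
    Real.sqrt (Real.log (16 * n)) ≤ 2 * Real.sqrt (1 + Real.log N) := by
  have hn' : (1 : ℝ) ≤ n := by exact_mod_cast hn
  have hN' : (n : ℝ) ≤ N := by exact_mod_cast hnN
  have hlog : Real.log n ≤ Real.log N := Real.log_le_log (by linarith) hN'
  have hlogn : 0 ≤ Real.log n := Real.log_nonneg hn'
  have h16 : Real.log 16 ≤ 4 := by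
    have : (16 : ℝ) = 2 ^ (4 : ℕ) := by norm_num
    rw [this, Real.log_pow]
    have := Real.log_two_lt_d9
    push_cast
    linarith
  have h1 : Real.log (16 * n) ≤ 2 ^ 2 * (1 + Real.log N) := by
    rw [Real.log_mul (by norm_num) (by positivity)]
    linarith
  calc Real.sqrt (Real.log (16 * n)) ≤ Real.sqrt (2 ^ 2 * (1 + Real.log N)) :=
        Real.sqrt_le_sqrt h1
    _ = 2 * Real.sqrt (1 + Real.log N) := by
        rw [Real.sqrt_mul (by positivity), Real.sqrt_sq (by norm_num)]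

end EllAux

/-- Proof: for `K` take `p` (`exists_norm`), `T` (`ell_pos`), `a = C₂ L^(3/2)`, `L = 1 + log N ≥ 1 + log n`,
`gauss_mass`: the set `C = {x | p (T x) ≤ r}`, `r = 16 a √(log (16 n)) ≤ C' L²`, has Gaussian measure at
least `3/4`; `borell` with the smallest `j` such that `(1/3)^(2^j) ≤ 1/(3N)`, so `2^j ≤ 2 (1 + log N)` (roughly):
`{x | p (T x) ≤ s r}`, `s = 2^(j+1) - 1 ≤ 4 L`, has measure at least `1 - 1/(3N)`. So this also holds for
`t = C₀ L³ ≥ s r`. Take `G = T⁻¹`: by `J_map`, `J (t • G) K = J 1 ((t G) K)` and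
`(t G) K = {x | p (T x) ≤ t}`. -/
theorem ell : ∃ C₀ : ℝ, 0 < C₀ ∧ ∀ N : ℕ, 1 ≤ N → ∀ n, 1 ≤ n → n ≤ N →
    Good (C₀ * (1 + Real.log N) ^ 3) (1 / (3 * N)) n := by
  obtain ⟨C₂, hC₂, hpos⟩ := ell_pos
  refine ⟨128 * C₂, by positivity, ?_⟩
  intro N hN n hn hnN K hK hc hs hv
  have hn' : (1 : ℝ) ≤ n := by exact_mod_cast hn
  have hN' : (1 : ℝ) ≤ N := by exact_mod_cast hN
  have hnN' : (n : ℝ) ≤ N := by exact_mod_cast hnN
  set L := 1 + Real.log N with hLdef
  have hlogN : 0 ≤ Real.log N := Real.log_nonneg hN'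
  have hL : 1 ≤ L := by linarith
  have hLn : 1 + Real.log n ≤ L := by
    have := Real.log_le_log (by linarith) hnN'
    linarith
  have hln0 : 0 ≤ 1 + Real.log n := by
    have := Real.log_nonneg hn'
    linarith
  obtain ⟨p, hp0, hp⟩ := exists_norm hK hc hs (by rw [hv]; exact one_ne_zero)
  obtain ⟨T, hT, havg⟩ := hpos n hn K hK hc hs hv p hp0 hp
  set a := C₂ * (L * Real.sqrt L) with ha
  have hsL : 0 < Real.sqrt L := Real.sqrt_pos.mpr (by linarith)
  have ha0 : 0 < a := by positivity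
  have havg' : avg (fun e => p (T *ᵥ sg e)) ≤ a := by
    refine le_trans havg ?_
    rw [ha]
    have := Real.sqrt_le_sqrt hLn
    gcongr
  have hmass := gauss_mass hn p T ha0 havg'
  set r := 16 * a * Real.sqrt (Real.log (16 * n)) with hr
  have hr0 : 0 < r := by
    have : 0 < Real.log (16 * n) := Real.log_pos (by linarith)
    have := Real.sqrt_pos.mpr this
    positivity
  have hrle : r ≤ 32 * C₂ * L ^ 2 := by
    rw [hr, ha]
    have h1 := EllAux.root_le hn hnN
    rw [← hLdef] at h1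
    have h2 : Real.sqrt L * Real.sqrt L = L := Real.mul_self_sqrt (by linarith)
    calc 16 * (C₂ * (L * Real.sqrt L)) * Real.sqrt (Real.log (16 * n))
        ≤ 16 * (C₂ * (L * Real.sqrt L)) * (2 * Real.sqrt L) := by gcongr
      _ = 32 * C₂ * L * (Real.sqrt L * Real.sqrt L) := by ring
      _ = 32 * C₂ * L ^ 2 := by rw [h2]; ring
  obtain ⟨j, hj1, hj2⟩ := EllAux.exists_pow hL
  have hb := borell (EllAux.preimage_meas hK p hp T hr0) (EllAux.convex_ball p T r)
    (EllAux.symm_ball p T r) hmass j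
  have hthird := EllAux.pow_third hN hj1
  set s := (2 : ℝ) ^ (j + 1) - 1 with hsdef
  have hs1 : 1 ≤ s := by
    have : (1 : ℝ) ≤ 2 ^ j := one_le_pow₀ (by norm_num)
    rw [hsdef, pow_succ]
    linarith
  have hs4 : s ≤ 4 * L := by
    rw [hsdef, pow_succ]
    linarith
  set t := 128 * C₂ * L ^ 3 with ht
  have ht0 : 0 < t := by positivity
  have hsr : s * r ≤ t := by
    calc s * r ≤ (4 * L) * (32 * C₂ * L ^ 2) := by gcongr
      _ = t := by rw [ht]; ring
  have hTu : IsUnit T.det := by rw [hT]; exact isUnit_one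
  refine ⟨T⁻¹, ?_, ?_⟩
  · rw [Matrix.det_nonsing_inv, hT]
    simp
  · have hdet : (t • T⁻¹).det ≠ 0 := by
      rw [Matrix.det_smul, Matrix.det_nonsing_inv, hT]
      simp only [Ring.inverse_one, mul_one]
      positivity
    have hmap := J_map (1 : Matrix (Fin n) (Fin n) ℝ) (t • T⁻¹) hdet hK.isClosed.measurableSet
    rw [one_mul] at hmap
    rw [hmap]
    refine le_trans ?_ (le_trans hb (J_mono _ ?_))
    · apply ENNReal.ofReal_le_ofReal
      linarith
    · intro x hx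
      have hx1 : p (T *ᵥ (s⁻¹ • x)) ≤ r := hx
      rw [Matrix.mulVec_smul, map_smul_eq_mul, Real.norm_of_nonneg (by positivity),
        inv_mul_le_iff₀ (by linarith)] at hx1
      have hx2 : p (T *ᵥ x) ≤ t := le_trans hx1 hsr
      refine ⟨t⁻¹ • (T *ᵥ x), ?_, ?_⟩
      · rw [← hp, map_smul_eq_mul, Real.norm_of_nonneg (by positivity), inv_mul_le_iff₀ ht0,
          mul_one]
        exact hx2
      · show (t • T⁻¹) *ᵥ (t⁻¹ • (T *ᵥ x)) = x
        rw [Matrix.smul_mulVec, Matrix.mulVec_smul, Matrix.mulVec_mulVec,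
          Matrix.nonsing_inv_mul _ hTu, Matrix.one_mulVec, smul_smul, mul_inv_cancel₀ ht0.ne',
          one_smul]

end Pool.Agent.Lib.MP_ddd95a_nt.Mord
end
end

section

/-!
# Maximal values are at least one
-/

open Matrix MeasureTheory Filter Set
open scoped ENNReal Topology

noncomputable section

namespace Pool.Agent.Lib.MP_ddd95a_nt.Mord

namespace StabAAux

theorem tilt_zero {n : ℕ} (g : Matrix (Fin n) (Fin n) ℝ) : tilt 0 g = g := by
  unfold tilt
  simp

theorem tilt_continuous {n : ℕ} (θ : Fin n → ℝ) (g : Matrix (Fin n) (Fin n) ℝ) :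
    Continuous fun s : ℝ => tilt (s • θ) g := by
  unfold tilt
  refine Continuous.matrix_mul ?_ continuous_const
  refine Continuous.matrix_diagonal ?_
  refine continuous_pi fun i => ?_
  simp only [Pi.smul_apply, smul_eq_mul]
  fun_prop

theorem tilt_tendsto {n : ℕ} (θ : Fin n → ℝ) (g : Matrix (Fin n) (Fin n) ℝ) :
    Tendsto (fun s : ℝ => tilt (s • θ) g) (𝓝 0) (𝓝 g) := by
  have h1 := (tilt_continuous θ g).tendsto 0
  rw [zero_smul, tilt_zero] at h1
  exact h1

theorem sum_smul {n : ℕ} {θ : Fin n → ℝ} (hθ : ∑ i, θ i = 0) (s : ℝ) :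
    ∑ i, (s • θ) i = 0 := by
  simp only [Pi.smul_apply, smul_eq_mul]
  rw [← Finset.mul_sum, hθ, mul_zero]

end StabAAux

open StabAAux

/-- The maximal value is at least one. -/
theorem low_one {n : ℕ} (hn : 2 ≤ n) {w : ℝ} (hw : 1 < w) {h : Matrix (Fin n) (Fin n) ℝ}
    (hh : h.det = 1) : ∃ g ∈ closure (orb h), Low w 1 g := by
  obtain ⟨c, g₁, hc, hg₁, hL₁, hmax⟩ := low_max hn hw hh
  by_cases hc1 : 1 ≤ c
  · exact ⟨g₁, hg₁, low_mono hc1 hL₁⟩
  push Not at hc1
  exfalso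
  obtain ⟨g₀, hg₀, hL₀, hmin⟩ := min_act hn hw hc hc1 hh hg₁ hL₁
  have hdet : |g₀.det| = 1 := by rw [orb_det hh hg₀, abs_one]
  have hdet0 : g₀.det ≠ 0 := by rw [orb_det hh hg₀]; exact one_ne_zero
  classical
  -- the ranks of the active sublattices and representatives
  let S : Finset ℕ := (Finset.range n).filter
    (fun k => ∃ v : Matrix (Fin n) (Fin k) ℤ, Act w c g₀ v)
  have hSmem : ∀ k, k ∈ S ↔ ∃ v : Matrix (Fin n) (Fin k) ℤ, Act w c g₀ v := by
    intro k
    simp only [S, Finset.mem_filter, Finset.mem_range, and_iff_right_iff_imp]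
    rintro ⟨v, hv⟩
    exact hv.2.1
  let v₀ : ∀ k : ℕ, Matrix (Fin n) (Fin k) ℤ := fun k =>
    if hk : ∃ v : Matrix (Fin n) (Fin k) ℤ, Act w c g₀ v then hk.choose else 0
  have hv₀ : ∀ k ∈ S, Act w c g₀ (v₀ k) := by
    intro k hk
    have h1 := (hSmem k).1 hk
    simp only [v₀, dif_pos h1]
    exact h1.choose_spec
  let V : ∀ k : ℕ, Matrix (Fin n) (Fin k) ℝ := fun k => g₀ * rm (v₀ k)
  have hS1 : ∀ k ∈ S, 0 < k ∧ k < n := fun k hk => ⟨(hv₀ k hk).1, (hv₀ k hk).2.1⟩
  have hV : ∀ k ∈ S, gr (V k) ≠ 0 := fun k hk =>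
    (gr_pos_of_nd hdet0 (hv₀ k hk).2.2.1).ne'
  obtain ⟨π, hπ⟩ := nested S (fun k hk => (hS1 k hk).2.le) V hV (by
    intro k hk l hl hkl
    obtain ⟨X, hX⟩ := chain hw hc hc1 hdet hL₀ hkl (hv₀ k hk) (hv₀ l hl)
    refine ⟨X, ?_⟩
    simp only [V]
    rw [hX, Matrix.mul_assoc])
  let Λ : ℕ → (Fin n → ℝ) →ₗ[ℝ] ℝ := fun k => (der_linear (V k)).choose
  have hΛ : ∀ k θ, Λ k θ = der (V k) θ := fun k => (der_linear (V k)).choose_spec
  -- covolumes of active sublattices
  have hact : ∀ (k : ℕ) (v : Matrix (Fin n) (Fin k) ℤ), Act w c g₀ v → k ∈ S ∧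
      ∀ g' : Matrix (Fin n) (Fin n) ℝ, gr (g' * rm v) = gr (g' * rm (v₀ k)) := by
    intro k v hv
    have hk : k ∈ S := (hSmem k).2 ⟨v, hv⟩
    exact ⟨hk, chain_eq hw hc hc1 hdet hL₀ hv (hv₀ k hk)⟩
  have hwpos : ∀ m : ℕ, 0 < w ^ m := fun m => pow_pos (by linarith) m
  have hder : ∀ k θ (s : ℝ), gr (V k) + 2 * (s * der (V k) θ) ≤
      gr (tilt (s • θ) g₀ * rm (v₀ k)) := by
    intro k θ s
    have h1 := gr_tilt_ge g₀ (v₀ k) (s • θ)
    have h2 : der (g₀ * rm (v₀ k)) (s • θ) = s * der (V k) θ := by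
      rw [← hΛ k θ, ← smul_eq_mul, ← map_smul, hΛ]
    rw [h2] at h1
    exact h1
  have horb : ∀ θ : Fin n → ℝ, ∑ i, θ i = 0 → ∀ s : ℝ, tilt (s • θ) g₀ ∈ closure (orb h) :=
    fun θ hθ s => orb_tilt hg₀ (sum_smul hθ s)
  have hdet' : ∀ θ : Fin n → ℝ, ∑ i, θ i = 0 → ∀ s : ℝ, |(tilt (s • θ) g₀).det| = 1 := by
    intro θ hθ s
    rw [orb_det hh (horb θ hθ s), abs_one]
  rcases lin_alt (by omega) S hS1 Λ π with ⟨θ, hθ, hθ1⟩ | ⟨θ, hθ, hθ0, k, hk, hkn, hne⟩
  · -- all active covolumes can be increased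
    have hev := (tilt_tendsto θ g₀).eventually (pert_strict hn hw hc hc1 hdet hL₀)
    obtain ⟨s, hs, hs0⟩ := ((hev.filter_mono nhdsWithin_le_nhds).and
      (self_mem_nhdsWithin (a := (0 : ℝ)) (s := Set.Ioi 0))).exists
    obtain ⟨c', hc', hL'⟩ := hs (hdet' θ hθ s) (by
      intro k v hv
      obtain ⟨hk, hg'⟩ := hact k v hv
      have h1 := hder k θ s
      rw [← hΛ k θ, hθ1 k hk, mul_one] at h1
      have h2 : gr (V k) < gr (tilt (s • θ) g₀ * rm v) := by
        rw [hg']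
        have : 0 < s := hs0
        linarith
      have h3 : c = gr (V k) * w ^ (k * (n - k)) := (hv₀ k hk).2.2.2.symm
      rw [h3]
      exact mul_lt_mul_of_pos_right h2 (hwpos _))
    exact absurd (hmax _ (horb θ hθ s) c' hL') (not_le.2 hc')
  · -- a direction along which the active covolumes do not decrease
    have hgood : ∀ θ' : Fin n → ℝ, ∑ i, θ' i = 0 → (∀ k ∈ S, der (V k) θ' = 0) →
        ∀ᶠ s in 𝓝 (0 : ℝ), gr (tilt (s • θ') g₀ * rm (v₀ k)) = gr (g₀ * rm (v₀ k)) := by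
      intro θ' hθ' hd
      filter_upwards [(tilt_tendsto θ' g₀).eventually (pert hn hw hc hc1 hdet hL₀),
        (tilt_tendsto θ' g₀).eventually hmin] with s hs1 hs2
      have hge : ∀ (l : ℕ) (v : Matrix (Fin n) (Fin l) ℤ), Act w c g₀ v →
          c ≤ gr (tilt (s • θ') g₀ * rm v) * w ^ (l * (n - l)) := by
        intro l v hv
        obtain ⟨hl, hg'⟩ := hact l v hv
        have h1 := hder l θ' s
        rw [hd l hl, mul_zero, mul_zero, add_zero] at h1
        have h3 : c = gr (V l) * w ^ (l * (n - l)) := (hv₀ l hl).2.2.2.symm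
        rw [h3, hg']
        exact mul_le_mul_of_nonneg_right h1 (hwpos _).le
      have hlow : Low w c (tilt (s • θ') g₀) := by
        intro l hl1 hln v hv
        by_contra hcon
        push Not at hcon
        exact absurd (hge l v (hs1 (hdet' θ' hθ' s) l hl1 hln v hv hcon.le)) (not_le.2 hcon)
      have hsub : ∀ (l : ℕ) (v : Matrix (Fin n) (Fin l) ℤ), Act w c (tilt (s • θ') g₀) v →
          Act w c g₀ v := fun l v hv =>
        hs1 (hdet' θ' hθ' s) l hv.1 hv.2.1 v hv.2.2.1 hv.2.2.2.le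
      have h4 := hs2 (horb θ' hθ' s) hlow hsub k (v₀ k) (hv₀ k hk)
      have h5 : gr (tilt (s • θ') g₀ * rm (v₀ k)) * w ^ (k * (n - k)) =
          gr (g₀ * rm (v₀ k)) * w ^ (k * (n - k)) := by
        rw [h4.2.2.2, (hv₀ k hk).2.2.2]
      exact mul_right_cancel₀ (hwpos _).ne' h5
    have hd0 : ∀ k ∈ S, der (V k) θ = 0 := fun k hk => by rw [← hΛ, hθ0 k hk]
    have hd1 : ∀ k ∈ S, der (V k) (-θ) = 0 := fun k hk => by
      rw [← hΛ, map_neg, hθ0 k hk, neg_zero]
    have hneg : ∑ i, (-θ) i = 0 := by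
      simp only [Pi.neg_apply, Finset.sum_neg_distrib, hθ, neg_zero]
    obtain ⟨s, ⟨hs1, hs2⟩, hs0⟩ := (((hgood θ hθ hd0).and (hgood (-θ) hneg hd1)).filter_mono
      nhdsWithin_le_nhds |>.and (self_mem_nhdsWithin (a := (0 : ℝ)) (s := Set.Ioi 0))).exists
    have hs2' : gr (tilt (-(s • θ)) g₀ * rm (v₀ k)) = gr (g₀ * rm (v₀ k)) := by
      rw [← smul_neg]
      exact hs2
    have h6 := gr_tilt_eq g₀ (v₀ k) (s • θ) hs1 hs2' (fun i : Fin k => π (Fin.castLE hkn i))
      (hπ k hk hkn)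
    apply hne
    have h7 : s * ∑ i : Fin k, θ (π (Fin.castLE hkn i)) = 0 := by
      rw [Finset.mul_sum]
      exact h6
    have hspos : s ≠ 0 := ne_of_gt hs0
    exact (mul_eq_zero.1 h7).resolve_left hspos

end Pool.Agent.Lib.MP_ddd95a_nt.Mord
end
end

section

/-!
# Stable lattices in the closure of the orbit
-/

open Matrix MeasureTheory Filter Set
open scoped ENNReal Topology

noncomputable section

namespace Pool.Agent.Lib.MP_ddd95a_nt.Mord

namespace StabAux

theorem ends {n : ℕ} {g : Matrix (Fin n) (Fin n) ℝ} (hg : g.det = 1) {k : ℕ}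
    (v : Matrix (Fin n) (Fin k) ℤ) (hv : Nd v) (hk : k = 0 ∨ k = n) : 1 ≤ gr (g * rm v) := by
  rcases hk with rfl | rfl
  · rw [gr_empty]
  · rw [gr_square, Matrix.det_mul, hg, one_mul, det_rm]
    have h1 : v.det ≠ 0 := (nd_square v).mp hv
    have h2 : (1 : ℤ) ≤ v.det ^ 2 := by
      have := sq_pos_of_ne_zero h1
      omega
    exact_mod_cast h2

theorem cont {n k : ℕ} (v : Matrix (Fin n) (Fin k) ℤ) :
    Continuous fun g : Matrix (Fin n) (Fin n) ℝ => gr (g * rm v) := by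
  unfold gr
  have h1 : Continuous fun g : Matrix (Fin n) (Fin n) ℝ => g * rm v :=
    continuous_id.matrix_mul continuous_const
  exact (h1.matrix_transpose.matrix_mul h1).matrix_det

end StabAux

open StabAux in
/-- Every orbit closure contains a stable lattice.
Proof: if `n ≤ 1` take `g = h` (`Stable`: for `k = 0` use `gr_empty`, for `k = n` use
`gr (g v) = det(g)² det(v)²`). If `n ≥ 2` take `g_j` from `low_one` with `w = 1 + 1/(j+1) ≤ 2`;
`low_vec` bounds the minimum below by `2^(-(n-1))`, `bdd_rep`, `orb_unimod`, `low_unimod` allow to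
assume that the `g_j` are bounded; take the limit `g` of a subsequence. For `Nd v` of rank
`1 ≤ k < n`: `gr (g_j v) ≥ w_j^(-k(n-k))`, so `gr (g v) ≥ 1`. -/
theorem exists_stable {n : ℕ} {h : Matrix (Fin n) (Fin n) ℝ} (hh : h.det = 1) :
    ∃ g ∈ closure (orb h), Stable g := by
  rcases Nat.lt_or_ge n 2 with hn | hn
  · refine ⟨h, subset_closure (orb_self h), by rw [hh, abs_one], fun k v hv => ?_⟩
    have hk := nd_card hv
    rw [Fintype.card_fin, Fintype.card_fin] at hk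
    exact ends hh v hv (by omega)
  · set w : ℕ → ℝ := fun j => 1 + 1 / ((j : ℝ) + 1) with hw
    have hw1 : ∀ j, 1 < w j := by
      intro j
      have : (0 : ℝ) < 1 / ((j : ℝ) + 1) := by positivity
      simp only [hw]
      linarith
    have hw2 : ∀ j, w j ≤ 2 := by
      intro j
      have : 1 / ((j : ℝ) + 1) ≤ 1 := by
        rw [div_le_one (by positivity)]
        have : (0 : ℝ) ≤ j := Nat.cast_nonneg j
        linarith
      simp only [hw]
      linarith
    obtain ⟨R, hR⟩ := bdd_rep n (1 / 2 ^ (n - 1)) (by positivity)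
    have key : ∀ j : ℕ, ∃ g : Matrix (Fin n) (Fin n) ℝ, g ∈ closure (orb h) ∧ Low (w j) 1 g ∧
        ∀ a b, |g a b| ≤ R := by
      intro j
      obtain ⟨g, hg, hlow⟩ := low_one hn (hw1 j) hh
      have hdet := orb_det hh hg
      obtain ⟨u, hu, hb⟩ := hR g (by rw [hdet, abs_one]) (fun x hx => by
        refine le_trans ?_ (low_vec (by linarith [hw1 j]) hn hlow x hx)
        exact one_div_le_one_div_of_le (pow_pos (by linarith [hw1 j]) _)
          (pow_le_pow_left₀ (by linarith [hw1 j]) (hw2 j) _))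
      exact ⟨g * rm u, orb_unimod hg hu, low_unimod hlow (by rw [hu, abs_one]), hb⟩
    choose g hg hlow hb using key
    have hcomp : IsCompact (Set.pi Set.univ fun _ : Fin n => Set.pi Set.univ fun _ : Fin n =>
        Set.Icc (-R) R) :=
      isCompact_univ_pi fun _ => isCompact_univ_pi fun _ => isCompact_Icc
    have hmem : ∀ j, (show Fin n → Fin n → ℝ from g j) ∈
        (Set.pi Set.univ fun _ : Fin n => Set.pi Set.univ fun _ : Fin n => Set.Icc (-R) R) := by
      intro j a _ b _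
      exact abs_le.mp (hb j a b)
    obtain ⟨g₀, -, φ, hφ, hlim⟩ := hcomp.tendsto_subseq hmem
    have hlim' : Tendsto (fun j => g (φ j)) atTop (𝓝 (show Matrix (Fin n) (Fin n) ℝ from g₀)) :=
      hlim
    have hg₀ : (show Matrix (Fin n) (Fin n) ℝ from g₀) ∈ closure (orb h) :=
      isClosed_closure.mem_of_tendsto hlim' (Eventually.of_forall fun j => hg _)
    refine ⟨g₀, hg₀, ?_, fun k v hv => ?_⟩
    · have hd := orb_det hh hg₀
      rw [hd, abs_one]
    · by_cases hk : k = 0 ∨ k = n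
      · exact ends (orb_det hh hg₀) v hv hk
      · have hk' := nd_card hv
        rw [Fintype.card_fin, Fintype.card_fin] at hk'
        have h1 : Tendsto (fun j => gr (g (φ j) * rm v)) atTop
            (𝓝 (gr ((show Matrix (Fin n) (Fin n) ℝ from g₀) * rm v))) :=
          ((cont v).tendsto _).comp hlim'
        have h2 : Tendsto w atTop (𝓝 1) := by
          have := (tendsto_one_div_add_atTop_nhds_zero_nat (𝕜 := ℝ)).const_add 1
          rwa [add_zero] at this
        have h3 : Tendsto (fun j => w (φ j) ^ (k * (n - k))) atTop (𝓝 (1 ^ (k * (n - k)))) :=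
          (h2.comp hφ.tendsto_atTop).pow _
        have h4 := h1.mul h3
        rw [one_pow, mul_one] at h4
        exact ge_of_tendsto' h4 fun j => hlow (φ j) k (by omega) (by omega) v hv

end Pool.Agent.Lib.MP_ddd95a_nt.Mord
end
end
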