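import Pool.Agent.Lib.MP_ddd95a_nt.Mg.G018
import Pool.Agent.Lib.MP_ddd95a_nt.Mg.G010
import Pool.Agent.Lib.MP_ddd95a_nt.Iso.EqvS

section

set_option autoImplicit false

/-!
# Soundness of the certificates with the larger constant

Every normalised matrix outside of the four excluded cells is good for the constant
`kT = 633340 / 1048576`.
-/

namespace Pool.Agent.Lib.MP_ddd95a_nt.Sec

open Pool.Agent.Lib.MP_ddd95a_nt

open scoped BigOperators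

/-- The constant tested by the certificates. -/
noncomputable def kT : ℝ := 633340 / 1048576

/-- The matrix is in the excluded cell near the heptagonal matrix. -/
def InE0 (V : Matrix (Fin 3) (Fin 3) ℝ) : Prop :=
  InCell V 10 16 34 37 91 94 10 16 112 118 91 94

/-- The matrix is in the excluded cell near the first nonagonal matrix. -/
def InEa (V : Matrix (Fin 3) (Fin 3) ℝ) : Prop :=
  InCell V 28 31 40 43 85 88 28 31 97 100 85 88

/-- The matrix is in the excluded cell near the second nonagonal matrix. -/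
def InEb (V : Matrix (Fin 3) (Fin 3) ℝ) : Prop :=
  InCell V 15 18 37 41 119 122 21 24 119 122 40 44

/-- The matrix is in the excluded cell near the second nonagonal matrix, with two coordinates exchanged. -/
def InEc (V : Matrix (Fin 3) (Fin 3) ℝ) : Prop :=
  InCell V 37 41 15 18 119 122 40 44 119 122 21 24

/-- The matrix is in one of the excluded cells. -/
def InLoc (V : Matrix (Fin 3) (Fin 3) ℝ) : Prop :=
  InE0 V ∨ InEa V ∨ InEb V ∨ InEc V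

open Vol in
/-- The volume test. -/
theorem volCell2_spec {P : Fin 4 → Fin 4 → Fin 4 → ℕ} {lam : ℕ}
    (hP : ∀ s1 s2 s3, P s1 s2 s3 ≤ lam * 2 ^ 36)
    {l0 h0 l1 h1 l2 h2 l3 h3 l4 h4 l5 h5 : ℕ}
    (b0 : l0 ≤ 128) (c0 : h0 ≤ 128) (b1 : l1 ≤ 128) (c1 : h1 ≤ 128) (b2 : l2 ≤ 128)
    (c2 : h2 ≤ 128) (b3 : l3 ≤ 128) (c3 : h3 ≤ 128) (b4 : l4 ≤ 128) (c4 : h4 ≤ 128)
    (b5 : l5 ≤ 128) (c5 : h5 ≤ 128)
    (h : volCell2 (pk64 P) lam l0 h0 l1 h1 l2 h2 l3 h3 l4 h4 l5 h5 = true) :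
    1 ≤ lam ∧ ∀ s1 s2 s3, 633340 * lam * |det64 (yA l0 h0 s1) (yB l1 h1 s1) (yA l2 h2 s2)
      (yB l3 h3 s2) (yA l4 h4 s3) (yB l5 h5 s3)| ≤ 1048576 * P s1 s2 s3 := by
  have hA : ∀ {l h : ℕ}, l ≤ 128 → h ≤ 128 → ∀ s, (![l, h, l, h] : Fin 4 → ℕ) s ≤ 128 := by
    intro l h hl hh s
    fin_cases s <;> simpa
  have hB : ∀ {l h : ℕ}, l ≤ 128 → h ≤ 128 → ∀ s, (![l, l, h, h] : Fin 4 → ℕ) s ≤ 128 := by
    intro l h hl hh s
    fin_cases s <;> simpa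
  have yA_eq : ∀ (l h : ℕ) (s : Fin 4), yA l h s = ((![l, h, l, h] : Fin 4 → ℕ) s : ℤ) := by
    intro l h s
    fin_cases s <;> simp [yA]
  have yB_eq : ∀ (l h : ℕ) (s : Fin 4), yB l h s = ((![l, l, h, h] : Fin 4 → ℕ) s : ℤ) := by
    intro l h s
    fin_cases s <;> simp [yB]
  rw [volCell2, cA80_eq, cB80_eq, cA320_eq, cB320_eq, cA1280_eq, cB1280_eq, detP_eq, detN_eq,
    volChk2] at h
  obtain ⟨k1, h⟩ := bAnd_true h
  obtain ⟨k2, h⟩ := bAnd_true h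
  obtain ⟨k3, k4⟩ := bAnd_true h
  have k1' : 1 ≤ lam := Nat.le_of_ble_eq_true k1
  have k2' : lam ≤ 4095 := Nat.le_of_ble_eq_true k2
  refine ⟨k1', fun s1 s2 s3 => ?_⟩
  rw [yA_eq, yB_eq, yA_eq, yB_eq, yA_eq, yB_eq]
  have hb := hA b0 c0
  have hc := hB b1 c1
  have ha := hA b2 c2
  have he := hB b3 c3
  have hd := hA b4 c4
  have hf := hB b5 c5
  generalize (![l0, h0, l0, h0] : Fin 4 → ℕ) = b at *
  generalize (![l1, l1, h1, h1] : Fin 4 → ℕ) = c at *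
  generalize (![l2, h2, l2, h2] : Fin 4 → ℕ) = a at *
  generalize (![l3, l3, h3, h3] : Fin 4 → ℕ) = e at *
  generalize (![l4, h4, l4, h4] : Fin 4 → ℕ) = d at *
  generalize (![l5, l5, h5, h5] : Fin 4 → ℕ) = f at *
  have p2 : ∀ {x y : ℕ}, x ≤ 128 → y ≤ 128 → x * y ≤ 16384 := by
    intro x y hx hy
    calc x * y ≤ 128 * 128 := Nat.mul_le_mul hx hy
      _ = _ := by norm_num
  have p3 : ∀ {x y z : ℕ}, x ≤ 128 → y ≤ 128 → z ≤ 128 → x * y * z ≤ 2097152 := by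
    intro x y z hx hy hz
    calc x * y * z ≤ 16384 * 128 := Nat.mul_le_mul (p2 hx hy) hz
      _ = _ := by norm_num
  have hL : Nat.mul lam 633340 ≤ 2 ^ 32 := by
    have : lam * 633340 ≤ 4095 * 633340 := Nat.mul_le_mul_right _ k2'
    have h2 : (4095 * 633340 : ℕ) ≤ 2 ^ 32 := by norm_num
    exact this.trans h2
  have bd : ∀ {x : ℕ}, x ≤ 2 ^ 40 → Nat.mul lam 633340 * x < 2 ^ 78 := by
    intro x hx
    calc Nat.mul lam 633340 * x ≤ 2 ^ 32 * 2 ^ 40 := Nat.mul_le_mul hL hx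
      _ < 2 ^ 78 := by norm_num
  have hP' : ∀ s1 s2 s3, 1048576 * P s1 s2 s3 < 2 ^ 78 := by
    intro s1 s2 s3
    have h1 := hP s1 s2 s3
    have h2 : lam * 2 ^ 36 ≤ 4095 * 2 ^ 36 := Nat.mul_le_mul_right _ k2'
    have h3 : 1048576 * (4095 * 2 ^ 36) < 2 ^ 78 := by norm_num
    calc _ ≤ 1048576 * (4095 * 2 ^ 36) := Nat.mul_le_mul_left _ (h1.trans h2)
      _ < _ := h3
  have hDp : ∀ s1 s2 s3, (b s1 * e s2 * d s3 + c s1 * a s2 * f s3) + 8192 *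
        ((b s1 * 1 * 1 + c s1 * 1 * 1) + ((1 * a s2 * 1 + 1 * e s2 * 1) +
          (1 * 1 * d s3 + 1 * 1 * f s3))) ≤ 2 ^ 40 := by
    intro s1 s2 s3
    have q1 := p3 (hb s1) (he s2) (hd s3)
    have q2 := p3 (hc s1) (ha s2) (hf s3)
    have := hb s1
    have := hc s1
    have := ha s2
    have := he s2
    have := hd s3
    have := hf s3
    simp only [Nat.mul_one, Nat.one_mul]
    norm_num
    omega
  have hDn : ∀ s1 s2 s3, 64 * (((b s1 * a s2 * 1 + b s1 * e s2 * 1) + c s1 * a s2 * 1) +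
        (((c s1 * 1 * d s3 + c s1 * 1 * f s3) + b s1 * 1 * d s3) +
          ((1 * e s2 * d s3 + 1 * e s2 * f s3) + 1 * a s2 * f s3))) + 1048576 ≤ 2 ^ 40 := by
    intro s1 s2 s3
    have := p2 (hb s1) (ha s2)
    have := p2 (hb s1) (he s2)
    have := p2 (hc s1) (ha s2)
    have := p2 (hc s1) (hd s3)
    have := p2 (hc s1) (hf s3)
    have := p2 (hb s1) (hd s3)
    have := p2 (he s2) (hd s3)
    have := p2 (he s2) (hf s3)
    have := p2 (ha s2) (hf s3)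
    simp only [Nat.mul_one, Nat.one_mul]
    norm_num
    omega
  have t1 := lane_test hP' (fun a b c => bd (hDn a b c)) (fun a b c => bd (hDp a b c)) k3 s1 s2 s3
  have t2 := lane_test hP' (fun a b c => bd (hDp a b c)) (fun a b c => bd (hDn a b c)) k4 s1 s2 s3
  simp only [Nat.mul_eq] at t1 t2
  have t1' : ((lam : ℤ) * 633340) * (((b s1 : ℤ) * e s2 * d s3 + c s1 * a s2 * f s3) + 8192 *
        ((b s1 + c s1) + ((a s2 + e s2) + (d s3 + f s3)))) ≤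
      1048576 * P s1 s2 s3 + ((lam : ℤ) * 633340) * (64 * (((b s1 * a s2 + b s1 * e s2) +
        c s1 * a s2) + (((c s1 * d s3 + c s1 * f s3) + b s1 * d s3) +
          ((e s2 * d s3 + e s2 * f s3) + a s2 * f s3))) + 1048576) := by
    have := (Nat.cast_le (α := ℤ)).2 t1
    push_cast at this
    linarith
  have t2' : ((lam : ℤ) * 633340) * (64 * (((b s1 * a s2 + b s1 * e s2) +
        c s1 * a s2) + (((c s1 * d s3 + c s1 * f s3) + b s1 * d s3) +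
          ((e s2 * d s3 + e s2 * f s3) + a s2 * f s3))) + 1048576) ≤
      1048576 * P s1 s2 s3 + ((lam : ℤ) * 633340) * (((b s1 : ℤ) * e s2 * d s3 +
        c s1 * a s2 * f s3) + 8192 * ((b s1 + c s1) + ((a s2 + e s2) + (d s3 + f s3)))) := by
    have := (Nat.cast_le (α := ℤ)).2 t2
    push_cast at this
    linarith
  have hpos : (0 : ℤ) ≤ 633340 * lam := by positivity
  rw [← abs_of_nonneg hpos, ← abs_mul, abs_le, det64]
  constructor <;> linarith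

section ctx

variable {V : Matrix (Fin 3) (Fin 3) ℝ} {ω1 ω2 ω3 : Fin 4 → ℝ}
  {l0 h0 l1 h1 l2 h2 l3 h3 l4 h4 l5 h5 : ℕ}

lemma good_of_box {T : Fin 3 → ℝ} (hV : Nrm V) (h0 : ∀ j, 0 ≤ T j)
    (he : (∀ j, 0 < T j) → EmptyBox V T) (hp : kT * |V.det| ≤ ∏ j, T j) :
    Good kT V := by
  have hdet : 0 < |V.det| := abs_pos.2 hV.det_ne
  have hk : 0 < kT := by norm_num [kT]
  have hpos : 0 < ∏ j, T j := lt_of_lt_of_le (by positivity) hp
  have hT : ∀ j, 0 < T j := by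
    intro j
    rcases eq_or_lt_of_le (h0 j) with h | h
    · exfalso
      rw [Finset.prod_eq_zero (Finset.mem_univ j) h.symm] at hpos
      exact lt_irrefl _ hpos
    · exact h
  exact ⟨T, hT, he hT, hp⟩

lemma exists_lt_bound (t' : ℝ) (f : ℕ → ℝ) : ∀ bs : List ℕ, (∀ c ∈ bs, f c < t') →
    ∃ t < t', ∀ c ∈ bs, f c ≤ t := by
  intro bs
  induction bs with
  | nil => exact fun _ => ⟨t' - 1, by linarith, fun c hc => by cases hc⟩
  | cons b bs ih =>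
    intro h
    obtain ⟨t, ht, hb⟩ := ih (fun c hc => h c (List.mem_cons_of_mem _ hc))
    refine ⟨max t (f b), max_lt ht (h b List.mem_cons_self), ?_⟩
    intro c hc
    rcases List.mem_cons.1 hc with rfl | hc
    · exact le_max_right _ _
    · exact (hb c hc).trans (le_max_left _ _)

/-- Soundness of the volume test. -/
theorem vol_good (C : Ctx V ω1 ω2 ω3 l0 h0 l1 h1 l2 h2 l3 h3 l4 h4 l5 h5) {lam : ℕ} {bs : List ℕ}
    (hb : allBx bs l0 h0 l1 h1 l2 h2 l3 h3 l4 h4 l5 h5 = true)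
    (hv : volCell2 (sumP lam bs l0 h0 l1 h1 l2 h2 l3 h3 l4 h4 l5 h5) (sumLam lam bs)
      l0 h0 l1 h1 l2 h2 l3 h3 l4 h4 l5 h5 = true) : Good kT V := by
  have hmem : ∀ bs : List ℕ, allBx bs l0 h0 l1 h1 l2 h2 l3 h3 l4 h4 l5 h5 = true →
      ∀ c ∈ bs, bxOK c l0 h0 l1 h1 l2 h2 l3 h3 l4 h4 l5 h5 = true := by
    intro bs
    induction bs with
    | nil => exact fun _ c hc => by cases hc
    | cons b bs ih =>
      intro h c hc
      obtain ⟨q1, q2⟩ := bAnd_true (a := bxOK b l0 h0 l1 h1 l2 h2 l3 h3 l4 h4 l5 h5)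
        (b := allBx bs l0 h0 l1 h1 l2 h2 l3 h3 l4 h4 l5 h5) h
      rcases List.mem_cons.1 hc with rfl | hc
      · exact q1
      · exact ih q2 c hc
  by_contra hbad
  set t' : ℝ := kT * |V.det| with ht'
  have f1 : ∀ c ∈ bs, ∏ j, bT V c j < t' := by
    intro c hc
    by_contra hcon
    push Not at hcon
    obtain ⟨q1, q2, -⟩ := bxOK_sound C (hmem bs hb c hc)
    exact hbad (good_of_box C.nrm q1 q2 hcon)
  have f2 : 1 < t' := by
    by_contra hcon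
    push Not at hcon
    refine hbad (good_of_box (T := fun _ => 1) C.nrm (fun _ => zero_le_one)
      (fun _ => C.nrm.empty) ?_)
    simpa using hcon
  obtain ⟨t0, ht0, hb0⟩ := exists_lt_bound t' (fun c => ∏ j, bT V c j) bs f1
  have f3 := EE_PT C lam (t := max t0 1) (fun _ => le_max_right _ _) bs hb
    (fun c hc => (hb0 c hc).trans (le_max_left _ _))
  have ht : max t0 1 < t' := max_lt ht0 f2
  rw [sumP_eq C lam bs hb] at hv
  obtain ⟨hL, hineq⟩ := volCell2_spec (PT_bound C lam bs hb) C.l0 C.h0 C.l1 C.h1 C.l2 C.h2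
    C.l3 C.h3 C.l4 C.h4 C.l5 C.h5 hv
  set L : ℕ := sumLam lam bs with hLdef
  set D : Fin 4 → Fin 4 → Fin 4 → ℤ := fun s1 s2 s3 => det64 (yA l0 h0 s1) (yB l1 h1 s1)
    (yA l2 h2 s2) (yB l3 h3 s2) (yA l4 h4 s3) (yB l5 h5 s3) with hD
  have n1 := C.w1.nn
  have n2 := C.w2.nn
  have n3 := C.w3.nn
  have hdet : EE ω1 ω2 ω3 (fun s1 s2 s3 => (D s1 s2 s3 : ℝ)) = 64 ^ 3 * V.det :=
    EE_det C.nrm.diag C.w1 C.w2 C.w3
  have g1 : 64 ^ 3 * |V.det| ≤ EE ω1 ω2 ω3 (fun s1 s2 s3 => |(D s1 s2 s3 : ℝ)|) := by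
    rcases abs_cases V.det with ⟨h, -⟩ | ⟨h, -⟩
    · rw [h, ← hdet]
      exact EE_mono n1 n2 n3 fun a b c => le_abs_self _
    · rw [h]
      have : EE ω1 ω2 ω3 (fun s1 s2 s3 => (-1) * (D s1 s2 s3 : ℝ)) = 64 ^ 3 * -V.det := by
        rw [EE_smul, hdet]; ring
      rw [← this]
      apply EE_mono n1 n2 n3
      intro a b c
      have := neg_le_abs (D a b c : ℝ)
      linarith
  have g2 : EE ω1 ω2 ω3 (fun s1 s2 s3 => (633340 * (L : ℝ)) * |(D s1 s2 s3 : ℝ)|) ≤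
      EE ω1 ω2 ω3 (fun s1 s2 s3 => 1048576 *
        (PT lam l0 h0 l1 h1 l2 h2 l3 h3 l4 h4 l5 h5 bs s1 s2 s3 : ℝ)) := by
    apply EE_mono n1 n2 n3
    intro a b c
    have := hineq a b c
    have h' : ((633340 * L * |D a b c| : ℤ) : ℝ) ≤
        ((1048576 * (PT lam l0 h0 l1 h1 l2 h2 l3 h3 l4 h4 l5 h5 bs a b c : ℤ) : ℤ) : ℝ) := by
      exact_mod_cast this
    push_cast at h'
    exact h'
  rw [EE_smul, EE_smul] at g2
  have hL' : (1 : ℝ) ≤ L := by exact_mod_cast hL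
  have g3 : 633340 * (L : ℝ) * (64 ^ 3 * |V.det|) ≤ 1048576 * (64 ^ 3 * (L * max t0 1)) :=
    (mul_le_mul_of_nonneg_left g1 (by positivity)).trans
      (g2.trans (mul_le_mul_of_nonneg_left f3 (by norm_num)))
  have g4 : (L : ℝ) * (633340 * |V.det|) ≤ L * (1048576 * max t0 1) := by nlinarith
  have g5 : 633340 * |V.det| ≤ 1048576 * max t0 1 :=
    le_of_mul_le_mul_left g4 (by linarith)
  have : t' ≤ max t0 1 := by
    rw [ht', kT]
    linarith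
  linarith

theorem leafM2_good (C : Ctx V ω1 ω2 ω3 l0 h0 l1 h1 l2 h2 l3 h3 l4 h4 l5 h5) {lam : ℕ} {bs : List ℕ}
    (h : leafM2 lam bs l0 h0 l1 h1 l2 h2 l3 h3 l4 h4 l5 h5 = true) : Good kT V := by
  obtain ⟨q1, q2⟩ := bAnd_true h
  exact vol_good C q2 q1

theorem leaf12_good (C : Ctx V ω1 ω2 ω3 l0 h0 l1 h1 l2 h2 l3 h3 l4 h4 l5 h5) {c : ℕ}
    (h : leaf12 c l0 h0 l1 h1 l2 h2 l3 h3 l4 h4 l5 h5 = true) : Good kT V := by
  obtain ⟨q1, q2⟩ := bAnd_true h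
  have e1 : sumP 0 [c] l0 h0 l1 h1 l2 h2 l3 h3 l4 h4 l5 h5 =
      bxPr c l0 h0 l1 h1 l2 h2 l3 h3 l4 h4 l5 h5 := by
    show bxPr c l0 h0 l1 h1 l2 h2 l3 h3 l4 h4 l5 h5 + 0 * ONE64 = _
    rw [Nat.zero_mul, Nat.add_zero]
  have e2 : sumLam 0 [c] = cLam c := by
    show cLam c + 0 = _
    rw [Nat.add_zero]
  apply vol_good C (lam := 0) (bs := [c])
  · show bAnd (bxOK c l0 h0 l1 h1 l2 h2 l3 h3 l4 h4 l5 h5) true = true
    rw [q2]; rfl
  · rw [e1, e2]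
    exact q1

end ctx


/-- The claim for a cell: every normalised matrix in the cell whose off-diagonal entries are
bounded by the entry `V 0 2` is good for the larger constant `kT`, or lies in the local cell. -/
def Cov (l0 h0 l1 h1 l2 h2 l3 h3 l4 h4 l5 h5 : ℕ) : Prop :=
  ∀ V : Matrix (Fin 3) (Fin 3) ℝ, Nrm V → (∀ i j, i ≠ j → |V i j| ≤ V 0 2) →
    InCell V l0 h0 l1 h1 l2 h2 l3 h3 l4 h4 l5 h5 → Good kT V ∨ InLoc V

section cov

variable {l0 h0 l1 h1 l2 h2 l3 h3 l4 h4 l5 h5 : ℕ}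

lemma cov0 (m : ℕ) (f : Cov l0 m l1 h1 l2 h2 l3 h3 l4 h4 l5 h5)
    (g : Cov m h0 l1 h1 l2 h2 l3 h3 l4 h4 l5 h5) : Cov l0 h0 l1 h1 l2 h2 l3 h3 l4 h4 l5 h5 := by
  intro V hV hs hc
  rcases le_total (64 * (V 1 0 + 1)) (m : ℝ) with h | h
  · exact f V hV hs { hc with b0 := h }
  · exact g V hV hs { hc with a0 := h }

lemma cov1 (m : ℕ) (f : Cov l0 h0 l1 m l2 h2 l3 h3 l4 h4 l5 h5)
    (g : Cov l0 h0 m h1 l2 h2 l3 h3 l4 h4 l5 h5) : Cov l0 h0 l1 h1 l2 h2 l3 h3 l4 h4 l5 h5 := by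
  intro V hV hs hc
  rcases le_total (64 * (V 2 0 + 1)) (m : ℝ) with h | h
  · exact f V hV hs { hc with b1 := h }
  · exact g V hV hs { hc with a1 := h }

lemma cov2 (m : ℕ) (f : Cov l0 h0 l1 h1 l2 m l3 h3 l4 h4 l5 h5)
    (g : Cov l0 h0 l1 h1 m h2 l3 h3 l4 h4 l5 h5) : Cov l0 h0 l1 h1 l2 h2 l3 h3 l4 h4 l5 h5 := by
  intro V hV hs hc
  rcases le_total (64 * (V 0 1 + 1)) (m : ℝ) with h | h
  · exact f V hV hs { hc with b2 := h }
  · exact g V hV hs { hc with a2 := h }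

lemma cov3 (m : ℕ) (f : Cov l0 h0 l1 h1 l2 h2 l3 m l4 h4 l5 h5)
    (g : Cov l0 h0 l1 h1 l2 h2 m h3 l4 h4 l5 h5) : Cov l0 h0 l1 h1 l2 h2 l3 h3 l4 h4 l5 h5 := by
  intro V hV hs hc
  rcases le_total (64 * (V 2 1 + 1)) (m : ℝ) with h | h
  · exact f V hV hs { hc with b3 := h }
  · exact g V hV hs { hc with a3 := h }

lemma cov4 (m : ℕ) (f : Cov l0 h0 l1 h1 l2 h2 l3 h3 l4 m l5 h5)
    (g : Cov l0 h0 l1 h1 l2 h2 l3 h3 m h4 l5 h5) : Cov l0 h0 l1 h1 l2 h2 l3 h3 l4 h4 l5 h5 := by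
  intro V hV hs hc
  rcases le_total (64 * (V 0 2 + 1)) (m : ℝ) with h | h
  · exact f V hV hs { hc with b4 := h }
  · exact g V hV hs { hc with a4 := h }

lemma cov5 (m : ℕ) (f : Cov l0 h0 l1 h1 l2 h2 l3 h3 l4 h4 l5 m)
    (g : Cov l0 h0 l1 h1 l2 h2 l3 h3 l4 h4 m h5) : Cov l0 h0 l1 h1 l2 h2 l3 h3 l4 h4 l5 h5 := by
  intro V hV hs hc
  rcases le_total (64 * (V 1 2 + 1)) (m : ℝ) with h | h
  · exact f V hV hs { hc with b5 := h }
  · exact g V hV hs { hc with a5 := h }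

lemma cov_sy (h : syChk l0 h0 l1 h1 l2 h2 l3 h3 h4 l5 h5 = true) :
    Cov l0 h0 l1 h1 l2 h2 l3 h3 l4 h4 l5 h5 := by
  intro V hV hs hc
  exfalso
  rcases bOr_true h with h | h
  · exact syVar_sound h hc.a0 hc.b0 hc.b4 (hs 1 0 (by decide))
  rcases bOr_true h with h | h
  · exact syVar_sound h hc.a1 hc.b1 hc.b4 (hs 2 0 (by decide))
  rcases bOr_true h with h | h
  · exact syVar_sound h hc.a2 hc.b2 hc.b4 (hs 0 1 (by decide))
  rcases bOr_true h with h | h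
  · exact syVar_sound h hc.a3 hc.b3 hc.b4 (hs 2 1 (by decide))
  · exact syVar_sound h hc.a5 hc.b5 hc.b4 (hs 1 2 (by decide))

lemma cov_em {w : ℕ} (a0 : l0 ≤ 128) (b0 : h0 ≤ 128) (a1 : l1 ≤ 128) (b1 : h1 ≤ 128)
    (a2 : l2 ≤ 128) (b2 : h2 ≤ 128) (a3 : l3 ≤ 128) (b3 : h3 ≤ 128) (a4 : l4 ≤ 128)
    (b4 : h4 ≤ 128) (a5 : l5 ≤ 128) (b5 : h5 ≤ 128)
    (h : emChk w l0 h0 l1 h1 l2 h2 l3 h3 l4 h4 l5 h5 = true) :
    Cov l0 h0 l1 h1 l2 h2 l3 h3 l4 h4 l5 h5 := by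
  intro V hV _ hc
  exfalso
  obtain ⟨ω1, ω2, ω3, C⟩ := ctx_of hV hc a0 b0 a1 b1 a2 b2 a3 b3 a4 b4 a5 b5
  obtain ⟨q0, h⟩ := bAnd_true h
  obtain ⟨q1, h⟩ := bAnd_true h
  obtain ⟨q2, q3⟩ := bAnd_true h
  have hw : w < 145 := by
    have : w ≤ 144 := Nat.le_of_ble_eq_true q0
    omega
  rw [F1_eq _ C.l0 C.h0 C.l1 C.h1] at q1
  rw [F2_eq _ C.l2 C.h2 C.l3 C.h3] at q2
  rw [F3_eq _ C.l4 C.h4 C.l5 C.h5] at q3
  have d1 := cv_BX idB 1 2 0 C.l0 C.h0 C.l1 C.h1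
  have d2 := cv_BX idB 0 2 1 C.l2 C.h2 C.l3 C.h3
  have d3 := cv_BX idB 0 1 2 C.l4 C.h4 C.l5 C.h5
  have c1 := colOK0 (C.nrm.diag 0) C.w1 idB
  have c2 := colOK1 (C.nrm.diag 1) C.w2 idB
  have c3 := colOK2 (C.nrm.diag 2) C.w3 idB
  have r1 := c1.lt_one (inCol_spec d1 hw q1)
  have r2 := c2.lt_one (inCol_spec d2 hw q2)
  have r3 := c3.lt_one (inCol_spec d3 hw q3)
  obtain ⟨j, hj⟩ := hV.empty (vecF idB (fv w)) (uni_inj uni_id (fv_ne_zero w hw))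
  change 1 ≤ |gc V idB j (fv w)| at hj
  fin_cases j
  · exact absurd r1 (not_lt.2 hj)
  · exact absurd r2 (not_lt.2 hj)
  · exact absurd r3 (not_lt.2 hj)

lemma subCell_sound {a0 b0 a1 b1 a2 b2 a3 b3 a4 b4 a5 b5 : ℕ}
    (h : subCell a0 b0 a1 b1 a2 b2 a3 b3 a4 b4 a5 b5 l0 h0 l1 h1 l2 h2 l3 h3 l4 h4 l5 h5 = true)
    {V : Matrix (Fin 3) (Fin 3) ℝ} (hc : InCell V l0 h0 l1 h1 l2 h2 l3 h3 l4 h4 l5 h5) :
    InCell V a0 b0 a1 b1 a2 b2 a3 b3 a4 b4 a5 b5 := by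
  obtain ⟨h, h'⟩ := bAnd_true h
  obtain ⟨hA, h⟩ := bAnd_true h
  obtain ⟨hB, hC⟩ := bAnd_true h
  obtain ⟨hD, h'⟩ := bAnd_true h'
  obtain ⟨hE, hF⟩ := bAnd_true h'
  obtain ⟨p0, q0⟩ := bAnd_true hA
  obtain ⟨p1, q1⟩ := bAnd_true hB
  obtain ⟨p2, q2⟩ := bAnd_true hC
  obtain ⟨p3, q3⟩ := bAnd_true hD
  obtain ⟨p4, q4⟩ := bAnd_true hE
  obtain ⟨p5, q5⟩ := bAnd_true hF
  have c : ∀ {a b : ℕ}, Nat.ble a b = true → (a : ℝ) ≤ b := fun h => by
    exact_mod_cast Nat.le_of_ble_eq_true h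
  exact ⟨(c p0).trans hc.a0, hc.b0.trans (c q0), (c p1).trans hc.a1,
    hc.b1.trans (c q1), (c p2).trans hc.a2, hc.b2.trans (c q2), (c p3).trans hc.a3,
    hc.b3.trans (c q3), (c p4).trans hc.a4, hc.b4.trans (c q4), (c p5).trans hc.a5,
    hc.b5.trans (c q5)⟩

lemma cov_lc (h : lcChk2 l0 h0 l1 h1 l2 h2 l3 h3 l4 h4 l5 h5 = true) :
    Cov l0 h0 l1 h1 l2 h2 l3 h3 l4 h4 l5 h5 := by
  intro V hV _ hc
  right
  rcases bOr_true h with h | h
  · exact Or.inl (subCell_sound h hc)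
  rcases bOr_true h with h | h
  · exact Or.inr (Or.inl (subCell_sound h hc))
  rcases bOr_true h with h | h
  · exact Or.inr (Or.inr (Or.inl (subCell_sound h hc)))
  · exact Or.inr (Or.inr (Or.inr (subCell_sound h hc)))

/-- **Soundness of the checker.** -/
theorem check_cov (c : Cert) : ∀ {l0 h0 l1 h1 l2 h2 l3 h3 l4 h4 l5 h5 : ℕ},
    l0 ≤ 128 → h0 ≤ 128 → l1 ≤ 128 → h1 ≤ 128 → l2 ≤ 128 → h2 ≤ 128 → l3 ≤ 128 → h3 ≤ 128 →
    l4 ≤ 128 → h4 ≤ 128 → l5 ≤ 128 → h5 ≤ 128 →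
    check2 c l0 h0 l1 h1 l2 h2 l3 h3 l4 h4 l5 h5 = true →
    Cov l0 h0 l1 h1 l2 h2 l3 h3 l4 h4 l5 h5 := by
  induction c with
  | s0 f g ihf ihg =>
    intro l0 h0 l1 h1 l2 h2 l3 h3 l4 h4 l5 h5 a0 b0 a1 b1 a2 b2 a3 b3 a4 b4 a5 b5 h
    obtain ⟨p, q⟩ := bAnd_true h
    exact cov0 (mid l0 h0) (ihf a0 (mid_le a0 b0) a1 b1 a2 b2 a3 b3 a4 b4 a5 b5 p)
      (ihg (mid_le a0 b0) b0 a1 b1 a2 b2 a3 b3 a4 b4 a5 b5 q)
  | s1 f g ihf ihg =>
    intro l0 h0 l1 h1 l2 h2 l3 h3 l4 h4 l5 h5 a0 b0 a1 b1 a2 b2 a3 b3 a4 b4 a5 b5 h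
    obtain ⟨p, q⟩ := bAnd_true h
    exact cov1 (mid l1 h1) (ihf a0 b0 a1 (mid_le a1 b1) a2 b2 a3 b3 a4 b4 a5 b5 p)
      (ihg a0 b0 (mid_le a1 b1) b1 a2 b2 a3 b3 a4 b4 a5 b5 q)
  | s2 f g ihf ihg =>
    intro l0 h0 l1 h1 l2 h2 l3 h3 l4 h4 l5 h5 a0 b0 a1 b1 a2 b2 a3 b3 a4 b4 a5 b5 h
    obtain ⟨p, q⟩ := bAnd_true h
    exact cov2 (mid l2 h2) (ihf a0 b0 a1 b1 a2 (mid_le a2 b2) a3 b3 a4 b4 a5 b5 p)
      (ihg a0 b0 a1 b1 (mid_le a2 b2) b2 a3 b3 a4 b4 a5 b5 q)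
  | s3 f g ihf ihg =>
    intro l0 h0 l1 h1 l2 h2 l3 h3 l4 h4 l5 h5 a0 b0 a1 b1 a2 b2 a3 b3 a4 b4 a5 b5 h
    obtain ⟨p, q⟩ := bAnd_true h
    exact cov3 (mid l3 h3) (ihf a0 b0 a1 b1 a2 b2 a3 (mid_le a3 b3) a4 b4 a5 b5 p)
      (ihg a0 b0 a1 b1 a2 b2 (mid_le a3 b3) b3 a4 b4 a5 b5 q)
  | s4 f g ihf ihg =>
    intro l0 h0 l1 h1 l2 h2 l3 h3 l4 h4 l5 h5 a0 b0 a1 b1 a2 b2 a3 b3 a4 b4 a5 b5 h
    obtain ⟨p, q⟩ := bAnd_true h
    exact cov4 (mid l4 h4) (ihf a0 b0 a1 b1 a2 b2 a3 b3 a4 (mid_le a4 b4) a5 b5 p)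
      (ihg a0 b0 a1 b1 a2 b2 a3 b3 (mid_le a4 b4) b4 a5 b5 q)
  | s5 f g ihf ihg =>
    intro l0 h0 l1 h1 l2 h2 l3 h3 l4 h4 l5 h5 a0 b0 a1 b1 a2 b2 a3 b3 a4 b4 a5 b5 h
    obtain ⟨p, q⟩ := bAnd_true h
    exact cov5 (mid l5 h5) (ihf a0 b0 a1 b1 a2 b2 a3 b3 a4 b4 a5 (mid_le a5 b5) p)
      (ihg a0 b0 a1 b1 a2 b2 a3 b3 a4 b4 (mid_le a5 b5) b5 q)
  | sy =>
    intro l0 h0 l1 h1 l2 h2 l3 h3 l4 h4 l5 h5 _ _ _ _ _ _ _ _ _ _ _ _ h
    exact cov_sy h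
  | em w =>
    intro l0 h0 l1 h1 l2 h2 l3 h3 l4 h4 l5 h5 a0 b0 a1 b1 a2 b2 a3 b3 a4 b4 a5 b5 h
    exact cov_em a0 b0 a1 b1 a2 b2 a3 b3 a4 b4 a5 b5 h
  | b c =>
    intro l0 h0 l1 h1 l2 h2 l3 h3 l4 h4 l5 h5 a0 b0 a1 b1 a2 b2 a3 b3 a4 b4 a5 b5 h V hV _ hc
    obtain ⟨ω1, ω2, ω3, C⟩ := ctx_of hV hc a0 b0 a1 b1 a2 b2 a3 b3 a4 b4 a5 b5
    exact Or.inl (leaf12_good C h)
  | m lam bs =>
    intro l0 h0 l1 h1 l2 h2 l3 h3 l4 h4 l5 h5 a0 b0 a1 b1 a2 b2 a3 b3 a4 b4 a5 b5 h V hV _ hc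
    obtain ⟨ω1, ω2, ω3, C⟩ := ctx_of hV hc a0 b0 a1 b1 a2 b2 a3 b3 a4 b4 a5 b5
    exact Or.inl (leafM2_good C h)
  | lc =>
    intro l0 h0 l1 h1 l2 h2 l3 h3 l4 h4 l5 h5 _ _ _ _ _ _ _ _ _ _ _ _ h
    exact cov_lc h

end cov

theorem cov_of_check (c : Cert) {l0 h0 l1 h1 l2 h2 l3 h3 l4 h4 l5 h5 : ℕ}
    (h : bAnd (bdsOK l0 h0 l1 h1 l2 h2 l3 h3 l4 h4 l5 h5)
      (check2 c l0 h0 l1 h1 l2 h2 l3 h3 l4 h4 l5 h5) = true) :
    Cov l0 h0 l1 h1 l2 h2 l3 h3 l4 h4 l5 h5 := by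
  obtain ⟨hb, h⟩ := bAnd_true h
  obtain ⟨a0, hb⟩ := bAnd_true hb
  obtain ⟨b0, hb⟩ := bAnd_true hb
  obtain ⟨a1, hb⟩ := bAnd_true hb
  obtain ⟨b1, hb⟩ := bAnd_true hb
  obtain ⟨a2, hb⟩ := bAnd_true hb
  obtain ⟨b2, hb⟩ := bAnd_true hb
  obtain ⟨a3, hb⟩ := bAnd_true hb
  obtain ⟨b3, hb⟩ := bAnd_true hb
  obtain ⟨a4, hb⟩ := bAnd_true hb
  obtain ⟨b4, hb⟩ := bAnd_true hb
  obtain ⟨a5, b5⟩ := bAnd_true hb
  exact check_cov c (Nat.le_of_ble_eq_true a0) (Nat.le_of_ble_eq_true b0)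
    (Nat.le_of_ble_eq_true a1) (Nat.le_of_ble_eq_true b1) (Nat.le_of_ble_eq_true a2)
    (Nat.le_of_ble_eq_true b2) (Nat.le_of_ble_eq_true a3) (Nat.le_of_ble_eq_true b3)
    (Nat.le_of_ble_eq_true a4) (Nat.le_of_ble_eq_true b4) (Nat.le_of_ble_eq_true a5)
    (Nat.le_of_ble_eq_true b5) h

end Pool.Agent.Lib.MP_ddd95a_nt.Sec
end

section

set_option autoImplicit false

/-!
# The unit flow near a cubic lattice

`Vs w v` is a normalised basis of a lattice with complex (here: real) multiplication by the units of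
a cyclic cubic field. Multiplication by units moves every lattice in a small cell around `Vs w v`,
which is not the lattice of `Vs w v` itself, out of the cell.
-/

namespace Pool.Agent.Lib.MP_ddd95a_nt.Sec

open Pool.Agent.Lib.MP_ddd95a_nt Pool.Agent.Lib.MP_ddd95a_nt.Iso

open scoped BigOperators

/-- Size of the off-diagonal part. -/
noncomputable def off (X : Matrix (Fin 3) (Fin 3) ℝ) : ℝ :=
  max (max (max |X 1 0| |X 2 0|) (max |X 0 1| |X 2 1|)) (max |X 0 2| |X 1 2|)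

lemma off_le {X : Matrix (Fin 3) (Fin 3) ℝ} {t : ℝ} (h : ∀ i j, i ≠ j → |X i j| ≤ t) :
    off X ≤ t :=
  max_le (max_le (max_le (h 1 0 (by decide)) (h 2 0 (by decide)))
    (max_le (h 0 1 (by decide)) (h 2 1 (by decide)))) (max_le (h 0 2 (by decide))
      (h 1 2 (by decide)))

lemma le_off (X : Matrix (Fin 3) (Fin 3) ℝ) {i j : Fin 3} (h : i ≠ j) : |X i j| ≤ off X := by
  unfold off
  fin_cases i <;> fin_cases j <;> first | exact absurd rfl h | skip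
  · exact le_max_of_le_left (le_max_of_le_right (le_max_left _ _))
  · exact le_max_of_le_right (le_max_left _ _)
  · exact le_max_of_le_left (le_max_of_le_left (le_max_left _ _))
  · exact le_max_of_le_right (le_max_right _ _)
  · exact le_max_of_le_left (le_max_of_le_left (le_max_right _ _))
  · exact le_max_of_le_left (le_max_of_le_right (le_max_right _ _))

lemma exists_off (X : Matrix (Fin 3) (Fin 3) ℝ) : ∃ i j, i ≠ j ∧ off X = |X i j| := by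
  unfold off
  rcases max_choice (max (max |X 1 0| |X 2 0|) (max |X 0 1| |X 2 1|)) (max |X 0 2| |X 1 2|)
    with h | h
  · rw [h]
    rcases max_choice (max |X 1 0| |X 2 0|) (max |X 0 1| |X 2 1|) with h | h
    · rw [h]
      rcases max_choice |X 1 0| |X 2 0| with h | h
      · exact ⟨1, 0, by decide, h⟩
      · exact ⟨2, 0, by decide, h⟩
    · rw [h]
      rcases max_choice |X 0 1| |X 2 1| with h | h
      · exact ⟨0, 1, by decide, h⟩
      · exact ⟨2, 1, by decide, h⟩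
  · rw [h]
    rcases max_choice |X 0 2| |X 1 2| with h | h
    · exact ⟨0, 2, by decide, h⟩
    · exact ⟨1, 2, by decide, h⟩

lemma off_nonneg (X : Matrix (Fin 3) (Fin 3) ℝ) : 0 ≤ off X := by
  obtain ⟨i, j, -, h⟩ := exists_off X
  rw [h]
  exact abs_nonneg _

/-- Normalisation of the basis with coefficient matrix `M`. -/
noncomputable def nz (V : Matrix (Fin 3) (Fin 3) ℝ) (M : Matrix (Fin 3) (Fin 3) ℤ) :
    Matrix (Fin 3) (Fin 3) ℝ :=
  Matrix.of fun i j => crd V (M i) j / crd V (M j) j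

lemma nz_apply (V : Matrix (Fin 3) (Fin 3) ℝ) (M : Matrix (Fin 3) (Fin 3) ℤ) (i j : Fin 3) :
    nz V M i j = crd V (M i) j / crd V (M j) j := rfl

lemma eqv_nz {V : Matrix (Fin 3) (Fin 3) ℝ} {M : Matrix (Fin 3) (Fin 3) ℤ} (hM : IsUnit M.det)
    (h0 : ∀ j, crd V (M j) j ≠ 0) : Eqv V (nz V M) := by
  refine ⟨M, 1, fun j => (crd V (M j) j)⁻¹, hM, fun j => inv_ne_zero (h0 j), fun i j => ?_⟩
  rw [nz_apply, div_eq_inv_mul]
  rfl

/-- An empty box with face vectors `M j` gives a normalised matrix. -/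
lemma nrm_nz {V : Matrix (Fin 3) (Fin 3) ℝ} {M : Matrix (Fin 3) (Fin 3) ℤ} (hdet : V.det ≠ 0)
    (hM : IsUnit M.det) {T : Fin 3 → ℝ} (hT : ∀ j, 0 < T j)
    (hTd : ∀ j, |crd V (M j) j| = T j) (hle : ∀ i j, |crd V (M i) j| ≤ T j)
    (hE : EmptyBox V T) : Nrm (nz V M) := by
  have h0 : ∀ j, crd V (M j) j ≠ 0 := by
    intro j h
    have h1 := hTd j
    have h2 := hT j
    rw [h, abs_zero] at h1
    linarith
  refine ⟨fun i => ?_, fun i j => ?_, fun n hn => ?_, (eqv_nz hM h0).det_ne hdet⟩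
  · rw [nz_apply, div_self (h0 i)]
  · rw [nz_apply, abs_div, hTd, div_le_one (hT j)]
    exact hle i j
  · have hm : Matrix.vecMul n M ≠ 0 := by
      intro h
      apply hn
      have : n = Matrix.vecMul (Matrix.vecMul n M) M⁻¹ := by
        rw [Matrix.vecMul_vecMul, Matrix.mul_nonsing_inv M hM, Matrix.vecMul_one]
      rw [this, h, Matrix.zero_vecMul]
    obtain ⟨j, hj⟩ := hE _ hm
    refine ⟨j, ?_⟩
    have e : crd (nz V M) n j = (crd V (M j) j)⁻¹ * crd V (Matrix.vecMul n M) j :=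
      crd_eqv (π := 1) (s := fun j => (crd V (M j) j)⁻¹) (fun i j => by
        rw [nz_apply, div_eq_inv_mul]; rfl) n j
    rw [e, abs_mul, abs_inv, hTd]
    rw [inv_mul_eq_div, le_div_iff₀ (hT j), one_mul]
    exact hj

/-- The matrix `B * W` with normalised columns. -/
noncomputable def Xf (B W : Matrix (Fin 3) (Fin 3) ℝ) : Matrix (Fin 3) (Fin 3) ℝ :=
  Matrix.of fun i j => (B * W) i j / (B * W) j j

lemma Xf_apply (B W : Matrix (Fin 3) (Fin 3) ℝ) (i j : Fin 3) :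
    Xf B W i j = (B * W) i j / (B * W) j j := rfl

/-- Multiplication by a unit. -/
lemma Xf_nz {B W : Matrix (Fin 3) (Fin 3) ℝ} {M : Matrix (Fin 3) (Fin 3) ℤ} {η : Fin 3 → ℝ}
    (hB : ∀ i l, ∑ k, B i k * (M k l : ℝ) = η i * B i l) (h0 : ∀ j, crd W (M j) j ≠ 0)
    (i j : Fin 3) : Xf B (nz W M) i j = η i / η j * Xf B W i j := by
  have key : ∀ i, (B * nz W M) i j = η i * (B * W) i j / crd W (M j) j := by
    intro i
    have h1 := hB i 0
    have h2 := hB i 1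
    have h3 := hB i 2
    rw [Matrix.mul_apply, Matrix.mul_apply]
    simp only [Fin.sum_univ_three] at h1 h2 h3 ⊢
    simp only [nz_apply]
    have e : B i 0 * (crd W (M 0) j / crd W (M j) j) + B i 1 * (crd W (M 1) j / crd W (M j) j) +
        B i 2 * (crd W (M 2) j / crd W (M j) j) =
        (B i 0 * crd W (M 0) j + B i 1 * crd W (M 1) j + B i 2 * crd W (M 2) j) /
          crd W (M j) j := by ring
    rw [e]
    congr 1
    simp only [crd, Fin.sum_univ_three]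
    linear_combination W 0 j * h1 + W 1 j * h2 + W 2 j * h3
  rw [Xf_apply, Xf_apply, key, key, div_div_div_cancel_right₀ (h0 j), mul_div_mul_comm]

/-- Cyclic rotation of rows and columns, with signs. -/
def rot (W : Matrix (Fin 3) (Fin 3) ℝ) : Matrix (Fin 3) (Fin 3) ℝ :=
  !![W 1 1, W 1 2, -W 1 0; W 2 1, W 2 2, -W 2 0; -W 0 1, -W 0 2, W 0 0]

lemma rot_eq (W : Matrix (Fin 3) (Fin 3) ℝ) :
    rot W = Symm.tw W (finRotate 3) ![1, 1, -1] := by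
  ext i j
  rw [Symm.tw_apply]
  fin_cases i <;> fin_cases j <;> simp [rot]

lemma rot_sign : ∀ i : Fin 3, (![1, 1, -1] : Fin 3 → ℤ) i = 1 ∨ (![1, 1, -1] : Fin 3 → ℤ) i = -1 := by
  decide

lemma nrm_rot {W : Matrix (Fin 3) (Fin 3) ℝ} (h : Nrm W) : Nrm (rot W) := by
  rw [rot_eq]
  exact Symm.nrm_tw _ _ rot_sign h

lemma eqv_rot (W : Matrix (Fin 3) (Fin 3) ℝ) : Eqv W (rot W) := by
  rw [rot_eq]
  exact eqv_tw _ _ rot_sign

/-- The normalised bases of the two lattices. -/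
def Vs (w v : ℝ) : Matrix (Fin 3) (Fin 3) ℝ := !![1, w, v; -v, 1, w; -w, -v, 1]

/-- Their inverses. -/
def Bs (p q r : ℝ) : Matrix (Fin 3) (Fin 3) ℝ := !![p, q, r; -r, p, q; -q, -r, p]

lemma Bs_rot (p q r : ℝ) (W : Matrix (Fin 3) (Fin 3) ℝ) :
    Bs p q r * rot W = rot (Bs p q r * W) := by
  ext i j
  fin_cases i <;> fin_cases j <;>
    simp [Bs, rot, Matrix.mul_apply, Fin.sum_univ_three] <;> ring

lemma Xf_rot (p q r : ℝ) (W : Matrix (Fin 3) (Fin 3) ℝ) :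
    Xf (Bs p q r) (rot W) = rot (Xf (Bs p q r) W) := by
  ext i j
  rw [Xf_apply, Bs_rot]
  fin_cases i <;> fin_cases j <;> simp [rot, Xf_apply] <;> ring

lemma off_rot (X : Matrix (Fin 3) (Fin 3) ℝ) : off (rot X) = off X := by
  have h1 : |rot X 1 0| = |X 2 1| := rfl
  have h2 : |rot X 2 0| = |X 0 1| := by
    show |-X 0 1| = _
    rw [abs_neg]
  have h3 : |rot X 0 1| = |X 1 2| := rfl
  have h4 : |rot X 2 1| = |X 0 2| := by
    show |-X 0 2| = _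
    rw [abs_neg]
  have h5 : |rot X 0 2| = |X 1 0| := by
    show |-X 1 0| = _
    rw [abs_neg]
  have h6 : |rot X 1 2| = |X 2 0| := by
    show |-X 2 0| = _
    rw [abs_neg]
  have a10 := le_off X (show (1 : Fin 3) ≠ 0 by decide)
  have a20 := le_off X (show (2 : Fin 3) ≠ 0 by decide)
  have a01 := le_off X (show (0 : Fin 3) ≠ 1 by decide)
  have a21 := le_off X (show (2 : Fin 3) ≠ 1 by decide)
  have a02 := le_off X (show (0 : Fin 3) ≠ 2 by decide)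
  have a12 := le_off X (show (1 : Fin 3) ≠ 2 by decide)
  have b10 := le_off (rot X) (show (1 : Fin 3) ≠ 0 by decide)
  have b20 := le_off (rot X) (show (2 : Fin 3) ≠ 0 by decide)
  have b01 := le_off (rot X) (show (0 : Fin 3) ≠ 1 by decide)
  have b21 := le_off (rot X) (show (2 : Fin 3) ≠ 1 by decide)
  have b02 := le_off (rot X) (show (0 : Fin 3) ≠ 2 by decide)
  have b12 := le_off (rot X) (show (1 : Fin 3) ≠ 2 by decide)
  rw [h1] at b10
  rw [h2] at b20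
  rw [h3] at b01
  rw [h4] at b21
  rw [h5] at b02
  rw [h6] at b12
  apply le_antisymm
  · refine max_le (max_le (max_le ?_ ?_) (max_le ?_ ?_)) (max_le ?_ ?_)
    · rw [h1]; exact a21
    · rw [h2]; exact a01
    · rw [h3]; exact a12
    · rw [h4]; exact a02
    · rw [h5]; exact a10
    · rw [h6]; exact a20
  · exact max_le (max_le (max_le b02 b12) (max_le b20 b10)) (max_le b21 b01)

/-- Sign pattern and bounds of the entries near `Vs w v`. -/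
structure Pat (s b : ℝ) (W : Matrix (Fin 3) (Fin 3) ℝ) : Prop where
  p01 : 0 ≤ W 0 1
  q01 : W 0 1 ≤ s
  p12 : 0 ≤ W 1 2
  q12 : W 1 2 ≤ s
  p20 : W 2 0 ≤ 0
  q20 : -s ≤ W 2 0
  p02 : 0 ≤ W 0 2
  q02 : W 0 2 ≤ b
  p10 : W 1 0 ≤ 0
  q10 : -b ≤ W 1 0
  p21 : W 2 1 ≤ 0
  q21 : -b ≤ W 2 1

/-- One of the three big entries is at least `θ`. -/
def Big (θ : ℝ) (W : Matrix (Fin 3) (Fin 3) ℝ) : Prop :=
  θ ≤ W 0 2 ∨ θ ≤ -W 1 0 ∨ θ ≤ -W 2 1

lemma pat_rot {s b : ℝ} {W : Matrix (Fin 3) (Fin 3) ℝ} (h : Pat s b W) : Pat s b (rot W) := by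
  have e01 : rot W 0 1 = W 1 2 := rfl
  have e12 : rot W 1 2 = -W 2 0 := rfl
  have e20 : rot W 2 0 = -W 0 1 := rfl
  have e02 : rot W 0 2 = -W 1 0 := rfl
  have e10 : rot W 1 0 = W 2 1 := rfl
  have e21 : rot W 2 1 = -W 0 2 := rfl
  have := h.p01; have := h.q01; have := h.p12; have := h.q12; have := h.p20; have := h.q20
  have := h.p02; have := h.q02; have := h.p10; have := h.q10; have := h.p21; have := h.q21
  refine ⟨?_, ?_, ?_, ?_, ?_, ?_, ?_, ?_, ?_, ?_, ?_, ?_⟩ <;>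
    simp only [e01, e12, e20, e02, e10, e21] <;> linarith

/-- When `W 0 2` is the largest of the big entries the matrix is sorted. -/
lemma sorted_of {s b θ : ℝ} (hs : s ≤ θ) {W : Matrix (Fin 3) (Fin 3) ℝ} (h : Pat s b W)
    (hθ : θ ≤ W 0 2) (h1 : -W 1 0 ≤ W 0 2) (h2 : -W 2 1 ≤ W 0 2) :
    ∀ i j, i ≠ j → |W i j| ≤ W 0 2 := by
  have := h.p01; have := h.q01; have := h.p12; have := h.q12; have := h.p20; have := h.q20
  have := h.p02; have := h.p10; have := h.p21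
  have a01 : |W 0 1| ≤ W 0 2 := abs_le.2 ⟨by linarith, by linarith⟩
  have a02 : |W 0 2| ≤ W 0 2 := abs_le.2 ⟨by linarith, by linarith⟩
  have a10 : |W 1 0| ≤ W 0 2 := abs_le.2 ⟨by linarith, by linarith⟩
  have a12 : |W 1 2| ≤ W 0 2 := abs_le.2 ⟨by linarith, by linarith⟩
  have a20 : |W 2 0| ≤ W 0 2 := abs_le.2 ⟨by linarith, by linarith⟩
  have a21 : |W 2 1| ≤ W 0 2 := abs_le.2 ⟨by linarith, by linarith⟩
  intro i j hij
  fin_cases i <;> fin_cases j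
  · exact absurd rfl hij
  · exact a01
  · exact a02
  · exact a10
  · exact absurd rfl hij
  · exact a12
  · exact a20
  · exact a21
  · exact absurd rfl hij

/-- A rotation of the matrix is sorted. -/
lemma exists_rot {s b θ : ℝ} (hs : s ≤ θ) {W : Matrix (Fin 3) (Fin 3) ℝ} (h : Pat s b W)
    (hb : Big θ W) : ∃ W', (W' = W ∨ W' = rot W ∨ W' = rot (rot W)) ∧ Pat s b W' ∧ θ ≤ W' 0 2 ∧
      ∀ i j, i ≠ j → |W' i j| ≤ W' 0 2 := by
  have e1 : rot W 0 2 = -W 1 0 := rfl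
  have e2 : rot W 1 0 = W 2 1 := rfl
  have e3 : rot W 2 1 = -W 0 2 := rfl
  have e4 : rot (rot W) 0 2 = -W 2 1 := rfl
  have e5 : rot (rot W) 1 0 = -W 0 2 := rfl
  have e6 : rot (rot W) 2 1 = W 1 0 := by
    show -(-W 1 0) = _
    rw [neg_neg]
  rcases le_total (-W 1 0) (W 0 2) with h1 | h1
  · rcases le_total (-W 2 1) (W 0 2) with h2 | h2
    · have hθ : θ ≤ W 0 2 := by
        rcases hb with h | h | h <;> linarith
      exact ⟨W, Or.inl rfl, h, hθ, sorted_of hs h hθ h1 h2⟩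
    · have hθ : θ ≤ -W 2 1 := by
        rcases hb with h | h | h <;> linarith
      refine ⟨rot (rot W), Or.inr (Or.inr rfl), pat_rot (pat_rot h), by rw [e4]; exact hθ,
        sorted_of hs (pat_rot (pat_rot h)) (by rw [e4]; exact hθ) ?_ ?_⟩
      · rw [e4, e5]; linarith
      · rw [e4, e6]; linarith
  · rcases le_total (-W 2 1) (-W 1 0) with h2 | h2
    · have hθ : θ ≤ -W 1 0 := by
        rcases hb with h | h | h <;> linarith
      refine ⟨rot W, Or.inr (Or.inl rfl), pat_rot h, by rw [e1]; exact hθ,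
        sorted_of hs (pat_rot h) (by rw [e1]; exact hθ) ?_ ?_⟩
      · rw [e1, e2]; linarith
      · rw [e1, e3]; linarith
    · have hθ : θ ≤ -W 2 1 := by
        rcases hb with h | h | h <;> linarith
      refine ⟨rot (rot W), Or.inr (Or.inr rfl), pat_rot (pat_rot h), by rw [e4]; exact hθ,
        sorted_of hs (pat_rot (pat_rot h)) (by rw [e4]; exact hθ) ?_ ?_⟩
      · rw [e4, e5]; linarith
      · rw [e4, e6]; linarith

/-- A unit suitable for the entry `(a, b)`. -/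
def UnitFor (p q r s b θ : ℝ) (InE : Matrix (Fin 3) (Fin 3) ℝ → Prop) (a c : Fin 3) : Prop :=
  ∃ (M : Matrix (Fin 3) (Fin 3) ℤ) (η : Fin 3 → ℝ), IsUnit M.det ∧
    (∀ i l, ∑ k, Bs p q r i k * (M k l : ℝ) = η i * Bs p q r i l) ∧ 4 ≤ |η a / η c| ∧
    ∀ V, Nrm V → InE V → (∀ j, crd V (M j) j ≠ 0) ∧ Nrm (nz V M) ∧ Pat s b (nz V M) ∧
      Big θ (nz V M)

/-- All data of the flow near a cubic lattice. -/
structure Fam (w v p q r s b θ : ℝ) (InE : Matrix (Fin 3) (Fin 3) ℝ → Prop) : Prop where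
  inv : Bs p q r * Vs w v = 1
  hp : |p| ≤ 1
  hq : |q| ≤ 1
  hr : |r| ≤ 1
  near : ∀ W, Nrm W → InE W → ∀ i j, |W i j - Vs w v i j| ≤ 1 / 8
  hs : s ≤ θ
  units : ∀ a c : Fin 3, a ≠ c → UnitFor p q r s b θ InE a c
  cov : ∀ W, Nrm W → Pat s b W → θ ≤ W 0 2 → (∀ i j, i ≠ j → |W i j| ≤ W 0 2) →
    Good kT W ∨ InE W

lemma Vs_diag (w v : ℝ) (i : Fin 3) : Vs w v i i = 1 := by
  fin_cases i <;> rfl

lemma Bs_abs {p q r : ℝ} (hp : |p| ≤ 1) (hq : |q| ≤ 1) (hr : |r| ≤ 1) (i j : Fin 3) :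
    |Bs p q r i j| ≤ 1 := by
  fin_cases i <;> fin_cases j
  · exact hp
  · exact hq
  · exact hr
  · show |-r| ≤ 1
    rw [abs_neg]; exact hr
  · exact hp
  · exact hq
  · show |-q| ≤ 1
    rw [abs_neg]; exact hq
  · show |-r| ≤ 1
    rw [abs_neg]; exact hr
  · exact hp

variable {w v p q r s b θ : ℝ} {InE : Matrix (Fin 3) (Fin 3) ℝ → Prop}

/-- Bounds for `B * W`. -/
lemma Fam.bw (F : Fam w v p q r s b θ InE) {W : Matrix (Fin 3) (Fin 3) ℝ} (hW : Nrm W)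
    (hE : InE W) (i j : Fin 3) :
    |(Bs p q r * W) i j - (1 : Matrix (Fin 3) (Fin 3) ℝ) i j| ≤ 1 / 4 := by
  have e : (Bs p q r * W) i j - (1 : Matrix (Fin 3) (Fin 3) ℝ) i j =
      (Bs p q r * (W - Vs w v)) i j := by
    rw [Matrix.mul_sub, F.inv, Matrix.sub_apply]
  rw [e, Matrix.mul_apply]
  have hn := F.near W hW hE
  have hB := Bs_abs F.hp F.hq F.hr
  have hb : ∀ k, |Bs p q r i k * (W - Vs w v) k j| ≤ if k = j then 0 else 1 / 8 := by
    intro k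
    split_ifs with hk
    · subst hk
      rw [Matrix.sub_apply, hW.diag, Vs_diag, sub_self, mul_zero, abs_zero]
    · rw [abs_mul, Matrix.sub_apply]
      calc _ ≤ 1 * (1 / 8 : ℝ) :=
            mul_le_mul (hB i k) (hn k j) (abs_nonneg _) (by norm_num)
        _ = _ := by norm_num
  refine (Finset.abs_sum_le_sum_abs _ _).trans ((Finset.sum_le_sum fun k _ => hb k).trans ?_)
  rw [Fin.sum_univ_three]
  have h01 : ¬ ((0 : Fin 3) = 1) := by decide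
  have h02 : ¬ ((0 : Fin 3) = 2) := by decide
  have h10 : ¬ ((1 : Fin 3) = 0) := by decide
  have h12 : ¬ ((1 : Fin 3) = 2) := by decide
  have h20 : ¬ ((2 : Fin 3) = 0) := by decide
  have h21 : ¬ ((2 : Fin 3) = 1) := by decide
  have hj : j = 0 ∨ j = 1 ∨ j = 2 := by
    fin_cases j <;> simp
  rcases hj with rfl | rfl | rfl
  · rw [if_pos rfl, if_neg h10, if_neg h20]; norm_num
  · rw [if_neg h01, if_pos rfl, if_neg h21]; norm_num
  · rw [if_neg h02, if_neg h12, if_pos rfl]; norm_num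

lemma Fam.diag_pos (F : Fam w v p q r s b θ InE) {W : Matrix (Fin 3) (Fin 3) ℝ} (hW : Nrm W)
    (hE : InE W) (j : Fin 3) : 3 / 4 ≤ (Bs p q r * W) j j := by
  have h := (abs_le.1 (F.bw hW hE j j)).1
  rw [Matrix.one_apply_eq] at h
  linarith

lemma Fam.off_le_one (F : Fam w v p q r s b θ InE) {W : Matrix (Fin 3) (Fin 3) ℝ} (hW : Nrm W)
    (hE : InE W) : off (Xf (Bs p q r) W) ≤ 1 := by
  refine off_le fun i j hij => ?_
  have h1 := F.diag_pos hW hE j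
  have h2 := F.bw hW hE i j
  rw [Matrix.one_apply_ne hij, sub_zero] at h2
  rw [Xf_apply, abs_div, abs_of_pos (by linarith : 0 < (Bs p q r * W) j j),
    div_le_one (by linarith)]
  linarith

lemma Fam.eq_of_off (F : Fam w v p q r s b θ InE) {W : Matrix (Fin 3) (Fin 3) ℝ} (hW : Nrm W)
    (hE : InE W) (h0 : off (Xf (Bs p q r) W) = 0) : W = Vs w v := by
  have hz : ∀ i j, i ≠ j → (Bs p q r * W) i j = 0 := by
    intro i j hij
    have h1 := le_off (Xf (Bs p q r) W) hij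
    rw [h0] at h1
    have h2 := abs_eq_zero.1 (le_antisymm h1 (abs_nonneg _))
    have h3 := F.diag_pos hW hE j
    rw [Xf_apply, div_eq_zero_iff] at h2
    rcases h2 with h2 | h2
    · exact h2
    · linarith
  have hVB : Vs w v * Bs p q r = 1 := mul_eq_one_comm.1 F.inv
  have hWe : ∀ i j, W i j = Vs w v i j * (Bs p q r * W) j j := by
    intro i j
    have h1 : W i j = (Vs w v * (Bs p q r * W)) i j := by
      rw [← Matrix.mul_assoc, hVB, Matrix.one_mul]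
    have h2 : (Vs w v * (Bs p q r * W)) i j = Vs w v i j * (Bs p q r * W) j j := by
      rw [Matrix.mul_apply]
      exact Finset.sum_eq_single j (fun k _ hk => by rw [hz k j hk, mul_zero])
        (fun h => absurd (Finset.mem_univ _) h)
    rw [h1, h2]
  have hd : ∀ j, (Bs p q r * W) j j = 1 := by
    intro j
    have h1 := hWe j j
    rw [hW.diag, Vs_diag, one_mul] at h1
    exact h1.symm
  ext i j
  rw [hWe, hd, mul_one]

/-- **The flow**: a normalised matrix in the cell is the special one or good for `kT`. -/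
theorem Fam.main (F : Fam w v p q r s b θ InE) {V : Matrix (Fin 3) (Fin 3) ℝ} (hV : Nrm V)
    (hE : InE V) : V = Vs w v ∨ Good kT V := by
  by_contra hcon
  rw [not_or] at hcon
  obtain ⟨hne, hbad⟩ := hcon
  have hpos : 0 < off (Xf (Bs p q r) V) := by
    rcases eq_or_lt_of_le (off_nonneg (Xf (Bs p q r) V)) with h | h
    · exact absurd (F.eq_of_off hV hE h.symm) hne
    · exact h
  have key : ∀ n : ℕ, ∃ W, Nrm W ∧ InE W ∧ Eqv V W ∧
      4 ^ n * off (Xf (Bs p q r) V) ≤ off (Xf (Bs p q r) W) := by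
    intro n
    induction n with
    | zero => exact ⟨V, hV, hE, Eqv.refl V, by simp⟩
    | succ n ih =>
      obtain ⟨W, h1, h2, h3, h4⟩ := ih
      obtain ⟨a, c, hac, hoff⟩ := exists_off (Xf (Bs p q r) W)
      obtain ⟨M, η, hM, hη, h5, hstep⟩ := F.units a c hac
      obtain ⟨g1, g2, g3, g4⟩ := hstep W h1 h2
      have e1 : Eqv V (nz W M) := h3.trans (eqv_nz hM g1)
      have o1 : 4 * off (Xf (Bs p q r) W) ≤ off (Xf (Bs p q r) (nz W M)) := by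
        refine le_trans ?_ (le_off _ hac)
        rw [Xf_nz hη g1, abs_mul, ← hoff]
        exact mul_le_mul_of_nonneg_right h5 (off_nonneg _)
      obtain ⟨W', hW', hp', hθ', hs'⟩ := exists_rot F.hs g3 g4
      have hN : Nrm W' := by
        rcases hW' with h | h | h <;> rw [h]
        · exact g2
        · exact nrm_rot g2
        · exact nrm_rot (nrm_rot g2)
      have hQ : Eqv V W' := by
        rcases hW' with h | h | h <;> rw [h]
        · exact e1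
        · exact e1.trans (eqv_rot _)
        · exact (e1.trans (eqv_rot _)).trans (eqv_rot _)
      have hO : off (Xf (Bs p q r) W') = off (Xf (Bs p q r) (nz W M)) := by
        rcases hW' with h | h | h <;> rw [h]
        · rw [Xf_rot, off_rot]
        · rw [Xf_rot, off_rot, Xf_rot, off_rot]
      rcases F.cov W' hN hp' hθ' hs' with hg | hE'
      · exact absurd (hQ.good hg) hbad
      · refine ⟨W', hN, hE', hQ, ?_⟩
        rw [hO, pow_succ]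
        linarith
  obtain ⟨n, hn⟩ := pow_unbounded_of_one_lt (1 / off (Xf (Bs p q r) V))
    (by norm_num : (1 : ℝ) < 4)
  obtain ⟨W, h1, h2, -, h4⟩ := key n
  have h5 := F.off_le_one h1 h2
  rw [div_lt_iff₀ hpos] at hn
  linarith

end Pool.Agent.Lib.MP_ddd95a_nt.Sec
end
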