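import Pool.Agent.Lib.MP_ddd95a_nt.Sec.Step
import Pool.Agent.Lib.MP_ddd95a_nt.Upper
import Pool.Agent.Lib.MP_ddd95a_nt.Sec.Up9

section

set_option autoImplicit false
set_option linter.unusedSimpArgs false

/-!
# The flow near the nonagonal lattice
-/

namespace Pool.Agent.Lib.MP_ddd95a_nt.Sec

open Pool.Agent.Lib.MP_ddd95a_nt Pool.Agent.Lib.MP_ddd95a_nt.Iso

open scoped BigOperators

noncomputable def w9 : ℝ := (-2) * Up9.c ^ 0 + (1) * Up9.c ^ 2
noncomputable def v9 : ℝ := (-1) * Up9.c ^ 0 + (1) * Up9.c ^ 1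
noncomputable def p9 : ℝ := (1/9) * Up9.c ^ 0 + (2/9) * Up9.c ^ 1 + (1/9) * Up9.c ^ 2
noncomputable def q9 : ℝ := (2/9) * Up9.c ^ 0 + (-2/9) * Up9.c ^ 1 + (-1/9) * Up9.c ^ 2
noncomputable def r9 : ℝ := (4/9) * Up9.c ^ 0 + (-1/9) * Up9.c ^ 1 + (-2/9) * Up9.c ^ 2

/-- The conjugates of the unit. -/
noncomputable def th9 : Fin 3 → ℝ := ![(1) * Up9.c ^ 1, (2) * Up9.c ^ 0 + (-1) * Up9.c ^ 1 + (-1) * Up9.c ^ 2, (-2) * Up9.c ^ 0 + (1) * Up9.c ^ 2]

/-- Their inverses. -/
noncomputable def ti9 : Fin 3 → ℝ := ![(3) * Up9.c ^ 0 + (-1) * Up9.c ^ 2, (1) * Up9.c ^ 0 + (-1) * Up9.c ^ 1, (-1) * Up9.c ^ 0 + (1) * Up9.c ^ 1 + (1) * Up9.c ^ 2]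

lemma c9_lo : 1532088 / 1000000 ≤ Up9.c := Up9.c_lo.le
lemma c9_hi : Up9.c ≤ 1532089 / 1000000 := Up9.c_hi.le
lemma c9_sq_lo : 2347293 / 1000000 ≤ Up9.c ^ 2 := Up9.c_sq_lo.le
lemma c9_sq_hi : Up9.c ^ 2 ≤ 2347297 / 1000000 := Up9.c_sq_hi.le

lemma inv9 : Bs p9 q9 r9 * Vs w9 v9 = 1 := by
  have h := Up9.c_root
  unfold Bs Vs p9 q9 r9 w9 v9
  generalize Up9.c = c at *
  ext i j
  fin_cases i <;> fin_cases j <;>
    simp only [Matrix.mul_apply, Fin.sum_univ_three, Matrix.of_apply, Matrix.cons_val',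
      Matrix.cons_val_zero, Matrix.cons_val_one, Matrix.cons_val, Matrix.cons_val_fin_one,
      Matrix.one_apply, Fin.zero_eta, Fin.mk_one, Fin.reduceFinMk, Fin.isValue, Fin.reduceEq,
      if_true, if_false]
  · linear_combination ((2/9) * c ^ 0 + (2/9) * c ^ 1) * h
  · linear_combination ((4/9) * c ^ 0 + (1/9) * c ^ 1) * h
  · linear_combination ((-1/9) * c ^ 0 + (-1/9) * c ^ 1) * h
  · linear_combination ((1/9) * c ^ 0 + (1/9) * c ^ 1) * h
  · linear_combination ((2/9) * c ^ 0 + (2/9) * c ^ 1) * h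
  · linear_combination ((4/9) * c ^ 0 + (1/9) * c ^ 1) * h
  · linear_combination ((-4/9) * c ^ 0 + (-1/9) * c ^ 1) * h
  · linear_combination ((1/9) * c ^ 0 + (1/9) * c ^ 1) * h
  · linear_combination ((2/9) * c ^ 0 + (2/9) * c ^ 1) * h

lemma th_ti9 (i : Fin 3) : th9 i * ti9 i = 1 := by
  have h := Up9.c_root
  unfold th9 ti9
  generalize Up9.c = c at *
  fin_cases i <;>
    simp only [Matrix.cons_val_zero, Matrix.cons_val_one, Matrix.cons_val, Fin.zero_eta,
      Fin.mk_one, Fin.reduceFinMk, Fin.isValue]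
  · linear_combination ((-1) * c ^ 0) * h
  · linear_combination ((1) * c ^ 0) * h
  · linear_combination ((1) * c ^ 0 + (1) * c ^ 1) * h

lemma ratio9 : 4 ≤ |th9 1 * ti9 2| := by
  have h := Up9.c_root
  have h1 := c9_lo
  have h2 := c9_hi
  have h3 := c9_sq_lo
  have h4 := c9_sq_hi
  have e : th9 1 * ti9 2 = -((2) * Up9.c ^ 1 + (1) * Up9.c ^ 2) := by
    unfold th9 ti9
    generalize Up9.c = c at *
    simp only [Matrix.cons_val_zero, Matrix.cons_val_one, Matrix.cons_val, Fin.isValue]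
    linear_combination ((-2) * c ^ 0 + (-1) * c ^ 1) * h
  rw [e, abs_neg]
  refine le_trans ?_ (le_abs_self _)
  linarith

/-- Integer matrices of the units. -/
def EM9 : Fin 3 → Matrix (Fin 3) (Fin 3) ℤ :=
  ![Matrix.of ![![1, -1, 0], ![-1, -1, 1], ![0, 1, 0]],
    Matrix.of ![![-1, 1, 1], ![1, 0, 0], ![1, 0, 1]],
    Matrix.of ![![0, 0, -1], ![0, 1, -1], ![-1, -1, -1]]]

/-- Integer matrices of the units. -/
def EI9 : Fin 3 → Matrix (Fin 3) (Fin 3) ℤ :=
  ![Matrix.of ![![1, 0, 1], ![0, 0, 1], ![1, 1, 2]],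
    Matrix.of ![![0, 1, 0], ![1, 2, -1], ![0, -1, 1]],
    Matrix.of ![![2, -1, -1], ![-1, 1, 0], ![-1, 0, 0]]]

lemma EM_EI9 (k : Fin 3) : EM9 k * EI9 k = 1 := by
  revert k
  decide

lemma EM_unit9 (k : Fin 3) : IsUnit (EM9 k).det := by
  have := congrArg Matrix.det (EM_EI9 k)
  rw [Matrix.det_mul, Matrix.det_one] at this
  exact IsUnit.of_mul_eq_one _ this

lemma EI_unit9 (k : Fin 3) : IsUnit (EI9 k).det := by
  have := congrArg Matrix.det (EM_EI9 k)
  rw [Matrix.det_mul, Matrix.det_one, mul_comm] at this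
  exact IsUnit.of_mul_eq_one _ this

lemma EM_B9 (k i l : Fin 3) : ∑ m, Bs p9 q9 r9 i m * (EM9 k m l : ℝ) =
    th9 (i + k) * Bs p9 q9 r9 i l := by
  have h := Up9.c_root
  unfold Bs EM9 th9 p9 q9 r9
  generalize Up9.c = c at *
  fin_cases k <;> fin_cases i <;> fin_cases l <;>
    simp only [Fin.sum_univ_three, Matrix.of_apply, Matrix.cons_val',
      Matrix.cons_val_zero, Matrix.cons_val_one, Matrix.cons_val, Matrix.cons_val_fin_one,
      Fin.zero_eta, Fin.mk_one, Fin.reduceFinMk, Fin.isValue, Fin.reduceAdd, Int.cast_zero,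
      Int.cast_one, Int.cast_neg, Int.cast_ofNat]
  · linear_combination ((-1/9) * c ^ 0) * h
  · linear_combination ((1/9) * c ^ 0) * h
  · linear_combination ((2/9) * c ^ 0) * h
  · linear_combination ((1/3) * c ^ 0 + (2/9) * c ^ 1) * h
  · linear_combination ((1/3) * c ^ 0 + (1/9) * c ^ 1) * h
  · linear_combination ((-1/3) * c ^ 0 + (-1/9) * c ^ 1) * h
  · linear_combination ((-2/9) * c ^ 0 + (-1/9) * c ^ 1) * h
  · linear_combination ((-1/9) * c ^ 0 + (-2/9) * c ^ 1) * h
  · linear_combination ((-2/9) * c ^ 0 + (-1/9) * c ^ 1) * h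
  · linear_combination ((1/3) * c ^ 0 + (1/9) * c ^ 1) * h
  · linear_combination ((-1/3) * c ^ 0 + (-1/9) * c ^ 1) * h
  · linear_combination ((-1/3) * c ^ 0 + (-2/9) * c ^ 1) * h
  · linear_combination ((-1/9) * c ^ 0 + (-2/9) * c ^ 1) * h
  · linear_combination ((-2/9) * c ^ 0 + (-1/9) * c ^ 1) * h
  · linear_combination ((2/9) * c ^ 0 + (1/9) * c ^ 1) * h
  · linear_combination ((-1/9) * c ^ 0) * h
  · linear_combination ((-2/9) * c ^ 0) * h
  · linear_combination ((-1/9) * c ^ 0) * h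
  · linear_combination ((-2/9) * c ^ 0 + (-1/9) * c ^ 1) * h
  · linear_combination ((2/9) * c ^ 0 + (1/9) * c ^ 1) * h
  · linear_combination ((1/9) * c ^ 0 + (2/9) * c ^ 1) * h
  · linear_combination ((-2/9) * c ^ 0) * h
  · linear_combination ((-1/9) * c ^ 0) * h
  · linear_combination ((1/9) * c ^ 0) * h
  · linear_combination ((1/3) * c ^ 0 + (1/9) * c ^ 1) * h
  · linear_combination ((1/3) * c ^ 0 + (2/9) * c ^ 1) * h
  · linear_combination ((1/3) * c ^ 0 + (1/9) * c ^ 1) * h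

lemma EI_B9 (k i l : Fin 3) : ∑ m, Bs p9 q9 r9 i m * (EI9 k m l : ℝ) =
    ti9 (i + k) * Bs p9 q9 r9 i l := by
  have h := Up9.c_root
  unfold Bs EI9 ti9 p9 q9 r9
  generalize Up9.c = c at *
  fin_cases k <;> fin_cases i <;> fin_cases l <;>
    simp only [Fin.sum_univ_three, Matrix.of_apply, Matrix.cons_val',
      Matrix.cons_val_zero, Matrix.cons_val_one, Matrix.cons_val, Matrix.cons_val_fin_one,
      Fin.zero_eta, Fin.mk_one, Fin.reduceFinMk, Fin.isValue, Fin.reduceAdd, Int.cast_zero,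
      Int.cast_one, Int.cast_neg, Int.cast_ofNat]
  · linear_combination ((2/9) * c ^ 0 + (1/9) * c ^ 1) * h
  · linear_combination ((-2/9) * c ^ 0 + (-1/9) * c ^ 1) * h
  · linear_combination ((-1/9) * c ^ 0 + (-2/9) * c ^ 1) * h
  · linear_combination ((2/9) * c ^ 0) * h
  · linear_combination ((1/9) * c ^ 0) * h
  · linear_combination ((-1/9) * c ^ 0) * h
  · linear_combination ((-1/3) * c ^ 0 + (-1/9) * c ^ 1) * h
  · linear_combination ((-1/3) * c ^ 0 + (-2/9) * c ^ 1) * h
  · linear_combination ((-1/3) * c ^ 0 + (-1/9) * c ^ 1) * h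
  · linear_combination ((1/9) * c ^ 0) * h
  · linear_combination ((-1/9) * c ^ 0) * h
  · linear_combination ((-2/9) * c ^ 0) * h
  · linear_combination ((-1/3) * c ^ 0 + (-2/9) * c ^ 1) * h
  · linear_combination ((-1/3) * c ^ 0 + (-1/9) * c ^ 1) * h
  · linear_combination ((1/3) * c ^ 0 + (1/9) * c ^ 1) * h
  · linear_combination ((2/9) * c ^ 0 + (1/9) * c ^ 1) * h
  · linear_combination ((1/9) * c ^ 0 + (2/9) * c ^ 1) * h
  · linear_combination ((2/9) * c ^ 0 + (1/9) * c ^ 1) * h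
  · linear_combination ((-1/3) * c ^ 0 + (-1/9) * c ^ 1) * h
  · linear_combination ((1/3) * c ^ 0 + (1/9) * c ^ 1) * h
  · linear_combination ((1/3) * c ^ 0 + (2/9) * c ^ 1) * h
  · linear_combination ((1/9) * c ^ 0 + (2/9) * c ^ 1) * h
  · linear_combination ((2/9) * c ^ 0 + (1/9) * c ^ 1) * h
  · linear_combination ((-2/9) * c ^ 0 + (-1/9) * c ^ 1) * h
  · linear_combination ((1/9) * c ^ 0) * h
  · linear_combination ((2/9) * c ^ 0) * h
  · linear_combination ((1/9) * c ^ 0) * h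

lemma stEM9_0 {V : Matrix (Fin 3) (Fin 3) ℝ} (hV : Nrm V) (hc : InEa V) :
    (∀ j, crd V (EM9 0 j) j ≠ 0) ∧ Nrm (nz V (EM9 0)) ∧ Pat (1 / 2) (18 / 25) (nz V (EM9 0)) ∧
      Big (51 / 100) (nz V (EM9 0)) := by
  have a0 := hc.a0; have b0 := hc.b0; have a1 := hc.a1; have b1 := hc.b1
  have a2 := hc.a2; have b2 := hc.b2; have a3 := hc.a3; have b3 := hc.b3
  have a4 := hc.a4; have b4 := hc.b4; have a5 := hc.a5; have b5 := hc.b5
  norm_num at a0 b0 a1 b1 a2 b2 a3 b3 a4 b4 a5 b5
  have h00 : (1 : ℝ) * crd V (EM9 0 0) 0 = (1) + (-1) * V 1 0 := by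
    rw [crd_three]
    simp only [EM9, Matrix.of_apply, Matrix.cons_val', Matrix.cons_val_zero,
      Matrix.cons_val_one, Matrix.cons_val, Matrix.cons_val_fin_one, Fin.isValue, Int.cast_zero,
      Int.cast_one, Int.cast_neg, Int.cast_ofNat]
    linear_combination (1) * hV.diag 0
  have h10 : (1 : ℝ) * crd V (EM9 0 1) 0 = (-1) + (-1) * V 1 0 + (1) * V 2 0 := by
    rw [crd_three]
    simp only [EM9, Matrix.of_apply, Matrix.cons_val', Matrix.cons_val_zero,
      Matrix.cons_val_one, Matrix.cons_val, Matrix.cons_val_fin_one, Fin.isValue, Int.cast_zero,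
      Int.cast_one, Int.cast_neg, Int.cast_ofNat]
    linear_combination (-1) * hV.diag 0
  have h20 : (1 : ℝ) * crd V (EM9 0 2) 0 = (1) * V 1 0 := by
    rw [crd_three]
    simp only [EM9, Matrix.of_apply, Matrix.cons_val', Matrix.cons_val_zero,
      Matrix.cons_val_one, Matrix.cons_val, Matrix.cons_val_fin_one, Fin.isValue, Int.cast_zero,
      Int.cast_one, Int.cast_neg, Int.cast_ofNat]
    linear_combination (0) * hV.diag 0
  have h01 : (-1 : ℝ) * crd V (EM9 0 0) 1 = (-1) * V 0 1 + (1) := by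
    rw [crd_three]
    simp only [EM9, Matrix.of_apply, Matrix.cons_val', Matrix.cons_val_zero,
      Matrix.cons_val_one, Matrix.cons_val, Matrix.cons_val_fin_one, Fin.isValue, Int.cast_zero,
      Int.cast_one, Int.cast_neg, Int.cast_ofNat]
    linear_combination (1) * hV.diag 1
  have h11 : (-1 : ℝ) * crd V (EM9 0 1) 1 = (1) * V 0 1 + (1) + (-1) * V 2 1 := by
    rw [crd_three]
    simp only [EM9, Matrix.of_apply, Matrix.cons_val', Matrix.cons_val_zero,
      Matrix.cons_val_one, Matrix.cons_val, Matrix.cons_val_fin_one, Fin.isValue, Int.cast_zero,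
      Int.cast_one, Int.cast_neg, Int.cast_ofNat]
    linear_combination (1) * hV.diag 1
  have h21 : (-1 : ℝ) * crd V (EM9 0 2) 1 = (-1) := by
    rw [crd_three]
    simp only [EM9, Matrix.of_apply, Matrix.cons_val', Matrix.cons_val_zero,
      Matrix.cons_val_one, Matrix.cons_val, Matrix.cons_val_fin_one, Fin.isValue, Int.cast_zero,
      Int.cast_one, Int.cast_neg, Int.cast_ofNat]
    linear_combination (-1) * hV.diag 1
  have h02 : (1 : ℝ) * crd V (EM9 0 0) 2 = (1) * V 0 2 + (-1) * V 1 2 := by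
    rw [crd_three]
    simp only [EM9, Matrix.of_apply, Matrix.cons_val', Matrix.cons_val_zero,
      Matrix.cons_val_one, Matrix.cons_val, Matrix.cons_val_fin_one, Fin.isValue, Int.cast_zero,
      Int.cast_one, Int.cast_neg, Int.cast_ofNat]
    linear_combination (0) * hV.diag 2
  have h12 : (1 : ℝ) * crd V (EM9 0 1) 2 = (-1) * V 0 2 + (-1) * V 1 2 + (1) := by
    rw [crd_three]
    simp only [EM9, Matrix.of_apply, Matrix.cons_val', Matrix.cons_val_zero,
      Matrix.cons_val_one, Matrix.cons_val, Matrix.cons_val_fin_one, Fin.isValue, Int.cast_zero,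
      Int.cast_one, Int.cast_neg, Int.cast_ofNat]
    linear_combination (1) * hV.diag 2
  have h22 : (1 : ℝ) * crd V (EM9 0 2) 2 = (1) * V 1 2 := by
    rw [crd_three]
    simp only [EM9, Matrix.of_apply, Matrix.cons_val', Matrix.cons_val_zero,
      Matrix.cons_val_one, Matrix.cons_val, Matrix.cons_val_fin_one, Fin.isValue, Int.cast_zero,
      Int.cast_one, Int.cast_neg, Int.cast_ofNat]
    linear_combination (0) * hV.diag 2
  have g0 : crd V ![1, -1, 0] 0 = (1) + (-1) * V 1 0 := by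
    rw [crd_three]
    simp only [Matrix.cons_val_zero, Matrix.cons_val_one, Matrix.cons_val, Fin.isValue,
      Int.cast_zero, Int.cast_one, Int.cast_neg, Int.cast_ofNat]
    linear_combination (1) * hV.diag 0
  have g1 : crd V ![1, 1, -1] 1 = (1) * V 0 1 + (1) + (-1) * V 2 1 := by
    rw [crd_three]
    simp only [Matrix.cons_val_zero, Matrix.cons_val_one, Matrix.cons_val, Fin.isValue,
      Int.cast_zero, Int.cast_one, Int.cast_neg, Int.cast_ofNat]
    linear_combination (1) * hV.diag 1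
  have g2 : crd V ![0, 1, 0] 2 = (1) * V 1 2 := by
    rw [crd_three]
    simp only [Matrix.cons_val_zero, Matrix.cons_val_one, Matrix.cons_val, Fin.isValue,
      Int.cast_zero, Int.cast_one, Int.cast_neg, Int.cast_ofNat]
    linear_combination (0) * hV.diag 2
  have p0 : 0 < (1) + (-1) * V 1 0 := by linarith
  have p1 : 0 < (1) * V 0 1 + (1) + (-1) * V 2 1 := by linarith
  have p2 : 0 < (1) * V 1 2 := by linarith
  have hE := box_empty hV hc (c := 7975367980396282292890923396471136258)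
    (by norm_num) (by norm_num) (by norm_num) (by norm_num) (by norm_num) (by norm_num)
    (by norm_num) (by norm_num) (by norm_num) (by norm_num) (by norm_num) (by norm_num)
    (w0 := 0) (w1 := 146) (w2 := 2) (n0 := ![1, -1, 0]) (n1 := ![1, 1, -1]) (n2 := ![0, 1, 0])
    (by decide +kernel) (by decide +kernel) (by decide +kernel) (by decide +kernel)
    (by decide +kernel) (by decide +kernel) (by decide +kernel) g0 g1 g2 p0 p1 p2
  refine step_of hV.det_ne (EM_unit9 0) (by norm_num) (by norm_num)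
    (Or.inl rfl) (Or.inr rfl) (Or.inl rfl) h00 h10 h20 h01 h11 h21 h02 h12 h22 p0 p1 p2 hE
    ?_ ?_ ?_ ?_ ?_ ?_ ?_ ?_ ?_ ?_ ?_ ?_ (Or.inr (Or.inr ?_))
  all_goals linarith

lemma stEM9_1 {V : Matrix (Fin 3) (Fin 3) ℝ} (hV : Nrm V) (hc : InEa V) :
    (∀ j, crd V (EM9 1 j) j ≠ 0) ∧ Nrm (nz V (EM9 1)) ∧ Pat (1 / 2) (18 / 25) (nz V (EM9 1)) ∧
      Big (51 / 100) (nz V (EM9 1)) := by
  have a0 := hc.a0; have b0 := hc.b0; have a1 := hc.a1; have b1 := hc.b1
  have a2 := hc.a2; have b2 := hc.b2; have a3 := hc.a3; have b3 := hc.b3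
  have a4 := hc.a4; have b4 := hc.b4; have a5 := hc.a5; have b5 := hc.b5
  norm_num at a0 b0 a1 b1 a2 b2 a3 b3 a4 b4 a5 b5
  have h00 : (-1 : ℝ) * crd V (EM9 1 0) 0 = (1) + (-1) * V 1 0 + (-1) * V 2 0 := by
    rw [crd_three]
    simp only [EM9, Matrix.of_apply, Matrix.cons_val', Matrix.cons_val_zero,
      Matrix.cons_val_one, Matrix.cons_val, Matrix.cons_val_fin_one, Fin.isValue, Int.cast_zero,
      Int.cast_one, Int.cast_neg, Int.cast_ofNat]
    linear_combination (1) * hV.diag 0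
  have h10 : (-1 : ℝ) * crd V (EM9 1 1) 0 = (-1) := by
    rw [crd_three]
    simp only [EM9, Matrix.of_apply, Matrix.cons_val', Matrix.cons_val_zero,
      Matrix.cons_val_one, Matrix.cons_val, Matrix.cons_val_fin_one, Fin.isValue, Int.cast_zero,
      Int.cast_one, Int.cast_neg, Int.cast_ofNat]
    linear_combination (-1) * hV.diag 0
  have h20 : (-1 : ℝ) * crd V (EM9 1 2) 0 = (-1) + (-1) * V 2 0 := by
    rw [crd_three]
    simp only [EM9, Matrix.of_apply, Matrix.cons_val', Matrix.cons_val_zero,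
      Matrix.cons_val_one, Matrix.cons_val, Matrix.cons_val_fin_one, Fin.isValue, Int.cast_zero,
      Int.cast_one, Int.cast_neg, Int.cast_ofNat]
    linear_combination (-1) * hV.diag 0
  have h01 : (1 : ℝ) * crd V (EM9 1 0) 1 = (-1) * V 0 1 + (1) + (1) * V 2 1 := by
    rw [crd_three]
    simp only [EM9, Matrix.of_apply, Matrix.cons_val', Matrix.cons_val_zero,
      Matrix.cons_val_one, Matrix.cons_val, Matrix.cons_val_fin_one, Fin.isValue, Int.cast_zero,
      Int.cast_one, Int.cast_neg, Int.cast_ofNat]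
    linear_combination (1) * hV.diag 1
  have h11 : (1 : ℝ) * crd V (EM9 1 1) 1 = (1) * V 0 1 := by
    rw [crd_three]
    simp only [EM9, Matrix.of_apply, Matrix.cons_val', Matrix.cons_val_zero,
      Matrix.cons_val_one, Matrix.cons_val, Matrix.cons_val_fin_one, Fin.isValue, Int.cast_zero,
      Int.cast_one, Int.cast_neg, Int.cast_ofNat]
    linear_combination (0) * hV.diag 1
  have h21 : (1 : ℝ) * crd V (EM9 1 2) 1 = (1) * V 0 1 + (1) * V 2 1 := by
    rw [crd_three]
    simp only [EM9, Matrix.of_apply, Matrix.cons_val', Matrix.cons_val_zero,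
      Matrix.cons_val_one, Matrix.cons_val, Matrix.cons_val_fin_one, Fin.isValue, Int.cast_zero,
      Int.cast_one, Int.cast_neg, Int.cast_ofNat]
    linear_combination (0) * hV.diag 1
  have h02 : (1 : ℝ) * crd V (EM9 1 0) 2 = (-1) * V 0 2 + (1) * V 1 2 + (1) := by
    rw [crd_three]
    simp only [EM9, Matrix.of_apply, Matrix.cons_val', Matrix.cons_val_zero,
      Matrix.cons_val_one, Matrix.cons_val, Matrix.cons_val_fin_one, Fin.isValue, Int.cast_zero,
      Int.cast_one, Int.cast_neg, Int.cast_ofNat]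
    linear_combination (1) * hV.diag 2
  have h12 : (1 : ℝ) * crd V (EM9 1 1) 2 = (1) * V 0 2 := by
    rw [crd_three]
    simp only [EM9, Matrix.of_apply, Matrix.cons_val', Matrix.cons_val_zero,
      Matrix.cons_val_one, Matrix.cons_val, Matrix.cons_val_fin_one, Fin.isValue, Int.cast_zero,
      Int.cast_one, Int.cast_neg, Int.cast_ofNat]
    linear_combination (0) * hV.diag 2
  have h22 : (1 : ℝ) * crd V (EM9 1 2) 2 = (1) * V 0 2 + (1) := by
    rw [crd_three]
    simp only [EM9, Matrix.of_apply, Matrix.cons_val', Matrix.cons_val_zero,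
      Matrix.cons_val_one, Matrix.cons_val, Matrix.cons_val_fin_one, Fin.isValue, Int.cast_zero,
      Int.cast_one, Int.cast_neg, Int.cast_ofNat]
    linear_combination (1) * hV.diag 2
  have g0 : crd V ![1, -1, -1] 0 = (1) + (-1) * V 1 0 + (-1) * V 2 0 := by
    rw [crd_three]
    simp only [Matrix.cons_val_zero, Matrix.cons_val_one, Matrix.cons_val, Fin.isValue,
      Int.cast_zero, Int.cast_one, Int.cast_neg, Int.cast_ofNat]
    linear_combination (1) * hV.diag 0
  have g1 : crd V ![1, 0, 0] 1 = (1) * V 0 1 := by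
    rw [crd_three]
    simp only [Matrix.cons_val_zero, Matrix.cons_val_one, Matrix.cons_val, Fin.isValue,
      Int.cast_zero, Int.cast_one, Int.cast_neg, Int.cast_ofNat]
    linear_combination (0) * hV.diag 1
  have g2 : crd V ![1, 0, 1] 2 = (1) * V 0 2 + (1) := by
    rw [crd_three]
    simp only [Matrix.cons_val_zero, Matrix.cons_val_one, Matrix.cons_val, Fin.isValue,
      Int.cast_zero, Int.cast_one, Int.cast_neg, Int.cast_ofNat]
    linear_combination (1) * hV.diag 2
  have p0 : 0 < (1) + (-1) * V 1 0 + (-1) * V 2 0 := by linarith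
  have p1 : 0 < (1) * V 0 1 := by linarith
  have p2 : 0 < (1) * V 0 2 + (1) := by linarith
  have hE := box_empty hV hc (c := 7975367974786866489960704883884744706)
    (by norm_num) (by norm_num) (by norm_num) (by norm_num) (by norm_num) (by norm_num)
    (by norm_num) (by norm_num) (by norm_num) (by norm_num) (by norm_num) (by norm_num)
    (w0 := 145) (w1 := 1) (w2 := 2) (n0 := ![1, -1, -1]) (n1 := ![1, 0, 0]) (n2 := ![1, 0, 1])
    (by decide +kernel) (by decide +kernel) (by decide +kernel) (by decide +kernel)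
    (by decide +kernel) (by decide +kernel) (by decide +kernel) g0 g1 g2 p0 p1 p2
  refine step_of hV.det_ne (EM_unit9 1) (by norm_num) (by norm_num)
    (Or.inr rfl) (Or.inl rfl) (Or.inl rfl) h00 h10 h20 h01 h11 h21 h02 h12 h22 p0 p1 p2 hE
    ?_ ?_ ?_ ?_ ?_ ?_ ?_ ?_ ?_ ?_ ?_ ?_ (Or.inr (Or.inl ?_))
  all_goals linarith

lemma stEM9_2 {V : Matrix (Fin 3) (Fin 3) ℝ} (hV : Nrm V) (hc : InEa V) :
    (∀ j, crd V (EM9 2 j) j ≠ 0) ∧ Nrm (nz V (EM9 2)) ∧ Pat (1 / 2) (18 / 25) (nz V (EM9 2)) ∧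
      Big (51 / 100) (nz V (EM9 2)) := by
  have a0 := hc.a0; have b0 := hc.b0; have a1 := hc.a1; have b1 := hc.b1
  have a2 := hc.a2; have b2 := hc.b2; have a3 := hc.a3; have b3 := hc.b3
  have a4 := hc.a4; have b4 := hc.b4; have a5 := hc.a5; have b5 := hc.b5
  norm_num at a0 b0 a1 b1 a2 b2 a3 b3 a4 b4 a5 b5
  have h00 : (1 : ℝ) * crd V (EM9 2 0) 0 = (-1) * V 2 0 := by
    rw [crd_three]
    simp only [EM9, Matrix.of_apply, Matrix.cons_val', Matrix.cons_val_zero,
      Matrix.cons_val_one, Matrix.cons_val, Matrix.cons_val_fin_one, Fin.isValue, Int.cast_zero,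
      Int.cast_one, Int.cast_neg, Int.cast_ofNat]
    linear_combination (0) * hV.diag 0
  have h10 : (1 : ℝ) * crd V (EM9 2 1) 0 = (1) * V 1 0 + (-1) * V 2 0 := by
    rw [crd_three]
    simp only [EM9, Matrix.of_apply, Matrix.cons_val', Matrix.cons_val_zero,
      Matrix.cons_val_one, Matrix.cons_val, Matrix.cons_val_fin_one, Fin.isValue, Int.cast_zero,
      Int.cast_one, Int.cast_neg, Int.cast_ofNat]
    linear_combination (0) * hV.diag 0
  have h20 : (1 : ℝ) * crd V (EM9 2 2) 0 = (-1) + (-1) * V 1 0 + (-1) * V 2 0 := by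
    rw [crd_three]
    simp only [EM9, Matrix.of_apply, Matrix.cons_val', Matrix.cons_val_zero,
      Matrix.cons_val_one, Matrix.cons_val, Matrix.cons_val_fin_one, Fin.isValue, Int.cast_zero,
      Int.cast_one, Int.cast_neg, Int.cast_ofNat]
    linear_combination (-1) * hV.diag 0
  have h01 : (1 : ℝ) * crd V (EM9 2 0) 1 = (-1) * V 2 1 := by
    rw [crd_three]
    simp only [EM9, Matrix.of_apply, Matrix.cons_val', Matrix.cons_val_zero,
      Matrix.cons_val_one, Matrix.cons_val, Matrix.cons_val_fin_one, Fin.isValue, Int.cast_zero,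
      Int.cast_one, Int.cast_neg, Int.cast_ofNat]
    linear_combination (0) * hV.diag 1
  have h11 : (1 : ℝ) * crd V (EM9 2 1) 1 = (1) + (-1) * V 2 1 := by
    rw [crd_three]
    simp only [EM9, Matrix.of_apply, Matrix.cons_val', Matrix.cons_val_zero,
      Matrix.cons_val_one, Matrix.cons_val, Matrix.cons_val_fin_one, Fin.isValue, Int.cast_zero,
      Int.cast_one, Int.cast_neg, Int.cast_ofNat]
    linear_combination (1) * hV.diag 1
  have h21 : (1 : ℝ) * crd V (EM9 2 2) 1 = (-1) * V 0 1 + (-1) + (-1) * V 2 1 := by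
    rw [crd_three]
    simp only [EM9, Matrix.of_apply, Matrix.cons_val', Matrix.cons_val_zero,
      Matrix.cons_val_one, Matrix.cons_val, Matrix.cons_val_fin_one, Fin.isValue, Int.cast_zero,
      Int.cast_one, Int.cast_neg, Int.cast_ofNat]
    linear_combination (-1) * hV.diag 1
  have h02 : (-1 : ℝ) * crd V (EM9 2 0) 2 = (1) := by
    rw [crd_three]
    simp only [EM9, Matrix.of_apply, Matrix.cons_val', Matrix.cons_val_zero,
      Matrix.cons_val_one, Matrix.cons_val, Matrix.cons_val_fin_one, Fin.isValue, Int.cast_zero,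
      Int.cast_one, Int.cast_neg, Int.cast_ofNat]
    linear_combination (1) * hV.diag 2
  have h12 : (-1 : ℝ) * crd V (EM9 2 1) 2 = (-1) * V 1 2 + (1) := by
    rw [crd_three]
    simp only [EM9, Matrix.of_apply, Matrix.cons_val', Matrix.cons_val_zero,
      Matrix.cons_val_one, Matrix.cons_val, Matrix.cons_val_fin_one, Fin.isValue, Int.cast_zero,
      Int.cast_one, Int.cast_neg, Int.cast_ofNat]
    linear_combination (1) * hV.diag 2
  have h22 : (-1 : ℝ) * crd V (EM9 2 2) 2 = (1) * V 0 2 + (1) * V 1 2 + (1) := by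
    rw [crd_three]
    simp only [EM9, Matrix.of_apply, Matrix.cons_val', Matrix.cons_val_zero,
      Matrix.cons_val_one, Matrix.cons_val, Matrix.cons_val_fin_one, Fin.isValue, Int.cast_zero,
      Int.cast_one, Int.cast_neg, Int.cast_ofNat]
    linear_combination (1) * hV.diag 2
  have g0 : crd V ![0, 0, -1] 0 = (-1) * V 2 0 := by
    rw [crd_three]
    simp only [Matrix.cons_val_zero, Matrix.cons_val_one, Matrix.cons_val, Fin.isValue,
      Int.cast_zero, Int.cast_one, Int.cast_neg, Int.cast_ofNat]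
    linear_combination (0) * hV.diag 0
  have g1 : crd V ![0, 1, -1] 1 = (1) + (-1) * V 2 1 := by
    rw [crd_three]
    simp only [Matrix.cons_val_zero, Matrix.cons_val_one, Matrix.cons_val, Fin.isValue,
      Int.cast_zero, Int.cast_one, Int.cast_neg, Int.cast_ofNat]
    linear_combination (1) * hV.diag 1
  have g2 : crd V ![1, 1, 1] 2 = (1) * V 0 2 + (1) * V 1 2 + (1) := by
    rw [crd_three]
    simp only [Matrix.cons_val_zero, Matrix.cons_val_one, Matrix.cons_val, Fin.isValue,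
      Int.cast_zero, Int.cast_one, Int.cast_neg, Int.cast_ofNat]
    linear_combination (1) * hV.diag 2
  have p0 : 0 < (-1) * V 2 0 := by linarith
  have p1 : 0 < (1) + (-1) * V 2 1 := by linarith
  have p2 : 0 < (1) * V 0 2 + (1) * V 1 2 + (1) := by linarith
  have hE := box_empty hV hc (c := 393451486752412469631983051771202306050)
    (by norm_num) (by norm_num) (by norm_num) (by norm_num) (by norm_num) (by norm_num)
    (by norm_num) (by norm_num) (by norm_num) (by norm_num) (by norm_num) (by norm_num)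
    (w0 := 0) (w1 := 1) (w2 := 147) (n0 := ![0, 0, -1]) (n1 := ![0, 1, -1]) (n2 := ![1, 1, 1])
    (by decide +kernel) (by decide +kernel) (by decide +kernel) (by decide +kernel)
    (by decide +kernel) (by decide +kernel) (by decide +kernel) g0 g1 g2 p0 p1 p2
  refine step_of hV.det_ne (EM_unit9 2) (by norm_num) (by norm_num)
    (Or.inl rfl) (Or.inl rfl) (Or.inr rfl) h00 h10 h20 h01 h11 h21 h02 h12 h22 p0 p1 p2 hE
    ?_ ?_ ?_ ?_ ?_ ?_ ?_ ?_ ?_ ?_ ?_ ?_ (Or.inl ?_)
  all_goals linarith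

lemma stEI9_0 {V : Matrix (Fin 3) (Fin 3) ℝ} (hV : Nrm V) (hc : InEa V) :
    (∀ j, crd V (EI9 0 j) j ≠ 0) ∧ Nrm (nz V (EI9 0)) ∧ Pat (1 / 2) (18 / 25) (nz V (EI9 0)) ∧
      Big (51 / 100) (nz V (EI9 0)) := by
  have a0 := hc.a0; have b0 := hc.b0; have a1 := hc.a1; have b1 := hc.b1
  have a2 := hc.a2; have b2 := hc.b2; have a3 := hc.a3; have b3 := hc.b3
  have a4 := hc.a4; have b4 := hc.b4; have a5 := hc.a5; have b5 := hc.b5
  norm_num at a0 b0 a1 b1 a2 b2 a3 b3 a4 b4 a5 b5
  have h00 : (1 : ℝ) * crd V (EI9 0 0) 0 = (1) + (1) * V 2 0 := by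
    rw [crd_three]
    simp only [EI9, Matrix.of_apply, Matrix.cons_val', Matrix.cons_val_zero,
      Matrix.cons_val_one, Matrix.cons_val, Matrix.cons_val_fin_one, Fin.isValue, Int.cast_zero,
      Int.cast_one, Int.cast_neg, Int.cast_ofNat]
    linear_combination (1) * hV.diag 0
  have h10 : (1 : ℝ) * crd V (EI9 0 1) 0 = (1) * V 2 0 := by
    rw [crd_three]
    simp only [EI9, Matrix.of_apply, Matrix.cons_val', Matrix.cons_val_zero,
      Matrix.cons_val_one, Matrix.cons_val, Matrix.cons_val_fin_one, Fin.isValue, Int.cast_zero,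
      Int.cast_one, Int.cast_neg, Int.cast_ofNat]
    linear_combination (0) * hV.diag 0
  have h20 : (1 : ℝ) * crd V (EI9 0 2) 0 = (1) + (1) * V 1 0 + (2) * V 2 0 := by
    rw [crd_three]
    simp only [EI9, Matrix.of_apply, Matrix.cons_val', Matrix.cons_val_zero,
      Matrix.cons_val_one, Matrix.cons_val, Matrix.cons_val_fin_one, Fin.isValue, Int.cast_zero,
      Int.cast_one, Int.cast_neg, Int.cast_ofNat]
    linear_combination (1) * hV.diag 0
  have h01 : (-1 : ℝ) * crd V (EI9 0 0) 1 = (-1) * V 0 1 + (-1) * V 2 1 := by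
    rw [crd_three]
    simp only [EI9, Matrix.of_apply, Matrix.cons_val', Matrix.cons_val_zero,
      Matrix.cons_val_one, Matrix.cons_val, Matrix.cons_val_fin_one, Fin.isValue, Int.cast_zero,
      Int.cast_one, Int.cast_neg, Int.cast_ofNat]
    linear_combination (0) * hV.diag 1
  have h11 : (-1 : ℝ) * crd V (EI9 0 1) 1 = (-1) * V 2 1 := by
    rw [crd_three]
    simp only [EI9, Matrix.of_apply, Matrix.cons_val', Matrix.cons_val_zero,
      Matrix.cons_val_one, Matrix.cons_val, Matrix.cons_val_fin_one, Fin.isValue, Int.cast_zero,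
      Int.cast_one, Int.cast_neg, Int.cast_ofNat]
    linear_combination (0) * hV.diag 1
  have h21 : (-1 : ℝ) * crd V (EI9 0 2) 1 = (-1) * V 0 1 + (-1) + (-2) * V 2 1 := by
    rw [crd_three]
    simp only [EI9, Matrix.of_apply, Matrix.cons_val', Matrix.cons_val_zero,
      Matrix.cons_val_one, Matrix.cons_val, Matrix.cons_val_fin_one, Fin.isValue, Int.cast_zero,
      Int.cast_one, Int.cast_neg, Int.cast_ofNat]
    linear_combination (-1) * hV.diag 1
  have h02 : (1 : ℝ) * crd V (EI9 0 0) 2 = (1) * V 0 2 + (1) := by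
    rw [crd_three]
    simp only [EI9, Matrix.of_apply, Matrix.cons_val', Matrix.cons_val_zero,
      Matrix.cons_val_one, Matrix.cons_val, Matrix.cons_val_fin_one, Fin.isValue, Int.cast_zero,
      Int.cast_one, Int.cast_neg, Int.cast_ofNat]
    linear_combination (1) * hV.diag 2
  have h12 : (1 : ℝ) * crd V (EI9 0 1) 2 = (1) := by
    rw [crd_three]
    simp only [EI9, Matrix.of_apply, Matrix.cons_val', Matrix.cons_val_zero,
      Matrix.cons_val_one, Matrix.cons_val, Matrix.cons_val_fin_one, Fin.isValue, Int.cast_zero,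
      Int.cast_one, Int.cast_neg, Int.cast_ofNat]
    linear_combination (1) * hV.diag 2
  have h22 : (1 : ℝ) * crd V (EI9 0 2) 2 = (1) * V 0 2 + (1) * V 1 2 + (2) := by
    rw [crd_three]
    simp only [EI9, Matrix.of_apply, Matrix.cons_val', Matrix.cons_val_zero,
      Matrix.cons_val_one, Matrix.cons_val, Matrix.cons_val_fin_one, Fin.isValue, Int.cast_zero,
      Int.cast_one, Int.cast_neg, Int.cast_ofNat]
    linear_combination (2) * hV.diag 2
  have g0 : crd V ![1, 0, 1] 0 = (1) + (1) * V 2 0 := by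
    rw [crd_three]
    simp only [Matrix.cons_val_zero, Matrix.cons_val_one, Matrix.cons_val, Fin.isValue,
      Int.cast_zero, Int.cast_one, Int.cast_neg, Int.cast_ofNat]
    linear_combination (1) * hV.diag 0
  have g1 : crd V ![0, 0, -1] 1 = (-1) * V 2 1 := by
    rw [crd_three]
    simp only [Matrix.cons_val_zero, Matrix.cons_val_one, Matrix.cons_val, Fin.isValue,
      Int.cast_zero, Int.cast_one, Int.cast_neg, Int.cast_ofNat]
    linear_combination (0) * hV.diag 1
  have g2 : crd V ![1, 1, 2] 2 = (1) * V 0 2 + (1) * V 1 2 + (2) := by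
    rw [crd_three]
    simp only [Matrix.cons_val_zero, Matrix.cons_val_one, Matrix.cons_val, Fin.isValue,
      Int.cast_zero, Int.cast_one, Int.cast_neg, Int.cast_ofNat]
    linear_combination (2) * hV.diag 2
  have p0 : 0 < (1) + (1) * V 2 0 := by linarith
  have p1 : 0 < (-1) * V 2 1 := by linarith
  have p2 : 0 < (1) * V 0 2 + (1) * V 1 2 + (2) := by linarith
  have hE := box_empty hV hc (c := 7975367980396282292890993903226920962)
    (by norm_num) (by norm_num) (by norm_num) (by norm_num) (by norm_num) (by norm_num)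
    (by norm_num) (by norm_num) (by norm_num) (by norm_num) (by norm_num) (by norm_num)
    (w0 := 0) (w1 := 146) (w2 := 2) (n0 := ![1, 0, 1]) (n1 := ![0, 0, -1]) (n2 := ![1, 1, 2])
    (by decide +kernel) (by decide +kernel) (by decide +kernel) (by decide +kernel)
    (by decide +kernel) (by decide +kernel) (by decide +kernel) g0 g1 g2 p0 p1 p2
  refine step_of hV.det_ne (EI_unit9 0) (by norm_num) (by norm_num)
    (Or.inl rfl) (Or.inr rfl) (Or.inl rfl) h00 h10 h20 h01 h11 h21 h02 h12 h22 p0 p1 p2 hE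
    ?_ ?_ ?_ ?_ ?_ ?_ ?_ ?_ ?_ ?_ ?_ ?_ (Or.inl ?_)
  all_goals linarith

lemma stEI9_1 {V : Matrix (Fin 3) (Fin 3) ℝ} (hV : Nrm V) (hc : InEa V) :
    (∀ j, crd V (EI9 1 j) j ≠ 0) ∧ Nrm (nz V (EI9 1)) ∧ Pat (1 / 2) (18 / 25) (nz V (EI9 1)) ∧
      Big (51 / 100) (nz V (EI9 1)) := by
  have a0 := hc.a0; have b0 := hc.b0; have a1 := hc.a1; have b1 := hc.b1
  have a2 := hc.a2; have b2 := hc.b2; have a3 := hc.a3; have b3 := hc.b3
  have a4 := hc.a4; have b4 := hc.b4; have a5 := hc.a5; have b5 := hc.b5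
  norm_num at a0 b0 a1 b1 a2 b2 a3 b3 a4 b4 a5 b5
  have h00 : (-1 : ℝ) * crd V (EI9 1 0) 0 = (-1) * V 1 0 := by
    rw [crd_three]
    simp only [EI9, Matrix.of_apply, Matrix.cons_val', Matrix.cons_val_zero,
      Matrix.cons_val_one, Matrix.cons_val, Matrix.cons_val_fin_one, Fin.isValue, Int.cast_zero,
      Int.cast_one, Int.cast_neg, Int.cast_ofNat]
    linear_combination (0) * hV.diag 0
  have h10 : (-1 : ℝ) * crd V (EI9 1 1) 0 = (-1) + (-2) * V 1 0 + (1) * V 2 0 := by
    rw [crd_three]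
    simp only [EI9, Matrix.of_apply, Matrix.cons_val', Matrix.cons_val_zero,
      Matrix.cons_val_one, Matrix.cons_val, Matrix.cons_val_fin_one, Fin.isValue, Int.cast_zero,
      Int.cast_one, Int.cast_neg, Int.cast_ofNat]
    linear_combination (-1) * hV.diag 0
  have h20 : (-1 : ℝ) * crd V (EI9 1 2) 0 = (1) * V 1 0 + (-1) * V 2 0 := by
    rw [crd_three]
    simp only [EI9, Matrix.of_apply, Matrix.cons_val', Matrix.cons_val_zero,
      Matrix.cons_val_one, Matrix.cons_val, Matrix.cons_val_fin_one, Fin.isValue, Int.cast_zero,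
      Int.cast_one, Int.cast_neg, Int.cast_ofNat]
    linear_combination (0) * hV.diag 0
  have h01 : (1 : ℝ) * crd V (EI9 1 0) 1 = (1) := by
    rw [crd_three]
    simp only [EI9, Matrix.of_apply, Matrix.cons_val', Matrix.cons_val_zero,
      Matrix.cons_val_one, Matrix.cons_val, Matrix.cons_val_fin_one, Fin.isValue, Int.cast_zero,
      Int.cast_one, Int.cast_neg, Int.cast_ofNat]
    linear_combination (1) * hV.diag 1
  have h11 : (1 : ℝ) * crd V (EI9 1 1) 1 = (1) * V 0 1 + (2) + (-1) * V 2 1 := by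
    rw [crd_three]
    simp only [EI9, Matrix.of_apply, Matrix.cons_val', Matrix.cons_val_zero,
      Matrix.cons_val_one, Matrix.cons_val, Matrix.cons_val_fin_one, Fin.isValue, Int.cast_zero,
      Int.cast_one, Int.cast_neg, Int.cast_ofNat]
    linear_combination (2) * hV.diag 1
  have h21 : (1 : ℝ) * crd V (EI9 1 2) 1 = (-1) + (1) * V 2 1 := by
    rw [crd_three]
    simp only [EI9, Matrix.of_apply, Matrix.cons_val', Matrix.cons_val_zero,
      Matrix.cons_val_one, Matrix.cons_val, Matrix.cons_val_fin_one, Fin.isValue, Int.cast_zero,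
      Int.cast_one, Int.cast_neg, Int.cast_ofNat]
    linear_combination (-1) * hV.diag 1
  have h02 : (1 : ℝ) * crd V (EI9 1 0) 2 = (1) * V 1 2 := by
    rw [crd_three]
    simp only [EI9, Matrix.of_apply, Matrix.cons_val', Matrix.cons_val_zero,
      Matrix.cons_val_one, Matrix.cons_val, Matrix.cons_val_fin_one, Fin.isValue, Int.cast_zero,
      Int.cast_one, Int.cast_neg, Int.cast_ofNat]
    linear_combination (0) * hV.diag 2
  have h12 : (1 : ℝ) * crd V (EI9 1 1) 2 = (1) * V 0 2 + (2) * V 1 2 + (-1) := by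
    rw [crd_three]
    simp only [EI9, Matrix.of_apply, Matrix.cons_val', Matrix.cons_val_zero,
      Matrix.cons_val_one, Matrix.cons_val, Matrix.cons_val_fin_one, Fin.isValue, Int.cast_zero,
      Int.cast_one, Int.cast_neg, Int.cast_ofNat]
    linear_combination (-1) * hV.diag 2
  have h22 : (1 : ℝ) * crd V (EI9 1 2) 2 = (-1) * V 1 2 + (1) := by
    rw [crd_three]
    simp only [EI9, Matrix.of_apply, Matrix.cons_val', Matrix.cons_val_zero,
      Matrix.cons_val_one, Matrix.cons_val, Matrix.cons_val_fin_one, Fin.isValue, Int.cast_zero,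
      Int.cast_one, Int.cast_neg, Int.cast_ofNat]
    linear_combination (1) * hV.diag 2
  have g0 : crd V ![0, -1, 0] 0 = (-1) * V 1 0 := by
    rw [crd_three]
    simp only [Matrix.cons_val_zero, Matrix.cons_val_one, Matrix.cons_val, Fin.isValue,
      Int.cast_zero, Int.cast_one, Int.cast_neg, Int.cast_ofNat]
    linear_combination (0) * hV.diag 0
  have g1 : crd V ![1, 2, -1] 1 = (1) * V 0 1 + (2) + (-1) * V 2 1 := by
    rw [crd_three]
    simp only [Matrix.cons_val_zero, Matrix.cons_val_one, Matrix.cons_val, Fin.isValue,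
      Int.cast_zero, Int.cast_one, Int.cast_neg, Int.cast_ofNat]
    linear_combination (2) * hV.diag 1
  have g2 : crd V ![0, -1, 1] 2 = (-1) * V 1 2 + (1) := by
    rw [crd_three]
    simp only [Matrix.cons_val_zero, Matrix.cons_val_one, Matrix.cons_val, Fin.isValue,
      Int.cast_zero, Int.cast_one, Int.cast_neg, Int.cast_ofNat]
    linear_combination (1) * hV.diag 2
  have p0 : 0 < (-1) * V 1 0 := by linarith
  have p1 : 0 < (1) * V 0 1 + (2) + (-1) * V 2 1 := by linarith
  have p2 : 0 < (-1) * V 1 2 + (1) := by linarith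
  have hE := box_empty hV hc (c := 7975367974786866489960702539904253954)
    (by norm_num) (by norm_num) (by norm_num) (by norm_num) (by norm_num) (by norm_num)
    (by norm_num) (by norm_num) (by norm_num) (by norm_num) (by norm_num) (by norm_num)
    (w0 := 145) (w1 := 1) (w2 := 2) (n0 := ![0, -1, 0]) (n1 := ![1, 2, -1]) (n2 := ![0, -1, 1])
    (by decide +kernel) (by decide +kernel) (by decide +kernel) (by decide +kernel)
    (by decide +kernel) (by decide +kernel) (by decide +kernel) g0 g1 g2 p0 p1 p2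
  refine step_of hV.det_ne (EI_unit9 1) (by norm_num) (by norm_num)
    (Or.inr rfl) (Or.inl rfl) (Or.inl rfl) h00 h10 h20 h01 h11 h21 h02 h12 h22 p0 p1 p2 hE
    ?_ ?_ ?_ ?_ ?_ ?_ ?_ ?_ ?_ ?_ ?_ ?_ (Or.inr (Or.inr ?_))
  all_goals linarith

lemma stEI9_2 {V : Matrix (Fin 3) (Fin 3) ℝ} (hV : Nrm V) (hc : InEa V) :
    (∀ j, crd V (EI9 2 j) j ≠ 0) ∧ Nrm (nz V (EI9 2)) ∧ Pat (1 / 2) (18 / 25) (nz V (EI9 2)) ∧
      Big (51 / 100) (nz V (EI9 2)) := by
  have a0 := hc.a0; have b0 := hc.b0; have a1 := hc.a1; have b1 := hc.b1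
  have a2 := hc.a2; have b2 := hc.b2; have a3 := hc.a3; have b3 := hc.b3
  have a4 := hc.a4; have b4 := hc.b4; have a5 := hc.a5; have b5 := hc.b5
  norm_num at a0 b0 a1 b1 a2 b2 a3 b3 a4 b4 a5 b5
  have h00 : (1 : ℝ) * crd V (EI9 2 0) 0 = (2) + (-1) * V 1 0 + (-1) * V 2 0 := by
    rw [crd_three]
    simp only [EI9, Matrix.of_apply, Matrix.cons_val', Matrix.cons_val_zero,
      Matrix.cons_val_one, Matrix.cons_val, Matrix.cons_val_fin_one, Fin.isValue, Int.cast_zero,
      Int.cast_one, Int.cast_neg, Int.cast_ofNat]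
    linear_combination (2) * hV.diag 0
  have h10 : (1 : ℝ) * crd V (EI9 2 1) 0 = (-1) + (1) * V 1 0 := by
    rw [crd_three]
    simp only [EI9, Matrix.of_apply, Matrix.cons_val', Matrix.cons_val_zero,
      Matrix.cons_val_one, Matrix.cons_val, Matrix.cons_val_fin_one, Fin.isValue, Int.cast_zero,
      Int.cast_one, Int.cast_neg, Int.cast_ofNat]
    linear_combination (-1) * hV.diag 0
  have h20 : (1 : ℝ) * crd V (EI9 2 2) 0 = (-1) := by
    rw [crd_three]
    simp only [EI9, Matrix.of_apply, Matrix.cons_val', Matrix.cons_val_zero,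
      Matrix.cons_val_one, Matrix.cons_val, Matrix.cons_val_fin_one, Fin.isValue, Int.cast_zero,
      Int.cast_one, Int.cast_neg, Int.cast_ofNat]
    linear_combination (-1) * hV.diag 0
  have h01 : (1 : ℝ) * crd V (EI9 2 0) 1 = (2) * V 0 1 + (-1) + (-1) * V 2 1 := by
    rw [crd_three]
    simp only [EI9, Matrix.of_apply, Matrix.cons_val', Matrix.cons_val_zero,
      Matrix.cons_val_one, Matrix.cons_val, Matrix.cons_val_fin_one, Fin.isValue, Int.cast_zero,
      Int.cast_one, Int.cast_neg, Int.cast_ofNat]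
    linear_combination (-1) * hV.diag 1
  have h11 : (1 : ℝ) * crd V (EI9 2 1) 1 = (-1) * V 0 1 + (1) := by
    rw [crd_three]
    simp only [EI9, Matrix.of_apply, Matrix.cons_val', Matrix.cons_val_zero,
      Matrix.cons_val_one, Matrix.cons_val, Matrix.cons_val_fin_one, Fin.isValue, Int.cast_zero,
      Int.cast_one, Int.cast_neg, Int.cast_ofNat]
    linear_combination (1) * hV.diag 1
  have h21 : (1 : ℝ) * crd V (EI9 2 2) 1 = (-1) * V 0 1 := by
    rw [crd_three]
    simp only [EI9, Matrix.of_apply, Matrix.cons_val', Matrix.cons_val_zero,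
      Matrix.cons_val_one, Matrix.cons_val, Matrix.cons_val_fin_one, Fin.isValue, Int.cast_zero,
      Int.cast_one, Int.cast_neg, Int.cast_ofNat]
    linear_combination (0) * hV.diag 1
  have h02 : (-1 : ℝ) * crd V (EI9 2 0) 2 = (-2) * V 0 2 + (1) * V 1 2 + (1) := by
    rw [crd_three]
    simp only [EI9, Matrix.of_apply, Matrix.cons_val', Matrix.cons_val_zero,
      Matrix.cons_val_one, Matrix.cons_val, Matrix.cons_val_fin_one, Fin.isValue, Int.cast_zero,
      Int.cast_one, Int.cast_neg, Int.cast_ofNat]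
    linear_combination (1) * hV.diag 2
  have h12 : (-1 : ℝ) * crd V (EI9 2 1) 2 = (1) * V 0 2 + (-1) * V 1 2 := by
    rw [crd_three]
    simp only [EI9, Matrix.of_apply, Matrix.cons_val', Matrix.cons_val_zero,
      Matrix.cons_val_one, Matrix.cons_val, Matrix.cons_val_fin_one, Fin.isValue, Int.cast_zero,
      Int.cast_one, Int.cast_neg, Int.cast_ofNat]
    linear_combination (0) * hV.diag 2
  have h22 : (-1 : ℝ) * crd V (EI9 2 2) 2 = (1) * V 0 2 := by
    rw [crd_three]
    simp only [EI9, Matrix.of_apply, Matrix.cons_val', Matrix.cons_val_zero,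
      Matrix.cons_val_one, Matrix.cons_val, Matrix.cons_val_fin_one, Fin.isValue, Int.cast_zero,
      Int.cast_one, Int.cast_neg, Int.cast_ofNat]
    linear_combination (0) * hV.diag 2
  have g0 : crd V ![2, -1, -1] 0 = (2) + (-1) * V 1 0 + (-1) * V 2 0 := by
    rw [crd_three]
    simp only [Matrix.cons_val_zero, Matrix.cons_val_one, Matrix.cons_val, Fin.isValue,
      Int.cast_zero, Int.cast_one, Int.cast_neg, Int.cast_ofNat]
    linear_combination (2) * hV.diag 0
  have g1 : crd V ![-1, 1, 0] 1 = (-1) * V 0 1 + (1) := by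
    rw [crd_three]
    simp only [Matrix.cons_val_zero, Matrix.cons_val_one, Matrix.cons_val, Fin.isValue,
      Int.cast_zero, Int.cast_one, Int.cast_neg, Int.cast_ofNat]
    linear_combination (1) * hV.diag 1
  have g2 : crd V ![1, 0, 0] 2 = (1) * V 0 2 := by
    rw [crd_three]
    simp only [Matrix.cons_val_zero, Matrix.cons_val_one, Matrix.cons_val, Fin.isValue,
      Int.cast_zero, Int.cast_one, Int.cast_neg, Int.cast_ofNat]
    linear_combination (0) * hV.diag 2
  have p0 : 0 < (2) + (-1) * V 1 0 + (-1) * V 2 0 := by linarith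
  have p1 : 0 < (-1) * V 0 1 + (1) := by linarith
  have p2 : 0 < (1) * V 0 2 := by linarith
  have hE := box_empty hV hc (c := 393451486752412469631983089163153915906)
    (by norm_num) (by norm_num) (by norm_num) (by norm_num) (by norm_num) (by norm_num)
    (by norm_num) (by norm_num) (by norm_num) (by norm_num) (by norm_num) (by norm_num)
    (w0 := 0) (w1 := 1) (w2 := 147) (n0 := ![2, -1, -1]) (n1 := ![-1, 1, 0]) (n2 := ![1, 0, 0])
    (by decide +kernel) (by decide +kernel) (by decide +kernel) (by decide +kernel)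
    (by decide +kernel) (by decide +kernel) (by decide +kernel) g0 g1 g2 p0 p1 p2
  refine step_of hV.det_ne (EI_unit9 2) (by norm_num) (by norm_num)
    (Or.inl rfl) (Or.inl rfl) (Or.inr rfl) h00 h10 h20 h01 h11 h21 h02 h12 h22 p0 p1 p2 hE
    ?_ ?_ ?_ ?_ ?_ ?_ ?_ ?_ ?_ ?_ ?_ ?_ (Or.inr (Or.inl ?_))
  all_goals linarith


lemma stEM9 (k : Fin 3) {V : Matrix (Fin 3) (Fin 3) ℝ} (hV : Nrm V) (hc : InEa V) :
    (∀ j, crd V (EM9 k j) j ≠ 0) ∧ Nrm (nz V (EM9 k)) ∧ Pat (1 / 2) (18 / 25) (nz V (EM9 k)) ∧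
      Big (51 / 100) (nz V (EM9 k)) := by
  fin_cases k
  · exact stEM9_0 hV hc
  · exact stEM9_1 hV hc
  · exact stEM9_2 hV hc

lemma stEI9 (k : Fin 3) {V : Matrix (Fin 3) (Fin 3) ℝ} (hV : Nrm V) (hc : InEa V) :
    (∀ j, crd V (EI9 k j) j ≠ 0) ∧ Nrm (nz V (EI9 k)) ∧ Pat (1 / 2) (18 / 25) (nz V (EI9 k)) ∧
      Big (51 / 100) (nz V (EI9 k)) := by
  fin_cases k
  · exact stEI9_0 hV hc
  · exact stEI9_1 hV hc
  · exact stEI9_2 hV hc

lemma th_ne9 (i : Fin 3) : th9 i ≠ 0 := left_ne_zero_of_mul_eq_one (th_ti9 i)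
lemma ti_ne9 (i : Fin 3) : ti9 i ≠ 0 := right_ne_zero_of_mul_eq_one (th_ti9 i)

lemma th_div9 (i j : Fin 3) : th9 i / th9 j = th9 i * ti9 j := by
  rw [div_eq_iff (th_ne9 j), mul_assoc, mul_comm (ti9 j), th_ti9, mul_one]

lemma ti_div9 (i j : Fin 3) : ti9 i / ti9 j = th9 j * ti9 i := by
  rw [div_eq_iff (ti_ne9 j), mul_comm (th9 j), mul_assoc, th_ti9, mul_one]

lemma exists_unit9 : ∀ a b : Fin 3, a ≠ b → ∃ k : Fin 3, (a + k = 1 ∧ b + k = 2) ∨
    (a + k = 2 ∧ b + k = 1) := by
  decide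

lemma units9 (a c : Fin 3) (hac : a ≠ c) : UnitFor p9 q9 r9 (1 / 2) (18 / 25) (51 / 100) InEa a c := by
  obtain ⟨k, ⟨h1, h2⟩ | ⟨h1, h2⟩⟩ := exists_unit9 a c hac
  · refine ⟨EM9 k, fun j => th9 (j + k), EM_unit9 k, fun i l => EM_B9 k i l, ?_,
      fun V hV hc => stEM9 k hV hc⟩
    simp only [h1, h2]
    rw [th_div9]
    exact ratio9
  · refine ⟨EI9 k, fun j => ti9 (j + k), EI_unit9 k, fun i l => EI_B9 k i l, ?_,
      fun V hV hc => stEI9 k hV hc⟩
    simp only [h1, h2]
    rw [ti_div9]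
    exact ratio9

lemma near9 {W : Matrix (Fin 3) (Fin 3) ℝ} (hW : Nrm W) (hc : InEa W) (i j : Fin 3) :
    |W i j - Vs w9 v9 i j| ≤ 1 / 8 := by
  have a0 := hc.a0; have b0 := hc.b0; have a1 := hc.a1; have b1 := hc.b1
  have a2 := hc.a2; have b2 := hc.b2; have a3 := hc.a3; have b3 := hc.b3
  have a4 := hc.a4; have b4 := hc.b4; have a5 := hc.a5; have b5 := hc.b5
  norm_num at a0 b0 a1 b1 a2 b2 a3 b3 a4 b4 a5 b5
  have h1 := c9_lo
  have h2 := c9_hi
  have h3 := c9_sq_lo
  have h4 := c9_sq_hi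
  have hw : w9 = (-2) * Up9.c ^ 0 + (1) * Up9.c ^ 2 := rfl
  have hv : v9 = (-1) * Up9.c ^ 0 + (1) * Up9.c ^ 1 := rfl
  fin_cases i <;> fin_cases j
  · show |W 0 0 - 1| ≤ _
    rw [hW.diag, sub_self, abs_zero]; norm_num
  · show |W 0 1 - w9| ≤ _
    rw [hw, abs_le]; constructor <;> linarith
  · show |W 0 2 - v9| ≤ _
    rw [hv, abs_le]; constructor <;> linarith
  · show |W 1 0 - -v9| ≤ _
    rw [hv, abs_le]; constructor <;> linarith
  · show |W 1 1 - 1| ≤ _
    rw [hW.diag, sub_self, abs_zero]; norm_num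
  · show |W 1 2 - w9| ≤ _
    rw [hw, abs_le]; constructor <;> linarith
  · show |W 2 0 - -w9| ≤ _
    rw [hw, abs_le]; constructor <;> linarith
  · show |W 2 1 - -v9| ≤ _
    rw [hv, abs_le]; constructor <;> linarith
  · show |W 2 2 - 1| ≤ _
    rw [hW.diag, sub_self, abs_zero]; norm_num

/-- The data of the flow. -/
theorem fam9 (hroot : Cov 0 128 0 128 64 128 0 128 64 128 0 128) :
    Fam w9 v9 p9 q9 r9 (1 / 2) (18 / 25) (51 / 100) InEa where
  inv := inv9
  hp := by
    have h1 := c9_lo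
    have h2 := c9_hi
    have h3 := c9_sq_lo
    have h4 := c9_sq_hi
    have h : p9 = (1/9) * Up9.c ^ 0 + (2/9) * Up9.c ^ 1 + (1/9) * Up9.c ^ 2 := rfl
    rw [h, abs_le]; constructor <;> linarith
  hq := by
    have h1 := c9_lo
    have h2 := c9_hi
    have h3 := c9_sq_lo
    have h4 := c9_sq_hi
    have h : q9 = (2/9) * Up9.c ^ 0 + (-2/9) * Up9.c ^ 1 + (-1/9) * Up9.c ^ 2 := rfl
    rw [h, abs_le]; constructor <;> linarith
  hr := by
    have h1 := c9_lo
    have h2 := c9_hi
    have h3 := c9_sq_lo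
    have h4 := c9_sq_hi
    have h : r9 = (4/9) * Up9.c ^ 0 + (-1/9) * Up9.c ^ 1 + (-2/9) * Up9.c ^ 2 := rfl
    rw [h, abs_le]; constructor <;> linarith
  near := fun W hW hc => near9 hW hc
  hs := by norm_num
  units := units9
  cov := by
    intro W hN hp hθ hs
    have q01 := hp.q01
    have q02 := hp.q02
    rcases cov_root hroot hN hp hs with h | h | h | h | h
    · exact Or.inl h
    · exfalso
      have := h.a4
      norm_num at this
      linarith
    · exact Or.inr h
    · exfalso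
      have := h.a2
      norm_num at this
      linarith
    · exfalso
      have := h.a2
      norm_num at this
      linarith

end Pool.Agent.Lib.MP_ddd95a_nt.Sec
end

section

set_option autoImplicit false
set_option linter.unusedSimpArgs false

/-!
# The second cell near the nonagonal lattice
-/

namespace Pool.Agent.Lib.MP_ddd95a_nt.Sec

open Pool.Agent.Lib.MP_ddd95a_nt Pool.Agent.Lib.MP_ddd95a_nt.Iso

open scoped BigOperators

/-- The second cell, after a signed permutation. -/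
def InEd (V : Matrix (Fin 3) (Fin 3) ℝ) : Prop :=
  InCell V 37 41 110 113 119 122 84 88 6 9 104 107

/-- The change of basis. -/
def MB : Matrix (Fin 3) (Fin 3) ℤ := Matrix.of ![![0, 0, 1], ![0, 1, 0], ![-1, 0, 1]]

lemma MB_unit : IsUnit MB.det := by
  have : MB.det = 1 := by decide
  rw [this]
  exact isUnit_one

lemma stB {V : Matrix (Fin 3) (Fin 3) ℝ} (hV : Nrm V) (hc : InEd V) :
    (∀ j, crd V (MB j) j ≠ 0) ∧ Nrm (nz V MB) ∧ Pat (1 / 2) (18 / 25) (nz V MB) ∧
      Big (51 / 100) (nz V MB) := by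
  have a0 := hc.a0; have b0 := hc.b0; have a1 := hc.a1; have b1 := hc.b1
  have a2 := hc.a2; have b2 := hc.b2; have a3 := hc.a3; have b3 := hc.b3
  have a4 := hc.a4; have b4 := hc.b4; have a5 := hc.a5; have b5 := hc.b5
  norm_num at a0 b0 a1 b1 a2 b2 a3 b3 a4 b4 a5 b5
  have h00 : (1 : ℝ) * crd V (MB 0) 0 = (1) * V 2 0 := by
    rw [crd_three]
    simp only [MB, Matrix.of_apply, Matrix.cons_val', Matrix.cons_val_zero,
      Matrix.cons_val_one, Matrix.cons_val, Matrix.cons_val_fin_one, Fin.isValue, Int.cast_zero,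
      Int.cast_one, Int.cast_neg, Int.cast_ofNat]
    linear_combination (0) * hV.diag 0
  have h10 : (1 : ℝ) * crd V (MB 1) 0 = (1) * V 1 0 := by
    rw [crd_three]
    simp only [MB, Matrix.of_apply, Matrix.cons_val', Matrix.cons_val_zero,
      Matrix.cons_val_one, Matrix.cons_val, Matrix.cons_val_fin_one, Fin.isValue, Int.cast_zero,
      Int.cast_one, Int.cast_neg, Int.cast_ofNat]
    linear_combination (0) * hV.diag 0
  have h20 : (1 : ℝ) * crd V (MB 2) 0 = (-1) + (1) * V 2 0 := by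
    rw [crd_three]
    simp only [MB, Matrix.of_apply, Matrix.cons_val', Matrix.cons_val_zero,
      Matrix.cons_val_one, Matrix.cons_val, Matrix.cons_val_fin_one, Fin.isValue, Int.cast_zero,
      Int.cast_one, Int.cast_neg, Int.cast_ofNat]
    linear_combination (-1) * hV.diag 0
  have h01 : (1 : ℝ) * crd V (MB 0) 1 = (1) * V 2 1 := by
    rw [crd_three]
    simp only [MB, Matrix.of_apply, Matrix.cons_val', Matrix.cons_val_zero,
      Matrix.cons_val_one, Matrix.cons_val, Matrix.cons_val_fin_one, Fin.isValue, Int.cast_zero,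
      Int.cast_one, Int.cast_neg, Int.cast_ofNat]
    linear_combination (0) * hV.diag 1
  have h11 : (1 : ℝ) * crd V (MB 1) 1 = (1) := by
    rw [crd_three]
    simp only [MB, Matrix.of_apply, Matrix.cons_val', Matrix.cons_val_zero,
      Matrix.cons_val_one, Matrix.cons_val, Matrix.cons_val_fin_one, Fin.isValue, Int.cast_zero,
      Int.cast_one, Int.cast_neg, Int.cast_ofNat]
    linear_combination (1) * hV.diag 1
  have h21 : (1 : ℝ) * crd V (MB 2) 1 = (-1) * V 0 1 + (1) * V 2 1 := by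
    rw [crd_three]
    simp only [MB, Matrix.of_apply, Matrix.cons_val', Matrix.cons_val_zero,
      Matrix.cons_val_one, Matrix.cons_val, Matrix.cons_val_fin_one, Fin.isValue, Int.cast_zero,
      Int.cast_one, Int.cast_neg, Int.cast_ofNat]
    linear_combination (0) * hV.diag 1
  have h02 : (1 : ℝ) * crd V (MB 0) 2 = (1) := by
    rw [crd_three]
    simp only [MB, Matrix.of_apply, Matrix.cons_val', Matrix.cons_val_zero,
      Matrix.cons_val_one, Matrix.cons_val, Matrix.cons_val_fin_one, Fin.isValue, Int.cast_zero,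
      Int.cast_one, Int.cast_neg, Int.cast_ofNat]
    linear_combination (1) * hV.diag 2
  have h12 : (1 : ℝ) * crd V (MB 1) 2 = (1) * V 1 2 := by
    rw [crd_three]
    simp only [MB, Matrix.of_apply, Matrix.cons_val', Matrix.cons_val_zero,
      Matrix.cons_val_one, Matrix.cons_val, Matrix.cons_val_fin_one, Fin.isValue, Int.cast_zero,
      Int.cast_one, Int.cast_neg, Int.cast_ofNat]
    linear_combination (0) * hV.diag 2
  have h22 : (1 : ℝ) * crd V (MB 2) 2 = (-1) * V 0 2 + (1) := by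
    rw [crd_three]
    simp only [MB, Matrix.of_apply, Matrix.cons_val', Matrix.cons_val_zero,
      Matrix.cons_val_one, Matrix.cons_val, Matrix.cons_val_fin_one, Fin.isValue, Int.cast_zero,
      Int.cast_one, Int.cast_neg, Int.cast_ofNat]
    linear_combination (1) * hV.diag 2
  have g0 : crd V ![0, 0, 1] 0 = (1) * V 2 0 := by
    rw [crd_three]
    simp only [Matrix.cons_val_zero, Matrix.cons_val_one, Matrix.cons_val, Fin.isValue,
      Int.cast_zero, Int.cast_one, Int.cast_neg, Int.cast_ofNat]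
    linear_combination (0) * hV.diag 0
  have g1 : crd V ![0, 1, 0] 1 = (1) := by
    rw [crd_three]
    simp only [Matrix.cons_val_zero, Matrix.cons_val_one, Matrix.cons_val, Fin.isValue,
      Int.cast_zero, Int.cast_one, Int.cast_neg, Int.cast_ofNat]
    linear_combination (1) * hV.diag 1
  have g2 : crd V ![-1, 0, 1] 2 = (-1) * V 0 2 + (1) := by
    rw [crd_three]
    simp only [Matrix.cons_val_zero, Matrix.cons_val_one, Matrix.cons_val, Fin.isValue,
      Int.cast_zero, Int.cast_one, Int.cast_neg, Int.cast_ofNat]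
    linear_combination (1) * hV.diag 2
  have p0 : (0 : ℝ) < (1) * V 2 0 := by linarith
  have p1 : (0 : ℝ) < (1) := by linarith
  have p2 : (0 : ℝ) < (-1) * V 0 2 + (1) := by linarith
  have hE := box_empty hV hc (c := 7975367974786866489879076866263941122)
    (by norm_num) (by norm_num) (by norm_num) (by norm_num) (by norm_num) (by norm_num)
    (by norm_num) (by norm_num) (by norm_num) (by norm_num) (by norm_num) (by norm_num)
    (w0 := 0) (w1 := 1) (w2 := 2) (n0 := ![0, 0, 1]) (n1 := ![0, 1, 0]) (n2 := ![-1, 0, 1])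
    (by decide +kernel) (by decide +kernel) (by decide +kernel) (by decide +kernel)
    (by decide +kernel) (by decide +kernel) (by decide +kernel) g0 g1 g2 p0 p1 p2
  refine step_of hV.det_ne MB_unit (by norm_num) (by norm_num)
    (Or.inl rfl) (Or.inl rfl) (Or.inl rfl) h00 h10 h20 h01 h11 h21 h02 h12 h22 p0 p1 p2 hE
    ?_ ?_ ?_ ?_ ?_ ?_ ?_ ?_ ?_ ?_ ?_ ?_ (Or.inl ?_)
  all_goals linarith

/-- A matrix in the second cell is equivalent to the special one or good for `kT`. -/
theorem caseD (hroot : Cov 0 128 0 128 64 128 0 128 64 128 0 128)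
    {V : Matrix (Fin 3) (Fin 3) ℝ} (hV : Nrm V) (hc : InEd V) :
    Eqv V (Vs w9 v9) ∨ Good kT V := by
  obtain ⟨g1, g2, g3, g4⟩ := stB hV hc
  have F := fam9 hroot
  obtain ⟨W, hW, hp, hθ, hs⟩ := exists_rot F.hs g3 g4
  have e1 : Eqv V (nz V MB) := eqv_nz MB_unit g1
  have hN : Nrm W := by
    rcases hW with h | h | h <;> rw [h]
    · exact g2
    · exact nrm_rot g2
    · exact nrm_rot (nrm_rot g2)
  have hQ : Eqv V W := by
    rcases hW with h | h | h <;> rw [h]
    · exact e1
    · exact e1.trans (eqv_rot _)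
    · exact (e1.trans (eqv_rot _)).trans (eqv_rot _)
  rcases F.cov W hN hp hθ hs with hg | hE
  · exact Or.inr (hQ.good hg)
  · rcases F.main hN hE with h | h
    · left
      rw [← h]
      exact hQ
    · exact Or.inr (hQ.good h)

lemma sgn_ok : ∀ i : Fin 3, (![1, 1, -1] : Fin 3 → ℤ) i = 1 ∨ (![1, 1, -1] : Fin 3 → ℤ) i = -1 := by
  decide

theorem caseB (hroot : Cov 0 128 0 128 64 128 0 128 64 128 0 128)
    {V : Matrix (Fin 3) (Fin 3) ℝ} (hV : Nrm V) (hc : InEb V) :
    Eqv V (Vs w9 v9) ∨ Good kT V := by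
  have a0 := hc.a0; have b0 := hc.b0; have a1 := hc.a1; have b1 := hc.b1
  have a2 := hc.a2; have b2 := hc.b2; have a3 := hc.a3; have b3 := hc.b3
  have a4 := hc.a4; have b4 := hc.b4; have a5 := hc.a5; have b5 := hc.b5
  norm_num at a0 b0 a1 b1 a2 b2 a3 b3 a4 b4 a5 b5
  set W := Symm.tw V (Equiv.swap 1 2) ![1, 1, -1] with hW
  have e10 : W 1 0 = V 2 0 := by
    rw [hW, Symm.tw_apply, Equiv.swap_apply_left, Equiv.swap_apply_of_ne_of_ne (by decide) (by decide)]
    simp
  have e20 : W 2 0 = -V 1 0 := by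
    rw [hW, Symm.tw_apply, Equiv.swap_apply_right, Equiv.swap_apply_of_ne_of_ne (by decide) (by decide)]
    simp
  have e01 : W 0 1 = V 0 2 := by
    rw [hW, Symm.tw_apply, Equiv.swap_apply_left, Equiv.swap_apply_of_ne_of_ne (by decide) (by decide)]
    simp
  have e21 : W 2 1 = -V 1 2 := by
    rw [hW, Symm.tw_apply, Equiv.swap_apply_left, Equiv.swap_apply_right]
    simp
  have e02 : W 0 2 = -V 0 1 := by
    rw [hW, Symm.tw_apply, Equiv.swap_apply_right, Equiv.swap_apply_of_ne_of_ne (by decide) (by decide)]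
    simp
  have e12 : W 1 2 = -V 2 1 := by
    rw [hW, Symm.tw_apply, Equiv.swap_apply_left, Equiv.swap_apply_right]
    simp
  have hE : Eqv V W := eqv_tw V _ sgn_ok
  have hN : Nrm W := Symm.nrm_tw V _ sgn_ok hV
  have hD : InEd W := by
    refine ⟨?_, ?_, ?_, ?_, ?_, ?_, ?_, ?_, ?_, ?_, ?_, ?_⟩ <;>
      simp only [e10, e20, e01, e21, e02, e12] <;> norm_num <;> linarith
  rcases caseD hroot hN hD with h | h
  · exact Or.inl (hE.trans h)
  · exact Or.inr (hE.good h)

theorem caseC (hroot : Cov 0 128 0 128 64 128 0 128 64 128 0 128)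
    {V : Matrix (Fin 3) (Fin 3) ℝ} (hV : Nrm V) (hc : InEc V) :
    Eqv V (Vs w9 v9) ∨ Good kT V := by
  have a0 := hc.a0; have b0 := hc.b0; have a1 := hc.a1; have b1 := hc.b1
  have a2 := hc.a2; have b2 := hc.b2; have a3 := hc.a3; have b3 := hc.b3
  have a4 := hc.a4; have b4 := hc.b4; have a5 := hc.a5; have b5 := hc.b5
  norm_num at a0 b0 a1 b1 a2 b2 a3 b3 a4 b4 a5 b5
  set W := Symm.tw V 1 ![1, 1, -1] with hW
  have e10 : W 1 0 = V 1 0 := by
    rw [hW, Symm.tw_apply]
    simp
  have e20 : W 2 0 = -V 2 0 := by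
    rw [hW, Symm.tw_apply]
    simp
  have e01 : W 0 1 = V 0 1 := by
    rw [hW, Symm.tw_apply]
    simp
  have e21 : W 2 1 = -V 2 1 := by
    rw [hW, Symm.tw_apply]
    simp
  have e02 : W 0 2 = -V 0 2 := by
    rw [hW, Symm.tw_apply]
    simp
  have e12 : W 1 2 = -V 1 2 := by
    rw [hW, Symm.tw_apply]
    simp
  have hE : Eqv V W := eqv_tw V _ sgn_ok
  have hN : Nrm W := Symm.nrm_tw V _ sgn_ok hV
  have hD : InEd W := by
    refine ⟨?_, ?_, ?_, ?_, ?_, ?_, ?_, ?_, ?_, ?_, ?_, ?_⟩ <;>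
      simp only [e10, e20, e01, e21, e02, e12] <;> norm_num <;> linarith
  rcases caseD hroot hN hD with h | h
  · exact Or.inl (hE.trans h)
  · exact Or.inr (hE.good h)

end Pool.Agent.Lib.MP_ddd95a_nt.Sec
end
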