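import Pool.Agent.Lib.MP_ddd95a_nt.Defs
import Pool.Agent.Lib.MP_ddd95a_nt.Mg.G013
import Pool.Agent.Lib.MP_ddd95a_nt.Mg.G015
import Pool.Agent.Lib.MP_ddd95a_nt.BoxBits

section

/-!
# The list `half` is complete

If the basis vectors have norm at most `4 / 3`, then it suffices to test the vectors of `half`:
a nonzero vector of the open box can be rounded to a smaller one, unless it is one of the vectors
of `half` up to sign.
-/

namespace Pool.Agent.Lib.MP_ddd95a_nt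

/-- The vector with absolute values `u1, u2, u3` can be rounded to a smaller one. -/
def Red (u1 u2 u3 : ℕ) : Prop :=
  ∃ k N m1 m2 m3 : ℕ, 0 < k ∧ 0 < N ∧
    3 * (k : ℤ) + 4 * (|(N : ℤ) * m1 - k * u1| + |(N : ℤ) * m2 - k * u2| + |(N : ℤ) * m3 - k * u3|)
      ≤ 3 * N ∧ 0 < m1 + m2 + m3 ∧ m1 + m2 + m3 < u1 + u2 + u3

/-- Rounding of `k u / N`. -/
def rdN (k N u : ℕ) : ℕ := (2 * k * u + N) / (2 * N)

/-- Boolean test of one possible rounding. -/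
def redT (k N u1 u2 u3 : ℕ) : Bool :=
  decide (0 < k) && decide (0 < N) &&
    decide (3 * (k : ℤ) + 4 * (|(N : ℤ) * rdN k N u1 - k * u1| + |(N : ℤ) * rdN k N u2 - k * u2|
      + |(N : ℤ) * rdN k N u3 - k * u3|) ≤ 3 * N) &&
    decide (0 < rdN k N u1 + rdN k N u2 + rdN k N u3) &&
    decide (rdN k N u1 + rdN k N u2 + rdN k N u3 < u1 + u2 + u3)

/-- Boolean test of all roundings. -/
def redB (u1 u2 u3 : ℕ) : Bool :=
  (List.range 12).any fun k => redT k u1 u1 u2 u3 || (redT k u2 u1 u2 u3 || redT k u3 u1 u2 u3)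

theorem red_of_redT {k N u1 u2 u3 : ℕ} (h : redT k N u1 u2 u3 = true) : Red u1 u2 u3 := by
  simp only [redT, Bool.and_eq_true, decide_eq_true_eq] at h
  obtain ⟨⟨⟨⟨h1, h2⟩, h3⟩, h4⟩, h5⟩ := h
  exact ⟨k, N, rdN k N u1, rdN k N u2, rdN k N u3, h1, h2, h3, h4, h5⟩

theorem red_of_redB {u1 u2 u3 : ℕ} (h : redB u1 u2 u3 = true) : Red u1 u2 u3 := by
  simp only [redB, List.any_eq_true, Bool.or_eq_true] at h
  obtain ⟨k, -, h | h | h⟩ := h <;> exact red_of_redT h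

/-- All sign patterns of a vector are in `full`. -/
def inF (u1 u2 u3 : ℕ) : Bool :=
  let x : ℤ := u1
  let y : ℤ := u2
  let z : ℤ := u3
  full.contains (x, y, z) && full.contains (x, y, -z) && full.contains (x, -y, z) &&
    full.contains (x, -y, -z) && full.contains (-x, y, z) && full.contains (-x, y, -z) &&
    full.contains (-x, -y, z) && full.contains (-x, -y, -z)

/-- The finite check. -/
def finT : Bool :=
  (List.range 12).all fun u1 => (List.range 12).all fun u2 => (List.range 12).all fun u3 =>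
    decide (u1 + u2 + u3 = 0) || redB u1 u2 u3 || inF u1 u2 u3

theorem finT_true : finT = true := by decide +kernel

/-- One coordinate for the roundings with `k = 1` and `k = 2`. -/
theorem large_aux {N u : ℕ} (hu : u ≤ N) :
    ∃ d : ℤ, ∃ m1 m2 : ℕ, m1 ≤ u ∧ m2 ≤ u ∧ |(N : ℤ) * m1 - 1 * u| = d ∧
      |(N : ℤ) * m2 - 2 * u| ≤ N - 2 * d := by
  by_cases h0 : u = 0
  · subst h0
    refine ⟨0, 0, 0, le_rfl, le_rfl, by simp, by simp⟩
  · by_cases h : 2 * u ≤ N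
    · refine ⟨u, 0, 1, Nat.zero_le _, by omega, ?_, ?_⟩
      · rw [abs_of_nonpos] <;> push_cast <;> omega
      · rw [abs_of_nonneg] <;> push_cast <;> omega
    · refine ⟨N - u, 1, 1, by omega, by omega, ?_, ?_⟩
      · rw [abs_of_nonneg] <;> push_cast <;> omega
      · rw [abs_of_nonpos] <;> push_cast <;> omega

theorem large {N u v : ℕ} (hN : 12 ≤ N) (hu : u ≤ N) (hv : v ≤ N) :
    ∃ k m m' : ℕ, 0 < k ∧ k < N ∧ m ≤ u ∧ m' ≤ v ∧
      3 * (k : ℤ) + 4 * (|(N : ℤ) * m - k * u| + |(N : ℤ) * m' - k * v|) ≤ 3 * N := by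
  obtain ⟨d, m1, m2, h1, h2, h3, h4⟩ := large_aux hu
  obtain ⟨d', m1', m2', h1', h2', h3', h4'⟩ := large_aux hv
  by_cases h : 3 + 4 * (d + d') ≤ 3 * (N : ℤ)
  · refine ⟨1, m1, m1', by norm_num, by omega, h1, h1', ?_⟩
    push_cast
    rw [h3, h3']
    linarith
  · refine ⟨2, m2, m2', by norm_num, by omega, h2, h2', ?_⟩
    push_cast
    have : (12 : ℤ) ≤ N := by exact_mod_cast hN
    linarith

theorem red_large {u1 u2 u3 : ℕ} (h : 12 ≤ u1 ∨ 12 ≤ u2 ∨ 12 ≤ u3) : Red u1 u2 u3 := by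
  have key : (12 ≤ u1 ∧ u2 ≤ u1 ∧ u3 ≤ u1) ∨ (12 ≤ u2 ∧ u1 ≤ u2 ∧ u3 ≤ u2) ∨
      (12 ≤ u3 ∧ u1 ≤ u3 ∧ u2 ≤ u3) := by omega
  rcases key with ⟨h0, h1, h2⟩ | ⟨h0, h1, h2⟩ | ⟨h0, h1, h2⟩
  · obtain ⟨k, m, m', hk, hkN, hm, hm', hs⟩ := large h0 h1 h2
    refine ⟨k, u1, k, m, m', hk, by omega, ?_, by omega, by omega⟩
    have e : |(u1 : ℤ) * k - k * u1| = 0 := by rw [mul_comm, sub_self, abs_zero]
    rw [e]; linarith
  · obtain ⟨k, m, m', hk, hkN, hm, hm', hs⟩ := large h0 h1 h2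
    refine ⟨k, u2, m, k, m', hk, by omega, ?_, by omega, by omega⟩
    have e : |(u2 : ℤ) * k - k * u2| = 0 := by rw [mul_comm, sub_self, abs_zero]
    rw [e]; linarith
  · obtain ⟨k, m, m', hk, hkN, hm, hm', hs⟩ := large h0 h1 h2
    refine ⟨k, u3, m, m', k, hk, by omega, ?_, by omega, by omega⟩
    have e : |(u3 : ℤ) * k - k * u3| = 0 := by rw [mul_comm, sub_self, abs_zero]
    rw [e]; linarith

/-- Every nonzero vector can be rounded to a smaller one, or is in `full`, whatever the signs. -/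
theorem red_or_inF (u1 u2 u3 : ℕ) (h : u1 + u2 + u3 ≠ 0) :
    Red u1 u2 u3 ∨ inF u1 u2 u3 = true := by
  by_cases hl : 12 ≤ u1 ∨ 12 ≤ u2 ∨ 12 ≤ u3
  · exact Or.inl (red_large hl)
  · push Not at hl
    have hf := finT_true
    simp only [finT, List.all_eq_true, List.mem_range, Bool.or_eq_true, decide_eq_true_eq] at hf
    rcases hf u1 hl.1 u2 hl.2.1 u3 hl.2.2 with (h' | h') | h'
    · exact absurd h' h
    · exact Or.inl (red_of_redB h')
    · exact Or.inr h'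

theorem inF_mem {u1 u2 u3 : ℕ} (h : inF u1 u2 u3 = true) {s1 s2 s3 : ℤ}
    (h1 : s1 = 1 ∨ s1 = -1) (h2 : s2 = 1 ∨ s2 = -1) (h3 : s3 = 1 ∨ s3 = -1) :
    (s1 * u1, s2 * u2, s3 * u3) ∈ full := by
  simp only [inF, Bool.and_eq_true, List.contains_iff_mem] at h
  obtain ⟨⟨⟨⟨⟨⟨⟨a1, a2⟩, a3⟩, a4⟩, a5⟩, a6⟩, a7⟩, a8⟩ := h
  rcases h1 with rfl | rfl <;> rcases h2 with rfl | rfl <;> rcases h3 with rfl | rfl <;>
    simpa using (by assumption)

theorem full_touch {a : Fin 3 → Fin 3 → ℝ} {T : Fin 3 → ℝ}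
    (h : ∀ v ∈ half, ∃ j, T j ≤ |(v.1 : ℝ) * a 0 j + (v.2.1 : ℝ) * a 1 j + (v.2.2 : ℝ) * a 2 j|)
    {v : ℤ × ℤ × ℤ} (hv : v ∈ full) :
    ∃ j, T j ≤ |(v.1 : ℝ) * a 0 j + (v.2.1 : ℝ) * a 1 j + (v.2.2 : ℝ) * a 2 j| := by
  rw [full, List.mem_append, List.mem_map] at hv
  rcases hv with hv | ⟨w, hw, rfl⟩
  · exact h v hv
  · obtain ⟨j, hj⟩ := h w hw
    refine ⟨j, hj.trans (le_of_eq ?_)⟩
    rw [← abs_neg]
    congr 1
    push_cast
    ring

/-- The list `half` suffices, form with signs. -/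
theorem half_complete_aux {a : Fin 3 → Fin 3 → ℝ} {T : Fin 3 → ℝ} (hT : ∀ j, 0 < T j)
    (ha : ∀ i j, 3 * |a i j| ≤ 4 * T j)
    (h : ∀ v ∈ half, ∃ j, T j ≤ |(v.1 : ℝ) * a 0 j + (v.2.1 : ℝ) * a 1 j + (v.2.2 : ℝ) * a 2 j|)
    {s1 s2 s3 : ℤ} (h1 : s1 = 1 ∨ s1 = -1) (h2 : s2 = 1 ∨ s2 = -1) (h3 : s3 = 1 ∨ s3 = -1) :
    ∀ S u1 u2 u3 : ℕ, u1 + u2 + u3 = S → S ≠ 0 →
      ∃ j, T j ≤ |((s1 * u1 : ℤ) : ℝ) * a 0 j + ((s2 * u2 : ℤ) : ℝ) * a 1 j
        + ((s3 * u3 : ℤ) : ℝ) * a 2 j| := by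
  intro S
  induction S using Nat.strong_induction_on with
  | _ S ih =>
    intro u1 u2 u3 hS hS0
    rcases red_or_inF u1 u2 u3 (by omega) with hr | hf
    · obtain ⟨k, N, m1, m2, m3, hk, hN, hs, hm0, hmS⟩ := hr
      obtain ⟨j, hj⟩ := ih (m1 + m2 + m3) (by omega) m1 m2 m3 rfl (by omega)
      by_contra hc
      push Not at hc
      have hcj := hc j
      have hs' : 3 * (k : ℝ) + 4 * (|(N : ℝ) * m1 - k * u1| + |(N : ℝ) * m2 - k * u2|
          + |(N : ℝ) * m3 - k * u3|) ≤ 3 * N := by exact_mod_cast hs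
      have hkR : (0 : ℝ) < k := by exact_mod_cast hk
      have hNR : (0 : ℝ) < N := by exact_mod_cast hN
      have sa : ∀ {s : ℤ}, (s = 1 ∨ s = -1) → |(s : ℝ)| = 1 := by
        rintro s (rfl | rfl) <;> simp
      have eq : (N : ℝ) * (((s1 * m1 : ℤ) : ℝ) * a 0 j + ((s2 * m2 : ℤ) : ℝ) * a 1 j
          + ((s3 * m3 : ℤ) : ℝ) * a 2 j) =
          k * (((s1 * u1 : ℤ) : ℝ) * a 0 j + ((s2 * u2 : ℤ) : ℝ) * a 1 j
          + ((s3 * u3 : ℤ) : ℝ) * a 2 j)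
          + (s1 * (((N : ℝ) * m1 - k * u1) * a 0 j) + s2 * (((N : ℝ) * m2 - k * u2) * a 1 j)
          + s3 * (((N : ℝ) * m3 - k * u3) * a 2 j)) := by
        push_cast
        ring
      have hA : (N : ℝ) * T j ≤ |(N : ℝ) * (((s1 * m1 : ℤ) : ℝ) * a 0 j
          + ((s2 * m2 : ℤ) : ℝ) * a 1 j + ((s3 * m3 : ℤ) : ℝ) * a 2 j)| := by
        rw [abs_mul, abs_of_pos hNR]
        exact mul_le_mul_of_nonneg_left hj hNR.le
      rw [eq] at hA
      have hB : |(k : ℝ) * (((s1 * u1 : ℤ) : ℝ) * a 0 j + ((s2 * u2 : ℤ) : ℝ) * a 1 j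
          + ((s3 * u3 : ℤ) : ℝ) * a 2 j)| < k * T j := by
        rw [abs_mul, abs_of_pos hkR]
        exact mul_lt_mul_of_pos_left hcj hkR
      have e1 : |(s1 : ℝ) * (((N : ℝ) * m1 - k * u1) * a 0 j)| =
          |(N : ℝ) * m1 - k * u1| * |a 0 j| := by rw [abs_mul, sa h1, one_mul, abs_mul]
      have e2 : |(s2 : ℝ) * (((N : ℝ) * m2 - k * u2) * a 1 j)| =
          |(N : ℝ) * m2 - k * u2| * |a 1 j| := by rw [abs_mul, sa h2, one_mul, abs_mul]
      have e3 : |(s3 : ℝ) * (((N : ℝ) * m3 - k * u3) * a 2 j)| =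
          |(N : ℝ) * m3 - k * u3| * |a 2 j| := by rw [abs_mul, sa h3, one_mul, abs_mul]
      have tri1 := abs_add_le ((k : ℝ) * (((s1 * u1 : ℤ) : ℝ) * a 0 j + ((s2 * u2 : ℤ) : ℝ) * a 1 j
          + ((s3 * u3 : ℤ) : ℝ) * a 2 j)) (s1 * (((N : ℝ) * m1 - k * u1) * a 0 j)
          + s2 * (((N : ℝ) * m2 - k * u2) * a 1 j) + s3 * (((N : ℝ) * m3 - k * u3) * a 2 j))
      have tri2 := abs_add_three (s1 * (((N : ℝ) * m1 - k * u1) * a 0 j))
          (s2 * (((N : ℝ) * m2 - k * u2) * a 1 j)) (s3 * (((N : ℝ) * m3 - k * u3) * a 2 j))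
      rw [e1, e2, e3] at tri2
      have p1 : |(N : ℝ) * m1 - k * u1| * (3 * |a 0 j|) ≤ |(N : ℝ) * m1 - k * u1| * (4 * T j) :=
        mul_le_mul_of_nonneg_left (ha 0 j) (abs_nonneg _)
      have p2 : |(N : ℝ) * m2 - k * u2| * (3 * |a 1 j|) ≤ |(N : ℝ) * m2 - k * u2| * (4 * T j) :=
        mul_le_mul_of_nonneg_left (ha 1 j) (abs_nonneg _)
      have p3 : |(N : ℝ) * m3 - k * u3| * (3 * |a 2 j|) ≤ |(N : ℝ) * m3 - k * u3| * (4 * T j) :=
        mul_le_mul_of_nonneg_left (ha 2 j) (abs_nonneg _)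
      have fin := mul_le_mul_of_nonneg_right hs' (hT j).le
      nlinarith
    · exact full_touch h (inF_mem hf h1 h2 h3)

/-- The list `half` suffices for the emptiness test if the basis vectors have norm at most `4/3`. -/
theorem half_complete {a : Fin 3 → Fin 3 → ℝ} {T : Fin 3 → ℝ} (hT : ∀ j, 0 < T j)
    (ha : ∀ i j, 3 * |a i j| ≤ 4 * T j)
    (h : ∀ v ∈ half, ∃ j, T j ≤ |(v.1 : ℝ) * a 0 j + (v.2.1 : ℝ) * a 1 j + (v.2.2 : ℝ) * a 2 j|)
    (n : ℤ × ℤ × ℤ) (hn : n ≠ (0, 0, 0)) :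
    ∃ j, T j ≤ |(n.1 : ℝ) * a 0 j + (n.2.1 : ℝ) * a 1 j + (n.2.2 : ℝ) * a 2 j| := by
  obtain ⟨x, y, z⟩ := n
  have sg : ∀ x : ℤ, ∃ s : ℤ, (s = 1 ∨ s = -1) ∧ x = s * x.natAbs := by
    intro x
    rcases le_total 0 x with hx | hx
    · exact ⟨1, Or.inl rfl, by omega⟩
    · exact ⟨-1, Or.inr rfl, by omega⟩
  obtain ⟨s1, h1, e1⟩ := sg x
  obtain ⟨s2, h2, e2⟩ := sg y
  obtain ⟨s3, h3, e3⟩ := sg z
  have hne : x.natAbs + y.natAbs + z.natAbs ≠ 0 := by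
    intro h0
    apply hn
    have : x = 0 ∧ y = 0 ∧ z = 0 := by omega
    rw [this.1, this.2.1, this.2.2]
  obtain ⟨j, hj⟩ := half_complete_aux hT ha h h1 h2 h3 _ x.natAbs y.natAbs z.natAbs rfl hne
  refine ⟨j, ?_⟩
  rw [← e1, ← e2, ← e3] at hj
  exact hj

end Pool.Agent.Lib.MP_ddd95a_nt
end

section

/-!
# Corner weights of a column, minima
-/

namespace Pool.Agent.Lib.MP_ddd95a_nt

open scoped BigOperators

/-- `V` is in the cell. -/
structure InCell (V : Matrix (Fin 3) (Fin 3) ℝ) (l0 h0 l1 h1 l2 h2 l3 h3 l4 h4 l5 h5 : ℕ) :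
    Prop where
  a0 : (l0 : ℝ) ≤ 64 * (V 1 0 + 1)
  b0 : 64 * (V 1 0 + 1) ≤ h0
  a1 : (l1 : ℝ) ≤ 64 * (V 2 0 + 1)
  b1 : 64 * (V 2 0 + 1) ≤ h1
  a2 : (l2 : ℝ) ≤ 64 * (V 0 1 + 1)
  b2 : 64 * (V 0 1 + 1) ≤ h2
  a3 : (l3 : ℝ) ≤ 64 * (V 2 1 + 1)
  b3 : 64 * (V 2 1 + 1) ≤ h3
  a4 : (l4 : ℝ) ≤ 64 * (V 0 2 + 1)
  b4 : 64 * (V 0 2 + 1) ≤ h4
  a5 : (l5 : ℝ) ≤ 64 * (V 1 2 + 1)
  b5 : 64 * (V 1 2 + 1) ≤ h5

/-- Bilinear weights of a point in a rectangle. -/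
structure Wt (ω : Fin 4 → ℝ) (la ha lb hb : ℕ) (ya yb : ℝ) : Prop where
  nn : ∀ s, 0 ≤ ω s
  one : ∑ s, ω s = 1
  ea : ∑ s, ω s * (yA la ha s : ℝ) = ya
  eb : ∑ s, ω s * (yB lb hb s : ℝ) = yb

lemma exists_interp {l h y : ℝ} (h1 : l ≤ y) (h2 : y ≤ h) :
    ∃ t : ℝ, 0 ≤ t ∧ t ≤ 1 ∧ (1 - t) * l + t * h = y := by
  rcases eq_or_lt_of_le (h1.trans h2) with he | hlt
  · exact ⟨0, le_refl _, zero_le_one, by linarith⟩
  · refine ⟨(y - l) / (h - l), div_nonneg (by linarith) (by linarith), ?_, ?_⟩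
    · rw [div_le_one (by linarith)]; linarith
    · have : h - l ≠ 0 := by linarith
      field_simp
      ring

theorem exists_wt {la ha lb hb : ℕ} {ya yb : ℝ} (h1 : (la : ℝ) ≤ ya) (h2 : ya ≤ ha)
    (h3 : (lb : ℝ) ≤ yb) (h4 : yb ≤ hb) : ∃ ω : Fin 4 → ℝ, Wt ω la ha lb hb ya yb := by
  obtain ⟨s, s0, s1, hs⟩ := exists_interp h1 h2
  obtain ⟨t, t0, t1, ht⟩ := exists_interp h3 h4
  have s1' : 0 ≤ 1 - s := by linarith
  have t1' : 0 ≤ 1 - t := by linarith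
  refine ⟨![(1 - s) * (1 - t), s * (1 - t), (1 - s) * t, s * t], ?_, ?_, ?_, ?_⟩
  · intro i
    fin_cases i
    · exact mul_nonneg s1' t1'
    · exact mul_nonneg s0 t1'
    · exact mul_nonneg s1' t0
    · exact mul_nonneg s0 t0
  · rw [Fin.sum_univ_four]
    simp
    ring
  · rw [Fin.sum_univ_four]
    simp [yA]
    linear_combination hs
  · rw [Fin.sum_univ_four]
    simp [yB]
    linear_combination ht

/-- Affine functions are interpolated by the weights. -/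
lemma Wt.affine {ω : Fin 4 → ℝ} {la ha lb hb : ℕ} {ya yb : ℝ} (h : Wt ω la ha lb hb ya yb)
    (α β γ : ℝ) :
    ∑ s, ω s * (α + β * (yA la ha s : ℝ) + γ * (yB lb hb s : ℝ)) = α + β * ya + γ * yb := by
  have h1 := h.one
  have h2 := h.ea
  have h3 := h.eb
  rw [Fin.sum_univ_four] at *
  linear_combination α * h1 + β * h2 + γ * h3

/-- Real minimum over a list (`0` for the empty list). -/
noncomputable def minR (g : ℕ → ℝ) : List ℕ → ℝ
  | [] => 0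
  | w :: t => t.foldr (fun w' a => min (g w') a) (g w)

lemma minR_le {g : ℕ → ℝ} {W : List ℕ} {w : ℕ} (hw : w ∈ W) : minR g W ≤ g w := by
  cases W with
  | nil => cases hw
  | cons a t =>
    have key : ∀ t : List ℕ, (t.foldr (fun w' b => min (g w') b) (g a) ≤ g a) ∧
        ∀ w ∈ t, t.foldr (fun w' b => min (g w') b) (g a) ≤ g w := by
      intro t
      induction t with
      | nil => exact ⟨le_refl _, fun w hw => by cases hw⟩
      | cons b t ih =>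
        refine ⟨(min_le_right _ _).trans ih.1, ?_⟩
        intro w hw
        rcases List.mem_cons.1 hw with rfl | hw
        · exact min_le_left _ _
        · exact (min_le_right _ _).trans (ih.2 w hw)
    rcases List.mem_cons.1 hw with rfl | hw
    · exact (key t).1
    · exact (key t).2 w hw

lemma minR_mem {g : ℕ → ℝ} {W : List ℕ} (hW : W ≠ []) : ∃ w ∈ W, minR g W = g w := by
  cases W with
  | nil => exact (hW rfl).elim
  | cons a t =>
    have key : ∀ t : List ℕ, ∃ w ∈ a :: t, t.foldr (fun w' b => min (g w') b) (g a) = g w := by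
      intro t
      induction t with
      | nil => exact ⟨a, List.mem_cons_self, rfl⟩
      | cons b t ih =>
        obtain ⟨w, hw, h⟩ := ih
        rcases min_choice (g b) (t.foldr (fun w' b => min (g w') b) (g a)) with hc | hc
        · exact ⟨b, by simp, hc⟩
        · refine ⟨w, ?_, hc.trans h⟩
          rcases List.mem_cons.1 hw with rfl | hw
          · exact List.mem_cons_self
          · exact List.mem_cons_of_mem _ (List.mem_cons_of_mem _ hw)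
    exact key t

lemma minR_nonneg {g : ℕ → ℝ} {W : List ℕ} (h : ∀ w ∈ W, 0 ≤ g w) : 0 ≤ minR g W := by
  by_cases hW : W = []
  · rw [hW]; exact le_refl _
  · obtain ⟨w, hw, he⟩ := minR_mem (g := g) hW
    rw [he]; exact h w hw

/-- The interpolated corner minima are at most the real minimum. -/
lemma minX_le {ω : Fin 4 → ℝ} (hω : ∀ s, 0 ≤ ω s) {X : ℤ × ℤ × ℤ → Fin 4 → ℤ} {g : ℕ → ℝ}
    {W : List ℕ} (h0 : ∀ w ∈ W, ∀ s, 0 ≤ X (fv w) s)
    (hg : ∀ w ∈ W, 64 * g w = ∑ s, ω s * (X (fv w) s : ℝ)) :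
    ∑ s, ω s * (minX X s W : ℝ) ≤ 64 * minR g W := by
  cases W with
  | nil => simp [minX, minR]
  | cons a t =>
    have hcast : ∀ w ∈ a :: t, ∀ s, (((X (fv w) s).toNat : ℕ) : ℝ) = (X (fv w) s : ℝ) := by
      intro w hw s
      have : (((X (fv w) s).toNat : ℕ) : ℤ) = X (fv w) s := Int.toNat_of_nonneg (h0 w hw s)
      exact_mod_cast this
    have key : ∀ t : List ℕ, (∀ w ∈ a :: t, ∀ s, 0 ≤ X (fv w) s) →
        (∀ w ∈ a :: t, 64 * g w = ∑ s, ω s * (X (fv w) s : ℝ)) →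
        ∑ s, ω s * ((t.foldr (fun w' b => min (X (fv w') s).toNat b) (X (fv a) s).toNat : ℕ) : ℝ) ≤
        64 * t.foldr (fun w' b => min (g w') b) (g a) := by
      intro t
      induction t with
      | nil =>
        intro h0 hg
        simp only [List.foldr_nil]
        rw [hg a List.mem_cons_self]
        apply le_of_eq
        apply Finset.sum_congr rfl
        intro s _
        have : (((X (fv a) s).toNat : ℕ) : ℤ) = X (fv a) s :=
          Int.toNat_of_nonneg (h0 a List.mem_cons_self s)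
        have h2 : (((X (fv a) s).toNat : ℕ) : ℝ) = (X (fv a) s : ℝ) := by exact_mod_cast this
        rw [h2]
      | cons b t ih =>
        intro h0 hg
        have hsub : ∀ w ∈ a :: t, w ∈ a :: b :: t := by
          intro w hw
          rcases List.mem_cons.1 hw with rfl | hw
          · exact List.mem_cons_self
          · exact List.mem_cons_of_mem _ (List.mem_cons_of_mem _ hw)
        have ih' := ih (fun w hw => h0 w (hsub w hw)) (fun w hw => hg w (hsub w hw))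
        simp only [List.foldr_cons]
        rw [mul_min_of_nonneg _ _ (by norm_num : (0 : ℝ) ≤ 64)]
        apply le_min
        · rw [hg b (by simp)]
          apply Finset.sum_le_sum
          intro s _
          apply mul_le_mul_of_nonneg_left _ (hω s)
          have : (((X (fv b) s).toNat : ℕ) : ℤ) = X (fv b) s :=
            Int.toNat_of_nonneg (h0 b (by simp) s)
          have h2 : (((X (fv b) s).toNat : ℕ) : ℝ) = (X (fv b) s : ℝ) := by exact_mod_cast this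
          rw [← h2]
          exact_mod_cast min_le_left _ _
        · refine le_trans ?_ ih'
          apply Finset.sum_le_sum
          intro s _
          apply mul_le_mul_of_nonneg_left _ (hω s)
          exact_mod_cast min_le_right _ _
    exact key t h0 hg

end Pool.Agent.Lib.MP_ddd95a_nt
end

section

/-!
# Soundness of the emptiness test of a box
-/

namespace Pool.Agent.Lib.MP_ddd95a_nt

open scoped BigOperators

/-- Weights of a column and the interpolation of the coordinate function. -/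
structure ColOK (g : ℤ × ℤ × ℤ → ℝ) (ω : Fin 4 → ℝ) (X : ℤ × ℤ × ℤ → Fin 4 → ℤ) : Prop where
  nn : ∀ s, 0 ≤ ω s
  one : ∑ s, ω s = 1
  eq : ∀ v, 64 * g v = ∑ s, ω s * (X v s : ℝ)

namespace ColOK

variable {g : ℤ × ℤ × ℤ → ℝ} {ω : Fin 4 → ℝ} {X : ℤ × ℤ × ℤ → Fin 4 → ℤ}

lemma comb (h : ColOK g ω X) (a b : ℝ) (u v : ℤ × ℤ × ℤ)
    (hs : ∀ s, a * (X u s : ℝ) ≤ b * (X v s : ℝ)) : a * g u ≤ b * g v := by
  have h1 : ∑ s, ω s * (a * (X u s : ℝ)) ≤ ∑ s, ω s * (b * (X v s : ℝ)) :=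
    Finset.sum_le_sum fun s _ => mul_le_mul_of_nonneg_left (hs s) (h.nn s)
  have h2 : ∑ s, ω s * (a * (X u s : ℝ)) = a * (64 * g u) := by
    rw [h.eq, Finset.mul_sum]
    exact Finset.sum_congr rfl fun s _ => by ring
  have h3 : ∑ s, ω s * (b * (X v s : ℝ)) = b * (64 * g v) := by
    rw [h.eq, Finset.mul_sum]
    exact Finset.sum_congr rfl fun s _ => by ring
  rw [h2, h3] at h1
  linarith

lemma le_const (h : ColOK g ω X) (a b : ℝ) (u : ℤ × ℤ × ℤ)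
    (hs : ∀ s, a * (X u s : ℝ) ≤ b) : a * (64 * g u) ≤ b := by
  have h1 : ∑ s, ω s * (a * (X u s : ℝ)) ≤ ∑ s, ω s * b :=
    Finset.sum_le_sum fun s _ => mul_le_mul_of_nonneg_left (hs s) (h.nn s)
  have h2 : ∑ s, ω s * (a * (X u s : ℝ)) = a * (64 * g u) := by
    rw [h.eq, Finset.mul_sum]
    exact Finset.sum_congr rfl fun s _ => by ring
  rw [h2, ← Finset.sum_mul, h.one, one_mul] at h1
  exact h1

lemma le (h : ColOK g ω X) {u v : ℤ × ℤ × ℤ} (hs : ∀ s, X u s ≤ X v s) : g u ≤ g v := by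
  have := h.comb 1 1 u v (fun s => by
    have : (X u s : ℝ) ≤ X v s := by exact_mod_cast hs s
    linarith)
  linarith

lemma le_neg (h : ColOK g ω X) {u v : ℤ × ℤ × ℤ} (hs : ∀ s, X u s ≤ -X v s) : g u ≤ -g v := by
  have := h.comb 1 (-1) u v (fun s => by
    have : (X u s : ℝ) ≤ -X v s := by exact_mod_cast hs s
    linarith)
  linarith

lemma nonneg (h : ColOK g ω X) {u : ℤ × ℤ × ℤ} (hs : ∀ s, 0 ≤ X u s) : 0 ≤ g u := by
  have := h.le_const (-1) 0 u (fun s => by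
    have : (0 : ℝ) ≤ X u s := by exact_mod_cast hs s
    linarith)
  linarith

lemma le_one (h : ColOK g ω X) {u : ℤ × ℤ × ℤ} (hs : ∀ s, X u s ≤ 64) : g u ≤ 1 := by
  have := h.le_const 1 64 u (fun s => by
    have : (X u s : ℝ) ≤ 64 := by exact_mod_cast hs s
    linarith)
  linarith

lemma lt_one (h : ColOK g ω X) {u : ℤ × ℤ × ℤ} (hs : ∀ s, |X u s| < 64) : |g u| < 1 := by
  have h1 := h.le_const 1 63 u (fun s => by
    have h2 := (abs_lt.1 (hs s)).2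
    have : (X u s : ℝ) ≤ 63 := by
      have : X u s ≤ 63 := by omega
      exact_mod_cast this
    linarith)
  have h2 := h.le_const (-1) 63 u (fun s => by
    have h2 := (abs_lt.1 (hs s)).1
    have : (-63 : ℝ) ≤ X u s := by
      have : -63 ≤ X u s := by omega
      exact_mod_cast this
    linarith)
  rw [abs_lt]
  constructor <;> linarith

lemma norm (h : ColOK g ω X) {u v : ℤ × ℤ × ℤ} (hs : ∀ s, |3 * X u s| ≤ 4 * X v s) :
    3 * |g u| ≤ 4 * g v := by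
  have h1 := h.comb 3 4 u v (fun s => by
    have := (abs_le.1 (hs s)).2
    exact_mod_cast this)
  have h2 := h.comb (-3) 4 u v (fun s => by
    have := (abs_le.1 (hs s)).1
    have : -(3 * X u s) ≤ 4 * X v s := by linarith
    have h' : -(3 * (X u s : ℝ)) ≤ 4 * X v s := by exact_mod_cast this
    linarith)
  rcases abs_cases (g u) with ⟨h3, _⟩ | ⟨h3, _⟩ <;> rw [h3] <;> linarith

end ColOK

/-- The coordinate as function of the coefficients relative to a base. -/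
noncomputable def gc (V : Matrix (Fin 3) (Fin 3) ℝ) (c : ℕ) (j : Fin 3) (v : ℤ × ℤ × ℤ) : ℝ :=
  crd V (vecF c v) j

lemma crd_three (V : Matrix (Fin 3) (Fin 3) ℝ) (n : Fin 3 → ℤ) (j : Fin 3) :
    crd V n j = n 0 * V 0 j + n 1 * V 1 j + n 2 * V 2 j := by
  simp [crd, Fin.sum_univ_three]

lemma cv_apply (c p q r la ha lb hb : ℕ) (v : ℤ × ℤ × ℤ) (s : Fin 4) :
    cv c p q r la ha lb hb v s =
      64 * vec c v r + (yA la ha s - 64) * vec c v p + (yB lb hb s - 64) * vec c v q := by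
  fin_cases s <;> rfl

lemma colOK0 {V : Matrix (Fin 3) (Fin 3) ℝ} (hd : V 0 0 = 1) {ω : Fin 4 → ℝ} {l0 h0 l1 h1 : ℕ}
    (h : Wt ω l0 h0 l1 h1 (64 * (V 1 0 + 1)) (64 * (V 2 0 + 1))) (c : ℕ) :
    ColOK (gc V c 0) ω (cv c 1 2 0 l0 h0 l1 h1) := by
  refine ⟨h.nn, h.one, fun v => ?_⟩
  have := h.affine (64 * vec c v 0 - 64 * vec c v 1 - 64 * vec c v 2) (vec c v 1) (vec c v 2)
  have e : ∑ s, ω s * ((cv c 1 2 0 l0 h0 l1 h1 v s : ℤ) : ℝ) = ∑ s, ω s *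
      ((64 * vec c v 0 - 64 * vec c v 1 - 64 * vec c v 2 : ℝ) + (vec c v 1 : ℝ) * (yA l0 h0 s : ℝ)
        + (vec c v 2 : ℝ) * (yB l1 h1 s : ℝ)) := by
    apply Finset.sum_congr rfl
    intro s _
    rw [cv_apply]
    push_cast
    ring
  rw [e, this, gc, crd_three, hd]
  simp only [vecF, Matrix.cons_val_zero, Matrix.cons_val_one, Matrix.cons_val]
  ring

lemma colOK1 {V : Matrix (Fin 3) (Fin 3) ℝ} (hd : V 1 1 = 1) {ω : Fin 4 → ℝ} {l0 h0 l1 h1 : ℕ}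
    (h : Wt ω l0 h0 l1 h1 (64 * (V 0 1 + 1)) (64 * (V 2 1 + 1))) (c : ℕ) :
    ColOK (gc V c 1) ω (cv c 0 2 1 l0 h0 l1 h1) := by
  refine ⟨h.nn, h.one, fun v => ?_⟩
  have := h.affine (64 * vec c v 1 - 64 * vec c v 0 - 64 * vec c v 2) (vec c v 0) (vec c v 2)
  have e : ∑ s, ω s * ((cv c 0 2 1 l0 h0 l1 h1 v s : ℤ) : ℝ) = ∑ s, ω s *
      ((64 * vec c v 1 - 64 * vec c v 0 - 64 * vec c v 2 : ℝ) + (vec c v 0 : ℝ) * (yA l0 h0 s : ℝ)
        + (vec c v 2 : ℝ) * (yB l1 h1 s : ℝ)) := by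
    apply Finset.sum_congr rfl
    intro s _
    rw [cv_apply]
    push_cast
    ring
  rw [e, this, gc, crd_three, hd]
  simp only [vecF, Matrix.cons_val_zero, Matrix.cons_val_one, Matrix.cons_val]
  ring

lemma colOK2 {V : Matrix (Fin 3) (Fin 3) ℝ} (hd : V 2 2 = 1) {ω : Fin 4 → ℝ} {l0 h0 l1 h1 : ℕ}
    (h : Wt ω l0 h0 l1 h1 (64 * (V 0 2 + 1)) (64 * (V 1 2 + 1))) (c : ℕ) :
    ColOK (gc V c 2) ω (cv c 0 1 2 l0 h0 l1 h1) := by
  refine ⟨h.nn, h.one, fun v => ?_⟩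
  have := h.affine (64 * vec c v 2 - 64 * vec c v 0 - 64 * vec c v 1) (vec c v 0) (vec c v 1)
  have e : ∑ s, ω s * ((cv c 0 1 2 l0 h0 l1 h1 v s : ℤ) : ℝ) = ∑ s, ω s *
      ((64 * vec c v 2 - 64 * vec c v 0 - 64 * vec c v 1 : ℝ) + (vec c v 0 : ℝ) * (yA l0 h0 s : ℝ)
        + (vec c v 1 : ℝ) * (yB l1 h1 s : ℝ)) := by
    apply Finset.sum_congr rfl
    intro s _
    rw [cv_apply]
    push_cast
    ring
  rw [e, this, gc, crd_three, hd]
  simp only [vecF, Matrix.cons_val_zero, Matrix.cons_val_one, Matrix.cons_val]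
  ring

/-- The side length in column `j` of the box with base `c` and list `W`. -/
noncomputable def sideT (V : Matrix (Fin 3) (Fin 3) ℝ) (c : ℕ) (W : List ℕ) (j : Fin 3) : ℝ :=
  minR (fun w => gc V c j (fv w)) W

/-- Linearity of the coordinate in the coefficients. -/
lemma gc_lin (V : Matrix (Fin 3) (Fin 3) ℝ) (c : ℕ) (j : Fin 3) (v : ℤ × ℤ × ℤ) :
    gc V c j v = (v.1 : ℝ) * gc V c j (1, 0, 0) + (v.2.1 : ℝ) * gc V c j (0, 1, 0)
      + (v.2.2 : ℝ) * gc V c j (0, 0, 1) := by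
  simp only [gc, crd_three, vecF, vec, Matrix.cons_val_zero, Matrix.cons_val_one, Matrix.cons_val]
  push_cast
  ring

/-- Properties of one column of a tested box. -/
structure SideOK (g : ℤ × ℤ × ℤ → ℝ) (T : ℝ) (X : ℤ × ℤ × ℤ → Fin 4 → ℤ) (W : List ℕ) : Prop where
  pos : ∀ w ∈ W, ∀ s, 0 ≤ X (fv w) s
  nrm : ∀ w ∈ W, ∀ s, ∀ i < 3, |3 * X (fv i) s| ≤ 4 * X (fv w) s
  def' : T = minR (fun w => g (fv w)) W

namespace SideOK

variable {g : ℤ × ℤ × ℤ → ℝ} {ω : Fin 4 → ℝ} {X : ℤ × ℤ × ℤ → Fin 4 → ℤ} {T : ℝ} {W : List ℕ}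

lemma le_dom (h : SideOK g T X W) (hc : ColOK g ω X) {v : ℤ × ℤ × ℤ}
    (hw : ∃ w ∈ W, (∀ s, X (fv w) s ≤ X v s) ∨ (∀ s, X (fv w) s ≤ -X v s)) : T ≤ |g v| := by
  obtain ⟨w, hw, h1 | h1⟩ := hw
  · rw [h.def']
    exact (minR_le hw).trans ((hc.le h1).trans (le_abs_self _))
  · rw [h.def']
    exact (minR_le hw).trans ((hc.le_neg h1).trans (neg_le_abs _))

lemma le_o2 (h : SideOK g T X W) (hc : ColOK g ω X) {v : ℤ × ℤ × ℤ}
    (hw : (∃ w ∈ W, ∀ s, X (fv w) s ≤ 64) ∨ (∀ s, |X v s| < 64)) (h1 : 1 ≤ |g v|) :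
    T ≤ |g v| := by
  rcases hw with ⟨w, hw, h2⟩ | h2
  · rw [h.def']
    exact (minR_le hw).trans ((hc.le_one h2).trans h1)
  · have := hc.lt_one h2
    linarith

lemma norm (h : SideOK g T X W) (hc : ColOK g ω X) (hT : 0 < T) {i : ℕ} (hi : i < 3) :
    3 * |g (fv i)| ≤ 4 * T := by
  have hW : W ≠ [] := by
    intro h0
    rw [h.def', h0] at hT
    simp [minR] at hT
  obtain ⟨w, hw, he⟩ := minR_mem (g := fun w => g (fv w)) hW
  rw [h.def', he]
  exact hc.norm (fun s => h.nrm w hw s i hi)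

lemma nonneg (h : SideOK g T X W) (hc : ColOK g ω X) : 0 ≤ T := by
  rw [h.def']
  exact minR_nonneg fun w hw => hc.nonneg (h.pos w hw)

end SideOK

lemma fv0 : fv 0 = (1, 0, 0) := by decide
lemma fv1 : fv 1 = (0, 1, 0) := by decide
lemma fv2 : fv 2 = (0, 0, 1) := by decide

lemma half_ne_zero : ∀ v ∈ half, v ≠ (0, 0, 0) := by decide +kernel

/-- **Soundness of the emptiness test.** -/
theorem box_empty {V : Matrix (Fin 3) (Fin 3) ℝ} (hV : Nrm V) {c : ℕ} (hu : uni c = true)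
    {ω1 ω2 ω3 : Fin 4 → ℝ} {X1 X2 X3 : ℤ × ℤ × ℤ → Fin 4 → ℤ} (b1 : BX X1) (b2 : BX X2)
    (b3 : BX X3) (c1 : ColOK (gc V c 0) ω1 X1)
    (c2 : ColOK (gc V c 1) ω2 X2) (c3 : ColOK (gc V c 2) ω3 X3) {o2 : Bool} {W1 W2 W3 : List ℕ}
    (h : boxChk (FL X1) (FL X2) (FL X3) o2 W1 W2 W3 = true)
    (T1 : 0 < sideT V c W1 0) (T2 : 0 < sideT V c W2 1) (T3 : 0 < sideT V c W3 2) :
    EmptyBox V ![sideT V c W1 0, sideT V c W2 1, sideT V c W3 2] := by
  obtain ⟨p1, p2, p3, hh⟩ := boxChk_spec b1 b2 b3 h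
  have s1 : SideOK (gc V c 0) (sideT V c W1 0) X1 W1 :=
    ⟨fun w hw s => ((p1 w hw).2 s).1, fun w hw s => ((p1 w hw).2 s).2.2, rfl⟩
  have s2 : SideOK (gc V c 1) (sideT V c W2 1) X2 W2 :=
    ⟨fun w hw s => ((p2 w hw).2 s).1, fun w hw s => ((p2 w hw).2 s).2.2, rfl⟩
  have s3 : SideOK (gc V c 2) (sideT V c W3 2) X3 W3 :=
    ⟨fun w hw s => ((p3 w hw).2 s).1, fun w hw s => ((p3 w hw).2 s).2.2, rfl⟩
  set T : Fin 3 → ℝ := ![sideT V c W1 0, sideT V c W2 1, sideT V c W3 2] with hTdef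
  have e0 : T 0 = sideT V c W1 0 := rfl
  have e1 : T 1 = sideT V c W2 1 := rfl
  have e2 : T 2 = sideT V c W3 2 := rfl
  let a : Fin 3 → Fin 3 → ℝ := fun i j => gc V c j (fv i)
  have hT : ∀ j, 0 < T j := by
    intro j; fin_cases j
    · exact T1
    · exact T2
    · exact T3
  have ha : ∀ i j, 3 * |a i j| ≤ 4 * T j := by
    intro i j
    have hi : (i : ℕ) < 3 := i.2
    fin_cases j
    · exact s1.norm c1 T1 hi
    · exact s2.norm c2 T2 hi
    · exact s3.norm c3 T3 hi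
  have hlin : ∀ (v : ℤ × ℤ × ℤ) (j : Fin 3), gc V c j v =
      (v.1 : ℝ) * a 0 j + (v.2.1 : ℝ) * a 1 j + (v.2.2 : ℝ) * a 2 j := by
    intro v j
    rw [gc_lin]
    show _ = (v.1 : ℝ) * gc V c j (fv 0) + (v.2.1 : ℝ) * gc V c j (fv 1)
      + (v.2.2 : ℝ) * gc V c j (fv 2)
    rw [fv0, fv1, fv2]
  intro n hn
  obtain ⟨m, hm0, hm⟩ := uni_surj hu hn
  have key := half_complete hT ha (fun v hv => by
    rcases hh v hv with h1 | h1 | h1 | h1
    · refine ⟨0, ?_⟩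
      rw [← hlin]
      exact s1.le_dom c1 h1
    · refine ⟨1, ?_⟩
      rw [← hlin]
      exact s2.le_dom c2 h1
    · refine ⟨2, ?_⟩
      rw [← hlin]
      exact s3.le_dom c3 h1
    · obtain ⟨j, hj⟩ := hV.empty (vecF c v) (uni_inj hu (half_ne_zero v hv))
      refine ⟨j, ?_⟩
      rw [← hlin]
      change 1 ≤ |gc V c j v| at hj
      fin_cases j
      · exact s1.le_o2 c1 h1.1 hj
      · exact s2.le_o2 c2 h1.2.1 hj
      · exact s3.le_o2 c3 h1.2.2 hj) m hm0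
  obtain ⟨j, hj⟩ := key
  refine ⟨j, ?_⟩
  rw [← hlin] at hj
  rw [← hm]
  exact hj

end Pool.Agent.Lib.MP_ddd95a_nt
end
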