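import Pool.Agent.Lib.MP_ddd95a_nt.Mg.G013
import Pool.Agent.Lib.MP_ddd95a_nt.Mg.G016
import Pool.Agent.Lib.MP_ddd95a_nt.Cols

section

/-!
# The branch-and-bound checker: packed products and the volume test
-/

namespace Pool.Agent.Lib.MP_ddd95a_nt

namespace Vol

/-- Four lanes given by a function. -/
def p4 (w : ℕ) (f : Fin 4 → ℕ) : ℕ := pk4 w (f 0) (f 1) (f 2) (f 3)

theorem p4_eq (w : ℕ) (f : Fin 4 → ℕ) :
    p4 w f = f 0 + 2 ^ w * (f 1 + 2 ^ w * (f 2 + 2 ^ w * f 3)) := rfl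

theorem p4_add (w : ℕ) (f g : Fin 4 → ℕ) : p4 w (fun s => f s + g s) = p4 w f + p4 w g := by
  simp only [p4_eq]; ring

theorem p4_mul_left (w k : ℕ) (f : Fin 4 → ℕ) : p4 w (fun s => k * f s) = k * p4 w f := by
  simp only [p4_eq]; ring

theorem p4_mul_right (w k : ℕ) (f : Fin 4 → ℕ) : p4 w (fun s => f s * k) = p4 w f * k := by
  simp only [p4_eq]; ring

theorem pk64_eq (P : Fin 4 → Fin 4 → Fin 4 → ℕ) :
    pk64 P = p4 1280 fun s3 => p4 320 fun s2 => p4 80 fun s1 => P s1 s2 s3 := rfl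

theorem pk64_add (P Q : Fin 4 → Fin 4 → Fin 4 → ℕ) :
    pk64 (fun a b c => P a b c + Q a b c) = pk64 P + pk64 Q := by
  simp only [pk64_eq, p4_add]

theorem pk64_smul (k : ℕ) (P : Fin 4 → Fin 4 → Fin 4 → ℕ) :
    pk64 (fun a b c => k * P a b c) = k * pk64 P := by
  simp only [pk64_eq, p4_mul_left]

theorem pk64_prod (a b c : Fin 4 → ℕ) :
    pk64 (fun s1 s2 s3 => a s1 * b s2 * c s3) = p4 80 a * p4 320 b * p4 1280 c := by
  simp only [pk64_eq, p4_mul_left, p4_mul_right]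

theorem ONE64_one : ONE64 = pk64 (fun _ _ _ => 262144) := by decide +kernel

theorem TOP64_eq : TOP64 = pk64 (fun _ _ _ => 2 ^ 79) := by decide +kernel

theorem ONE64_eq (lam : ℕ) : lam * ONE64 = pk64 (fun _ _ _ => lam * 262144) := by
  rw [ONE64_one, ← pk64_smul]

/-! ### Bits of lanes -/

theorem testBit_p4 {w : ℕ} {f : Fin 4 → ℕ} (hf : ∀ s, f s < 2 ^ w) (s : Fin 4) {i : ℕ}
    (hi : i < w) : (p4 w f).testBit (w * s + i) = (f s).testBit i := by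
  have h0 := hf 0
  have h1 := hf 1
  have h2 := hf 2
  have key : ∀ (a b j : ℕ), a < 2 ^ w → (a + 2 ^ w * b).testBit (w + j) = b.testBit j := by
    intro a b j ha
    rw [Nat.add_comm a, Nat.testBit_two_pow_mul_add _ ha]
    simp
  have key0 : ∀ (a b : ℕ), a < 2 ^ w → (a + 2 ^ w * b).testBit i = a.testBit i := by
    intro a b ha
    rw [Nat.add_comm a, Nat.testBit_two_pow_mul_add _ ha]
    simp [hi]
  rw [p4_eq]
  fin_cases s
  · simpa using key0 _ _ h0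
  · show (_ : ℕ).testBit (w * 1 + i) = _
    rw [Nat.mul_one, key _ _ _ h0, key0 _ _ h1]
    rfl
  · show (_ : ℕ).testBit (w * 2 + i) = _
    rw [show w * 2 + i = w + (w + i) by ring, key _ _ _ h0, key _ _ _ h1, key0 _ _ h2]
    rfl
  · show (_ : ℕ).testBit (w * 3 + i) = _
    rw [show w * 3 + i = w + (w + (w + i)) by ring, key _ _ _ h0, key _ _ _ h1, key _ _ _ h2]
    rfl

theorem p4_lt {w : ℕ} {f : Fin 4 → ℕ} (hf : ∀ s, f s < 2 ^ w) : p4 w f < 2 ^ (4 * w) := by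
  have key : ∀ (a b K u : ℕ), a < K → b < u → a + K * b < K * u := by
    intro a b K u ha hb
    calc a + K * b < K + K * b := by omega
      _ = K * (b + 1) := by ring
      _ ≤ K * u := Nat.mul_le_mul_left _ hb
  rw [p4_eq]
  have := key _ _ _ _ (hf 0) (key _ _ _ _ (hf 1) (key _ _ _ _ (hf 2) (hf 3)))
  calc _ < _ := this
    _ = 2 ^ (4 * w) := by ring

theorem testBit_pk64 {P : Fin 4 → Fin 4 → Fin 4 → ℕ} (hP : ∀ a b c, P a b c < 2 ^ 80)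
    (a b c : Fin 4) : (pk64 P).testBit (1280 * c + (320 * b + (80 * a + 79))) =
      (P a b c).testBit 79 := by
  rw [pk64_eq, testBit_p4 (fun s3 => p4_lt fun s2 => p4_lt fun s1 => hP s1 s2 s3) c
    (by have := a.2; have := b.2; omega),
    testBit_p4 (fun s2 => p4_lt fun s1 => hP s1 s2 c) b (by have := a.2; omega),
    testBit_p4 (fun s1 => hP s1 b c) a (by omega)]

theorem pk64_top {P : Fin 4 → Fin 4 → Fin 4 → ℕ} (hP : ∀ a b c, P a b c < 2 ^ 80)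
    (h : top64 (pk64 P) = true) (a b c : Fin 4) : 2 ^ 79 ≤ P a b c := by
  have h' : (pk64 P) &&& TOP64 = TOP64 := Nat.eq_of_beq_eq_true h
  by_contra hlt
  rw [not_le] at hlt
  have h1 := testBit_pk64 hP a b c
  rw [Nat.testBit_lt_two_pow hlt] at h1
  have h2 : TOP64.testBit (1280 * c + (320 * b + (80 * a + 79))) = true := by
    rw [TOP64_eq, testBit_pk64 (fun _ _ _ => by norm_num) a b c]
    decide
  have h3 := congrArg (fun z => z.testBit (1280 * c + (320 * b + (80 * a + 79)))) h'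
  simp only [Nat.testBit_and, h1, h2] at h3
  simp at h3

theorem bAnd_true {a b : Bool} (h : bAnd a b = true) : a = true ∧ b = true := by
  cases a <;> cases b <;> simp_all [bAnd]

/-! ### The determinant -/

theorem cor_eq (w : ℕ) (u v : Fin 4 → ℕ) (l h : ℕ) :
    cor (p4 w u) (p4 w v) l h = p4 w (fun s => l * u s + h * v s) := by
  simp only [cor, Nat.add_eq, Nat.mul_eq, p4_add, p4_mul_left]

theorem corA (l h : ℕ) : (fun s => l * (![1, 0, 1, 0] : Fin 4 → ℕ) s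
    + h * (![0, 1, 0, 1] : Fin 4 → ℕ) s) = ![l, h, l, h] := by
  funext s
  fin_cases s <;> simp

theorem corB (l h : ℕ) : (fun s => l * (![1, 1, 0, 0] : Fin 4 → ℕ) s
    + h * (![0, 0, 1, 1] : Fin 4 → ℕ) s) = ![l, l, h, h] := by
  funext s
  fin_cases s <;> simp

theorem cA80_eq (l h : ℕ) : cA80 l h = p4 80 ![l, h, l, h] := by
  rw [← corA, ← cor_eq, cA80]
  exact congrArg₂ (fun a b => cor a b l h) (by decide +kernel) (by decide +kernel)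

theorem cB80_eq (l h : ℕ) : cB80 l h = p4 80 ![l, l, h, h] := by
  rw [← corB, ← cor_eq, cB80]
  exact congrArg₂ (fun a b => cor a b l h) (by decide +kernel) (by decide +kernel)

theorem cA320_eq (l h : ℕ) : cA320 l h = p4 320 ![l, h, l, h] := by
  rw [← corA, ← cor_eq, cA320]
  exact congrArg₂ (fun a b => cor a b l h) (by decide +kernel) (by decide +kernel)

theorem cB320_eq (l h : ℕ) : cB320 l h = p4 320 ![l, l, h, h] := by
  rw [← corB, ← cor_eq, cB320]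
  exact congrArg₂ (fun a b => cor a b l h) (by decide +kernel) (by decide +kernel)

theorem cA1280_eq (l h : ℕ) : cA1280 l h = p4 1280 ![l, h, l, h] := by
  rw [← corA, ← cor_eq, cA1280]
  exact congrArg₂ (fun a b => cor a b l h) (by decide +kernel) (by decide +kernel)

theorem cB1280_eq (l h : ℕ) : cB1280 l h = p4 1280 ![l, l, h, h] := by
  rw [← corB, ← cor_eq, cB1280]
  exact congrArg₂ (fun a b => cor a b l h) (by decide +kernel) (by decide +kernel)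

theorem detP_def (B C A E D F : ℕ) : detP B C A E D F = B * E * D + C * A * F + 8192 *
    ((B + C) * (p4 320 (fun _ => 1) * p4 1280 fun _ => 1) +
      ((A + E) * (p4 80 (fun _ => 1) * p4 1280 fun _ => 1) +
        (D + F) * (p4 80 (fun _ => 1) * p4 320 fun _ => 1))) := by
  unfold detP
  simp only [Nat.add_eq, Nat.mul_eq]
  refine congrArg₂ _ rfl (congrArg₂ _ rfl (congrArg₂ _ (congrArg₂ _ rfl ?_)
    (congrArg₂ _ (congrArg₂ _ rfl ?_) (congrArg₂ _ rfl ?_))))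
  all_goals decide +kernel

theorem detN_def (B C A E D F : ℕ) : detN B C A E D F = 64 *
    ((B * (A + E) + C * A) * (p4 1280 fun _ => 1) +
      ((C * (D + F) + B * D) * (p4 320 fun _ => 1) +
        (E * (D + F) + A * F) * (p4 80 fun _ => 1))) + pk64 (fun _ _ _ => 1048576) := by
  unfold detN
  simp only [Nat.add_eq, Nat.mul_eq]
  refine congrArg₂ _ (congrArg₂ _ rfl (congrArg₂ _ (congrArg₂ _ rfl ?_)
    (congrArg₂ _ (congrArg₂ _ rfl ?_) (congrArg₂ _ rfl ?_)))) ?_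
  all_goals decide +kernel

theorem detP_eq (b c a e d f : Fin 4 → ℕ) :
    detP (p4 80 b) (p4 80 c) (p4 320 a) (p4 320 e) (p4 1280 d) (p4 1280 f) =
      pk64 (fun s1 s2 s3 => (b s1 * e s2 * d s3 + c s1 * a s2 * f s3) + 8192 *
        ((b s1 * 1 * 1 + c s1 * 1 * 1) + ((1 * a s2 * 1 + 1 * e s2 * 1) +
          (1 * 1 * d s3 + 1 * 1 * f s3)))) := by
  have hb := pk64_prod b (fun _ => 1) (fun _ => 1)
  have hc := pk64_prod c (fun _ => 1) (fun _ => 1)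
  have ha := pk64_prod (fun _ => 1) a (fun _ => 1)
  have he := pk64_prod (fun _ => 1) e (fun _ => 1)
  have hd := pk64_prod (fun _ => 1) (fun _ => 1) d
  have hf := pk64_prod (fun _ => 1) (fun _ => 1) f
  rw [detP_def, pk64_add, pk64_smul]
  simp only [pk64_add]
  rw [pk64_prod b e d, pk64_prod c a f, hb, hc, ha, he, hd, hf]
  ring

theorem detN_eq (b c a e d f : Fin 4 → ℕ) :
    detN (p4 80 b) (p4 80 c) (p4 320 a) (p4 320 e) (p4 1280 d) (p4 1280 f) =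
      pk64 (fun s1 s2 s3 => 64 * (((b s1 * a s2 * 1 + b s1 * e s2 * 1) + c s1 * a s2 * 1) +
        (((c s1 * 1 * d s3 + c s1 * 1 * f s3) + b s1 * 1 * d s3) +
          ((1 * e s2 * d s3 + 1 * e s2 * f s3) + 1 * a s2 * f s3))) + 1048576) := by
  have h1 := pk64_prod b a (fun _ => 1)
  have h2 := pk64_prod b e (fun _ => 1)
  have h3 := pk64_prod c a (fun _ => 1)
  have h4 := pk64_prod c (fun _ => 1) d
  have h5 := pk64_prod c (fun _ => 1) f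
  have h6 := pk64_prod b (fun _ => 1) d
  have h7 := pk64_prod (fun _ => 1) e d
  have h8 := pk64_prod (fun _ => 1) e f
  have h9 := pk64_prod (fun _ => 1) a f
  rw [detN_def, pk64_add, pk64_smul]
  simp only [pk64_add]
  rw [h1, h2, h3, h4, h5, h6, h7, h8, h9]
  ring

/-! ### The volume test -/

theorem lane_test {P N Q : Fin 4 → Fin 4 → Fin 4 → ℕ} {L : ℕ}
    (hP : ∀ a b c, 1048576 * P a b c < 2 ^ 78) (hN : ∀ a b c, L * N a b c < 2 ^ 78)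
    (hQ : ∀ a b c, L * Q a b c < 2 ^ 78)
    (h : top64 (Nat.sub (Nat.add (Nat.add (Nat.mul 1048576 (pk64 P)) TOP64)
        (Nat.mul L (pk64 N))) (Nat.mul L (pk64 Q))) = true) (a b c : Fin 4) :
    L * Q a b c ≤ 1048576 * P a b c + L * N a b c := by
  have e : Nat.sub (Nat.add (Nat.add (Nat.mul 1048576 (pk64 P)) TOP64)
        (Nat.mul L (pk64 N))) (Nat.mul L (pk64 Q)) =
      pk64 (fun a b c => 1048576 * P a b c + 2 ^ 79 + L * N a b c - L * Q a b c) := by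
    simp only [Nat.add_eq, Nat.mul_eq, Nat.sub_eq]
    rw [TOP64_eq, ← pk64_smul, ← pk64_smul, ← pk64_smul, ← pk64_add, ← pk64_add]
    have : (pk64 fun a b c => 1048576 * P a b c + 2 ^ 79 + L * N a b c) =
        pk64 fun a b c => (1048576 * P a b c + 2 ^ 79 + L * N a b c - L * Q a b c) +
          L * Q a b c := by
      congr 1
      funext a b c
      have := hQ a b c
      omega
    rw [this, pk64_add]
    omega
  rw [e] at h
  have h2 := pk64_top (fun a b c => by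
    have h1 := hP a b c
    have h2 := hN a b c
    have : (2 : ℕ) ^ 80 = 2 ^ 79 + 2 ^ 78 + 2 ^ 78 := by norm_num
    omega) h a b c
  have h3 := hQ a b c
  omega

/-! ### Spreading lanes -/

theorem two_pow_mul_add_land {w a b x y : ℕ} (ha : a < 2 ^ w) (hb : b < 2 ^ w) :
    (a + 2 ^ w * x) &&& (b + 2 ^ w * y) = (a &&& b) + 2 ^ w * (x &&& y) := by
  apply Nat.eq_of_testBit_eq
  intro j
  rw [Nat.testBit_and, Nat.add_comm a, Nat.add_comm b, Nat.add_comm (a &&& b),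
    Nat.testBit_two_pow_mul_add _ ha, Nat.testBit_two_pow_mul_add _ hb,
    Nat.testBit_two_pow_mul_add _ (Nat.and_lt_two_pow _ hb)]
  split_ifs <;> simp [Nat.testBit_and]

theorem p4_land {w : ℕ} {f g : Fin 4 → ℕ} (hf : ∀ s, f s < 2 ^ w) (hg : ∀ s, g s < 2 ^ w) :
    p4 w f &&& p4 w g = p4 w fun s => f s &&& g s := by
  simp only [p4_eq]
  rw [two_pow_mul_add_land (hf 0) (hg 0), two_pow_mul_add_land (hf 1) (hg 1),
    two_pow_mul_add_land (hf 2) (hg 2)]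

theorem lt_mul_of {x K a u : ℕ} (hx : x < K) (ha : a < u) : x + K * a < K * u := by
  calc x + K * a < K + K * a := by omega
    _ = K * (a + 1) := by ring
    _ ≤ K * u := Nat.mul_le_mul_left _ ha

/-- The lanes of the product before masking. -/
def bet (u q : ℕ) (a : Fin 4 → ℕ) : Fin 4 → ℕ :=
  ![a 0 + u * (a 1 + u * (a 2 + u * a 3)) + q * u ^ 2 * a 0,
    a 1 + u * (a 2 + u * a 3) + q * u * a 0 + q * u ^ 2 * a 1,
    a 2 + u * a 3 + q * a 0 + q * u * a 1 + q * u ^ 2 * a 2,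
    a 3]

theorem bet_lt {u q : ℕ} (hu : 1 ≤ u) (hq : u ^ 2 ≤ q) {a : Fin 4 → ℕ} (ha : ∀ s, a s < u)
    (s : Fin 4) : bet u q a s < q * u ^ 3 := by
  have h0 := ha 0
  have h1 := ha 1
  have h2 := ha 2
  have h3 := ha 3
  have e0 : a 0 + u * (a 1 + u * (a 2 + u * a 3)) < u * (u * (u * u)) :=
    lt_mul_of h0 (lt_mul_of h1 (lt_mul_of h2 h3))
  have e1 : a 1 + u * (a 2 + u * a 3) < u * (u * u) := lt_mul_of h1 (lt_mul_of h2 h3)
  have e2 : a 2 + u * a 3 < u * u := lt_mul_of h2 h3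
  fin_cases s
  · show a 0 + u * (a 1 + u * (a 2 + u * a 3)) + q * u ^ 2 * a 0 < _
    have f0 : u * (u * (u * u)) ≤ q * u ^ 2 := by
      calc u * (u * (u * u)) = u ^ 2 * u ^ 2 := by ring
        _ ≤ _ := Nat.mul_le_mul_right _ hq
    calc _ < q * u ^ 2 * u := lt_mul_of (e0.trans_le f0) h0
      _ = _ := by ring
  · show a 1 + u * (a 2 + u * a 3) + q * u * a 0 + q * u ^ 2 * a 1 < _
    have f0 : u * (u * u) ≤ q * u := by
      calc u * (u * u) = u ^ 2 * u := by ring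
        _ ≤ _ := Nat.mul_le_mul_right _ hq
    have f1 : a 1 + u * (a 2 + u * a 3) + q * u * a 0 < q * u * u := lt_mul_of (e1.trans_le f0) h0
    have f2 : q * u * u = q * u ^ 2 := by ring
    rw [f2] at f1
    calc _ < q * u ^ 2 * u := lt_mul_of f1 h1
      _ = _ := by ring
  · show a 2 + u * a 3 + q * a 0 + q * u * a 1 + q * u ^ 2 * a 2 < _
    have f0 : u * u ≤ q := by
      calc u * u = u ^ 2 := by ring
        _ ≤ _ := hq
    have f1 : a 2 + u * a 3 + q * a 0 < q * u := lt_mul_of (e2.trans_le f0) h0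
    have f2 : a 2 + u * a 3 + q * a 0 + q * u * a 1 < q * u * u := lt_mul_of f1 h1
    have f3 : q * u * u = q * u ^ 2 := by ring
    rw [f3] at f2
    calc _ < q * u ^ 2 * u := lt_mul_of f2 h2
      _ = _ := by ring
  · show a 3 < _
    have hq1 : 1 ≤ q := le_trans (Nat.one_le_pow _ _ hu) hq
    calc a 3 < u := h3
      _ = 1 * u ^ 1 := by ring
      _ ≤ q * u ^ 3 := Nat.mul_le_mul hq1 (Nat.pow_le_pow_right hu (by norm_num))

theorem bet_mod {u q : ℕ} (hq : u ∣ q) {a : Fin 4 → ℕ} (ha : ∀ s, a s < u)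
    (s : Fin 4) : bet u q a s % u = a s := by
  obtain ⟨r, rfl⟩ := hq
  fin_cases s
  · show (a 0 + u * (a 1 + u * (a 2 + u * a 3)) + u * r * u ^ 2 * a 0) % u = _
    rw [show a 0 + u * (a 1 + u * (a 2 + u * a 3)) + u * r * u ^ 2 * a 0 =
      a 0 + u * ((a 1 + u * (a 2 + u * a 3)) + r * u ^ 2 * a 0) by ring,
      Nat.add_mul_mod_self_left]
    exact Nat.mod_eq_of_lt (ha 0)
  · show (a 1 + u * (a 2 + u * a 3) + u * r * u * a 0 + u * r * u ^ 2 * a 1) % u = _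
    rw [show a 1 + u * (a 2 + u * a 3) + u * r * u * a 0 + u * r * u ^ 2 * a 1 =
      a 1 + u * ((a 2 + u * a 3) + r * u * a 0 + r * u ^ 2 * a 1) by ring,
      Nat.add_mul_mod_self_left]
    exact Nat.mod_eq_of_lt (ha 1)
  · show (a 2 + u * a 3 + u * r * a 0 + u * r * u * a 1 + u * r * u ^ 2 * a 2) % u = _
    rw [show a 2 + u * a 3 + u * r * a 0 + u * r * u * a 1 + u * r * u ^ 2 * a 2 =
      a 2 + u * (a 3 + r * a 0 + r * u * a 1 + r * u ^ 2 * a 2) by ring,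
      Nat.add_mul_mod_self_left]
    exact Nat.mod_eq_of_lt (ha 2)
  · exact Nat.mod_eq_of_lt (ha 3)

theorem spread_ring (u q a0 a1 a2 a3 : ℕ) :
    (a0 + u * (a1 + u * (a2 + u * a3))) *
      (1 + q * u ^ 2 * (1 + q * u ^ 2 * (1 + q * u ^ 2 * 1))) =
    (a0 + u * (a1 + u * (a2 + u * a3)) + q * u ^ 2 * a0) + q * u ^ 3 *
      ((a1 + u * (a2 + u * a3) + q * u * a0 + q * u ^ 2 * a1) + q * u ^ 3 *
        ((a2 + u * a3 + q * a0 + q * u * a1 + q * u ^ 2 * a2) + q * u ^ 3 * a3)) := by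
  ring

theorem spread_gen {u q w1 w2 w3 : ℕ} (h1 : 2 ^ w1 = u) (h2 : 2 ^ w2 = q * u ^ 2)
    (h3 : 2 ^ w3 = q * u ^ 3) (a : Fin 4 → ℕ) :
    p4 w1 a * p4 w2 (fun _ => 1) = p4 w3 (bet u q a) := by
  rw [p4_eq, p4_eq, p4_eq, h1, h2, h3]
  exact spread_ring u q (a 0) (a 1) (a 2) (a 3)

theorem spread_mul {w r : ℕ} (hw : w = r + 48) (a : Fin 4 → ℕ) :
    p4 16 a * p4 (r + 32) (fun _ => 1) = p4 w (bet (2 ^ 16) (2 ^ r) a) := by
  refine spread_gen rfl ?_ ?_ a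
  · rw [pow_add, ← pow_mul]
  · rw [hw, pow_add, ← pow_mul]

theorem spread {w r : ℕ} (hw : w = r + 48) (hr : 32 ≤ r) {a : Fin 4 → ℕ}
    (ha : ∀ s, a s < 2 ^ 16) {M K : ℕ} (hM : M = p4 (r + 32) (fun _ => 1))
    (hK : K = p4 w (fun _ => 2 ^ 16 - 1)) : Nat.land (Nat.mul (p4 16 a) M) K = p4 w a := by
  have e : p4 16 a * M = p4 w (bet (2 ^ 16) (2 ^ r) a) := by
    rw [hM, spread_mul hw]
  have hwu : (2 : ℕ) ^ w = 2 ^ r * (2 ^ 16) ^ 3 := by rw [hw, pow_add, ← pow_mul]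
  show (p4 16 a * M) &&& K = _
  rw [e, hK, p4_land]
  · congr 1
    funext s
    rw [Nat.and_two_pow_sub_one_eq_mod]
    exact bet_mod (pow_dvd_pow _ (by omega)) ha s
  · intro s
    rw [hwu]
    refine bet_lt (by norm_num) ?_ ha s
    calc (2 ^ 16) ^ 2 = 2 ^ 32 := by norm_num
      _ ≤ 2 ^ r := Nat.pow_le_pow_right (by norm_num) hr
  · intro s
    calc 2 ^ 16 - 1 < 2 ^ 16 := by norm_num
      _ ≤ 2 ^ w := Nat.pow_le_pow_right (by norm_num) (by omega)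

theorem sp1_eq {a : Fin 4 → ℕ} (ha : ∀ s, a s < 2 ^ 16) : sp1 (p4 16 a) = p4 80 a :=
  spread (r := 32) (by norm_num) (by norm_num) ha (by decide +kernel) (by decide +kernel)

theorem sp2_eq {a : Fin 4 → ℕ} (ha : ∀ s, a s < 2 ^ 16) : sp2 (p4 16 a) = p4 320 a :=
  spread (r := 272) (by norm_num) (by norm_num) ha (by decide +kernel) (by decide +kernel)

theorem sp3_eq {a : Fin 4 → ℕ} (ha : ∀ s, a s < 2 ^ 16) : sp3 (p4 16 a) = p4 1280 a :=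
  spread (r := 1232) (by norm_num) (by norm_num) ha (by decide +kernel) (by decide +kernel)

/-! ### Reading a group -/

theorem pkL_get {w : ℕ} : ∀ (l : List ℕ) (_ : ∀ x ∈ l, x < 2 ^ w) (i : ℕ),
    (pkL w l / 2 ^ (w * i)) % 2 ^ w = l.getD i 0
  | [], _, i => by simp [pkL]
  | x :: l, h, 0 => by
      simp only [pkL, Nat.mul_zero, pow_zero, Nat.div_one, List.getD_cons_zero]
      rw [Nat.add_mul_mod_self_left]
      exact Nat.mod_eq_of_lt (h x (by simp))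
  | x :: l, h, i + 1 => by
      have hx : x < 2 ^ w := h x (by simp)
      rw [List.getD_cons_succ, ← pkL_get l (fun y hy => h y (by simp [hy])) i, pkL]
      congr 1
      rw [show w * (i + 1) = w + w * i by ring, pow_add, ← Nat.div_div_eq_div_mul,
        Nat.add_mul_div_left _ _ (by positivity), Nat.div_eq_of_lt hx, Nat.zero_add]

theorem full_length : full.length = 290 := by decide +kernel

theorem FL_lane {X : ℤ × ℤ × ℤ → Fin 4 → ℤ} (h : BX X) {v : ℤ × ℤ × ℤ} (hv : v ∈ full)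
    (s : Fin 4) : (32768 + X v s).toNat < 2 ^ 16 := by
  have := h.bd v hv s
  rw [abs_le] at this
  norm_num
  omega

theorem fv_mem {w : ℕ} (hw : w < 290) : fv w ∈ full := by
  rw [fv, List.getD_eq_getElem _ _ (by rw [full_length]; exact hw)]
  exact List.getElem_mem _

theorem getG_FL {X : ℤ × ℤ × ℤ → Fin 4 → ℤ} (h : BX X) {w : ℕ} (hw : w < 290) :
    getG (FL X) w = p4 16 fun s => (32768 + X (fv w) s).toNat := by
  have h1 := pkL_get (w := 64) (full.map fun v => pk4 16 (32768 + X v 0).toNat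
    (32768 + X v 1).toNat (32768 + X v 2).toNat (32768 + X v 3).toNat) (by
      intro x hx
      rw [List.mem_map] at hx
      obtain ⟨v, hv, rfl⟩ := hx
      exact p4_lt (w := 16) (f := fun s => (32768 + X v s).toNat) (fun s => FL_lane h hv s)) w
  rw [List.getD_eq_getElem _ _ (by rw [List.length_map, full_length]; exact hw),
    List.getElem_map] at h1
  have h2 : full[w]'(by rw [full_length]; exact hw) = fv w := by
    rw [fv, List.getD_eq_getElem]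
  rw [h2] at h1
  have h3 : getG (FL X) w = (FL X / 2 ^ (64 * w)) % 2 ^ 64 := by
    rw [← Nat.shiftRight_eq_div_pow, ← Nat.and_two_pow_sub_one_eq_mod]
    rfl
  rw [h3]
  exact h1

theorem off_eq : (9223512776490647552 : ℕ) = p4 16 (fun _ => 32768) := by decide +kernel

theorem off_add {X : ℤ × ℤ × ℤ → Fin 4 → ℤ} {w : ℕ}
    (hX : ∀ s, 0 ≤ X (fv w) s) : (p4 16 fun s => (32768 + X (fv w) s).toNat) =
      (p4 16 fun s => (X (fv w) s).toNat) + p4 16 (fun _ => 32768) := by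
    rw [← p4_add]
    congr 1
    funext s
    have := hX s
    omega

theorem getA_of (f w a b : ℕ) (h : getG f w = a + b) (hb : 9223512776490647552 = b) : getA f w = a := by
  unfold getA
  rw [h, hb, Nat.sub_eq, Nat.add_sub_cancel]

theorem getA_FL {X : ℤ × ℤ × ℤ → Fin 4 → ℤ} (h : BX X) {w : ℕ} (hw : w < 290)
    (hX : ∀ s, 0 ≤ X (fv w) s) :
    getA (FL X) w = p4 16 fun s => (X (fv w) s).toNat := by
  refine getA_of _ _ _ _ ?_ off_eq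
  rw [getG_FL h hw, off_add hX]

/-! ### Minimum -/

theorem minN_eq (x y : ℕ) : minN x y = min x y := by
  rw [minN, Nat.sub_eq, Nat.sub_eq]
  omega

theorem minL_eq {a b : Fin 4 → ℕ} (ha : ∀ s, a s < 2 ^ 16) (hb : ∀ s, b s < 2 ^ 16) :
    minL (p4 16 a) (p4 16 b) = p4 16 fun s => min (a s) (b s) := by
  have k0 : ∀ {f : Fin 4 → ℕ}, (∀ s, f s < 2 ^ 16) → Nat.land (p4 16 f) 65535 = f 0 := by
    intro f hf
    show (p4 16 f) &&& 65535 = _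
    rw [show (65535 : ℕ) = 2 ^ 16 - 1 by norm_num, Nat.and_two_pow_sub_one_eq_mod, p4_eq]
    have := hf 0
    omega
  have k1 : ∀ {f : Fin 4 → ℕ}, (∀ s, f s < 2 ^ 16) →
      Nat.land (Nat.shiftRight (p4 16 f) 16) 65535 = f 1 := by
    intro f hf
    show ((p4 16 f) >>> 16) &&& 65535 = _
    rw [show (65535 : ℕ) = 2 ^ 16 - 1 by norm_num, Nat.and_two_pow_sub_one_eq_mod, p4_eq,
      Nat.shiftRight_eq_div_pow]
    have := hf 0
    have := hf 1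
    omega
  have k2 : ∀ {f : Fin 4 → ℕ}, (∀ s, f s < 2 ^ 16) →
      Nat.land (Nat.shiftRight (p4 16 f) 32) 65535 = f 2 := by
    intro f hf
    show ((p4 16 f) >>> 32) &&& 65535 = _
    rw [show (65535 : ℕ) = 2 ^ 16 - 1 by norm_num, Nat.and_two_pow_sub_one_eq_mod, p4_eq,
      Nat.shiftRight_eq_div_pow]
    have := hf 0
    have := hf 1
    have := hf 2
    omega
  have k3 : ∀ {f : Fin 4 → ℕ}, (∀ s, f s < 2 ^ 16) →
      Nat.shiftRight (p4 16 f) 48 = f 3 := by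
    intro f hf
    show ((p4 16 f) >>> 48) = _
    rw [p4_eq, Nat.shiftRight_eq_div_pow]
    have := hf 0
    have := hf 1
    have := hf 2
    omega
  rw [minL, k0 ha, k0 hb, k1 ha, k1 hb, k2 ha, k2 hb, k3 ha, k3 hb]
  simp only [minN_eq, Nat.add_eq, Nat.mul_eq]
  rfl

theorem minW_eq {X : ℤ × ℤ × ℤ → Fin 4 → ℤ} (h : BX X) {W : List ℕ}
    (hW : ∀ w ∈ W, w < 290 ∧ ∀ s, 0 ≤ X (fv w) s ∧ X (fv w) s < 4096) :
    minW (FL X) W = p4 16 (fun s => minX X s W) ∧ ∀ s, minX X s W < 2 ^ 12 := by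
  cases W with
  | nil =>
    refine ⟨?_, fun s => ?_⟩
    · simp [minW, minX, p4_eq]
    · simp [minX]
  | cons w t =>
    have h0 := hW w (by simp)
    have ht : ∀ w ∈ t, w < 290 ∧ ∀ s, 0 ≤ X (fv w) s ∧ X (fv w) s < 4096 :=
      fun w' hw' => hW w' (by simp [hw'])
    clear hW
    show @List.rec ℕ (fun _ => ℕ) (getA (FL X) w)
        (fun w' _ a => minL (getA (FL X) w') a) t = p4 16 (fun s =>
          t.foldr (fun w' a => min (X (fv w') s).toNat a) (X (fv w) s).toNat) ∧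
      ∀ s, t.foldr (fun w' a => min (X (fv w') s).toNat a) (X (fv w) s).toNat < 2 ^ 12
    induction t with
    | nil =>
      refine ⟨getA_FL h h0.1 (fun s => (h0.2 s).1), fun s => ?_⟩
      have := h0.2 s
      simp only [List.foldr_nil]
      norm_num
      omega
    | cons w' t ih =>
      have h1 := ht w' (by simp)
      obtain ⟨i1, i2⟩ := ih (fun w' hw' => ht w' (by simp [hw']))
      have l1 : ∀ s, (X (fv w') s).toNat < 2 ^ 12 := by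
        intro s
        have := h1.2 s
        norm_num
        omega
      refine ⟨?_, fun s => ?_⟩
      · show minL (getA (FL X) w') (@List.rec ℕ (fun _ => ℕ) (getA (FL X) w)
          (fun w' _ a => minL (getA (FL X) w') a) t) = _
        rw [i1, getA_FL h h1.1 (fun s => (h1.2 s).1), minL_eq]
        · rfl
        · intro s
          exact (l1 s).trans (by norm_num)
        · intro s
          exact (i2 s).trans (by norm_num)
      · rw [List.foldr_cons]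
        exact lt_of_le_of_lt (min_le_left _ _) (l1 s)

end Vol

/-- Bilinearity facts used when several boxes are combined. -/
theorem pk64_add (P Q : Fin 4 → Fin 4 → Fin 4 → ℕ) :
    pk64 (fun a b c => P a b c + Q a b c) = pk64 P + pk64 Q :=
  Vol.pk64_add P Q

theorem ONE64_eq (lam : ℕ) : lam * ONE64 = pk64 (fun _ _ _ => lam * 262144) :=
  Vol.ONE64_eq lam

open Vol in
/-- The volume test. -/
theorem volCell_spec {P : Fin 4 → Fin 4 → Fin 4 → ℕ} {lam : ℕ}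
    (hP : ∀ s1 s2 s3, P s1 s2 s3 ≤ lam * 2 ^ 36)
    {l0 h0 l1 h1 l2 h2 l3 h3 l4 h4 l5 h5 : ℕ}
    (b0 : l0 ≤ 128) (c0 : h0 ≤ 128) (b1 : l1 ≤ 128) (c1 : h1 ≤ 128) (b2 : l2 ≤ 128)
    (c2 : h2 ≤ 128) (b3 : l3 ≤ 128) (c3 : h3 ≤ 128) (b4 : l4 ≤ 128) (c4 : h4 ≤ 128)
    (b5 : l5 ≤ 128) (c5 : h5 ≤ 128)
    (h : volCell (pk64 P) lam l0 h0 l1 h1 l2 h2 l3 h3 l4 h4 l5 h5 = true) :
    1 ≤ lam ∧ ∀ s1 s2 s3, 606516 * lam * |det64 (yA l0 h0 s1) (yB l1 h1 s1) (yA l2 h2 s2)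
      (yB l3 h3 s2) (yA l4 h4 s3) (yB l5 h5 s3)| ≤ 1048576 * P s1 s2 s3 := by
  have hA : ∀ {l h : ℕ}, l ≤ 128 → h ≤ 128 → ∀ s, (![l, h, l, h] : Fin 4 → ℕ) s ≤ 128 := by
    intro l h hl hh s
    fin_cases s <;> simpa
  have hB : ∀ {l h : ℕ}, l ≤ 128 → h ≤ 128 → ∀ s, (![l, l, h, h] : Fin 4 → ℕ) s ≤ 128 := by
    intro l h hl hh s
    fin_cases s <;> simpa
  have yA_eq : ∀ (l h : ℕ) (s : Fin 4), yA l h s = ((![l, h, l, h] : Fin 4 → ℕ) s : ℤ) := by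
    intro l h s
    fin_cases s <;> simp [yA]
  have yB_eq : ∀ (l h : ℕ) (s : Fin 4), yB l h s = ((![l, l, h, h] : Fin 4 → ℕ) s : ℤ) := by
    intro l h s
    fin_cases s <;> simp [yB]
  rw [volCell, cA80_eq, cB80_eq, cA320_eq, cB320_eq, cA1280_eq, cB1280_eq, detP_eq, detN_eq,
    volChk] at h
  obtain ⟨k1, h⟩ := bAnd_true h
  obtain ⟨k2, h⟩ := bAnd_true h
  obtain ⟨k3, k4⟩ := bAnd_true h
  have k1' : 1 ≤ lam := Nat.le_of_ble_eq_true k1
  have k2' : lam ≤ 4095 := Nat.le_of_ble_eq_true k2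
  refine ⟨k1', fun s1 s2 s3 => ?_⟩
  rw [yA_eq, yB_eq, yA_eq, yB_eq, yA_eq, yB_eq]
  have hb := hA b0 c0
  have hc := hB b1 c1
  have ha := hA b2 c2
  have he := hB b3 c3
  have hd := hA b4 c4
  have hf := hB b5 c5
  generalize (![l0, h0, l0, h0] : Fin 4 → ℕ) = b at *
  generalize (![l1, l1, h1, h1] : Fin 4 → ℕ) = c at *
  generalize (![l2, h2, l2, h2] : Fin 4 → ℕ) = a at *
  generalize (![l3, l3, h3, h3] : Fin 4 → ℕ) = e at *
  generalize (![l4, h4, l4, h4] : Fin 4 → ℕ) = d at *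
  generalize (![l5, l5, h5, h5] : Fin 4 → ℕ) = f at *
  have p2 : ∀ {x y : ℕ}, x ≤ 128 → y ≤ 128 → x * y ≤ 16384 := by
    intro x y hx hy
    calc x * y ≤ 128 * 128 := Nat.mul_le_mul hx hy
      _ = _ := by norm_num
  have p3 : ∀ {x y z : ℕ}, x ≤ 128 → y ≤ 128 → z ≤ 128 → x * y * z ≤ 2097152 := by
    intro x y z hx hy hz
    calc x * y * z ≤ 16384 * 128 := Nat.mul_le_mul (p2 hx hy) hz
      _ = _ := by norm_num
  have hL : Nat.mul lam 606516 ≤ 2 ^ 32 := by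
    have : lam * 606516 ≤ 4095 * 606516 := Nat.mul_le_mul_right _ k2'
    have h2 : (4095 * 606516 : ℕ) ≤ 2 ^ 32 := by norm_num
    exact this.trans h2
  have bd : ∀ {x : ℕ}, x ≤ 2 ^ 40 → Nat.mul lam 606516 * x < 2 ^ 78 := by
    intro x hx
    calc Nat.mul lam 606516 * x ≤ 2 ^ 32 * 2 ^ 40 := Nat.mul_le_mul hL hx
      _ < 2 ^ 78 := by norm_num
  have hP' : ∀ s1 s2 s3, 1048576 * P s1 s2 s3 < 2 ^ 78 := by
    intro s1 s2 s3
    have h1 := hP s1 s2 s3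
    have h2 : lam * 2 ^ 36 ≤ 4095 * 2 ^ 36 := Nat.mul_le_mul_right _ k2'
    have h3 : 1048576 * (4095 * 2 ^ 36) < 2 ^ 78 := by norm_num
    calc _ ≤ 1048576 * (4095 * 2 ^ 36) := Nat.mul_le_mul_left _ (h1.trans h2)
      _ < _ := h3
  have hDp : ∀ s1 s2 s3, (b s1 * e s2 * d s3 + c s1 * a s2 * f s3) + 8192 *
        ((b s1 * 1 * 1 + c s1 * 1 * 1) + ((1 * a s2 * 1 + 1 * e s2 * 1) +
          (1 * 1 * d s3 + 1 * 1 * f s3))) ≤ 2 ^ 40 := by
    intro s1 s2 s3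
    have q1 := p3 (hb s1) (he s2) (hd s3)
    have q2 := p3 (hc s1) (ha s2) (hf s3)
    have := hb s1
    have := hc s1
    have := ha s2
    have := he s2
    have := hd s3
    have := hf s3
    simp only [Nat.mul_one, Nat.one_mul]
    norm_num
    omega
  have hDn : ∀ s1 s2 s3, 64 * (((b s1 * a s2 * 1 + b s1 * e s2 * 1) + c s1 * a s2 * 1) +
        (((c s1 * 1 * d s3 + c s1 * 1 * f s3) + b s1 * 1 * d s3) +
          ((1 * e s2 * d s3 + 1 * e s2 * f s3) + 1 * a s2 * f s3))) + 1048576 ≤ 2 ^ 40 := by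
    intro s1 s2 s3
    have := p2 (hb s1) (ha s2)
    have := p2 (hb s1) (he s2)
    have := p2 (hc s1) (ha s2)
    have := p2 (hc s1) (hd s3)
    have := p2 (hc s1) (hf s3)
    have := p2 (hb s1) (hd s3)
    have := p2 (he s2) (hd s3)
    have := p2 (he s2) (hf s3)
    have := p2 (ha s2) (hf s3)
    simp only [Nat.mul_one, Nat.one_mul]
    norm_num
    omega
  have t1 := lane_test hP' (fun a b c => bd (hDn a b c)) (fun a b c => bd (hDp a b c)) k3 s1 s2 s3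
  have t2 := lane_test hP' (fun a b c => bd (hDp a b c)) (fun a b c => bd (hDn a b c)) k4 s1 s2 s3
  simp only [Nat.mul_eq] at t1 t2
  have t1' : ((lam : ℤ) * 606516) * (((b s1 : ℤ) * e s2 * d s3 + c s1 * a s2 * f s3) + 8192 *
        ((b s1 + c s1) + ((a s2 + e s2) + (d s3 + f s3)))) ≤
      1048576 * P s1 s2 s3 + ((lam : ℤ) * 606516) * (64 * (((b s1 * a s2 + b s1 * e s2) +
        c s1 * a s2) + (((c s1 * d s3 + c s1 * f s3) + b s1 * d s3) +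
          ((e s2 * d s3 + e s2 * f s3) + a s2 * f s3))) + 1048576) := by
    have := (Nat.cast_le (α := ℤ)).2 t1
    push_cast at this
    linarith
  have t2' : ((lam : ℤ) * 606516) * (64 * (((b s1 * a s2 + b s1 * e s2) +
        c s1 * a s2) + (((c s1 * d s3 + c s1 * f s3) + b s1 * d s3) +
          ((e s2 * d s3 + e s2 * f s3) + a s2 * f s3))) + 1048576) ≤
      1048576 * P s1 s2 s3 + ((lam : ℤ) * 606516) * (((b s1 : ℤ) * e s2 * d s3 +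
        c s1 * a s2 * f s3) + 8192 * ((b s1 + c s1) + ((a s2 + e s2) + (d s3 + f s3)))) := by
    have := (Nat.cast_le (α := ℤ)).2 t2
    push_cast at this
    linarith
  have hpos : (0 : ℤ) ≤ 606516 * lam := by positivity
  rw [← abs_of_nonneg hpos, ← abs_mul, abs_le, det64]
  constructor <;> linarith

open Vol in
set_option linter.unusedVariables false in
/-- The packed products. (The assumptions on `W` come from `boxChk_spec`.) -/
theorem boxPr_spec {X1 X2 X3 : ℤ × ℤ × ℤ → Fin 4 → ℤ} (h1 : BX X1) (h2 : BX X2) (h3 : BX X3)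
    {lam : ℕ} (hlam : lam ≤ 4095) {W1 W2 W3 : List ℕ}
    (hW1 : ∀ w ∈ W1, w < 290 ∧ ∀ s, 0 ≤ X1 (fv w) s ∧ X1 (fv w) s < 4096)
    (hW2 : ∀ w ∈ W2, w < 290 ∧ ∀ s, 0 ≤ X2 (fv w) s ∧ X2 (fv w) s < 4096)
    (hW3 : ∀ w ∈ W3, w < 290 ∧ ∀ s, 0 ≤ X3 (fv w) s ∧ X3 (fv w) s < 4096) :
    boxPr (FL X1) (FL X2) (FL X3) lam W1 W2 W3 = pk64 (fun s1 s2 s3 =>
      lam * (minX X1 s1 W1 * minX X2 s2 W2 * minX X3 s3 W3)) := by
  obtain ⟨e1, l1⟩ := minW_eq h1 hW1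
  obtain ⟨e2, l2⟩ := minW_eq h2 hW2
  obtain ⟨e3, l3⟩ := minW_eq h3 hW3
  rw [boxPr, e1, e2, e3, sp1_eq (fun s => (l1 s).trans (by norm_num)),
    sp2_eq (fun s => (l2 s).trans (by norm_num)), sp3_eq (fun s => (l3 s).trans (by norm_num)),
    pk64_smul, pk64_prod]
  rfl

end Pool.Agent.Lib.MP_ddd95a_nt
end

section

/-!
# Soundness of the volume test
-/

namespace Pool.Agent.Lib.MP_ddd95a_nt

open scoped BigOperators

/-- Expectation over the corners. -/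
noncomputable def EE (ω1 ω2 ω3 : Fin 4 → ℝ) (f : Fin 4 → Fin 4 → Fin 4 → ℝ) : ℝ :=
  ∑ s1, ∑ s2, ∑ s3, ω1 s1 * ω2 s2 * ω3 s3 * f s1 s2 s3

section EE

variable {ω1 ω2 ω3 : Fin 4 → ℝ}

lemma EE_mono (h1 : ∀ s, 0 ≤ ω1 s) (h2 : ∀ s, 0 ≤ ω2 s) (h3 : ∀ s, 0 ≤ ω3 s)
    {f g : Fin 4 → Fin 4 → Fin 4 → ℝ} (h : ∀ a b c, f a b c ≤ g a b c) :
    EE ω1 ω2 ω3 f ≤ EE ω1 ω2 ω3 g := by
  unfold EE
  apply Finset.sum_le_sum; intro a _
  apply Finset.sum_le_sum; intro b _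
  apply Finset.sum_le_sum; intro c _
  exact mul_le_mul_of_nonneg_left (h a b c) (mul_nonneg (mul_nonneg (h1 a) (h2 b)) (h3 c))

lemma EE_add (f g : Fin 4 → Fin 4 → Fin 4 → ℝ) :
    EE ω1 ω2 ω3 (fun a b c => f a b c + g a b c) = EE ω1 ω2 ω3 f + EE ω1 ω2 ω3 g := by
  unfold EE
  simp only [mul_add, Finset.sum_add_distrib]

lemma EE_smul (k : ℝ) (f : Fin 4 → Fin 4 → Fin 4 → ℝ) :
    EE ω1 ω2 ω3 (fun a b c => k * f a b c) = k * EE ω1 ω2 ω3 f := by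
  unfold EE
  simp only [Finset.mul_sum]
  apply Finset.sum_congr rfl; intro a _
  apply Finset.sum_congr rfl; intro b _
  apply Finset.sum_congr rfl; intro c _
  ring

lemma EE_prod (f1 f2 f3 : Fin 4 → ℝ) :
    EE ω1 ω2 ω3 (fun a b c => f1 a * f2 b * f3 c) =
      (∑ s, ω1 s * f1 s) * (∑ s, ω2 s * f2 s) * (∑ s, ω3 s * f3 s) := by
  unfold EE
  rw [Finset.sum_mul_sum, Finset.sum_mul]
  apply Finset.sum_congr rfl; intro a _
  rw [Finset.sum_mul]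
  apply Finset.sum_congr rfl; intro b _
  rw [Finset.mul_sum]
  apply Finset.sum_congr rfl; intro c _
  ring

lemma EE_const (h1 : ∑ s, ω1 s = 1) (h2 : ∑ s, ω2 s = 1) (h3 : ∑ s, ω3 s = 1) (k : ℝ) :
    EE ω1 ω2 ω3 (fun _ _ _ => k) = k := by
  have := EE_prod (ω1 := ω1) (ω2 := ω2) (ω3 := ω3) (fun _ => k) (fun _ => 1) (fun _ => 1)
  simp only [mul_one] at this
  rw [this, h2, h3, ← Finset.sum_mul, h1]
  ring

end EE

/-- The determinant is interpolated by the corner determinants. -/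
lemma EE_det {V : Matrix (Fin 3) (Fin 3) ℝ} (hd : ∀ i, V i i = 1) {ω1 ω2 ω3 : Fin 4 → ℝ}
    {l0 h0 l1 h1 l2 h2 l3 h3 l4 h4 l5 h5 : ℕ}
    (w1 : Wt ω1 l0 h0 l1 h1 (64 * (V 1 0 + 1)) (64 * (V 2 0 + 1)))
    (w2 : Wt ω2 l2 h2 l3 h3 (64 * (V 0 1 + 1)) (64 * (V 2 1 + 1)))
    (w3 : Wt ω3 l4 h4 l5 h5 (64 * (V 0 2 + 1)) (64 * (V 1 2 + 1))) :
    EE ω1 ω2 ω3 (fun s1 s2 s3 => ((det64 (yA l0 h0 s1) (yB l1 h1 s1) (yA l2 h2 s2)
      (yB l3 h3 s2) (yA l4 h4 s3) (yB l5 h5 s3) : ℤ) : ℝ)) = 64 ^ 3 * V.det := by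
  have e : ∀ s1 s2 s3, ((det64 (yA l0 h0 s1) (yB l1 h1 s1) (yA l2 h2 s2)
      (yB l3 h3 s2) (yA l4 h4 s3) (yB l5 h5 s3) : ℤ) : ℝ) =
      64 * 64 * 64
      + ((yA l0 h0 s1 : ℝ) - 64) * ((yB l3 h3 s2 : ℝ) - 64) * ((yA l4 h4 s3 : ℝ) - 64)
      + ((yB l1 h1 s1 : ℝ) - 64) * ((yA l2 h2 s2 : ℝ) - 64) * ((yB l5 h5 s3 : ℝ) - 64)
      + (-64) * (((yA l0 h0 s1 : ℝ) - 64) * ((yA l2 h2 s2 : ℝ) - 64) * 1)
      + (-64) * (((yB l1 h1 s1 : ℝ) - 64) * 1 * ((yA l4 h4 s3 : ℝ) - 64))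
      + (-64) * (1 * ((yB l3 h3 s2 : ℝ) - 64) * ((yB l5 h5 s3 : ℝ) - 64)) := by
    intro s1 s2 s3
    unfold det64
    push_cast
    ring
  have a1 : ∑ s, ω1 s * ((yA l0 h0 s : ℝ) - 64) = 64 * V 1 0 := by
    have := w1.affine (-64) 1 0
    calc _ = ∑ s, ω1 s * (-64 + 1 * (yA l0 h0 s : ℝ) + 0 * (yB l1 h1 s : ℝ)) :=
          Finset.sum_congr rfl fun s _ => by ring
      _ = _ := by rw [this]; ring
  have b1 : ∑ s, ω1 s * ((yB l1 h1 s : ℝ) - 64) = 64 * V 2 0 := by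
    have := w1.affine (-64) 0 1
    calc _ = ∑ s, ω1 s * (-64 + 0 * (yA l0 h0 s : ℝ) + 1 * (yB l1 h1 s : ℝ)) :=
          Finset.sum_congr rfl fun s _ => by ring
      _ = _ := by rw [this]; ring
  have a2 : ∑ s, ω2 s * ((yA l2 h2 s : ℝ) - 64) = 64 * V 0 1 := by
    have := w2.affine (-64) 1 0
    calc _ = ∑ s, ω2 s * (-64 + 1 * (yA l2 h2 s : ℝ) + 0 * (yB l3 h3 s : ℝ)) :=
          Finset.sum_congr rfl fun s _ => by ring
      _ = _ := by rw [this]; ring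
  have b2 : ∑ s, ω2 s * ((yB l3 h3 s : ℝ) - 64) = 64 * V 2 1 := by
    have := w2.affine (-64) 0 1
    calc _ = ∑ s, ω2 s * (-64 + 0 * (yA l2 h2 s : ℝ) + 1 * (yB l3 h3 s : ℝ)) :=
          Finset.sum_congr rfl fun s _ => by ring
      _ = _ := by rw [this]; ring
  have a3 : ∑ s, ω3 s * ((yA l4 h4 s : ℝ) - 64) = 64 * V 0 2 := by
    have := w3.affine (-64) 1 0
    calc _ = ∑ s, ω3 s * (-64 + 1 * (yA l4 h4 s : ℝ) + 0 * (yB l5 h5 s : ℝ)) :=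
          Finset.sum_congr rfl fun s _ => by ring
      _ = _ := by rw [this]; ring
  have b3 : ∑ s, ω3 s * ((yB l5 h5 s : ℝ) - 64) = 64 * V 1 2 := by
    have := w3.affine (-64) 0 1
    calc _ = ∑ s, ω3 s * (-64 + 0 * (yA l4 h4 s : ℝ) + 1 * (yB l5 h5 s : ℝ)) :=
          Finset.sum_congr rfl fun s _ => by ring
      _ = _ := by rw [this]; ring
  have o1 : ∑ s, ω1 s * (1 : ℝ) = 1 := by simp only [mul_one]; exact w1.one
  have o2 : ∑ s, ω2 s * (1 : ℝ) = 1 := by simp only [mul_one]; exact w2.one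
  have o3 : ∑ s, ω3 s * (1 : ℝ) = 1 := by simp only [mul_one]; exact w3.one
  have hfun : (fun s1 s2 s3 => ((det64 (yA l0 h0 s1) (yB l1 h1 s1) (yA l2 h2 s2)
      (yB l3 h3 s2) (yA l4 h4 s3) (yB l5 h5 s3) : ℤ) : ℝ)) = fun s1 s2 s3 => 64 * 64 * 64
      + ((yA l0 h0 s1 : ℝ) - 64) * ((yB l3 h3 s2 : ℝ) - 64) * ((yA l4 h4 s3 : ℝ) - 64)
      + ((yB l1 h1 s1 : ℝ) - 64) * ((yA l2 h2 s2 : ℝ) - 64) * ((yB l5 h5 s3 : ℝ) - 64)
      + (-64) * (((yA l0 h0 s1 : ℝ) - 64) * ((yA l2 h2 s2 : ℝ) - 64) * 1)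
      + (-64) * (((yB l1 h1 s1 : ℝ) - 64) * 1 * ((yA l4 h4 s3 : ℝ) - 64))
      + (-64) * (1 * ((yB l3 h3 s2 : ℝ) - 64) * ((yB l5 h5 s3 : ℝ) - 64)) := by
    funext s1 s2 s3
    exact e s1 s2 s3
  rw [hfun]
  rw [EE_add, EE_add, EE_add, EE_add, EE_add, EE_const w1.one w2.one w3.one,
    EE_smul, EE_smul, EE_smul,
    EE_prod (fun s => (yA l0 h0 s : ℝ) - 64) (fun s => (yB l3 h3 s : ℝ) - 64)
      (fun s => (yA l4 h4 s : ℝ) - 64),
    EE_prod (fun s => (yB l1 h1 s : ℝ) - 64) (fun s => (yA l2 h2 s : ℝ) - 64)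
      (fun s => (yB l5 h5 s : ℝ) - 64),
    EE_prod (fun s => (yA l0 h0 s : ℝ) - 64) (fun s => (yA l2 h2 s : ℝ) - 64) (fun _ => 1),
    EE_prod (fun s => (yB l1 h1 s : ℝ) - 64) (fun _ => 1) (fun s => (yA l4 h4 s : ℝ) - 64),
    EE_prod (fun _ => 1) (fun s => (yB l3 h3 s : ℝ) - 64) (fun s => (yB l5 h5 s : ℝ) - 64),
    a1, b1, a2, b2, a3, b3, o1, o2, o3, Matrix.det_fin_three, hd 0, hd 1, hd 2]
  ring

/-- Corner values of the three columns of the base with code `c`. -/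
def X1 (c l0 h0 l1 h1 : ℕ) : ℤ × ℤ × ℤ → Fin 4 → ℤ := cv c 1 2 0 l0 h0 l1 h1
/-- Second column. -/
def X2 (c l2 h2 l3 h3 : ℕ) : ℤ × ℤ × ℤ → Fin 4 → ℤ := cv c 0 2 1 l2 h2 l3 h3
/-- Third column. -/
def X3 (c l4 h4 l5 h5 : ℕ) : ℤ × ℤ × ℤ → Fin 4 → ℤ := cv c 0 1 2 l4 h4 l5 h5

/-- Side lengths of the box with code `c`. -/
noncomputable def bT (V : Matrix (Fin 3) (Fin 3) ℝ) (c : ℕ) : Fin 3 → ℝ :=
  ![sideT V (cBase c) (cW1 c) 0, sideT V (cBase c) (cW2 c) 1, sideT V (cBase c) (cW3 c) 2]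

/-- Corner products of the box with code `c`. -/
noncomputable def PB (c l0 h0 l1 h1 l2 h2 l3 h3 l4 h4 l5 h5 : ℕ) (s1 s2 s3 : Fin 4) : ℕ :=
  minX (X1 (cBase c) l0 h0 l1 h1) s1 (cW1 c) * minX (X2 (cBase c) l2 h2 l3 h3) s2 (cW2 c) *
    minX (X3 (cBase c) l4 h4 l5 h5) s3 (cW3 c)

/-- Everything about a cell and a matrix. -/
structure Ctx (V : Matrix (Fin 3) (Fin 3) ℝ) (ω1 ω2 ω3 : Fin 4 → ℝ)
    (l0 h0 l1 h1 l2 h2 l3 h3 l4 h4 l5 h5 : ℕ) : Prop where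
  nrm : Nrm V
  w1 : Wt ω1 l0 h0 l1 h1 (64 * (V 1 0 + 1)) (64 * (V 2 0 + 1))
  w2 : Wt ω2 l2 h2 l3 h3 (64 * (V 0 1 + 1)) (64 * (V 2 1 + 1))
  w3 : Wt ω3 l4 h4 l5 h5 (64 * (V 0 2 + 1)) (64 * (V 1 2 + 1))
  l0 : l0 ≤ 128
  h0 : h0 ≤ 128
  l1 : l1 ≤ 128
  h1 : h1 ≤ 128
  l2 : l2 ≤ 128
  h2 : h2 ≤ 128
  l3 : l3 ≤ 128
  h3 : h3 ≤ 128
  l4 : l4 ≤ 128
  h4 : h4 ≤ 128
  l5 : l5 ≤ 128
  h5 : h5 ≤ 128

section ctx

variable {V : Matrix (Fin 3) (Fin 3) ℝ} {ω1 ω2 ω3 : Fin 4 → ℝ}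
  {l0 h0 l1 h1 l2 h2 l3 h3 l4 h4 l5 h5 : ℕ}

lemma bAnd_true {a b : Bool} (h : bAnd a b = true) : a = true ∧ b = true := by
  rwa [bAnd_eq, Bool.and_eq_true] at h

lemma bOr_true {a b : Bool} (h : bOr a b = true) : a = true ∨ b = true := by
  rwa [bOr_eq, Bool.or_eq_true] at h

/-- The facts about a box that passes the test. -/
theorem bxOK_sound (C : Ctx V ω1 ω2 ω3 l0 h0 l1 h1 l2 h2 l3 h3 l4 h4 l5 h5) {c : ℕ}
    (h : bxOK c l0 h0 l1 h1 l2 h2 l3 h3 l4 h4 l5 h5 = true) :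
    (∀ j, 0 ≤ bT V c j) ∧ ((∀ j, 0 < bT V c j) → EmptyBox V (bT V c)) ∧
    (∀ w ∈ cW1 c, w < 290 ∧ ∀ s, 0 ≤ X1 (cBase c) l0 h0 l1 h1 (fv w) s ∧
      X1 (cBase c) l0 h0 l1 h1 (fv w) s < 4096) ∧
    (∀ w ∈ cW2 c, w < 290 ∧ ∀ s, 0 ≤ X2 (cBase c) l2 h2 l3 h3 (fv w) s ∧
      X2 (cBase c) l2 h2 l3 h3 (fv w) s < 4096) ∧
    (∀ w ∈ cW3 c, w < 290 ∧ ∀ s, 0 ≤ X3 (cBase c) l4 h4 l5 h5 (fv w) s ∧
      X3 (cBase c) l4 h4 l5 h5 (fv w) s < 4096) ∧
    EE ω1 ω2 ω3 (fun s1 s2 s3 =>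
      (PB c l0 h0 l1 h1 l2 h2 l3 h3 l4 h4 l5 h5 s1 s2 s3 : ℝ)) ≤ 64 ^ 3 * ∏ j, bT V c j := by
  obtain ⟨hu, hb⟩ := bAnd_true h
  rw [F1_eq _ C.l0 C.h0 C.l1 C.h1, F2_eq _ C.l2 C.h2 C.l3 C.h3, F3_eq _ C.l4 C.h4 C.l5 C.h5] at hb
  have b1 := cv_BX (cBase c) 1 2 0 C.l0 C.h0 C.l1 C.h1
  have b2 := cv_BX (cBase c) 0 2 1 C.l2 C.h2 C.l3 C.h3
  have b3 := cv_BX (cBase c) 0 1 2 C.l4 C.h4 C.l5 C.h5
  have c1 := colOK0 (C.nrm.diag 0) C.w1 (cBase c)
  have c2 := colOK1 (C.nrm.diag 1) C.w2 (cBase c)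
  have c3 := colOK2 (C.nrm.diag 2) C.w3 (cBase c)
  obtain ⟨p1, p2, p3, -⟩ := boxChk_spec b1 b2 b3 hb
  have n1 : 0 ≤ sideT V (cBase c) (cW1 c) 0 :=
    minR_nonneg fun w hw => c1.nonneg fun s => ((p1 w hw).2 s).1
  have n2 : 0 ≤ sideT V (cBase c) (cW2 c) 1 :=
    minR_nonneg fun w hw => c2.nonneg fun s => ((p2 w hw).2 s).1
  have n3 : 0 ≤ sideT V (cBase c) (cW3 c) 2 :=
    minR_nonneg fun w hw => c3.nonneg fun s => ((p3 w hw).2 s).1
  refine ⟨?_, ?_, ?_, ?_, ?_, ?_⟩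
  · intro j; fin_cases j
    · exact n1
    · exact n2
    · exact n3
  · intro hT
    exact box_empty C.nrm hu b1 b2 b3 c1 c2 c3 hb (hT 0) (hT 1) (hT 2)
  · exact fun w hw => ⟨(p1 w hw).1, fun s => ⟨((p1 w hw).2 s).1, ((p1 w hw).2 s).2.1⟩⟩
  · exact fun w hw => ⟨(p2 w hw).1, fun s => ⟨((p2 w hw).2 s).1, ((p2 w hw).2 s).2.1⟩⟩
  · exact fun w hw => ⟨(p3 w hw).1, fun s => ⟨((p3 w hw).2 s).1, ((p3 w hw).2 s).2.1⟩⟩
  · have m1 : ∑ s, ω1 s * (minX (X1 (cBase c) l0 h0 l1 h1) s (cW1 c) : ℝ) ≤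
        64 * sideT V (cBase c) (cW1 c) 0 :=
      minX_le c1.nn (fun w hw s => ((p1 w hw).2 s).1) (fun w _ => c1.eq (fv w))
    have m2 : ∑ s, ω2 s * (minX (X2 (cBase c) l2 h2 l3 h3) s (cW2 c) : ℝ) ≤
        64 * sideT V (cBase c) (cW2 c) 1 :=
      minX_le c2.nn (fun w hw s => ((p2 w hw).2 s).1) (fun w _ => c2.eq (fv w))
    have m3 : ∑ s, ω3 s * (minX (X3 (cBase c) l4 h4 l5 h5) s (cW3 c) : ℝ) ≤
        64 * sideT V (cBase c) (cW3 c) 2 :=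
      minX_le c3.nn (fun w hw s => ((p3 w hw).2 s).1) (fun w _ => c3.eq (fv w))
    have k1 : 0 ≤ ∑ s, ω1 s * (minX (X1 (cBase c) l0 h0 l1 h1) s (cW1 c) : ℝ) :=
      Finset.sum_nonneg fun s _ => mul_nonneg (c1.nn s) (Nat.cast_nonneg _)
    have k2 : 0 ≤ ∑ s, ω2 s * (minX (X2 (cBase c) l2 h2 l3 h3) s (cW2 c) : ℝ) :=
      Finset.sum_nonneg fun s _ => mul_nonneg (c2.nn s) (Nat.cast_nonneg _)
    have k3 : 0 ≤ ∑ s, ω3 s * (minX (X3 (cBase c) l4 h4 l5 h5) s (cW3 c) : ℝ) :=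
      Finset.sum_nonneg fun s _ => mul_nonneg (c3.nn s) (Nat.cast_nonneg _)
    have hfun : (fun s1 s2 s3 => (PB c l0 h0 l1 h1 l2 h2 l3 h3 l4 h4 l5 h5 s1 s2 s3 : ℝ)) =
        fun s1 s2 s3 => (minX (X1 (cBase c) l0 h0 l1 h1) s1 (cW1 c) : ℝ) *
          (minX (X2 (cBase c) l2 h2 l3 h3) s2 (cW2 c) : ℝ) *
          (minX (X3 (cBase c) l4 h4 l5 h5) s3 (cW3 c) : ℝ) := by
      funext s1 s2 s3
      unfold PB
      push_cast
      rfl
    rw [hfun, EE_prod (fun s => (minX (X1 (cBase c) l0 h0 l1 h1) s (cW1 c) : ℝ))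
      (fun s => (minX (X2 (cBase c) l2 h2 l3 h3) s (cW2 c) : ℝ))
      (fun s => (minX (X3 (cBase c) l4 h4 l5 h5) s (cW3 c) : ℝ)), Fin.prod_univ_three]
    calc _ ≤ (64 * sideT V (cBase c) (cW1 c) 0) * (64 * sideT V (cBase c) (cW2 c) 1) *
          (64 * sideT V (cBase c) (cW3 c) 2) := by
          apply mul_le_mul (mul_le_mul m1 m2 k2 (by linarith)) m3 k3
          exact mul_nonneg (by linarith) (by linarith)
      _ = 64 ^ 3 * (sideT V (cBase c) (cW1 c) 0 * sideT V (cBase c) (cW2 c) 1 *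
          sideT V (cBase c) (cW3 c) 2) := by ring
      _ = _ := rfl

/-- Bound for the corner minima. -/
lemma minX_bound {X : ℤ × ℤ × ℤ → Fin 4 → ℤ} {W : List ℕ} {s : Fin 4}
    (h : ∀ w ∈ W, 0 ≤ X (fv w) s ∧ X (fv w) s < 4096) : minX X s W ≤ 4096 := by
  cases W with
  | nil => simp [minX]
  | cons a t =>
    have ha : (X (fv a) s).toNat ≤ 4096 := by
      have := h a List.mem_cons_self
      omega
    have key : ∀ t : List ℕ,
        t.foldr (fun w' b => min (X (fv w') s).toNat b) (X (fv a) s).toNat ≤ 4096 := by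
      intro t
      induction t with
      | nil => exact ha
      | cons b t ih => exact (min_le_right _ _).trans ih
    exact key t

/-- Corner values of the total weighted product. -/
noncomputable def PT (lam : ℕ) (l0 h0 l1 h1 l2 h2 l3 h3 l4 h4 l5 h5 : ℕ) :
    List ℕ → Fin 4 → Fin 4 → Fin 4 → ℕ
  | [], _, _, _ => lam * 262144
  | c :: bs, s1, s2, s3 => cLam c * PB c l0 h0 l1 h1 l2 h2 l3 h3 l4 h4 l5 h5 s1 s2 s3 +
      PT lam l0 h0 l1 h1 l2 h2 l3 h3 l4 h4 l5 h5 bs s1 s2 s3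

lemma cLam_le (c : ℕ) : cLam c ≤ 4095 := by
  unfold cLam
  exact Nat.and_le_right

lemma bxPr_eq (C : Ctx V ω1 ω2 ω3 l0 h0 l1 h1 l2 h2 l3 h3 l4 h4 l5 h5) {c : ℕ}
    (h : bxOK c l0 h0 l1 h1 l2 h2 l3 h3 l4 h4 l5 h5 = true) :
    bxPr c l0 h0 l1 h1 l2 h2 l3 h3 l4 h4 l5 h5 = pk64 (fun s1 s2 s3 =>
      cLam c * PB c l0 h0 l1 h1 l2 h2 l3 h3 l4 h4 l5 h5 s1 s2 s3) := by
  obtain ⟨-, -, p1, p2, p3, -⟩ := bxOK_sound C h
  unfold bxPr
  rw [F1_eq _ C.l0 C.h0 C.l1 C.h1, F2_eq _ C.l2 C.h2 C.l3 C.h3, F3_eq _ C.l4 C.h4 C.l5 C.h5]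
  have b1 := cv_BX (cBase c) 1 2 0 C.l0 C.h0 C.l1 C.h1
  have b2 := cv_BX (cBase c) 0 2 1 C.l2 C.h2 C.l3 C.h3
  have b3 := cv_BX (cBase c) 0 1 2 C.l4 C.h4 C.l5 C.h5
  exact boxPr_spec b1 b2 b3 (cLam_le c) p1 p2 p3

lemma sumP_eq (C : Ctx V ω1 ω2 ω3 l0 h0 l1 h1 l2 h2 l3 h3 l4 h4 l5 h5) (lam : ℕ) :
    ∀ bs : List ℕ, allBx bs l0 h0 l1 h1 l2 h2 l3 h3 l4 h4 l5 h5 = true →
      sumP lam bs l0 h0 l1 h1 l2 h2 l3 h3 l4 h4 l5 h5 =
        pk64 (PT lam l0 h0 l1 h1 l2 h2 l3 h3 l4 h4 l5 h5 bs) := by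
  intro bs
  induction bs with
  | nil =>
    intro _
    exact ONE64_eq lam
  | cons c bs ih =>
    intro h
    obtain ⟨q1, q2⟩ := bAnd_true (a := bxOK c l0 h0 l1 h1 l2 h2 l3 h3 l4 h4 l5 h5)
      (b := allBx bs l0 h0 l1 h1 l2 h2 l3 h3 l4 h4 l5 h5) h
    have e : sumP lam (c :: bs) l0 h0 l1 h1 l2 h2 l3 h3 l4 h4 l5 h5 =
        bxPr c l0 h0 l1 h1 l2 h2 l3 h3 l4 h4 l5 h5 +
          sumP lam bs l0 h0 l1 h1 l2 h2 l3 h3 l4 h4 l5 h5 := rfl
    rw [e, bxPr_eq C q1, ih q2]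
    exact (pk64_add _ _).symm

lemma PT_bound (C : Ctx V ω1 ω2 ω3 l0 h0 l1 h1 l2 h2 l3 h3 l4 h4 l5 h5) (lam : ℕ) :
    ∀ bs : List ℕ, allBx bs l0 h0 l1 h1 l2 h2 l3 h3 l4 h4 l5 h5 = true → ∀ s1 s2 s3,
      PT lam l0 h0 l1 h1 l2 h2 l3 h3 l4 h4 l5 h5 bs s1 s2 s3 ≤ sumLam lam bs * 2 ^ 36 := by
  intro bs
  induction bs with
  | nil =>
    intro _ s1 s2 s3
    show lam * 262144 ≤ lam * 2 ^ 36
    exact Nat.mul_le_mul_left _ (by norm_num)
  | cons c bs ih =>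
    intro h s1 s2 s3
    obtain ⟨q1, q2⟩ := bAnd_true (a := bxOK c l0 h0 l1 h1 l2 h2 l3 h3 l4 h4 l5 h5)
      (b := allBx bs l0 h0 l1 h1 l2 h2 l3 h3 l4 h4 l5 h5) h
    obtain ⟨-, -, p1, p2, p3, -⟩ := bxOK_sound C q1
    have q : PB c l0 h0 l1 h1 l2 h2 l3 h3 l4 h4 l5 h5 s1 s2 s3 ≤ 2 ^ 36 := by
      have e : (2 : ℕ) ^ 36 = 4096 * 4096 * 4096 := by norm_num
      rw [e]
      unfold PB
      exact Nat.mul_le_mul (Nat.mul_le_mul (minX_bound fun w hw => (p1 w hw).2 s1)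
        (minX_bound fun w hw => (p2 w hw).2 s2)) (minX_bound fun w hw => (p3 w hw).2 s3)
    show cLam c * PB c l0 h0 l1 h1 l2 h2 l3 h3 l4 h4 l5 h5 s1 s2 s3 +
      PT lam l0 h0 l1 h1 l2 h2 l3 h3 l4 h4 l5 h5 bs s1 s2 s3 ≤
        (cLam c + sumLam lam bs) * 2 ^ 36
    rw [add_mul]
    exact add_le_add (Nat.mul_le_mul_left _ q) (ih q2 s1 s2 s3)

/-- If all boxes are too small then the expected total is small. -/
lemma EE_PT (C : Ctx V ω1 ω2 ω3 l0 h0 l1 h1 l2 h2 l3 h3 l4 h4 l5 h5) (lam : ℕ) {t : ℝ}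
    (hlam : 1 ≤ lam → 1 ≤ t) :
    ∀ bs : List ℕ, allBx bs l0 h0 l1 h1 l2 h2 l3 h3 l4 h4 l5 h5 = true →
      (∀ c ∈ bs, ∏ j, bT V c j ≤ t) →
      EE ω1 ω2 ω3 (fun s1 s2 s3 =>
        (PT lam l0 h0 l1 h1 l2 h2 l3 h3 l4 h4 l5 h5 bs s1 s2 s3 : ℝ)) ≤
        64 ^ 3 * (sumLam lam bs * t) := by
  intro bs
  induction bs with
  | nil =>
    intro _ _
    show EE ω1 ω2 ω3 (fun _ _ _ => ((lam * 262144 : ℕ) : ℝ)) ≤ 64 ^ 3 * ((lam : ℝ) * t)
    rw [EE_const C.w1.one C.w2.one C.w3.one]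
    push_cast
    rcases Nat.eq_zero_or_pos lam with q0 | q0
    · rw [q0]; simp
    · have := hlam q0
      have q1 : (0 : ℝ) ≤ lam := Nat.cast_nonneg _
      nlinarith
  | cons c bs ih =>
    intro h hb
    obtain ⟨q1, q2⟩ := bAnd_true (a := bxOK c l0 h0 l1 h1 l2 h2 l3 h3 l4 h4 l5 h5)
      (b := allBx bs l0 h0 l1 h1 l2 h2 l3 h3 l4 h4 l5 h5) h
    obtain ⟨-, -, -, -, -, p⟩ := bxOK_sound C q1
    have ih' := ih q2 (fun c hc => hb c (List.mem_cons_of_mem _ hc))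
    have e : (fun s1 s2 s3 =>
        ((PT lam l0 h0 l1 h1 l2 h2 l3 h3 l4 h4 l5 h5 (c :: bs) s1 s2 s3 : ℕ) : ℝ)) =
        fun s1 s2 s3 => (cLam c : ℝ) * (PB c l0 h0 l1 h1 l2 h2 l3 h3 l4 h4 l5 h5 s1 s2 s3 : ℝ) +
          (PT lam l0 h0 l1 h1 l2 h2 l3 h3 l4 h4 l5 h5 bs s1 s2 s3 : ℝ) := by
      funext s1 s2 s3
      show ((cLam c * PB c l0 h0 l1 h1 l2 h2 l3 h3 l4 h4 l5 h5 s1 s2 s3 +
        PT lam l0 h0 l1 h1 l2 h2 l3 h3 l4 h4 l5 h5 bs s1 s2 s3 : ℕ) : ℝ) = _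
      push_cast
      rfl
    rw [e, EE_add, EE_smul]
    have e2 : ((sumLam lam (c :: bs) : ℕ) : ℝ) = (cLam c : ℝ) + (sumLam lam bs : ℝ) := by
      show ((cLam c + sumLam lam bs : ℕ) : ℝ) = _
      push_cast
      rfl
    rw [e2]
    have hc := hb c List.mem_cons_self
    have q0 : (0 : ℝ) ≤ cLam c := Nat.cast_nonneg _
    have q3 : (cLam c : ℝ) * EE ω1 ω2 ω3 (fun s1 s2 s3 =>
        (PB c l0 h0 l1 h1 l2 h2 l3 h3 l4 h4 l5 h5 s1 s2 s3 : ℝ)) ≤ cLam c * (64 ^ 3 * t) :=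
      mul_le_mul_of_nonneg_left (p.trans (mul_le_mul_of_nonneg_left hc (by norm_num))) q0
    linarith

end ctx

end Pool.Agent.Lib.MP_ddd95a_nt
end
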