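import Pool.Agent.Lib.MP_ddd95a_nt.TreeSound
import Pool.Agent.Lib.MP_ddd95a_nt.Local
import Pool.Agent.Lib.MP_ddd95a_nt.Cert.P00
import Pool.Agent.Lib.MP_ddd95a_nt.Cert.P01
import Pool.Agent.Lib.MP_ddd95a_nt.Cert.P02
import Pool.Agent.Lib.MP_ddd95a_nt.Cert.P03
import Pool.Agent.Lib.MP_ddd95a_nt.Cert.P04
import Pool.Agent.Lib.MP_ddd95a_nt.Cert.P05
import Pool.Agent.Lib.MP_ddd95a_nt.Cert.P06
import Pool.Agent.Lib.MP_ddd95a_nt.Cert.P07
import Pool.Agent.Lib.MP_ddd95a_nt.Cert.P08
import Pool.Agent.Lib.MP_ddd95a_nt.Cert.P09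
import Pool.Agent.Lib.MP_ddd95a_nt.Cert.P10
import Pool.Agent.Lib.MP_ddd95a_nt.Mg.G014
import Pool.Agent.Lib.MP_ddd95a_nt.Mg.G013
import Pool.Agent.Lib.MP_ddd95a_nt.Mg.G015
import Pool.Agent.Lib.MP_ddd95a_nt.Cert.P14
import Pool.Agent.Lib.MP_ddd95a_nt.Cert.P15

section

/-!
# The local leaf
-/

namespace Pool.Agent.Lib.MP_ddd95a_nt

open scoped BigOperators

/-- Codes of the twelve boxes. -/
def lcode : Fin 12 → ℕ :=
  ![2658455991647202998347693250118221826,
    18609191946636923649894835575965417474,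
    23926103924205856964725850381017481218,
    5316911983333091622835994009558777858,
    18609191941104879099418796506282524674,
    388134574769388863019051364767438667778,
    2658455991840631129403245091081093122,
    13292279957926529981494378096093110274,
    13292279963535945784587850025067020290,
    2658455991763259876947416241115693058,
    388134574774882221943381953058813452290,
    2658455991647202998266026061386948610]

/-- First face vectors. -/
def lW1 : Fin 12 → ℕ := ![149, 2, 2, 145, 145, 1, 2, 0, 145, 1, 4, 4]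
/-- Second face vectors. -/
def lW2 : Fin 12 → ℕ := ![1, 145, 1, 4, 2, 4, 6, 1, 146, 4, 146, 1]
/-- Third face vectors. -/
def lW3 : Fin 12 → ℕ := ![0, 6, 8, 1, 6, 145, 0, 4, 4, 0, 145, 0]

lemma lcode_ok (k : Fin 12) :
    bxOK (lcode k) 12 14 34 36 92 94 12 14 114 116 92 94 = true := by
  revert k
  decide +kernel

lemma lcode_W1 (k : Fin 12) : cW1 (lcode k) = [lW1 k] := by
  revert k
  decide +kernel
lemma lcode_W2 (k : Fin 12) : cW2 (lcode k) = [lW2 k] := by
  revert k
  decide +kernel
lemma lcode_W3 (k : Fin 12) : cW3 (lcode k) = [lW3 k] := by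
  revert k
  decide +kernel

lemma lcode_v1 (k : Fin 12) : vecF (cBase (lcode k)) (fv (lW1 k)) = lw k 0 := by
  revert k
  decide +kernel
lemma lcode_v2 (k : Fin 12) : vecF (cBase (lcode k)) (fv (lW2 k)) = lw k 1 := by
  revert k
  decide +kernel
lemma lcode_v3 (k : Fin 12) : vecF (cBase (lcode k)) (fv (lW3 k)) = lw k 2 := by
  revert k
  decide +kernel

lemma lcode_T (V : Matrix (Fin 3) (Fin 3) ℝ) (k : Fin 12) :
    ∏ j, bT V (lcode k) j = crd V (lw k 0) 0 * crd V (lw k 1) 1 * crd V (lw k 2) 2 := by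
  rw [Fin.prod_univ_three]
  have e0 : bT V (lcode k) 0 = crd V (lw k 0) 0 := by
    show sideT V (cBase (lcode k)) (cW1 (lcode k)) 0 = _
    rw [lcode_W1]
    show crd V (vecF (cBase (lcode k)) (fv (lW1 k))) 0 = _
    rw [lcode_v1]
  have e1 : bT V (lcode k) 1 = crd V (lw k 1) 1 := by
    show sideT V (cBase (lcode k)) (cW2 (lcode k)) 1 = _
    rw [lcode_W2]
    show crd V (vecF (cBase (lcode k)) (fv (lW2 k))) 1 = _
    rw [lcode_v2]
  have e2 : bT V (lcode k) 2 = crd V (lw k 2) 2 := by
    show sideT V (cBase (lcode k)) (cW3 (lcode k)) 2 = _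
    rw [lcode_W3]
    show crd V (vecF (cBase (lcode k)) (fv (lW3 k))) 2 = _
    rw [lcode_v3]
  rw [e0, e1, e2]

lemma kap_pos : 0 < kap := by
  have h := Upper.kap_eq
  have h1 := Upper.c_lo
  have : 0 < Upper.c * (2 + Upper.c) := by
    have : (0 : ℝ) < Upper.c := by linarith
    positivity
  linarith

theorem local_good {V : Matrix (Fin 3) (Fin 3) ℝ} (hV : Nrm V)
    (hc : InCell V 12 14 34 36 92 94 12 14 114 116 92 94) : Good kap V := by
  obtain ⟨ω1, w1⟩ := exists_wt hc.a0 hc.b0 hc.a1 hc.b1
  obtain ⟨ω2, w2⟩ := exists_wt hc.a2 hc.b2 hc.a3 hc.b3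
  obtain ⟨ω3, w3⟩ := exists_wt hc.a4 hc.b4 hc.a5 hc.b5
  have C : Ctx V ω1 ω2 ω3 12 14 34 36 92 94 12 14 114 116 92 94 := by
    refine ⟨hV, w1, w2, w3, ?_, ?_, ?_, ?_, ?_, ?_, ?_, ?_, ?_, ?_, ?_, ?_⟩ <;> norm_num
  have a0 := hc.a0; have b0 := hc.b0; have a1 := hc.a1; have b1 := hc.b1
  have a2 := hc.a2; have b2 := hc.b2; have a3 := hc.a3; have b3 := hc.b3
  have a4 := hc.a4; have b4 := hc.b4; have a5 := hc.a5; have b5 := hc.b5
  norm_num at a0 b0 a1 b1 a2 b2 a3 b3 a4 b4 a5 b5
  obtain ⟨k, hk⟩ := local_ineq (V := V) hV.diag (by linarith) (by linarith) (by linarith)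
    (by linarith) (by linarith) (by linarith) (by linarith) (by linarith) (by linarith)
    (by linarith) (by linarith) (by linarith)
  obtain ⟨q0, q1, -⟩ := bxOK_sound C (lcode_ok k)
  rw [← lcode_T] at hk
  have hdet : 0 < |V.det| := abs_pos.2 hV.det_ne
  have hpos : 0 < ∏ j, bT V (lcode k) j := lt_of_lt_of_le (mul_pos kap_pos hdet) hk
  have hT : ∀ j, 0 < bT V (lcode k) j := by
    intro j
    rcases eq_or_lt_of_le (q0 j) with h | h
    · exfalso
      rw [Finset.prod_eq_zero (Finset.mem_univ j) h.symm] at hpos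
      exact lt_irrefl _ hpos
    · exact h
  exact ⟨_, hT, q1 hT, hk⟩

end Pool.Agent.Lib.MP_ddd95a_nt
end

section

/-!
# Soundness of certificates
-/

namespace Pool.Agent.Lib.MP_ddd95a_nt

open scoped BigOperators

/-- The claim for a cell: every normalised matrix in the cell whose off-diagonal entries are
bounded by the entry `V 0 2` is good. -/
def Cov (l0 h0 l1 h1 l2 h2 l3 h3 l4 h4 l5 h5 : ℕ) : Prop :=
  ∀ V : Matrix (Fin 3) (Fin 3) ℝ, Nrm V → (∀ i j, i ≠ j → |V i j| ≤ V 0 2) →
    InCell V l0 h0 l1 h1 l2 h2 l3 h3 l4 h4 l5 h5 → Good kap V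

section cov

variable {l0 h0 l1 h1 l2 h2 l3 h3 l4 h4 l5 h5 : ℕ}

lemma cov0 (m : ℕ) (f : Cov l0 m l1 h1 l2 h2 l3 h3 l4 h4 l5 h5)
    (g : Cov m h0 l1 h1 l2 h2 l3 h3 l4 h4 l5 h5) : Cov l0 h0 l1 h1 l2 h2 l3 h3 l4 h4 l5 h5 := by
  intro V hV hs hc
  rcases le_total (64 * (V 1 0 + 1)) (m : ℝ) with h | h
  · exact f V hV hs { hc with b0 := h }
  · exact g V hV hs { hc with a0 := h }

lemma cov1 (m : ℕ) (f : Cov l0 h0 l1 m l2 h2 l3 h3 l4 h4 l5 h5)
    (g : Cov l0 h0 m h1 l2 h2 l3 h3 l4 h4 l5 h5) : Cov l0 h0 l1 h1 l2 h2 l3 h3 l4 h4 l5 h5 := by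
  intro V hV hs hc
  rcases le_total (64 * (V 2 0 + 1)) (m : ℝ) with h | h
  · exact f V hV hs { hc with b1 := h }
  · exact g V hV hs { hc with a1 := h }

lemma cov2 (m : ℕ) (f : Cov l0 h0 l1 h1 l2 m l3 h3 l4 h4 l5 h5)
    (g : Cov l0 h0 l1 h1 m h2 l3 h3 l4 h4 l5 h5) : Cov l0 h0 l1 h1 l2 h2 l3 h3 l4 h4 l5 h5 := by
  intro V hV hs hc
  rcases le_total (64 * (V 0 1 + 1)) (m : ℝ) with h | h
  · exact f V hV hs { hc with b2 := h }
  · exact g V hV hs { hc with a2 := h }

lemma cov3 (m : ℕ) (f : Cov l0 h0 l1 h1 l2 h2 l3 m l4 h4 l5 h5)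
    (g : Cov l0 h0 l1 h1 l2 h2 m h3 l4 h4 l5 h5) : Cov l0 h0 l1 h1 l2 h2 l3 h3 l4 h4 l5 h5 := by
  intro V hV hs hc
  rcases le_total (64 * (V 2 1 + 1)) (m : ℝ) with h | h
  · exact f V hV hs { hc with b3 := h }
  · exact g V hV hs { hc with a3 := h }

lemma cov4 (m : ℕ) (f : Cov l0 h0 l1 h1 l2 h2 l3 h3 l4 m l5 h5)
    (g : Cov l0 h0 l1 h1 l2 h2 l3 h3 m h4 l5 h5) : Cov l0 h0 l1 h1 l2 h2 l3 h3 l4 h4 l5 h5 := by
  intro V hV hs hc
  rcases le_total (64 * (V 0 2 + 1)) (m : ℝ) with h | h
  · exact f V hV hs { hc with b4 := h }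
  · exact g V hV hs { hc with a4 := h }

lemma cov5 (m : ℕ) (f : Cov l0 h0 l1 h1 l2 h2 l3 h3 l4 h4 l5 m)
    (g : Cov l0 h0 l1 h1 l2 h2 l3 h3 l4 h4 m h5) : Cov l0 h0 l1 h1 l2 h2 l3 h3 l4 h4 l5 h5 := by
  intro V hV hs hc
  rcases le_total (64 * (V 1 2 + 1)) (m : ℝ) with h | h
  · exact f V hV hs { hc with b5 := h }
  · exact g V hV hs { hc with a5 := h }

lemma syVar_sound {l h h4 : ℕ} (hh : syVar l h h4 = true) {x a3 : ℝ} (hl : (l : ℝ) ≤ 64 * (x + 1))
    (hu : 64 * (x + 1) ≤ h) (h4' : 64 * (a3 + 1) ≤ h4) (hx : |x| ≤ a3) : False := by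
  rcases bOr_true hh with h1 | h1
  · have h2 : h4 + 1 ≤ l := Nat.le_of_ble_eq_true h1
    have h3 : ((h4 : ℝ) + 1) ≤ l := by exact_mod_cast h2
    have := (abs_le.1 hx).2
    linarith
  · have h2 : (h + h4) + 1 ≤ 128 := Nat.le_of_ble_eq_true h1
    have h3 : ((h : ℝ) + h4) + 1 ≤ 128 := by exact_mod_cast h2
    have := (abs_le.1 hx).1
    linarith

lemma cov_sy (h : syChk l0 h0 l1 h1 l2 h2 l3 h3 h4 l5 h5 = true) :
    Cov l0 h0 l1 h1 l2 h2 l3 h3 l4 h4 l5 h5 := by
  intro V hV hs hc
  exfalso
  rcases bOr_true h with h | h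
  · exact syVar_sound h hc.a0 hc.b0 hc.b4 (hs 1 0 (by decide))
  rcases bOr_true h with h | h
  · exact syVar_sound h hc.a1 hc.b1 hc.b4 (hs 2 0 (by decide))
  rcases bOr_true h with h | h
  · exact syVar_sound h hc.a2 hc.b2 hc.b4 (hs 0 1 (by decide))
  rcases bOr_true h with h | h
  · exact syVar_sound h hc.a3 hc.b3 hc.b4 (hs 2 1 (by decide))
  · exact syVar_sound h hc.a5 hc.b5 hc.b4 (hs 1 2 (by decide))

lemma ctx_of {V : Matrix (Fin 3) (Fin 3) ℝ} (hV : Nrm V)
    (hc : InCell V l0 h0 l1 h1 l2 h2 l3 h3 l4 h4 l5 h5)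
    (a0 : l0 ≤ 128) (b0 : h0 ≤ 128) (a1 : l1 ≤ 128) (b1 : h1 ≤ 128) (a2 : l2 ≤ 128)
    (b2 : h2 ≤ 128) (a3 : l3 ≤ 128) (b3 : h3 ≤ 128) (a4 : l4 ≤ 128) (b4 : h4 ≤ 128)
    (a5 : l5 ≤ 128) (b5 : h5 ≤ 128) :
    ∃ ω1 ω2 ω3 : Fin 4 → ℝ, Ctx V ω1 ω2 ω3 l0 h0 l1 h1 l2 h2 l3 h3 l4 h4 l5 h5 := by
  obtain ⟨ω1, w1⟩ := exists_wt hc.a0 hc.b0 hc.a1 hc.b1
  obtain ⟨ω2, w2⟩ := exists_wt hc.a2 hc.b2 hc.a3 hc.b3
  obtain ⟨ω3, w3⟩ := exists_wt hc.a4 hc.b4 hc.a5 hc.b5
  exact ⟨ω1, ω2, ω3, hV, w1, w2, w3, a0, b0, a1, b1, a2, b2, a3, b3, a4, b4, a5, b5⟩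

lemma uni_id : uni idB = true := by decide +kernel

lemma fv_ne_zero : ∀ w < 145, fv w ≠ (0, 0, 0) := by decide +kernel

lemma cov_em {w : ℕ} (a0 : l0 ≤ 128) (b0 : h0 ≤ 128) (a1 : l1 ≤ 128) (b1 : h1 ≤ 128)
    (a2 : l2 ≤ 128) (b2 : h2 ≤ 128) (a3 : l3 ≤ 128) (b3 : h3 ≤ 128) (a4 : l4 ≤ 128)
    (b4 : h4 ≤ 128) (a5 : l5 ≤ 128) (b5 : h5 ≤ 128)
    (h : emChk w l0 h0 l1 h1 l2 h2 l3 h3 l4 h4 l5 h5 = true) :
    Cov l0 h0 l1 h1 l2 h2 l3 h3 l4 h4 l5 h5 := by
  intro V hV _ hc
  exfalso
  obtain ⟨ω1, ω2, ω3, C⟩ := ctx_of hV hc a0 b0 a1 b1 a2 b2 a3 b3 a4 b4 a5 b5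
  obtain ⟨q0, h⟩ := bAnd_true h
  obtain ⟨q1, h⟩ := bAnd_true h
  obtain ⟨q2, q3⟩ := bAnd_true h
  have hw : w < 145 := by
    have : w ≤ 144 := Nat.le_of_ble_eq_true q0
    omega
  rw [F1_eq _ C.l0 C.h0 C.l1 C.h1] at q1
  rw [F2_eq _ C.l2 C.h2 C.l3 C.h3] at q2
  rw [F3_eq _ C.l4 C.h4 C.l5 C.h5] at q3
  have d1 := cv_BX idB 1 2 0 C.l0 C.h0 C.l1 C.h1
  have d2 := cv_BX idB 0 2 1 C.l2 C.h2 C.l3 C.h3
  have d3 := cv_BX idB 0 1 2 C.l4 C.h4 C.l5 C.h5
  have c1 := colOK0 (C.nrm.diag 0) C.w1 idB
  have c2 := colOK1 (C.nrm.diag 1) C.w2 idB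
  have c3 := colOK2 (C.nrm.diag 2) C.w3 idB
  have r1 := c1.lt_one (inCol_spec d1 hw q1)
  have r2 := c2.lt_one (inCol_spec d2 hw q2)
  have r3 := c3.lt_one (inCol_spec d3 hw q3)
  obtain ⟨j, hj⟩ := hV.empty (vecF idB (fv w)) (uni_inj uni_id (fv_ne_zero w hw))
  change 1 ≤ |gc V idB j (fv w)| at hj
  fin_cases j
  · exact absurd r1 (not_lt.2 hj)
  · exact absurd r2 (not_lt.2 hj)
  · exact absurd r3 (not_lt.2 hj)

lemma cov_lc (h : lcChk l0 h0 l1 h1 l2 h2 l3 h3 l4 h4 l5 h5 = true) :
    Cov l0 h0 l1 h1 l2 h2 l3 h3 l4 h4 l5 h5 := by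
  intro V hV _ hc
  obtain ⟨h, h'⟩ := bAnd_true h
  obtain ⟨hA, h⟩ := bAnd_true h
  obtain ⟨hB, hC⟩ := bAnd_true h
  obtain ⟨hD, h'⟩ := bAnd_true h'
  obtain ⟨hE, hF⟩ := bAnd_true h'
  obtain ⟨p0, q0⟩ := bAnd_true hA
  obtain ⟨p1, q1⟩ := bAnd_true hB
  obtain ⟨p2, q2⟩ := bAnd_true hC
  obtain ⟨p3, q3⟩ := bAnd_true hD
  obtain ⟨p4, q4⟩ := bAnd_true hE
  obtain ⟨p5, q5⟩ := bAnd_true hF
  have c : ∀ {a b : ℕ}, Nat.ble a b = true → (a : ℝ) ≤ b := fun h => by
    exact_mod_cast Nat.le_of_ble_eq_true h
  exact local_good hV ⟨(c p0).trans hc.a0, hc.b0.trans (c q0), (c p1).trans hc.a1,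
    hc.b1.trans (c q1), (c p2).trans hc.a2, hc.b2.trans (c q2), (c p3).trans hc.a3,
    hc.b3.trans (c q3), (c p4).trans hc.a4, hc.b4.trans (c q4), (c p5).trans hc.a5,
    hc.b5.trans (c q5)⟩

lemma mid_le {l h : ℕ} (hl : l ≤ 128) (hh : h ≤ 128) : mid l h ≤ 128 := by
  have : mid l h = (l + h) / 2 := by
    unfold mid
    simp [Nat.shiftRight_eq_div_pow]
  omega

/-- **Soundness of the checker.** -/
theorem check_cov (c : Cert) : ∀ {l0 h0 l1 h1 l2 h2 l3 h3 l4 h4 l5 h5 : ℕ},
    l0 ≤ 128 → h0 ≤ 128 → l1 ≤ 128 → h1 ≤ 128 → l2 ≤ 128 → h2 ≤ 128 → l3 ≤ 128 → h3 ≤ 128 →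
    l4 ≤ 128 → h4 ≤ 128 → l5 ≤ 128 → h5 ≤ 128 →
    check c l0 h0 l1 h1 l2 h2 l3 h3 l4 h4 l5 h5 = true →
    Cov l0 h0 l1 h1 l2 h2 l3 h3 l4 h4 l5 h5 := by
  induction c with
  | s0 f g ihf ihg =>
    intro l0 h0 l1 h1 l2 h2 l3 h3 l4 h4 l5 h5 a0 b0 a1 b1 a2 b2 a3 b3 a4 b4 a5 b5 h
    obtain ⟨p, q⟩ := bAnd_true h
    exact cov0 (mid l0 h0) (ihf a0 (mid_le a0 b0) a1 b1 a2 b2 a3 b3 a4 b4 a5 b5 p)
      (ihg (mid_le a0 b0) b0 a1 b1 a2 b2 a3 b3 a4 b4 a5 b5 q)
  | s1 f g ihf ihg =>
    intro l0 h0 l1 h1 l2 h2 l3 h3 l4 h4 l5 h5 a0 b0 a1 b1 a2 b2 a3 b3 a4 b4 a5 b5 h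
    obtain ⟨p, q⟩ := bAnd_true h
    exact cov1 (mid l1 h1) (ihf a0 b0 a1 (mid_le a1 b1) a2 b2 a3 b3 a4 b4 a5 b5 p)
      (ihg a0 b0 (mid_le a1 b1) b1 a2 b2 a3 b3 a4 b4 a5 b5 q)
  | s2 f g ihf ihg =>
    intro l0 h0 l1 h1 l2 h2 l3 h3 l4 h4 l5 h5 a0 b0 a1 b1 a2 b2 a3 b3 a4 b4 a5 b5 h
    obtain ⟨p, q⟩ := bAnd_true h
    exact cov2 (mid l2 h2) (ihf a0 b0 a1 b1 a2 (mid_le a2 b2) a3 b3 a4 b4 a5 b5 p)
      (ihg a0 b0 a1 b1 (mid_le a2 b2) b2 a3 b3 a4 b4 a5 b5 q)
  | s3 f g ihf ihg =>
    intro l0 h0 l1 h1 l2 h2 l3 h3 l4 h4 l5 h5 a0 b0 a1 b1 a2 b2 a3 b3 a4 b4 a5 b5 h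
    obtain ⟨p, q⟩ := bAnd_true h
    exact cov3 (mid l3 h3) (ihf a0 b0 a1 b1 a2 b2 a3 (mid_le a3 b3) a4 b4 a5 b5 p)
      (ihg a0 b0 a1 b1 a2 b2 (mid_le a3 b3) b3 a4 b4 a5 b5 q)
  | s4 f g ihf ihg =>
    intro l0 h0 l1 h1 l2 h2 l3 h3 l4 h4 l5 h5 a0 b0 a1 b1 a2 b2 a3 b3 a4 b4 a5 b5 h
    obtain ⟨p, q⟩ := bAnd_true h
    exact cov4 (mid l4 h4) (ihf a0 b0 a1 b1 a2 b2 a3 b3 a4 (mid_le a4 b4) a5 b5 p)
      (ihg a0 b0 a1 b1 a2 b2 a3 b3 (mid_le a4 b4) b4 a5 b5 q)
  | s5 f g ihf ihg =>
    intro l0 h0 l1 h1 l2 h2 l3 h3 l4 h4 l5 h5 a0 b0 a1 b1 a2 b2 a3 b3 a4 b4 a5 b5 h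
    obtain ⟨p, q⟩ := bAnd_true h
    exact cov5 (mid l5 h5) (ihf a0 b0 a1 b1 a2 b2 a3 b3 a4 b4 a5 (mid_le a5 b5) p)
      (ihg a0 b0 a1 b1 a2 b2 a3 b3 a4 b4 (mid_le a5 b5) b5 q)
  | sy =>
    intro l0 h0 l1 h1 l2 h2 l3 h3 l4 h4 l5 h5 _ _ _ _ _ _ _ _ _ _ _ _ h
    exact cov_sy h
  | em w =>
    intro l0 h0 l1 h1 l2 h2 l3 h3 l4 h4 l5 h5 a0 b0 a1 b1 a2 b2 a3 b3 a4 b4 a5 b5 h
    exact cov_em a0 b0 a1 b1 a2 b2 a3 b3 a4 b4 a5 b5 h
  | b c =>
    intro l0 h0 l1 h1 l2 h2 l3 h3 l4 h4 l5 h5 a0 b0 a1 b1 a2 b2 a3 b3 a4 b4 a5 b5 h V hV _ hc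
    obtain ⟨ω1, ω2, ω3, C⟩ := ctx_of hV hc a0 b0 a1 b1 a2 b2 a3 b3 a4 b4 a5 b5
    exact leaf1_good C h
  | m lam bs =>
    intro l0 h0 l1 h1 l2 h2 l3 h3 l4 h4 l5 h5 a0 b0 a1 b1 a2 b2 a3 b3 a4 b4 a5 b5 h V hV _ hc
    obtain ⟨ω1, ω2, ω3, C⟩ := ctx_of hV hc a0 b0 a1 b1 a2 b2 a3 b3 a4 b4 a5 b5
    exact leafM_good C h
  | lc =>
    intro l0 h0 l1 h1 l2 h2 l3 h3 l4 h4 l5 h5 _ _ _ _ _ _ _ _ _ _ _ _ h
    exact cov_lc h

end cov

theorem cov_of_check (c : Cert) {l0 h0 l1 h1 l2 h2 l3 h3 l4 h4 l5 h5 : ℕ}
    (h : bAnd (bdsOK l0 h0 l1 h1 l2 h2 l3 h3 l4 h4 l5 h5)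
      (check c l0 h0 l1 h1 l2 h2 l3 h3 l4 h4 l5 h5) = true) :
    Cov l0 h0 l1 h1 l2 h2 l3 h3 l4 h4 l5 h5 := by
  obtain ⟨hb, h⟩ := bAnd_true h
  obtain ⟨a0, hb⟩ := bAnd_true hb
  obtain ⟨b0, hb⟩ := bAnd_true hb
  obtain ⟨a1, hb⟩ := bAnd_true hb
  obtain ⟨b1, hb⟩ := bAnd_true hb
  obtain ⟨a2, hb⟩ := bAnd_true hb
  obtain ⟨b2, hb⟩ := bAnd_true hb
  obtain ⟨a3, hb⟩ := bAnd_true hb
  obtain ⟨b3, hb⟩ := bAnd_true hb
  obtain ⟨a4, hb⟩ := bAnd_true hb
  obtain ⟨b4, hb⟩ := bAnd_true hb
  obtain ⟨a5, b5⟩ := bAnd_true hb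
  exact check_cov c (Nat.le_of_ble_eq_true a0) (Nat.le_of_ble_eq_true b0)
    (Nat.le_of_ble_eq_true a1) (Nat.le_of_ble_eq_true b1) (Nat.le_of_ble_eq_true a2)
    (Nat.le_of_ble_eq_true b2) (Nat.le_of_ble_eq_true a3) (Nat.le_of_ble_eq_true b3)
    (Nat.le_of_ble_eq_true a4) (Nat.le_of_ble_eq_true b4) (Nat.le_of_ble_eq_true a5)
    (Nat.le_of_ble_eq_true b5) h

end Pool.Agent.Lib.MP_ddd95a_nt
end

section

/-!
# The whole cell is covered
-/

namespace Pool.Agent.Lib.MP_ddd95a_nt

theorem r0 : Cov 0 32 0 64 64 128 0 32 64 128 0 32 :=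
  (cov4 96
   (cov_of_check cc0 tt0)
   (cov3 16
    (cov2 96
     (cov0 16
      (cov_of_check cc1 tt1)
      (cov_of_check cc2 tt2))
     (cov_of_check cc3 tt3))
    (cov0 16
     (cov2 96
      (cov_of_check cc4 tt4)
      (cov_of_check cc5 tt5))
     (cov4 112
      (cov2 96
       (cov_of_check cc6 tt6)
       (cov_of_check cc7 tt7))
      (cov2 96
       (cov2 80
        (cov_of_check cc8 tt8)
        (cov_of_check cc9 tt9))
       (cov2 112
        (cov_of_check cc10 tt10)
        (cov_of_check cc11 tt11)))))))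

theorem r1 : Cov 0 32 0 64 64 128 32 64 64 128 16 32 :=
  (cov1 32
   (cov0 16
    (cov4 96
     (cov_of_check cc13 tt13)
     (cov3 48
      (cov_of_check cc14 tt14)
      (cov_of_check cc15 tt15)))
    (cov1 16
     (cov_of_check cc16 tt16)
     (cov3 48
      (cov4 96
       (cov_of_check cc17 tt17)
       (cov2 96
        (cov0 24
         (cov_of_check cc18 tt18)
         (cov_of_check cc19 tt19))
        (cov_of_check cc20 tt20)))
      (cov_of_check cc21 tt21))))
   (cov4 96
    (cov_of_check cc22 tt22)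
    (cov3 48
     (cov2 96
      (cov_of_check cc23 tt23)
      (cov_of_check cc24 tt24))
     (cov_of_check cc25 tt25))))

theorem r2 : Cov 0 32 0 64 80 96 0 64 64 128 32 64 :=
  (cov0 16
   (cov4 96
    (cov_of_check cc33 tt33)
    (cov1 32
     (cov3 32
      (cov_of_check cc34 tt34)
      (cov_of_check cc35 tt35))
     (cov1 48
      (cov4 112
       (cov_of_check cc36 tt36)
       (cov_of_check cc37 tt37))
      (cov_of_check cc38 tt38))))
   (cov5 48
    (cov3 32
     (cov3 16
      (cov_of_check cc39 tt39)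
      (cov_of_check cc40 tt40))
     (cov3 48
      (cov1 32
       (cov_of_check cc41 tt41)
       (cov_of_check cc42 tt42))
      (cov_of_check cc43 tt43)))
    (cov4 96
     (cov_of_check cc44 tt44)
     (cov3 32
      (cov_of_check cc45 tt45)
      (cov1 32
       (cov_of_check cc46 tt46)
       (cov_of_check cc47 tt47))))))

theorem r3 : Cov 0 32 0 64 64 128 0 64 64 128 32 64 :=
  (cov2 96
   (cov2 80
    (cov3 32
     (cov3 16
      (cov_of_check cc26 tt26)
      (cov5 48
       (cov_of_check cc27 tt27)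
       (cov_of_check cc28 tt28)))
     (cov3 48
      (cov5 48
       (cov1 32
        (cov_of_check cc29 tt29)
        (cov_of_check cc30 tt30))
       (cov_of_check cc31 tt31))
      (cov_of_check cc32 tt32)))
    r2)
   (cov2 112
    (cov1 32
     (cov0 16
      (cov_of_check cc48 tt48)
      (cov1 16
       (cov_of_check cc49 tt49)
       (cov5 48
        (cov_of_check cc50 tt50)
        (cov4 96
         (cov_of_check cc51 tt51)
         (cov_of_check cc52 tt52)))))
     (cov3 32
      (cov_of_check cc53 tt53)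
      (cov_of_check cc54 tt54)))
    (cov4 96
     (cov_of_check cc55 tt55)
     (cov4 112
      (cov_of_check cc56 tt56)
      (cov1 32
       (cov_of_check cc57 tt57)
       (cov_of_check cc58 tt58))))))

theorem r4 : Cov 32 64 0 32 64 96 0 64 64 128 0 64 :=
  (cov5 32
   (cov4 96
    (cov_of_check cc59 tt59)
    (cov2 80
     (cov3 32
      (cov_of_check cc60 tt60)
      (cov_of_check cc61 tt61))
     (cov1 16
      (cov_of_check cc62 tt62)
      (cov4 112
       (cov_of_check cc63 tt63)
       (cov5 16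
        (cov_of_check cc64 tt64)
        (cov0 48
         (cov3 32
          (cov_of_check cc65 tt65)
          (cov_of_check cc66 tt66))
         (cov_of_check cc67 tt67)))))))
   (cov5 48
    (cov2 80
     (cov_of_check cc68 tt68)
     (cov3 32
      (cov_of_check cc69 tt69)
      (cov_of_check cc70 tt70)))
    (cov_of_check cc71 tt71)))

theorem r5 : Cov 32 64 0 32 64 128 0 64 64 128 0 64 :=
  (cov2 96
   r4
   (cov5 32
    (cov5 16
     (cov_of_check cc72 tt72)
     (cov4 96
      (cov_of_check cc73 tt73)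
      (cov4 112
       (cov2 112
        (cov_of_check cc74 tt74)
        (cov_of_check cc75 tt75))
       (cov3 32
        (cov_of_check cc76 tt76)
        (cov_of_check cc77 tt77)))))
    (cov5 48
     (cov4 96
      (cov_of_check cc78 tt78)
      (cov4 112
       (cov_of_check cc79 tt79)
       (cov3 32
        (cov_of_check cc80 tt80)
        (cov_of_check cc81 tt81))))
     (cov_of_check cc82 tt82))))

theorem r6 : Cov 0 64 16 32 64 80 0 64 64 128 64 128 :=
  (cov3 32
   (cov4 96
    (cov_of_check cc90 tt90)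
    (cov5 96
     (cov0 32
      (cov3 16
       (cov_of_check cc91 tt91)
       (cov4 112
        (cov_of_check cc92 tt92)
        (cov_of_check cc93 tt93)))
      (cov3 16
       (cov_of_check cc94 tt94)
       (cov_of_check cc95 tt95)))
     (cov3 16
      (cov_of_check cc96 tt96)
      (cov0 32
       (cov_of_check cc97 tt97)
       (cov4 112
        (cov_of_check cc98 tt98)
        (cov_of_check cc99 tt99))))))
   (cov0 32
    (cov4 96
     (cov_of_check cc100 tt100)
     (cov4 112
      (cov5 96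
       (cov3 48
        (cov4 104
         (cov_of_check cc101 tt101)
         (cov_of_check cc102 tt102))
        (cov_of_check cc103 tt103))
       (cov_of_check cc104 tt104))
      (cov_of_check cc105 tt105)))
    (cov4 96
     (cov_of_check cc106 tt106)
     (cov4 112
      (cov_of_check cc107 tt107)
      (cov_of_check cc108 tt108)))))

theorem r7 : Cov 0 64 16 32 80 96 0 64 96 128 64 128 :=
  (cov0 32
   (cov5 96
    (cov3 32
     (cov3 16
      (cov_of_check cc110 tt110)
      (cov4 112
       (cov_of_check cc111 tt111)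
       (cov_of_check cc112 tt112)))
     (cov4 112
      (cov_of_check cc113 tt113)
      (cov_of_check cc114 tt114)))
    (cov4 112
     (cov_of_check cc115 tt115)
     (cov5 112
      (cov3 32
       (cov_of_check cc116 tt116)
       (cov_of_check cc117 tt117))
      (cov_of_check cc118 tt118))))
   (cov0 48
    (cov5 96
     (cov4 112
      (cov5 80
       (cov_of_check cc119 tt119)
       (cov_of_check cc120 tt120))
      (cov5 80
       (cov_of_check cc121 tt121)
       (cov_of_check cc122 tt122)))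
     (cov_of_check cc123 tt123))
    (cov4 112
     (cov5 96
      (cov_of_check cc124 tt124)
      (cov_of_check cc125 tt125))
     (cov5 96
      (cov3 32
       (cov5 80
        (cov_of_check cc126 tt126)
        (cov_of_check cc127 tt127))
       (cov_of_check cc128 tt128))
      (cov_of_check cc129 tt129)))))

theorem r8 : Cov 0 64 16 32 96 112 0 64 64 128 64 96 :=
  (cov0 32
   (cov3 32
    (cov4 96
     (cov_of_check cc135 tt135)
     (cov4 112
      (cov_of_check cc136 tt136)
      (cov_of_check cc137 tt137)))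
    (cov4 96
     (cov_of_check cc138 tt138)
     (cov5 80
      (cov4 112
       (cov3 48
        (cov_of_check cc139 tt139)
        (cov_of_check cc140 tt140))
       (cov_of_check cc141 tt141))
      (cov5 88
       (cov_of_check cc142 tt142)
       (cov_of_check cc143 tt143)))))
   (cov0 48
    (cov5 80
     (cov4 96
      (cov_of_check cc144 tt144)
      (cov3 32
       (cov_of_check cc145 tt145)
       (cov_of_check cc146 tt146)))
     (cov3 32
      (cov_of_check cc147 tt147)
      (cov_of_check cc148 tt148)))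
    (cov3 32
     (cov3 16
      (cov_of_check cc149 tt149)
      (cov_of_check cc150 tt150))
     (cov_of_check cc151 tt151))))

theorem r9 : Cov 0 64 0 32 96 112 0 64 64 128 64 128 :=
  (cov1 16
   (cov4 96
    (cov_of_check cc130 tt130)
    (cov0 32
     (cov_of_check cc131 tt131)
     (cov5 96
      (cov_of_check cc132 tt132)
      (cov0 48
       (cov_of_check cc133 tt133)
       (cov_of_check cc134 tt134)))))
   (cov5 96
    r8
    (cov4 96
     (cov_of_check cc152 tt152)
     (cov5 112
      (cov0 32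
       (cov3 32
        (cov_of_check cc153 tt153)
        (cov_of_check cc154 tt154))
       (cov3 32
        (cov_of_check cc155 tt155)
        (cov_of_check cc156 tt156)))
      (cov_of_check cc157 tt157)))))

theorem r10 : Cov 0 64 0 32 112 128 0 64 64 128 64 128 :=
  (cov4 96
   (cov_of_check cc158 tt158)
   (cov3 32
    (cov1 16
     (cov0 32
      (cov_of_check cc159 tt159)
      (cov_of_check cc160 tt160))
     (cov0 32
      (cov_of_check cc161 tt161)
      (cov0 48
       (cov4 112
        (cov_of_check cc162 tt162)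
        (cov_of_check cc163 tt163))
       (cov_of_check cc164 tt164))))
    (cov3 48
     (cov0 32
      (cov_of_check cc165 tt165)
      (cov0 48
       (cov_of_check cc166 tt166)
       (cov_of_check cc167 tt167)))
     (cov0 32
      (cov_of_check cc168 tt168)
      (cov_of_check cc169 tt169)))))

theorem r11 : Cov 0 64 32 48 64 96 0 32 96 128 64 96 :=
  (cov2 80
   (cov3 16
    (cov_of_check cc171 tt171)
    (cov4 112
     (cov_of_check cc172 tt172)
     (cov0 32
      (cov_of_check cc173 tt173)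
      (cov_of_check cc174 tt174))))
   (cov4 112
    (cov0 32
     (cov3 16
      (cov_of_check cc175 tt175)
      (cov_of_check cc176 tt176))
     (cov_of_check cc177 tt177))
    (cov5 80
     (cov_of_check cc178 tt178)
     (cov3 16
      (cov0 32
       (cov4 120
        (cov2 88
         (cov_of_check cc179 tt179)
         (cov_of_check cc180 tt180))
        (cov_of_check cc181 tt181))
       (cov_of_check cc182 tt182))
      (cov0 32
       (cov_of_check cc183 tt183)
       (cov_of_check cc184 tt184))))))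

theorem r12 : Cov 0 64 32 48 64 96 0 64 64 128 64 96 :=
  (cov3 32
   (cov4 96
    (cov_of_check cc170 tt170)
    r11)
   (cov2 80
    (cov5 80
     (cov_of_check cc185 tt185)
     (cov0 32
      (cov3 48
       (cov4 96
        (cov_of_check cc186 tt186)
        (cov4 112
         (cov_of_check cc187 tt187)
         (cov_of_check cc188 tt188)))
       (cov_of_check cc189 tt189))
      (cov_of_check cc190 tt190)))
    (cov3 48
     (cov5 80
      (cov_of_check cc191 tt191)
      (cov4 96
       (cov_of_check cc192 tt192)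
       (cov4 112
        (cov_of_check cc193 tt193)
        (cov_of_check cc194 tt194))))
     (cov_of_check cc195 tt195))))

theorem r13 : Cov 0 64 48 64 64 96 0 64 64 128 64 96 :=
  (cov2 80
   (cov5 80
    (cov_of_check cc196 tt196)
    (cov0 32
     (cov4 96
      (cov_of_check cc197 tt197)
      (cov3 32
       (cov_of_check cc198 tt198)
       (cov_of_check cc199 tt199)))
     (cov0 48
      (cov4 96
       (cov_of_check cc200 tt200)
       (cov4 112
        (cov_of_check cc201 tt201)
        (cov_of_check cc202 tt202)))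
      (cov_of_check cc203 tt203))))
   (cov4 96
    (cov_of_check cc204 tt204)
    (cov0 32
     (cov3 32
      (cov_of_check cc205 tt205)
      (cov0 16
       (cov_of_check cc206 tt206)
       (cov_of_check cc207 tt207)))
     (cov0 48
      (cov5 80
       (cov_of_check cc208 tt208)
       (cov3 32
        (cov3 16
         (cov_of_check cc209 tt209)
         (cov_of_check cc210 tt210))
        (cov_of_check cc211 tt211)))
      (cov_of_check cc212 tt212)))))

theorem r14 : Cov 0 32 32 64 96 128 0 64 64 128 80 96 :=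
  (cov3 32
   (cov0 16
    (cov4 96
     (cov_of_check cc216 tt216)
     (cov3 16
      (cov_of_check cc217 tt217)
      (cov_of_check cc218 tt218)))
    (cov1 48
     (cov2 112
      (cov4 96
       (cov_of_check cc219 tt219)
       (cov5 88
        (cov_of_check cc220 tt220)
        (cov_of_check cc221 tt221)))
      (cov_of_check cc222 tt222))
     (cov_of_check cc223 tt223)))
   (cov4 96
    (cov_of_check cc224 tt224)
    (cov2 112
     (cov4 112
      (cov4 104
       (cov_of_check cc225 tt225)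
       (cov_of_check cc226 tt226))
      (cov5 88
       (cov_of_check cc227 tt227)
       (cov_of_check cc228 tt228)))
     (cov_of_check cc229 tt229))))

theorem r15 : Cov 32 64 32 64 96 128 0 64 64 128 64 96 :=
  (cov2 112
   (cov1 48
    (cov5 80
     (cov3 32
      (cov0 48
       (cov_of_check cc230 tt230)
       (cov_of_check cc231 tt231))
      (cov_of_check cc232 tt232))
     (cov0 48
      (cov3 32
       (cov_of_check cc233 tt233)
       (cov_of_check cc234 tt234))
      (cov_of_check cc235 tt235)))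
    (cov5 80
     (cov_of_check cc236 tt236)
     (cov4 96
      (cov_of_check cc237 tt237)
      (cov_of_check cc238 tt238))))
   (cov4 96
    (cov_of_check cc239 tt239)
    (cov0 48
     (cov_of_check cc240 tt240)
     (cov_of_check cc241 tt241))))

theorem r16 : Cov 0 64 32 48 64 96 0 64 96 128 96 112 :=
  (cov0 32
   (cov0 16
    (cov2 80
     (cov_of_check cc243 tt243)
     (cov4 112
      (cov_of_check cc244 tt244)
      (cov3 32
       (cov_of_check cc245 tt245)
       (cov_of_check cc246 tt246))))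
    (cov3 32
     (cov3 16
      (cov_of_check cc247 tt247)
      (cov_of_check cc248 tt248))
     (cov3 48
      (cov3 40
       (cov_of_check cc249 tt249)
       (cov_of_check cc250 tt250))
      (cov_of_check cc251 tt251))))
   (cov3 32
    (cov2 80
     (cov_of_check cc252 tt252)
     (cov_of_check cc253 tt253))
    (cov_of_check cc254 tt254)))

theorem r17 : Cov 0 64 48 64 64 128 0 64 64 128 96 112 :=
  (cov0 32
   (cov3 32
    (cov2 96
     (cov4 96
      (cov_of_check cc264 tt264)
      (cov0 16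
       (cov_of_check cc265 tt265)
       (cov3 16
        (cov_of_check cc266 tt266)
        (cov_of_check cc267 tt267))))
     (cov_of_check cc268 tt268))
    (cov2 96
     (cov0 16
      (cov_of_check cc269 tt269)
      (cov_of_check cc270 tt270))
     (cov4 96
      (cov_of_check cc271 tt271)
      (cov0 16
       (cov_of_check cc272 tt272)
       (cov_of_check cc273 tt273)))))
   (cov4 96
    (cov_of_check cc274 tt274)
    (cov3 32
     (cov3 16
      (cov_of_check cc275 tt275)
      (cov2 96
       (cov0 48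
        (cov3 24
         (cov_of_check cc276 tt276)
         (cov1 56
          (cov_of_check cc277 tt277)
          (cov_of_check cc278 tt278)))
        (cov_of_check cc279 tt279))
       (cov_of_check cc280 tt280)))
     (cov4 112
      (cov_of_check cc281 tt281)
      (cov_of_check cc282 tt282)))))

theorem r18 : Cov 0 64 32 64 64 128 0 64 64 128 96 112 :=
  (cov1 48
   (cov2 96
    (cov4 96
     (cov_of_check cc242 tt242)
     r16)
    (cov3 32
     (cov2 112
      (cov4 96
       (cov_of_check cc255 tt255)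
       (cov0 32
        (cov0 16
         (cov_of_check cc256 tt256)
         (cov_of_check cc257 tt257))
        (cov_of_check cc258 tt258)))
      (cov_of_check cc259 tt259))
     (cov4 96
      (cov_of_check cc260 tt260)
      (cov0 32
       (cov0 16
        (cov_of_check cc261 tt261)
        (cov_of_check cc262 tt262))
       (cov_of_check cc263 tt263)))))
   r17)

theorem r19 : Cov 0 64 32 64 64 128 0 64 64 128 64 128 :=
  (cov5 96
   (cov2 96
    (cov1 48
     r12
     r13)
    (cov0 32
     (cov5 80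
      (cov0 16
       (cov_of_check cc213 tt213)
       (cov1 48
        (cov_of_check cc214 tt214)
        (cov_of_check cc215 tt215)))
      r14)
     r15))
   (cov5 112
    r18
    (cov4 96
     (cov_of_check cc283 tt283)
     (cov3 32
      (cov2 96
       (cov_of_check cc284 tt284)
       (cov_of_check cc285 tt285))
      (cov3 48
       (cov2 96
        (cov_of_check cc286 tt286)
        (cov_of_check cc287 tt287))
       (cov_of_check cc288 tt288))))))

theorem r20 : Cov 0 64 0 64 64 128 0 64 64 128 0 128 :=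
  (cov5 64
   (cov0 32
    (cov5 32
     (cov3 32
      r0
      (cov5 16
       (cov_of_check cc12 tt12)
       r1))
     r3)
    (cov1 32
     r5
     (cov2 96
      (cov_of_check cc83 tt83)
      (cov_of_check cc84 tt84))))
   (cov1 32
    (cov2 96
     (cov1 16
      (cov4 96
       (cov_of_check cc85 tt85)
       (cov5 96
        (cov0 32
         (cov_of_check cc86 tt86)
         (cov_of_check cc87 tt87))
        (cov5 112
         (cov_of_check cc88 tt88)
         (cov_of_check cc89 tt89))))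
      (cov2 80
       r6
       (cov4 96
        (cov_of_check cc109 tt109)
        r7)))
     (cov2 112
      r9
      r10))
    r19))

theorem r21 : Cov 0 64 0 64 96 128 64 80 96 112 0 64 :=
  (cov1 32
   (cov0 32
    (cov0 16
     (cov_of_check cc299 tt299)
     (cov5 32
      (cov_of_check cc300 tt300)
      (cov2 112
       (cov5 48
        (cov_of_check cc301 tt301)
        (cov_of_check cc302 tt302))
       (cov_of_check cc303 tt303))))
    (cov5 32
     (cov_of_check cc304 tt304)
     (cov_of_check cc305 tt305)))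
   (cov0 32
    (cov5 32
     (cov2 112
      (cov_of_check cc306 tt306)
      (cov_of_check cc307 tt307))
     (cov_of_check cc308 tt308))
    (cov2 112
     (cov_of_check cc309 tt309)
     (cov_of_check cc310 tt310))))

theorem r22 : Cov 0 64 0 64 64 128 80 96 96 112 0 64 :=
  (cov0 32
   (cov1 32
    (cov0 16
     (cov_of_check cc311 tt311)
     (cov5 32
      (cov_of_check cc312 tt312)
      (cov2 96
       (cov_of_check cc313 tt313)
       (cov3 88
        (cov_of_check cc314 tt314)
        (cov_of_check cc315 tt315)))))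
    (cov5 32
     (cov2 96
      (cov_of_check cc316 tt316)
      (cov_of_check cc317 tt317))
     (cov0 16
      (cov_of_check cc318 tt318)
      (cov_of_check cc319 tt319))))
   (cov5 32
    (cov2 96
     (cov1 32
      (cov_of_check cc320 tt320)
      (cov_of_check cc321 tt321))
     (cov2 112
      (cov1 32
       (cov_of_check cc322 tt322)
       (cov_of_check cc323 tt323))
      (cov_of_check cc324 tt324)))
    (cov5 48
     (cov1 32
      (cov1 16
       (cov_of_check cc325 tt325)
       (cov0 48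
        (cov_of_check cc326 tt326)
        (cov_of_check cc327 tt327)))
      (cov_of_check cc328 tt328))
     (cov_of_check cc329 tt329))))

theorem r23 : Cov 0 64 0 64 64 128 64 96 112 128 0 64 :=
  (cov1 32
   (cov0 32
    (cov0 16
     (cov_of_check cc330 tt330)
     (cov5 32
      (cov_of_check cc331 tt331)
      (cov_of_check cc332 tt332)))
    (cov5 32
     (cov0 48
      (cov_of_check cc333 tt333)
      (cov_of_check cc334 tt334))
     (cov_of_check cc335 tt335)))
   (cov1 48
    (cov0 32
     (cov0 16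
      (cov_of_check cc336 tt336)
      (cov5 32
       (cov5 16
        (cov_of_check cc337 tt337)
        (cov3 80
         (cov_of_check cc338 tt338)
         (cov_of_check cc339 tt339)))
       (cov_of_check cc340 tt340)))
     (cov2 96
      (cov_of_check cc341 tt341)
      (cov_of_check cc342 tt342)))
    (cov5 32
     (cov5 16
      (cov_of_check cc343 tt343)
      (cov_of_check cc344 tt344))
     (cov_of_check cc345 tt345))))

theorem r24 : Cov 0 64 0 64 64 128 64 96 64 128 0 64 :=
  (cov4 96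
   (cov0 32
    (cov_of_check cc289 tt289)
    (cov_of_check cc290 tt290))
   (cov4 112
    (cov3 80
     (cov2 96
      (cov5 32
       (cov1 32
        (cov1 16
         (cov_of_check cc291 tt291)
         (cov0 32
          (cov_of_check cc292 tt292)
          (cov2 80
           (cov_of_check cc293 tt293)
           (cov1 24
            (cov_of_check cc294 tt294)
            (cov_of_check cc295 tt295)))))
        (cov_of_check cc296 tt296))
       (cov1 32
        (cov_of_check cc297 tt297)
        (cov_of_check cc298 tt298)))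
      r21)
     r22)
    r23))

theorem r25 : Cov 16 32 0 64 64 128 96 112 64 128 0 64 :=
  (cov2 96
   (cov2 80
    (cov4 96
     (cov_of_check cc353 tt353)
     (cov1 32
      (cov5 32
       (cov_of_check cc354 tt354)
       (cov_of_check cc355 tt355))
      (cov_of_check cc356 tt356)))
    (cov4 96
     (cov_of_check cc357 tt357)
     (cov4 112
      (cov5 32
       (cov_of_check cc358 tt358)
       (cov_of_check cc359 tt359))
      (cov5 32
       (cov_of_check cc360 tt360)
       (cov5 48
        (cov_of_check cc361 tt361)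
        (cov_of_check cc362 tt362))))))
   (cov1 32
    (cov4 96
     (cov_of_check cc363 tt363)
     (cov2 112
      (cov_of_check cc364 tt364)
      (cov_of_check cc365 tt365)))
    (cov5 32
     (cov5 16
      (cov_of_check cc366 tt366)
      (cov_of_check cc367 tt367))
     (cov_of_check cc368 tt368))))

theorem r26 : Cov 48 64 0 64 64 128 96 112 64 128 0 64 :=
  (cov1 32
   (cov5 32
    (cov4 96
     (cov_of_check cc383 tt383)
     (cov1 16
      (cov_of_check cc384 tt384)
      (cov2 96
       (cov5 16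
        (cov_of_check cc385 tt385)
        (cov2 80
         (cov_of_check cc386 tt386)
         (cov_of_check cc387 tt387)))
       (cov_of_check cc388 tt388))))
    (cov4 96
     (cov_of_check cc389 tt389)
     (cov2 96
      (cov1 16
       (cov_of_check cc390 tt390)
       (cov_of_check cc391 tt391))
      (cov_of_check cc392 tt392))))
   (cov2 96
    (cov5 32
     (cov5 16
      (cov_of_check cc393 tt393)
      (cov_of_check cc394 tt394))
     (cov_of_check cc395 tt395))
    (cov5 32
     (cov_of_check cc396 tt396)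
     (cov_of_check cc397 tt397))))

theorem r27 : Cov 32 64 0 64 64 128 96 112 64 128 0 64 :=
  (cov0 48
   (cov4 96
    (cov_of_check cc372 tt372)
    (cov5 32
     (cov4 112
      (cov2 96
       (cov1 32
        (cov_of_check cc373 tt373)
        (cov_of_check cc374 tt374))
       (cov_of_check cc375 tt375))
      (cov2 96
       (cov_of_check cc376 tt376)
       (cov_of_check cc377 tt377)))
     (cov2 96
      (cov2 80
       (cov_of_check cc378 tt378)
       (cov_of_check cc379 tt379))
      (cov1 32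
       (cov1 16
        (cov_of_check cc380 tt380)
        (cov_of_check cc381 tt381))
       (cov_of_check cc382 tt382)))))
   r26)

theorem r28 : Cov 0 64 0 64 64 128 96 128 64 128 0 64 :=
  (cov0 32
   (cov0 16
    (cov4 96
     (cov_of_check cc346 tt346)
     (cov5 32
      (cov3 112
       (cov2 96
        (cov_of_check cc347 tt347)
        (cov_of_check cc348 tt348))
       (cov_of_check cc349 tt349))
      (cov2 96
       (cov_of_check cc350 tt350)
       (cov4 112
        (cov_of_check cc351 tt351)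
        (cov_of_check cc352 tt352)))))
    (cov3 112
     r25
     (cov2 96
      (cov2 80
       (cov_of_check cc369 tt369)
       (cov_of_check cc370 tt370))
      (cov_of_check cc371 tt371))))
   (cov3 112
    r27
    (cov4 96
     (cov_of_check cc398 tt398)
     (cov5 32
      (cov4 112
       (cov_of_check cc399 tt399)
       (cov_of_check cc400 tt400))
      (cov5 48
       (cov4 112
        (cov_of_check cc401 tt401)
        (cov_of_check cc402 tt402))
       (cov_of_check cc403 tt403))))))

theorem r29 : Cov 0 64 0 64 64 128 0 128 64 128 0 128 :=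
  (cov3 64
   r20
   (cov5 64
    (cov3 96
     r24
     r28)
    (cov0 32
     (cov1 32
      (cov2 96
       (cov_of_check cc404 tt404)
       (cov3 96
        (cov4 96
         (cov_of_check cc405 tt405)
         (cov1 16
          (cov_of_check cc406 tt406)
          (cov_of_check cc407 tt407)))
        (cov_of_check cc408 tt408)))
      (cov_of_check cc409 tt409))
     (cov1 32
      (cov2 96
       (cov_of_check cc410 tt410)
       (cov_of_check cc411 tt411))
      (cov_of_check cc412 tt412)))))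

theorem r30 : Cov 0 32 64 128 64 128 16 32 64 128 64 128 :=
  (cov5 96
   (cov5 80
    (cov4 96
     (cov_of_check cc420 tt420)
     (cov4 112
      (cov_of_check cc421 tt421)
      (cov_of_check cc422 tt422)))
    (cov0 16
     (cov4 96
      (cov_of_check cc423 tt423)
      (cov1 96
       (cov_of_check cc424 tt424)
       (cov_of_check cc425 tt425)))
     (cov4 96
      (cov_of_check cc426 tt426)
      (cov1 96
       (cov_of_check cc427 tt427)
       (cov_of_check cc428 tt428)))))
   (cov4 96
    (cov_of_check cc429 tt429)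
    (cov5 112
     (cov1 96
      (cov0 16
       (cov_of_check cc430 tt430)
       (cov4 112
        (cov_of_check cc431 tt431)
        (cov_of_check cc432 tt432)))
      (cov1 112
       (cov_of_check cc433 tt433)
       (cov_of_check cc434 tt434)))
     (cov_of_check cc435 tt435))))

theorem r31 : Cov 0 32 64 128 64 128 0 64 64 128 64 128 :=
  (cov3 32
   (cov3 16
    (cov4 96
     (cov_of_check cc414 tt414)
     (cov2 96
      (cov4 112
       (cov_of_check cc415 tt415)
       (cov_of_check cc416 tt416))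
      (cov2 112
       (cov4 112
        (cov_of_check cc417 tt417)
        (cov_of_check cc418 tt418))
       (cov_of_check cc419 tt419))))
    r30)
   (cov1 96
    (cov2 96
     (cov_of_check cc436 tt436)
     (cov5 96
      (cov_of_check cc437 tt437)
      (cov_of_check cc438 tt438)))
    (cov2 96
     (cov_of_check cc439 tt439)
     (cov5 96
      (cov5 80
       (cov_of_check cc440 tt440)
       (cov4 96
        (cov_of_check cc441 tt441)
        (cov5 88
         (cov_of_check cc442 tt442)
         (cov_of_check cc443 tt443))))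
      (cov0 16
       (cov_of_check cc444 tt444)
       (cov_of_check cc445 tt445))))))

theorem r32 : Cov 32 48 64 128 64 128 0 64 96 128 64 128 :=
  (cov5 96
   (cov1 96
    (cov2 96
     (cov_of_check cc447 tt447)
     (cov_of_check cc448 tt448))
    (cov_of_check cc449 tt449))
   (cov1 96
    (cov4 112
     (cov5 112
      (cov3 32
       (cov3 16
        (cov_of_check cc450 tt450)
        (cov2 96
         (cov_of_check cc451 tt451)
         (cov_of_check cc452 tt452)))
       (cov_of_check cc453 tt453))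
      (cov_of_check cc454 tt454))
     (cov5 112
      (cov_of_check cc455 tt455)
      (cov_of_check cc456 tt456)))
    (cov4 112
     (cov_of_check cc457 tt457)
     (cov_of_check cc458 tt458))))

theorem r33 : Cov 0 64 0 128 64 128 0 128 64 128 0 128 :=
  (cov1 64
   r29
   (cov3 64
    (cov5 64
     (cov_of_check cc413 tt413)
     (cov0 32
      r31
      (cov0 48
       (cov4 96
        (cov_of_check cc446 tt446)
        r32)
       (cov1 96
        (cov3 32
         (cov2 96
          (cov_of_check cc459 tt459)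
          (cov_of_check cc460 tt460))
         (cov_of_check cc461 tt461))
        (cov_of_check cc462 tt462)))))
    (cov5 64
     (cov0 32
      (cov_of_check cc463 tt463)
      (cov_of_check cc464 tt464))
     (cov_of_check cc465 tt465))))

theorem r34 : Cov 64 128 0 64 64 128 0 64 64 128 0 128 :=
  (cov5 64
   (cov0 96
    (cov_of_check cc466 tt466)
    (cov_of_check cc467 tt467))
   (cov0 96
    (cov1 32
     (cov2 96
      (cov3 32
       (cov4 96
        (cov_of_check cc468 tt468)
        (cov5 96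
         (cov_of_check cc469 tt469)
         (cov0 80
          (cov_of_check cc470 tt470)
          (cov_of_check cc471 tt471))))
       (cov_of_check cc472 tt472))
      (cov_of_check cc473 tt473))
     (cov2 96
      (cov3 32
       (cov_of_check cc474 tt474)
       (cov_of_check cc475 tt475))
      (cov_of_check cc476 tt476)))
    (cov_of_check cc477 tt477)))

theorem r35 : Cov 64 96 0 64 64 128 96 112 96 128 0 32 :=
  (cov5 16
   (cov_of_check cc488 tt488)
   (cov0 80
    (cov2 96
     (cov4 112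
      (cov1 32
       (cov4 104
        (cov_of_check cc489 tt489)
        (cov_of_check cc490 tt490))
       (cov_of_check cc491 tt491))
      (cov_of_check cc492 tt492))
     (cov_of_check cc493 tt493))
    (cov2 96
     (cov4 112
      (cov1 32
       (cov_of_check cc494 tt494)
       (cov_of_check cc495 tt495))
      (cov1 32
       (cov_of_check cc496 tt496)
       (cov_of_check cc497 tt497)))
     (cov4 112
      (cov_of_check cc498 tt498)
      (cov_of_check cc499 tt499)))))

theorem r36 : Cov 64 96 0 64 64 128 64 128 64 128 0 32 :=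
  (cov3 96
   (cov3 80
    (cov2 96
     (cov_of_check cc478 tt478)
     (cov2 112
      (cov_of_check cc479 tt479)
      (cov_of_check cc480 tt480)))
    (cov5 16
     (cov4 96
      (cov_of_check cc481 tt481)
      (cov2 96
       (cov_of_check cc482 tt482)
       (cov_of_check cc483 tt483)))
     (cov0 80
      (cov_of_check cc484 tt484)
      (cov2 96
       (cov_of_check cc485 tt485)
       (cov_of_check cc486 tt486)))))
   (cov3 112
    (cov4 96
     (cov_of_check cc487 tt487)
     r35)
    (cov4 96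
     (cov_of_check cc500 tt500)
     (cov1 32
      (cov1 16
       (cov_of_check cc501 tt501)
       (cov_of_check cc502 tt502))
      (cov5 16
       (cov_of_check cc503 tt503)
       (cov1 48
        (cov_of_check cc504 tt504)
        (cov_of_check cc505 tt505)))))))

theorem r37 : Cov 64 96 0 64 64 128 64 128 64 128 32 64 :=
  (cov1 32
   (cov2 96
    (cov4 96
     (cov_of_check cc506 tt506)
     (cov0 80
      (cov_of_check cc507 tt507)
      (cov1 16
       (cov_of_check cc508 tt508)
       (cov_of_check cc509 tt509))))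
    (cov4 96
     (cov_of_check cc510 tt510)
     (cov0 80
      (cov_of_check cc511 tt511)
      (cov3 96
       (cov_of_check cc512 tt512)
       (cov_of_check cc513 tt513)))))
   (cov2 96
    (cov4 96
     (cov_of_check cc514 tt514)
     (cov1 48
      (cov0 80
       (cov_of_check cc515 tt515)
       (cov_of_check cc516 tt516))
      (cov_of_check cc517 tt517)))
    (cov4 96
     (cov_of_check cc518 tt518)
     (cov2 112
      (cov_of_check cc519 tt519)
      (cov_of_check cc520 tt520)))))

theorem r38 : Cov 96 112 0 64 80 96 64 128 64 128 0 64 :=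
  (cov1 32
   (cov1 16
    (cov4 96
     (cov_of_check cc529 tt529)
     (cov5 32
      (cov_of_check cc530 tt530)
      (cov_of_check cc531 tt531)))
    (cov5 32
     (cov4 96
      (cov_of_check cc532 tt532)
      (cov3 96
       (cov2 88
        (cov_of_check cc533 tt533)
        (cov_of_check cc534 tt534))
       (cov_of_check cc535 tt535)))
     (cov_of_check cc536 tt536)))
   (cov3 96
    (cov_of_check cc537 tt537)
    (cov4 96
     (cov_of_check cc538 tt538)
     (cov5 32
      (cov4 112
       (cov_of_check cc539 tt539)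
       (cov_of_check cc540 tt540))
      (cov_of_check cc541 tt541)))))

theorem r39 : Cov 96 128 0 64 64 96 64 128 64 128 0 64 :=
  (cov0 112
   (cov2 80
    (cov3 96
     (cov3 80
      (cov_of_check cc521 tt521)
      (cov4 96
       (cov_of_check cc522 tt522)
       (cov1 32
        (cov_of_check cc523 tt523)
        (cov_of_check cc524 tt524))))
     (cov1 32
      (cov_of_check cc525 tt525)
      (cov4 96
       (cov_of_check cc526 tt526)
       (cov5 32
        (cov_of_check cc527 tt527)
        (cov_of_check cc528 tt528)))))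
    r38)
   (cov4 96
    (cov_of_check cc542 tt542)
    (cov1 32
     (cov5 32
      (cov_of_check cc543 tt543)
      (cov1 16
       (cov_of_check cc544 tt544)
       (cov_of_check cc545 tt545)))
     (cov2 80
      (cov_of_check cc546 tt546)
      (cov_of_check cc547 tt547)))))

theorem r40 : Cov 96 128 0 32 96 128 64 128 64 128 0 64 :=
  (cov1 16
   (cov4 96
    (cov_of_check cc548 tt548)
    (cov4 112
     (cov_of_check cc549 tt549)
     (cov3 96
      (cov3 80
       (cov_of_check cc550 tt550)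
       (cov2 112
        (cov_of_check cc551 tt551)
        (cov_of_check cc552 tt552)))
      (cov_of_check cc553 tt553))))
   (cov3 96
    (cov4 96
     (cov_of_check cc554 tt554)
     (cov5 32
      (cov0 112
       (cov3 80
        (cov_of_check cc555 tt555)
        (cov4 112
         (cov_of_check cc556 tt556)
         (cov_of_check cc557 tt557)))
       (cov_of_check cc558 tt558))
      (cov_of_check cc559 tt559)))
    (cov4 96
     (cov_of_check cc560 tt560)
     (cov4 112
      (cov_of_check cc561 tt561)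
      (cov_of_check cc562 tt562)))))

theorem r41 : Cov 64 128 0 64 64 128 64 128 64 128 0 64 :=
  (cov0 96
   (cov5 32
    r36
    r37)
   (cov2 96
    r39
    (cov1 32
     r40
     (cov3 96
      (cov_of_check cc563 tt563)
      (cov3 112
       (cov4 96
        (cov_of_check cc564 tt564)
        (cov2 112
         (cov1 48
          (cov_of_check cc565 tt565)
          (cov_of_check cc566 tt566))
         (cov_of_check cc567 tt567)))
       (cov4 96
        (cov_of_check cc568 tt568)
        (cov1 48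
         (cov5 32
          (cov_of_check cc569 tt569)
          (cov_of_check cc570 tt570))
         (cov_of_check cc571 tt571))))))))

theorem r42 : Cov 64 128 0 128 64 128 0 128 64 128 0 128 :=
  (cov1 64
   (cov3 64
    r34
    (cov5 64
     r41
     (cov0 96
      (cov_of_check cc572 tt572)
      (cov1 32
       (cov_of_check cc573 tt573)
       (cov_of_check cc574 tt574)))))
   (cov3 64
    (cov5 64
     (cov0 96
      (cov_of_check cc575 tt575)
      (cov1 96
       (cov_of_check cc576 tt576)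
       (cov_of_check cc577 tt577)))
     (cov_of_check cc578 tt578))
    (cov5 64
     (cov0 96
      (cov_of_check cc579 tt579)
      (cov_of_check cc580 tt580))
     (cov_of_check cc581 tt581))))

theorem r43 : Cov 0 128 0 128 64 128 0 128 64 128 0 128 :=
  (cov0 64
   r33
   r42)

theorem root_cov : Cov 0 128 0 128 64 128 0 128 64 128 0 128 := r43

end Pool.Agent.Lib.MP_ddd95a_nt
end
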